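import Pool.Agent.Lib.MP_1e8d1a_an.NH.AtlDefs

/-! rows AT0 and AT2 -/

open scoped ContDiff Manifold Topology

set_option linter.unusedSectionVars false

namespace Pool.Agent.SC

variable {E : Type} [NormedAddCommGroup E] [NormedSpace ℝ E] [FiniteDimensional ℝ E]
  {H : Type} [TopologicalSpace H] {I : ModelWithCorners ℝ E H} [I.Boundaryless]
  {W : Type} [TopologicalSpace W] [ChartedSpace H W] [IsManifold I ∞ W] [T2Space W]
  [CompactSpace W] {ι : Type} [Fintype ι] (f : SmoothBumpCovering ι I W)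

/-- AT0 -/
theorem at_E : ContMDiff I 𝓘(ℝ, ι → E × ℝ) ∞ (atE f) ∧ Function.Injective (atE f) := by
  constructor
  · exact contMDiff_pi_space.2 fun i =>
      ((f i).contMDiff_smul contMDiffOn_extChartAt).prodMk_space (f i).contMDiff
  · intro x y h
    have h0 := congrFun h (f.ind x (Set.mem_univ x))
    obtain ⟨h₁, h₂⟩ := Prod.mk_inj.1 h0
    rw [f.apply_ind x (Set.mem_univ x)] at h₂
    rw [← h₂, f.apply_ind x (Set.mem_univ x), one_smul, one_smul] at h₁
    have := f.mem_extChartAt_source_of_eq_one h₂.symm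
    exact (extChartAt I (f.c _)).injOn (f.mem_extChartAt_ind_source x (Set.mem_univ x)) this h₁

theorem at_AT2_bd : ∃ B : ℝ, 0 ≤ B ∧ ∀ i, ∀ x ∈ Function.support (f i),
    ‖extChartAt I (f.c i) x‖ ≤ B := by
  have h1 : ∀ i, ∃ B : ℝ, ∀ x ∈ tsupport (f i), ‖extChartAt I (f.c i) x‖ ≤ B := by
    intro i
    have hc : IsCompact (tsupport (f i)) := (isClosed_tsupport _).isCompact
    have hcont : ContinuousOn (extChartAt I (f.c i)) (tsupport (f i)) :=
      (continuousOn_extChartAt (f.c i)).mono (f i).tsupport_subset_extChartAt_source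
    exact hc.exists_bound_of_continuousOn hcont
  choose B hB using h1
  refine ⟨∑ i, |B i|, Finset.sum_nonneg fun i _ => abs_nonneg _, fun i x hx => ?_⟩
  exact (hB i x (subset_tsupport _ hx)).trans ((le_abs_self _).trans
    (Finset.single_le_sum (f := fun j => |B j|) (fun j _ => abs_nonneg _) (Finset.mem_univ i)))

/-- AT2 -/
theorem at_L : ∃ δ > 0, ∃ K : ℝ, ∀ y x : W,
    ‖atE f x - atE f y‖ ≤ δ →
    ‖atL f y x‖ ≤ K * ‖atE f x - atE f y‖ ∧
      atH f (y, atL f y x) = x := by
  obtain ⟨B, hB0, hB⟩ := at_AT2_bd f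
  refine ⟨1 / 2, by norm_num, 1 + B, fun y x hxy => ?_⟩
  obtain ⟨i, hi⟩ : ∃ i, i = f.ind y (Set.mem_univ y) := ⟨_, rfl⟩
  have hc : atC f y = f.c i := by rw [hi]; rfl
  have hy1 : f i y = 1 := by
    rw [hi]
    exact f.apply_ind y (Set.mem_univ y)
  have hcomp : ‖(atE f x - atE f y) i‖ ≤ ‖atE f x - atE f y‖ := norm_le_pi_norm _ i
  have h2 : ‖f i x - f i y‖ ≤ ‖atE f x - atE f y‖ :=
    (norm_snd_le ((atE f x - atE f y) i)).trans hcomp
  have h1 : ‖f i x • extChartAt I (f.c i) x - f i y • extChartAt I (f.c i) y‖ ≤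
      ‖atE f x - atE f y‖ := (norm_fst_le ((atE f x - atE f y) i)).trans hcomp
  rw [hy1] at h2
  rw [hy1, one_smul] at h1
  have hx0 : f i x ≠ 0 := by
    intro h0
    rw [h0, zero_sub, norm_neg, norm_one] at h2
    linarith
  have hsup : x ∈ Function.support (f i) := hx0
  have hsrc : x ∈ (extChartAt I (f.c i)).source :=
    (f i).tsupport_subset_extChartAt_source (subset_tsupport _ hsup)
  constructor
  · unfold atL
    rw [hc]
    have e : extChartAt I (f.c i) x - extChartAt I (f.c i) y =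
        (f i x • extChartAt I (f.c i) x - extChartAt I (f.c i) y) -
          (f i x - 1) • extChartAt I (f.c i) x := by
      rw [sub_smul, one_smul]
      abel
    rw [e]
    refine (norm_sub_le _ _).trans ?_
    rw [norm_smul]
    have h3 : ‖f i x - 1‖ * ‖extChartAt I (f.c i) x‖ ≤ ‖atE f x - atE f y‖ * B :=
      mul_le_mul h2 (hB i x hsup) (norm_nonneg _) (norm_nonneg _)
    linarith
  · unfold atH atL
    dsimp only
    rw [hc, add_sub_cancel, (extChartAt I (f.c i)).left_inv hsrc]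

end Pool.Agent.SC
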