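import Pool.Agent.Lib.MP_1e8d1a_an.NH.AtlDefs

/-! Piece AT3: the parametrisation by local coordinates is uniformly Lipschitz. -/

open scoped ContDiff Manifold Topology

namespace Pool.Agent.SC

variable {E : Type} [NormedAddCommGroup E] [NormedSpace ℝ E] [FiniteDimensional ℝ E]
  {H : Type} [TopologicalSpace H] {I : ModelWithCorners ℝ E H} [I.Boundaryless]
  {W : Type} [TopologicalSpace W] [ChartedSpace H W] [IsManifold I ∞ W] [T2Space W]
  [CompactSpace W] {ι : Type} [Fintype ι] (f : SmoothBumpCovering ι I W)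

omit [I.Boundaryless] [CompactSpace W] in
theorem at_AT3_smooth : ContMDiff I 𝓘(ℝ, ι → E × ℝ) ∞ (atE f) :=
  contMDiff_pi_space.2 fun i =>
    ((f i).contMDiff_smul contMDiffOn_extChartAt).prodMk_space (f i).contMDiff

theorem at_AT3_one (i : ι) : ∃ δ > 0, ∃ K : ℝ, 0 ≤ K ∧ ∀ (y : W) (v v' : E), f i y = 1 →
    ‖v‖ ≤ δ → ‖v'‖ ≤ δ →
    ‖atE f ((extChartAt I (f.c i)).symm (extChartAt I (f.c i) y + v)) -
      atE f ((extChartAt I (f.c i)).symm (extChartAt I (f.c i) y + v'))‖ ≤ K * ‖v - v'‖ := by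
  have hproper : ProperSpace E := FiniteDimensional.proper_real E
  have hopen : IsOpen (extChartAt I (f.c i)).target := isOpen_extChartAt_target _
  have hC : IsCompact {x : W | f i x = 1} :=
    (isClosed_eq (f i).continuous continuous_const).isCompact
  have hsrc : {x : W | f i x = 1} ⊆ (extChartAt I (f.c i)).source := by
    intro x hx
    have h1 : x ∈ Function.support (f i) := by
      rw [Function.mem_support, show f i x = 1 from hx]
      exact one_ne_zero
    rw [extChartAt_source]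
    exact (f i).support_subset_source h1
  have hK : IsCompact (extChartAt I (f.c i) '' {x : W | f i x = 1}) :=
    hC.image_of_continuousOn ((continuousOn_extChartAt _).mono hsrc)
  have hKt : extChartAt I (f.c i) '' {x : W | f i x = 1} ⊆ (extChartAt I (f.c i)).target := by
    rintro _ ⟨x, hx, rfl⟩
    exact (extChartAt I (f.c i)).map_source (hsrc hx)
  obtain ⟨δ, hδ, hsub⟩ := hK.exists_cthickening_subset_open hopen hKt
  have hF : ContDiffOn ℝ ∞ (atE f ∘ (extChartAt I (f.c i)).symm)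
      (extChartAt I (f.c i)).target := by
    rw [← contMDiffOn_iff_contDiffOn]
    exact (at_AT3_smooth f).comp_contMDiffOn (contMDiffOn_extChartAt_symm (f.c i))
  have hdc : ContinuousOn (fderiv ℝ (atE f ∘ (extChartAt I (f.c i)).symm))
      (extChartAt I (f.c i)).target := hF.continuousOn_fderiv_of_isOpen hopen (by simp)
  have hD : IsCompact (Metric.cthickening δ (extChartAt I (f.c i) '' {x : W | f i x = 1})) :=
    hK.cthickening
  obtain ⟨K, hKb⟩ := hD.exists_bound_of_continuousOn (hdc.mono hsub)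
  refine ⟨δ, hδ, max K 0, le_max_right _ _, ?_⟩
  intro y v v' hy hv hv'
  have hyK : extChartAt I (f.c i) y ∈ extChartAt I (f.c i) '' {x : W | f i x = 1} := ⟨y, hy, rfl⟩
  have hball : Metric.closedBall (extChartAt I (f.c i) y) δ ⊆
      Metric.cthickening δ (extChartAt I (f.c i) '' {x : W | f i x = 1}) :=
    Metric.closedBall_subset_cthickening hyK δ
  have hmem : ∀ u : E, ‖u‖ ≤ δ →
      extChartAt I (f.c i) y + u ∈ Metric.closedBall (extChartAt I (f.c i) y) δ := by
    intro u hu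
    rw [Metric.mem_closedBall, dist_eq_norm, add_sub_cancel_left]
    exact hu
  have h1 := (convex_closedBall (extChartAt I (f.c i) y) δ).norm_image_sub_le_of_norm_fderiv_le
    (𝕜 := ℝ) (f := atE f ∘ (extChartAt I (f.c i)).symm) (C := max K 0)
    (fun x hx => ((hF x (hsub (hball hx))).contDiffAt
      (hopen.mem_nhds (hsub (hball hx)))).differentiableAt (by simp))
    (fun x hx => (hKb x (hball hx)).trans (le_max_left _ _)) (hmem v' hv') (hmem v hv)
  have h2 : extChartAt I (f.c i) y + v - (extChartAt I (f.c i) y + v') = v - v' := by abel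
  rw [h2] at h1
  exact h1

/-- AT3 -/
theorem at_H : ∃ ρ > 0, ∃ K : ℝ, ∀ (y : W) (v v' : E), ‖v‖ ≤ ρ → ‖v'‖ ≤ ρ →
    ‖atE f (atH f (y, v)) - atE f (atH f (y, v'))‖ ≤
      K * ‖v - v'‖ := by
  choose δ hδ K hK0 hK using at_AT3_one f
  have hs : 0 ≤ ∑ i, (δ i)⁻¹ := Finset.sum_nonneg fun i _ => (inv_pos.2 (hδ i)).le
  refine ⟨(∑ i, (δ i)⁻¹ + 1)⁻¹, by positivity, ∑ i, K i, ?_⟩
  intro y v v' hv hv'
  have hle : ∀ i, (∑ i, (δ i)⁻¹ + 1)⁻¹ ≤ δ i := by
    intro i
    rw [inv_le_comm₀ (by positivity) (hδ i)]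
    have h1 : (δ i)⁻¹ ≤ ∑ i, (δ i)⁻¹ :=
      Finset.single_le_sum (fun i _ => (inv_pos.2 (hδ i)).le) (Finset.mem_univ i)
    linarith
  have h1 := hK (f.ind y (Set.mem_univ y)) y v v' (f.apply_ind y (Set.mem_univ y))
    (hv.trans (hle _)) (hv'.trans (hle _))
  refine le_trans h1 (mul_le_mul_of_nonneg_right ?_ (norm_nonneg _))
  exact Finset.single_le_sum (fun i _ => hK0 i) (Finset.mem_univ _)

end Pool.Agent.SC
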