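import Pool.Agent.Lib.MP_1e8d1a_an.NH.AtlDefs

/-! Uniform charts of a compact manifold: a map in the charts. -/

open scoped ContDiff Manifold Topology

namespace Pool.Agent.SC

section analysis

variable {E : Type} [NormedAddCommGroup E] [NormedSpace ℝ E]

/-- cutting off a Lipschitz map on a ball -/
theorem at_AT4_cut {R : E → E} {ρ κ : ℝ} (hρ : 0 < ρ) (hκ : 0 ≤ κ) (h0 : R 0 = 0)
    (hR : ∀ v v', ‖v‖ ≤ 2 * ρ → ‖v'‖ ≤ 2 * ρ → ‖R v - R v'‖ ≤ κ * ‖v - v'‖) :
    (∀ v, ‖v‖ ≤ ρ → (max 0 (min 1 (2 - ‖v‖ / ρ))) • R v = R v) ∧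
    ∀ v v', ‖(max 0 (min 1 (2 - ‖v‖ / ρ))) • R v - (max 0 (min 1 (2 - ‖v'‖ / ρ))) • R v'‖ ≤
      3 * κ * ‖v - v'‖ := by
  -- the cutoff function
  have hχ1 : ∀ v : E, max 0 (min 1 (2 - ‖v‖ / ρ)) ≤ 1 := fun v =>
    max_le zero_le_one (min_le_left _ _)
  have hχ0 : ∀ v : E, 0 ≤ max 0 (min 1 (2 - ‖v‖ / ρ)) := fun v => le_max_left _ _
  have hχL : ∀ v v' : E, |max 0 (min 1 (2 - ‖v‖ / ρ)) - max 0 (min 1 (2 - ‖v'‖ / ρ))| ≤
      ‖v - v'‖ / ρ := by
    intro v v'
    have h1 : |max 0 (min 1 (2 - ‖v‖ / ρ)) - max 0 (min 1 (2 - ‖v'‖ / ρ))| ≤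
        |min 1 (2 - ‖v‖ / ρ) - min 1 (2 - ‖v'‖ / ρ)| := by
      have := abs_max_sub_max_le_max (0 : ℝ) (min 1 (2 - ‖v‖ / ρ)) 0 (min 1 (2 - ‖v'‖ / ρ))
      rw [sub_self, abs_zero] at this
      exact this.trans (max_le (abs_nonneg _) le_rfl)
    have h2 : |min 1 (2 - ‖v‖ / ρ) - min 1 (2 - ‖v'‖ / ρ)| ≤
        |(2 - ‖v‖ / ρ) - (2 - ‖v'‖ / ρ)| := by
      have := abs_min_sub_min_le_max (1 : ℝ) (2 - ‖v‖ / ρ) 1 (2 - ‖v'‖ / ρ)
      rw [sub_self, abs_zero] at this
      exact this.trans (max_le (abs_nonneg _) le_rfl)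
    have h3 : |(2 - ‖v‖ / ρ) - (2 - ‖v'‖ / ρ)| = |‖v'‖ - ‖v‖| / ρ := by
      rw [show (2 - ‖v‖ / ρ) - (2 - ‖v'‖ / ρ) = (‖v'‖ - ‖v‖) / ρ by ring, abs_div, abs_of_pos hρ]
    have h4 : |‖v'‖ - ‖v‖| ≤ ‖v - v'‖ := by
      rw [norm_sub_rev]
      exact abs_norm_sub_norm_le v' v
    calc _ ≤ _ := h1
      _ ≤ _ := h2
      _ = _ := h3
      _ ≤ _ := by gcongr
  have hout : ∀ v : E, 2 * ρ ≤ ‖v‖ → max 0 (min 1 (2 - ‖v‖ / ρ)) = 0 := by
    intro v hv
    have : 2 ≤ ‖v‖ / ρ := by rw [le_div_iff₀ hρ]; exact hv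
    exact max_eq_left ((min_le_right _ _).trans (by linarith))
  have hRb : ∀ v, ‖v‖ ≤ 2 * ρ → ‖R v‖ ≤ κ * (2 * ρ) := by
    intro v hv
    have := hR v 0 hv (by rw [norm_zero]; positivity)
    rw [h0, sub_zero, sub_zero] at this
    exact this.trans (by gcongr)
  refine ⟨fun v hv => ?_, fun v v' => ?_⟩
  · have h1 : ‖v‖ / ρ ≤ 1 := by rw [div_le_one hρ]; exact hv
    rw [min_eq_left (by linarith), max_eq_right zero_le_one, one_smul]
  · -- a point inside, a point outside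
    have key : ∀ v v' : E, ‖v‖ ≤ 2 * ρ → 2 * ρ ≤ ‖v'‖ →
        ‖(max 0 (min 1 (2 - ‖v‖ / ρ))) • R v‖ ≤ 3 * κ * ‖v - v'‖ := by
      intro v v' hv hv'
      have h1 := hχL v v'
      rw [hout v' hv', sub_zero, abs_of_nonneg (hχ0 v)] at h1
      rw [norm_smul, Real.norm_eq_abs, abs_of_nonneg (hχ0 v)]
      calc _ ≤ ‖v - v'‖ / ρ * (κ * (2 * ρ)) := by
            gcongr
            exact hRb v hv
        _ = 2 * κ * ‖v - v'‖ := by field_simp
        _ ≤ 3 * κ * ‖v - v'‖ := by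
            have : 0 ≤ κ * ‖v - v'‖ := by positivity
            linarith
    rcases le_total ‖v‖ (2 * ρ) with hv | hv
    · rcases le_total ‖v'‖ (2 * ρ) with hv' | hv'
      · have e : (max 0 (min 1 (2 - ‖v‖ / ρ))) • R v - (max 0 (min 1 (2 - ‖v'‖ / ρ))) • R v' =
            (max 0 (min 1 (2 - ‖v‖ / ρ)) - max 0 (min 1 (2 - ‖v'‖ / ρ))) • R v +
              (max 0 (min 1 (2 - ‖v'‖ / ρ))) • (R v - R v') := by
          rw [sub_smul, smul_sub]; abel
        rw [e]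
        refine (norm_add_le _ _).trans ?_
        rw [norm_smul, norm_smul, Real.norm_eq_abs, Real.norm_eq_abs, abs_of_nonneg (hχ0 v')]
        calc _ ≤ ‖v - v'‖ / ρ * (κ * (2 * ρ)) + 1 * (κ * ‖v - v'‖) := by
              gcongr
              · exact hχL v v'
              · exact hRb v hv
              · exact hχ1 v'
              · exact hR v v' hv hv'
          _ = 3 * κ * ‖v - v'‖ := by field_simp; ring
      · rw [hout v' hv', zero_smul, sub_zero]
        exact key v v' hv hv'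
    · rcases le_total ‖v'‖ (2 * ρ) with hv' | hv'
      · rw [hout v hv, zero_smul, zero_sub, norm_neg, norm_sub_rev v v']
        exact key v' v hv' hv
      · rw [hout v hv, hout v' hv', zero_smul, zero_smul, sub_zero, norm_zero]
        positivity

/-- uniform differentiability of a `C^1` map on a compact set -/
theorem at_AT4_unif [FiniteDimensional ℝ E] {O K : Set E} (hO : IsOpen O) (hK : IsCompact K)
    (hKO : K ⊆ O) {g : E → E} (hg : ContDiffOn ℝ 1 g O) {κ : ℝ} (hκ : 0 < κ) :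
    ∃ ρ > 0, ∃ M : ℝ, ∀ p ∈ K, ‖fderiv ℝ g p‖ ≤ M ∧ (∀ v, ‖v‖ ≤ ρ → p + v ∈ O) ∧
      ∀ v v', ‖v‖ ≤ ρ → ‖v'‖ ≤ ρ →
        ‖(g (p + v) - g p - fderiv ℝ g p v) - (g (p + v') - g p - fderiv ℝ g p v')‖ ≤
          κ * ‖v - v'‖ := by
  obtain ⟨δ, hδ, hδO⟩ := hK.exists_cthickening_subset_open hO hKO
  have hcomp : IsCompact (Metric.cthickening δ K) := by
    have : ProperSpace E := FiniteDimensional.proper_real E
    exact hK.cthickening
  have hcont : ContinuousOn (fderiv ℝ g) O := hg.continuousOn_fderiv_of_isOpen hO le_rfl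
  have hunif := hcomp.uniformContinuousOn_of_continuous (hcont.mono hδO)
  rw [Metric.uniformContinuousOn_iff] at hunif
  obtain ⟨r, hr, hr'⟩ := hunif κ hκ
  obtain ⟨M, hM⟩ := hK.exists_bound_of_continuousOn (hcont.mono hKO)
  refine ⟨min δ (r / 2), lt_min hδ (half_pos hr), M, fun p hp => ?_⟩
  have hin : ∀ v, ‖v‖ ≤ min δ (r / 2) → p + v ∈ Metric.cthickening δ K := by
    intro v hv
    apply Metric.mem_cthickening_of_dist_le (p + v) p δ K hp
    rw [dist_eq_norm, add_sub_cancel_left]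
    exact hv.trans (min_le_left _ _)
  refine ⟨hM p hp, fun v hv => hδO (hin v hv), fun v v' hv hv' => ?_⟩
  have hderiv : ∀ w ∈ Metric.closedBall (0 : E) (min δ (r / 2)),
      HasFDerivWithinAt (fun w => g (p + w) - g p - fderiv ℝ g p w)
        (fderiv ℝ g (p + w) - fderiv ℝ g p) (Metric.closedBall (0 : E) (min δ (r / 2))) w := by
    intro w hw
    have hw' : ‖w‖ ≤ min δ (r / 2) := by simpa using hw
    have h1 : HasFDerivAt g (fderiv ℝ g (p + w)) (p + w) :=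
      ((hg.differentiableOn one_ne_zero).differentiableAt
        (hO.mem_nhds (hδO (hin w hw')))).hasFDerivAt
    have h2 : HasFDerivAt (fun w => g (p + w)) (fderiv ℝ g (p + w)) w :=
      (hasFDerivAt_comp_add_left p).2 h1
    exact ((h2.sub_const (g p)).sub (fderiv ℝ g p).hasFDerivAt).hasFDerivWithinAt
  have hbound : ∀ w ∈ Metric.closedBall (0 : E) (min δ (r / 2)),
      ‖fderiv ℝ g (p + w) - fderiv ℝ g p‖ ≤ κ := by
    intro w hw
    have hw' : ‖w‖ ≤ min δ (r / 2) := by simpa using hw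
    have h1 := hr' (p + w) (hin w hw') p (Metric.self_subset_cthickening K hp) (by
      rw [dist_eq_norm, add_sub_cancel_left]
      exact lt_of_le_of_lt (hw'.trans (min_le_right _ _)) (half_lt_self hr))
    rw [dist_eq_norm] at h1
    exact h1.le
  exact (convex_closedBall (0 : E) (min δ (r / 2))).norm_image_sub_le_of_norm_hasFDerivWithin_le
    hderiv hbound (by simpa using hv') (by simpa using hv)

end analysis

variable {E : Type} [NormedAddCommGroup E] [NormedSpace ℝ E] [FiniteDimensional ℝ E]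
  {H : Type} [TopologicalSpace H] {I : ModelWithCorners ℝ E H} [I.Boundaryless]
  {W : Type} [TopologicalSpace W] [ChartedSpace H W] [IsManifold I ∞ W] [T2Space W]
  [CompactSpace W] {ι : Type} [Fintype ι] (f : SmoothBumpCovering ι I W)

omit [Fintype ι] in
/-- a pair of charts -/
theorem at_AT4_pair {Φ : W → W} (hΦ : ContMDiff I I 1 Φ) {κ : ℝ} (hκ : 0 < κ) (i j : ι) :
    ∃ ρ > 0, ∃ M : ℝ, ∀ y, f i y = 1 → f j (Φ y) = 1 →
      ‖fderiv ℝ (extChartAt I (f.c j) ∘ Φ ∘ (extChartAt I (f.c i)).symm)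
        (extChartAt I (f.c i) y)‖ ≤ M ∧
      (∀ v : E, ‖v‖ ≤ ρ →
        Φ ((extChartAt I (f.c i)).symm (extChartAt I (f.c i) y + v)) ∈
          (extChartAt I (f.c j)).source) ∧
      ∀ v v' : E, ‖v‖ ≤ ρ → ‖v'‖ ≤ ρ →
        ‖((extChartAt I (f.c j) ∘ Φ ∘ (extChartAt I (f.c i)).symm) (extChartAt I (f.c i) y + v) -
            (extChartAt I (f.c j) ∘ Φ ∘ (extChartAt I (f.c i)).symm) (extChartAt I (f.c i) y) -
            fderiv ℝ (extChartAt I (f.c j) ∘ Φ ∘ (extChartAt I (f.c i)).symm)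
              (extChartAt I (f.c i) y) v) -
          ((extChartAt I (f.c j) ∘ Φ ∘ (extChartAt I (f.c i)).symm) (extChartAt I (f.c i) y + v') -
            (extChartAt I (f.c j) ∘ Φ ∘ (extChartAt I (f.c i)).symm) (extChartAt I (f.c i) y) -
            fderiv ℝ (extChartAt I (f.c j) ∘ Φ ∘ (extChartAt I (f.c i)).symm)
              (extChartAt I (f.c i) y) v')‖ ≤ κ * ‖v - v'‖ := by
  have hcC : ContinuousOn (Φ ∘ (extChartAt I (f.c i)).symm) (extChartAt I (f.c i)).target :=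
    hΦ.continuous.comp_continuousOn (continuousOn_extChartAt_symm (f.c i))
  have hO : IsOpen ((extChartAt I (f.c i)).target ∩
      (Φ ∘ (extChartAt I (f.c i)).symm) ⁻¹' (extChartAt I (f.c j)).source) :=
    hcC.isOpen_inter_preimage (isOpen_extChartAt_target (f.c i)) (isOpen_extChartAt_source (f.c j))
  have hKc : IsCompact (extChartAt I (f.c i) '' ({y | f i y = 1} ∩ Φ ⁻¹' {y | f j y = 1})) := by
    apply IsCompact.image_of_continuousOn
    · apply IsClosed.isCompact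
      exact (isClosed_eq (f i).continuous continuous_const).inter
        ((isClosed_eq (f j).continuous continuous_const).preimage hΦ.continuous)
    · exact (continuousOn_extChartAt (f.c i)).mono fun y hy =>
        f.mem_extChartAt_source_of_eq_one hy.1
  have hKO : (extChartAt I (f.c i) '' ({y | f i y = 1} ∩ Φ ⁻¹' {y | f j y = 1})) ⊆
      ((extChartAt I (f.c i)).target ∩
      (Φ ∘ (extChartAt I (f.c i)).symm) ⁻¹' (extChartAt I (f.c j)).source) := by
    rintro p ⟨y, hy, rfl⟩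
    have hs := f.mem_extChartAt_source_of_eq_one hy.1
    refine ⟨(extChartAt I (f.c i)).map_source hs, ?_⟩
    show Φ ((extChartAt I (f.c i)).symm (extChartAt I (f.c i) y)) ∈ (extChartAt I (f.c j)).source
    rw [(extChartAt I (f.c i)).left_inv hs]
    exact f.mem_extChartAt_source_of_eq_one hy.2
  have hg : ContDiffOn ℝ 1 (extChartAt I (f.c j) ∘ Φ ∘ (extChartAt I (f.c i)).symm)
      ((extChartAt I (f.c i)).target ∩
      (Φ ∘ (extChartAt I (f.c i)).symm) ⁻¹' (extChartAt I (f.c j)).source) := by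
    rw [← contMDiffOn_iff_contDiffOn]
    have h1 : ContMDiffOn 𝓘(ℝ, E) I 1 (extChartAt I (f.c i)).symm (extChartAt I (f.c i)).target :=
      contMDiffOn_extChartAt_symm (f.c i)
    have h2 : ContMDiffOn 𝓘(ℝ, E) I 1 (Φ ∘ (extChartAt I (f.c i)).symm)
        (extChartAt I (f.c i)).target := hΦ.comp_contMDiffOn h1
    have h3 : ContMDiffOn I 𝓘(ℝ, E) 1 (extChartAt I (f.c j)) (extChartAt I (f.c j)).source := by
      rw [extChartAt_source]
      exact contMDiffOn_extChartAt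
    exact h3.comp (h2.mono Set.inter_subset_left) Set.inter_subset_right
  obtain ⟨ρ, hρ, M, h⟩ := at_AT4_unif hO hKc hKO hg hκ
  refine ⟨ρ, hρ, M, fun y hi hj => ?_⟩
  obtain ⟨h1, h2, h3⟩ := h (extChartAt I (f.c i) y) ⟨y, ⟨hi, hj⟩, rfl⟩
  exact ⟨h1, fun v hv => (h2 v hv).2, h3⟩

/-- AT4 -/
theorem at_G
    (hL : ∃ δ > 0, ∃ K : ℝ, ∀ y x : W,
      ‖atE f x - atE f y‖ ≤ δ →
      ‖atL f y x‖ ≤ K * ‖atE f x - atE f y‖ ∧
        atH f (y, atL f y x) = x)
    {Φ : W → W} (hΦ : ContMDiff I I 1 Φ) {κ : ℝ} (hκ : 0 < κ) :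
    ∃ ρ > 0, ∃ δ > 0, ∃ (M : ℝ) (G : W × E → E), (∀ y, G (y, 0) = 0) ∧
      (∀ y v, ‖atA f Φ y v‖ ≤ M * ‖v‖) ∧
      (∀ y v v', ‖(G (y, v) - atA f Φ y v) - (G (y, v') - atA f Φ y v')‖ ≤ κ * ‖v - v'‖) ∧
      (∀ y v, ‖v‖ ≤ ρ → Φ (atH f (y, v)) = atH f (Φ y, G (y, v))) ∧
      ∀ y x, ‖atE f x - atE f y‖ ≤ δ →
        G (y, atL f y x) = atL f (Φ y) (Φ x) := by
  obtain ⟨δ₁, hδ₁, K, hK⟩ := hL
  choose ρ₀ hρ₀ M₀ h₀ using fun (p : ι × ι) => at_AT4_pair f hΦ (κ := κ / 3) (by positivity) p.1 p.2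
  -- a common radius
  obtain ⟨r, hr, hr'⟩ : ∃ r > 0, ∀ p, r ≤ ρ₀ p := by
    rcases isEmpty_or_nonempty (ι × ι) with he | hne
    · exact ⟨1, one_pos, fun p => (he.false p).elim⟩
    · obtain ⟨p, hp⟩ := Finite.exists_min ρ₀
      exact ⟨ρ₀ p, hρ₀ p, hp⟩
  obtain ⟨M, hM⟩ : ∃ M, ∀ p, M₀ p ≤ M := by
    rcases isEmpty_or_nonempty (ι × ι) with he | hne
    · exact ⟨1, fun p => (he.false p).elim⟩
    · obtain ⟨p, hp⟩ := Finite.exists_max M₀
      exact ⟨M₀ p, hp⟩
  -- the facts at a point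
  have hy : ∀ y : W, ‖atA f Φ y‖ ≤ M ∧
      (∀ v : E, ‖v‖ ≤ r →
        Φ ((extChartAt I (atC f y)).symm (extChartAt I (atC f y) y + v)) ∈
          (extChartAt I (atC f (Φ y))).source) ∧
      ∀ v v' : E, ‖v‖ ≤ r → ‖v'‖ ≤ r →
        ‖((extChartAt I (atC f (Φ y)) ∘ Φ ∘ (extChartAt I (atC f y)).symm)
              (extChartAt I (atC f y) y + v) -
            (extChartAt I (atC f (Φ y)) ∘ Φ ∘ (extChartAt I (atC f y)).symm)
              (extChartAt I (atC f y) y) - atA f Φ y v) -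
          ((extChartAt I (atC f (Φ y)) ∘ Φ ∘ (extChartAt I (atC f y)).symm)
              (extChartAt I (atC f y) y + v') -
            (extChartAt I (atC f (Φ y)) ∘ Φ ∘ (extChartAt I (atC f y)).symm)
              (extChartAt I (atC f y) y) - atA f Φ y v')‖ ≤ κ / 3 * ‖v - v'‖ := by
    intro y
    obtain ⟨h1, h2, h3⟩ := h₀ (f.ind y (Set.mem_univ y), f.ind (Φ y) (Set.mem_univ (Φ y))) y
      (f.apply_ind y (Set.mem_univ y)) (f.apply_ind (Φ y) (Set.mem_univ (Φ y)))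
    exact ⟨h1.trans (hM _), fun v hv => h2 v (hv.trans (hr' _)),
      fun v v' hv hv' => h3 v v' (hv.trans (hr' _)) (hv'.trans (hr' _))⟩
  have hbase : ∀ y : W, (extChartAt I (atC f (Φ y)) ∘ Φ ∘ (extChartAt I (atC f y)).symm)
      (extChartAt I (atC f y) y) = extChartAt I (atC f (Φ y)) (Φ y) := by
    intro y
    have hs : y ∈ (extChartAt I (atC f y)).source :=
      f.mem_extChartAt_source_of_eq_one (f.apply_ind y (Set.mem_univ y))
    show extChartAt I (atC f (Φ y)) (Φ ((extChartAt I (atC f y)).symm (extChartAt I (atC f y) y))) = _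
    rw [(extChartAt I (atC f y)).left_inv hs]
  -- the remainder
  obtain ⟨R, hR⟩ : ∃ R : W → E → E, ∀ y v, R y v =
      (extChartAt I (atC f (Φ y)) ∘ Φ ∘ (extChartAt I (atC f y)).symm)
              (extChartAt I (atC f y) y + v) -
            (extChartAt I (atC f (Φ y)) ∘ Φ ∘ (extChartAt I (atC f y)).symm)
              (extChartAt I (atC f y) y) - atA f Φ y v := ⟨_, fun _ _ => rfl⟩
  have hR0 : ∀ y, R y 0 = 0 := by
    intro y
    rw [hR, add_zero, sub_self, map_zero, sub_zero]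
  have hcut : ∀ y, _ := fun y => at_AT4_cut (R := R y) (ρ := r / 2) (κ := κ / 3) (half_pos hr)
    (by positivity) (hR0 y) (fun v v' hv hv' => by
      rw [hR, hR]
      exact (hy y).2.2 v v' (by linarith) (by linarith))
  refine ⟨r / 2, half_pos hr, min δ₁ (r / 2 / (|K| + 1)),
    lt_min hδ₁ (div_pos (half_pos hr) (by positivity)), M,
    fun z => atA f Φ z.1 z.2 + (max 0 (min 1 (2 - ‖z.2‖ / (r / 2)))) • R z.1 z.2, ?_, ?_, ?_, ?_, ?_⟩
  · intro y
    show atA f Φ y 0 + (max 0 (min 1 (2 - ‖(0 : E)‖ / (r / 2)))) • R y 0 = 0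
    rw [hR0, smul_zero, map_zero, add_zero]
  · intro y v
    exact (ContinuousLinearMap.le_opNorm _ _).trans (by gcongr; exact (hy y).1)
  · intro y v v'
    show ‖(atA f Φ y v + (max 0 (min 1 (2 - ‖v‖ / (r / 2)))) • R y v - atA f Φ y v) -
      (atA f Φ y v' + (max 0 (min 1 (2 - ‖v'‖ / (r / 2)))) • R y v' - atA f Φ y v')‖ ≤ _
    rw [add_sub_cancel_left, add_sub_cancel_left]
    refine ((hcut y).2 v v').trans (le_of_eq ?_)
    ring
  · intro y v hv
    show Φ ((extChartAt I (atC f y)).symm (extChartAt I (atC f y) y + v)) =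
      (extChartAt I (atC f (Φ y))).symm (extChartAt I (atC f (Φ y)) (Φ y) +
        (atA f Φ y v + (max 0 (min 1 (2 - ‖v‖ / (r / 2)))) • R y v))
    rw [(hcut y).1 v hv, hR, hbase]
    have e : extChartAt I (atC f (Φ y)) (Φ y) + (atA f Φ y v +
        ((extChartAt I (atC f (Φ y)) ∘ Φ ∘ (extChartAt I (atC f y)).symm)
          (extChartAt I (atC f y) y + v) - extChartAt I (atC f (Φ y)) (Φ y) - atA f Φ y v)) =
        extChartAt I (atC f (Φ y))
          (Φ ((extChartAt I (atC f y)).symm (extChartAt I (atC f y) y + v))) := by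
      simp only [Function.comp_apply]
      abel
    rw [e, (extChartAt I (atC f (Φ y))).left_inv ((hy y).2.1 v (by linarith))]
  · intro y x hx
    obtain ⟨h1, h2⟩ := hK y x (hx.trans (min_le_left _ _))
    have h3 : ‖atL f y x‖ ≤ r / 2 := by
      have h4 : K * ‖atE f x - atE f y‖ ≤ (|K| + 1) * (r / 2 / (|K| + 1)) := by
        have h5 : ‖atE f x - atE f y‖ ≤ r / 2 / (|K| + 1) := hx.trans (min_le_right _ _)
        calc K * ‖atE f x - atE f y‖ ≤ (|K| + 1) * ‖atE f x - atE f y‖ := by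
              gcongr
              linarith [le_abs_self K]
          _ ≤ _ := by gcongr
      refine h1.trans (h4.trans (le_of_eq ?_))
      field_simp
    show atA f Φ y (atL f y x) + (max 0 (min 1 (2 - ‖atL f y x‖ / (r / 2)))) • R y (atL f y x) = _
    rw [(hcut y).1 _ h3, hR, hbase]
    have h6 : (extChartAt I (atC f y)).symm (extChartAt I (atC f y) y + atL f y x) = x := h2
    simp only [Function.comp_apply]
    rw [h6]
    unfold atL
    abel

end Pool.Agent.SC
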