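import Pool.Agent.Lib.MP_1e8d1a_an.NH.AtlDefs

open scoped ContDiff Manifold Topology

set_option linter.unusedSectionVars false

namespace Pool.Agent.SC

variable {E : Type} [NormedAddCommGroup E] [NormedSpace ℝ E] [FiniteDimensional ℝ E]
  {H : Type} [TopologicalSpace H] {I : ModelWithCorners ℝ E H} [I.Boundaryless]
  {W : Type} [TopologicalSpace W] [ChartedSpace H W] [IsManifold I ∞ W] [T2Space W]
  [CompactSpace W] {ι : Type} [Fintype ι] (f : SmoothBumpCovering ι I W)

/-- AT5 -/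
theorem at_A {Φ : W → W} (hΦ : ContMDiff I I 1 Φ) (y : W) (v : TangentSpace I y) :
    atA f Φ y (chD I (atC f y) y v) = chD I (atC f (Φ y)) (Φ y) (mfderiv I I Φ y v) := by
  have : IsManifold I 1 W := IsManifold.of_le (n := ∞) (by exact_mod_cast le_top)
  have hy : y ∈ (chartAt H (atC f y)).source := f.mem_chartAt_ind_source y (Set.mem_univ y)
  have hy' : Φ y ∈ (chartAt H (atC f (Φ y))).source :=
    f.mem_chartAt_ind_source (Φ y) (Set.mem_univ _)
  have hye : y ∈ (extChartAt I (atC f y)).source := by rwa [extChartAt_source]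
  have hsy : (extChartAt I (atC f y)).symm (extChartAt I (atC f y) y) = y :=
    (extChartAt I (atC f y)).left_inv hye
  have d1 : MDifferentiableAt I 𝓘(ℝ, E) (extChartAt I (atC f y)) y := mdifferentiableAt_extChartAt hy
  have d2 : MDifferentiableAt I 𝓘(ℝ, E) (extChartAt I (atC f (Φ y))) (Φ y) :=
    mdifferentiableAt_extChartAt hy'
  have d3 : MDifferentiableAt I I Φ y := (hΦ.contMDiffAt).mdifferentiableAt (by norm_num)
  have d4 : MDifferentiableAt 𝓘(ℝ, E) I (extChartAt I (atC f y)).symm (extChartAt I (atC f y) y) := by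
    have h := mdifferentiableWithinAt_extChartAt_symm (I := I) (x := atC f y)
      (z := extChartAt I (atC f y) y) ((extChartAt I (atC f y)).map_source hye)
    rwa [I.range_eq_univ, mdifferentiableWithinAt_univ] at h
  have d5 : MDifferentiableAt 𝓘(ℝ, E) I (Φ ∘ (extChartAt I (atC f y)).symm)
      (extChartAt I (atC f y) y) := by
    refine MDifferentiableAt.comp _ ?_ d4
    rw [hsy]
    exact d3
  have d6 : MDifferentiableAt 𝓘(ℝ, E) 𝓘(ℝ, E)
      (extChartAt I (atC f (Φ y)) ∘ Φ ∘ (extChartAt I (atC f y)).symm)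
      (extChartAt I (atC f y) y) := by
    refine MDifferentiableAt.comp _ ?_ d5
    show MDifferentiableAt I 𝓘(ℝ, E) (extChartAt I (atC f (Φ y)))
      (Φ ((extChartAt I (atC f y)).symm (extChartAt I (atC f y) y)))
    rw [hsy]
    exact d2
  have e1 : mfderiv I 𝓘(ℝ, E) ((extChartAt I (atC f (Φ y)) ∘ Φ ∘ (extChartAt I (atC f y)).symm) ∘
      extChartAt I (atC f y)) y = (mfderiv 𝓘(ℝ, E) 𝓘(ℝ, E)
        (extChartAt I (atC f (Φ y)) ∘ Φ ∘ (extChartAt I (atC f y)).symm)
        (extChartAt I (atC f y) y)).comp (mfderiv I 𝓘(ℝ, E) (extChartAt I (atC f y)) y) :=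
    mfderiv_comp y d6 d1
  have e2 : mfderiv I 𝓘(ℝ, E) (extChartAt I (atC f (Φ y)) ∘ Φ) y =
      (mfderiv I 𝓘(ℝ, E) (extChartAt I (atC f (Φ y))) (Φ y)).comp (mfderiv I I Φ y) :=
    mfderiv_comp y d2 d3
  have e3 : ((extChartAt I (atC f (Φ y)) ∘ Φ ∘ (extChartAt I (atC f y)).symm) ∘
      extChartAt I (atC f y)) =ᶠ[𝓝 y] (extChartAt I (atC f (Φ y)) ∘ Φ) := by
    filter_upwards [(isOpen_extChartAt_source (I := I) (atC f y)).mem_nhds hye] with x hx
    show extChartAt I (atC f (Φ y)) (Φ ((extChartAt I (atC f y)).symm (extChartAt I (atC f y) x))) =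
      extChartAt I (atC f (Φ y)) (Φ x)
    rw [(extChartAt I (atC f y)).left_inv hx]
  have e4 := e3.mfderiv_eq (I := I) (I' := 𝓘(ℝ, E))
  rw [e1, e2, mfderiv_eq_fderiv] at e4
  exact congrArg (fun T : TangentSpace I y →L[ℝ] E => T v) e4

/-- AT6 -/
theorem at_inv (y : W) : ∃ σ : E →L[ℝ] TangentSpace I y,
    (∀ v, chD I (atC f y) y (σ v) = v) ∧ ∀ v, σ (chD I (atC f y) y v) = v := by
  have : IsManifold I 1 W := IsManifold.of_le (n := ∞) (by exact_mod_cast le_top)
  have hye : y ∈ (extChartAt I (atC f y)).source := by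
    rw [extChartAt_source]
    exact f.mem_chartAt_ind_source y (Set.mem_univ y)
  obtain ⟨M, hM⟩ := isInvertible_mfderiv_extChartAt (I := I) hye
  have h1 : ∀ v, chD I (atC f y) y v = M v := by
    intro v
    rw [chD, ← hM]
    rfl
  refine ⟨M.symm.toContinuousLinearMap, fun v => ?_, fun v => ?_⟩
  · rw [h1]
    exact M.apply_symm_apply v
  · rw [h1]
    exact M.symm_apply_apply v

end Pool.Agent.SC
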