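import Pool.Agent.Lib.MP_1e8d1a_an.NH.AtlDefs

/-! Uniform charts of a compact manifold: Riemannian norms against chart norms. -/

open scoped ContDiff Manifold Topology Bundle

namespace Pool.Agent.SC

set_option linter.unusedSectionVars false

variable {E : Type} [NormedAddCommGroup E] [NormedSpace ℝ E] [FiniteDimensional ℝ E]
  {H : Type} [TopologicalSpace H] {I : ModelWithCorners ℝ E H} [I.Boundaryless]
  {W : Type} [TopologicalSpace W] [ChartedSpace H W] [IsManifold I ∞ W] [T2Space W]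
  [CompactSpace W] {ι : Type} [Fintype ι] (f : SmoothBumpCovering ι I W)

/-- AT1 -/
theorem at_metric (g : Bundle.ContinuousRiemannianMetric E (fun x : W => TangentSpace I x))
    (c : W) : ∃ C > 0, ∀ᶠ y in 𝓝 c, ∀ v : TangentSpace I y,
      gnorm g y v ≤ C * ‖chD I c y v‖ ∧ ‖chD I c y v‖ ≤ C * gnorm g y v := by
  let _ : Bundle.RiemannianBundle (fun x : W => TangentSpace I x) := ⟨g.toRiemannianMetric⟩
  have hn : ∀ (y : W) (v : TangentSpace I y), gnorm g y v = ‖v‖ := by
    intro y v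
    rw [gnorm, norm_eq_sqrt_real_inner]
    rfl
  obtain ⟨C1, hC1, h1⟩ :=
    eventually_norm_trivializationAt_lt E (fun x : W => TangentSpace I x) c
  obtain ⟨C2, hC2, h2⟩ :=
    eventually_norm_symmL_trivializationAt_lt E (fun x : W => TangentSpace I x) c
  refine ⟨max C1 C2, lt_max_of_lt_left hC1, ?_⟩
  have hx : (chartAt H c).source ∈ 𝓝 c := chart_source_mem_nhds H c
  filter_upwards [h1, h2, hx] with y hy1 hy2 hy v
  have hc : chD I c y v =
      (trivializationAt E (fun x : W => TangentSpace I x) c).continuousLinearMapAt ℝ y v := by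
    rw [TangentBundle.continuousLinearMapAt_trivializationAt hy]
    rfl
  have hy' : y ∈ (trivializationAt E (fun x : W => TangentSpace I x) c).baseSet := by
    simpa using hy
  rw [hn, hc]
  constructor
  · have h3 := ((trivializationAt E (fun x : W => TangentSpace I x) c).symmL ℝ y).le_opNorm
      ((trivializationAt E (fun x : W => TangentSpace I x) c).continuousLinearMapAt ℝ y v)
    rw [Bundle.Trivialization.symmL_continuousLinearMapAt _ hy'] at h3
    refine h3.trans ?_
    gcongr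
    exact hy2.le.trans (le_max_right _ _)
  · have h3 := ((trivializationAt E (fun x : W => TangentSpace I x) c).continuousLinearMapAt ℝ y
      ).le_opNorm v
    refine h3.trans ?_
    gcongr
    exact hy1.le.trans (le_max_left _ _)

/-- AT7 -/
theorem at_cover (g₁ g₂ : Bundle.ContinuousRiemannianMetric E (fun x : W => TangentSpace I x)) :
    ∃ (ι : Type) (_ : Fintype ι) (f : SmoothBumpCovering ι I W) (K : ℝ), 0 < K ∧
      ∀ (y : W) (v : TangentSpace I y),
        gnorm g₁ y v ≤ K * ‖chD I (atC f y) y v‖ ∧ ‖chD I (atC f y) y v‖ ≤ K * gnorm g₁ y v ∧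
        gnorm g₂ y v ≤ K * ‖chD I (atC f y) y v‖ ∧ ‖chD I (atC f y) y v‖ ≤ K * gnorm g₂ y v := by
  choose C1 hC1 h1 using at_metric g₁
  choose C2 hC2 h2 using at_metric g₂
  obtain ⟨ι, f, hf⟩ := SmoothBumpCovering.exists_isSubordinate I (s := (Set.univ : Set W))
    isClosed_univ
    (U := fun c => {y : W | (∀ v : TangentSpace I y,
      gnorm g₁ y v ≤ C1 c * ‖chD I c y v‖ ∧ ‖chD I c y v‖ ≤ C1 c * gnorm g₁ y v) ∧
      (∀ v : TangentSpace I y,
      gnorm g₂ y v ≤ C2 c * ‖chD I c y v‖ ∧ ‖chD I c y v‖ ≤ C2 c * gnorm g₂ y v)})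
    (fun c _ => (h1 c).and (h2 c))
  let _ : Fintype ι := f.fintype
  refine ⟨ι, f.fintype, f, 1 + ∑ i, (C1 (f.c i) + C2 (f.c i)), ?_, ?_⟩
  · have : 0 ≤ ∑ i, (C1 (f.c i) + C2 (f.c i)) :=
      Finset.sum_nonneg fun i _ => add_nonneg (hC1 _).le (hC2 _).le
    linarith
  · intro y v
    have hy := hf.support_subset _ (f.mem_support_ind y (Set.mem_univ y))
    have hK : C1 (atC f y) + C2 (atC f y) ≤ ∑ i, (C1 (f.c i) + C2 (f.c i)) :=
      Finset.single_le_sum (f := fun i => C1 (f.c i) + C2 (f.c i))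
        (fun i _ => add_nonneg (hC1 _).le (hC2 _).le) (Finset.mem_univ _)
    have hK1 : C1 (atC f y) ≤ 1 + ∑ i, (C1 (f.c i) + C2 (f.c i)) := by
      linarith [(hC1 (atC f y)).le, (hC2 (atC f y)).le]
    have hK2 : C2 (atC f y) ≤ 1 + ∑ i, (C1 (f.c i) + C2 (f.c i)) := by
      linarith [(hC1 (atC f y)).le, (hC2 (atC f y)).le]
    have g1 : 0 ≤ gnorm g₁ y v := Real.sqrt_nonneg _
    have g2 : 0 ≤ gnorm g₂ y v := Real.sqrt_nonneg _
    have g3 : 0 ≤ ‖chD I (atC f y) y v‖ := norm_nonneg _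
    obtain ⟨a1, a2⟩ := hy.1 v
    obtain ⟨b1, b2⟩ := hy.2 v
    exact ⟨a1.trans (mul_le_mul_of_nonneg_right hK1 g3), a2.trans (mul_le_mul_of_nonneg_right hK1 g1),
      b1.trans (mul_le_mul_of_nonneg_right hK2 g3), b2.trans (mul_le_mul_of_nonneg_right hK2 g2)⟩

end Pool.Agent.SC
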