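import Mathlib

/-! Uniform charts of a compact manifold: definitions. -/

open scoped ContDiff Manifold Topology

namespace Pool.Agent.SC

variable {E : Type} [NormedAddCommGroup E] [NormedSpace ℝ E] {H : Type} [TopologicalSpace H]
  {I : ModelWithCorners ℝ E H} {W : Type} [TopologicalSpace W] [ChartedSpace H W]

/-- the norm of a tangent vector for the Riemannian metric `g` -/
noncomputable def gnorm [IsManifold I ∞ W]
    (g : Bundle.ContinuousRiemannianMetric E (fun x : W => TangentSpace I x)) (x : W)
    (v : TangentSpace I x) : ℝ := Real.sqrt (g.inner x v v)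

/-- the derivative at `y` of the chart centred at `c` -/
noncomputable def chD (I : ModelWithCorners ℝ E H) {W : Type} [TopologicalSpace W]
    [ChartedSpace H W] (c y : W) : TangentSpace I y →L[ℝ] E :=
  mfderiv I 𝓘(ℝ, E) (extChartAt I c) y

variable [FiniteDimensional ℝ E] {ι : Type} (f : SmoothBumpCovering ι I W)

/-- the centre of the chart used at `y` -/
noncomputable def atC (y : W) : W := f.c (f.ind y (Set.mem_univ y))

/-- the embedding of `W` given by the charts -/
noncomputable def atE (x : W) (i : ι) : E × ℝ := (f i x • extChartAt I (f.c i) x, f i x)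

/-- the point with the local coordinates `z.2` with respect to `z.1` -/
noncomputable def atH (z : W × E) : W :=
  (extChartAt I (atC f z.1)).symm (extChartAt I (atC f z.1) z.1 + z.2)

/-- the local coordinates of `x` with respect to `y` -/
noncomputable def atL (y x : W) : E := extChartAt I (atC f y) x - extChartAt I (atC f y) y

/-- the derivative of `Φ` at `y` in the charts used at `y` and `Φ y` -/
noncomputable def atA (Φ : W → W) (y : W) : E →L[ℝ] E :=
  fderiv ℝ (extChartAt I (atC f (Φ y)) ∘ Φ ∘ (extChartAt I (atC f y)).symm)
    (extChartAt I (atC f y) y)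

end Pool.Agent.SC
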