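import Pool.Agent.Lib.MP_1e8d1a_an.SC.BumpA

/-! row NH-C3: closing a chain of orbit segments by several bumps -/

open scoped ContDiff Manifold Topology

set_option linter.unusedSectionVars false

namespace Pool.Agent.SC

variable {E : Type} [NormedAddCommGroup E] [NormedSpace ℝ E] {H : Type} [TopologicalSpace H]
  {I : ModelWithCorners ℝ E H} {W : Type} [TopologicalSpace W] [ChartedSpace H W]

/-- The family of the bumps of a list. -/
def cch_A {k : ℕ} (T : Fin (k + 1) → E × W → W) :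
    List (Fin (k + 1)) → (Fin (k + 1) → E × E) × W → W
  | [] => fun p => p.2
  | j :: l => fun p => T j ((p.1 j).1, T j ((p.1 j).2, cch_A T l p))

theorem cch_smooth {k : ℕ} {r : ℕ∞} (T : Fin (k + 1) → E × W → W)
    (hT : ∀ j, ContMDiff (𝓘(ℝ, E).prod I) I r (T j)) (l : List (Fin (k + 1))) :
    ContMDiff (𝓘(ℝ, Fin (k + 1) → E × E).prod I) I r (cch_A T l) := by
  induction l with
  | nil => exact contMDiff_snd
  | cons j l ih =>
    have hw : ContDiff ℝ r (fun w : Fin (k + 1) → E × E => w j) := contDiff_apply ℝ (E × E) j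
    have h1 : ContMDiff (𝓘(ℝ, Fin (k + 1) → E × E).prod I) 𝓘(ℝ, E) r
        (fun x : (Fin (k + 1) → E × E) × W => (x.1 j).1) :=
      ((contDiff_fst.comp hw).contMDiff (n := r)).comp contMDiff_fst
    have h2 : ContMDiff (𝓘(ℝ, Fin (k + 1) → E × E).prod I) 𝓘(ℝ, E) r
        (fun x : (Fin (k + 1) → E × E) × W => (x.1 j).2) :=
      ((contDiff_snd.comp hw).contMDiff (n := r)).comp contMDiff_fst
    have h3 : ContMDiff (𝓘(ℝ, Fin (k + 1) → E × E).prod I) I r
        (fun x : (Fin (k + 1) → E × E) × W => T j ((x.1 j).2, cch_A T l x)) :=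
      (hT j).comp (h2.prodMk ih)
    exact (hT j).comp (h1.prodMk h3)

theorem cch_zero {k : ℕ} (T : Fin (k + 1) → E × W → W)
    (hT0 : ∀ j x, T j (0, x) = x) (l : List (Fin (k + 1))) (x : W) :
    cch_A T l (0, x) = x := by
  induction l with
  | nil => rfl
  | cons j l ih =>
    show T j ((0 : E), T j ((0 : E), cch_A T l (0, x))) = x
    rw [ih, hT0, hT0]

theorem cch_diffeo {k : ℕ} {r : ℕ∞} (T : Fin (k + 1) → E × W → W)
    (hTd : ∀ j v, ∃ D : W ≃ₘ^r⟮I, I⟯ W, ∀ x, D x = T j (v, x)) (l : List (Fin (k + 1)))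
    (w : Fin (k + 1) → E × E) :
    ∃ D : W ≃ₘ^r⟮I, I⟯ W, ∀ x, D x = cch_A T l (w, x) := by
  induction l with
  | nil => exact ⟨Diffeomorph.refl I W r, fun x => rfl⟩
  | cons j l ih =>
    obtain ⟨D, hD⟩ := ih
    obtain ⟨D₁, hD₁⟩ := hTd j (w j).1
    obtain ⟨D₂, hD₂⟩ := hTd j (w j).2
    refine ⟨(D.trans D₂).trans D₁, fun x => ?_⟩
    show D₁ (D₂ (D x)) = T j ((w j).1, T j ((w j).2, cch_A T l (w, x)))
    rw [hD₁, hD₂, hD]

theorem cch_out {k : ℕ} (T : Fin (k + 1) → E × W → W) (J : Fin (k + 1) → Set W)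
    (hTJ : ∀ j v, ∀ x ∉ J j, T j (v, x) = x) (l : List (Fin (k + 1)))
    (w : Fin (k + 1) → E × E) (x : W) (hx : ∀ j, x ∉ J j) :
    cch_A T l (w, x) = x := by
  induction l with
  | nil => rfl
  | cons j l ih =>
    show T j ((w j).1, T j ((w j).2, cch_A T l (w, x))) = x
    rw [ih, hTJ j _ x (hx j), hTJ j _ x (hx j)]

theorem cch_not_mem {k : ℕ} (T : Fin (k + 1) → E × W → W) (J : Fin (k + 1) → Set W)
    (hTJ : ∀ j v, ∀ x ∉ J j, T j (v, x) = x)
    (hdis : ∀ i j, i ≠ j → Disjoint (J i) (J j)) (l : List (Fin (k + 1)))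
    (w : Fin (k + 1) → E × E) (j : Fin (k + 1)) (x : W) (hx : x ∈ J j) (hj : j ∉ l) :
    cch_A T l (w, x) = x := by
  induction l with
  | nil => rfl
  | cons i l ih =>
    rw [List.mem_cons, not_or] at hj
    have hxi : x ∉ J i := fun h => Set.disjoint_left.1 (hdis j i hj.1) hx h
    show T i ((w i).1, T i ((w i).2, cch_A T l (w, x))) = x
    rw [ih hj.2, hTJ i _ x hxi, hTJ i _ x hxi]

theorem cch_mem {k : ℕ} (T : Fin (k + 1) → E × W → W) (J : Fin (k + 1) → Set W)
    (hTJ : ∀ j v, ∀ x ∉ J j, T j (v, x) = x)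
    (hTm : ∀ j v, ∀ x ∈ J j, T j (v, x) ∈ J j)
    (hdis : ∀ i j, i ≠ j → Disjoint (J i) (J j)) (l : List (Fin (k + 1))) (hl : l.Nodup)
    (w : Fin (k + 1) → E × E) (j : Fin (k + 1)) (x : W) (hx : x ∈ J j) (hj : j ∈ l) :
    cch_A T l (w, x) = T j ((w j).1, T j ((w j).2, x)) := by
  induction l with
  | nil => exact absurd hj (List.not_mem_nil)
  | cons i l ih =>
    rw [List.nodup_cons] at hl
    by_cases hij : j = i
    · subst hij
      show T j ((w j).1, T j ((w j).2, cch_A T l (w, x))) = _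
      rw [cch_not_mem T J hTJ hdis l w j x hx hl.1]
    · have hj' : j ∈ l := by
        rcases List.mem_cons.1 hj with h | h
        · exact absurd h hij
        · exact h
      have hy : T j ((w j).1, T j ((w j).2, x)) ∉ J i := fun h =>
        Set.disjoint_left.1 (hdis j i hij) (hTm j _ _ (hTm j _ _ hx)) h
      show T i ((w i).1, T i ((w i).2, cch_A T l (w, x))) = _
      rw [ih hl.2 hj', hTJ i _ _ hy, hTJ i _ _ hy]

theorem cch_sep [T2Space W] (k : ℕ) (q : Fin (k + 1) → W) (hq : Function.Injective q)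
    (J : Fin (k + 1) → Set W) (hJ : ∀ j, J j ∈ 𝓝 (q j)) :
    ∃ J' : Fin (k + 1) → Set W, (∀ j, J' j ∈ 𝓝 (q j)) ∧ (∀ j, J' j ⊆ J j) ∧
      ∀ i j, i ≠ j → Disjoint (J' i) (J' j) := by
  obtain ⟨U, hU, hdis⟩ := (Set.finite_range q).t2_separation
  refine ⟨fun j => J j ∩ U (q j), fun j => Filter.inter_mem (hJ j)
    ((hU (q j)).2.mem_nhds (hU (q j)).1), fun j => Set.inter_subset_left, ?_⟩
  intro i j hij
  have h := hdis (Set.mem_range_self i) (Set.mem_range_self j) (fun h => hij (hq h))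
  exact Set.disjoint_of_subset Set.inter_subset_right Set.inter_subset_right h

theorem cch_cycle {W : Type} {k : ℕ} (g : W → W) (x : Fin (k + 1) → W) (n : Fin (k + 1) → ℕ)
    (hn : ∀ j, 0 < n j) (h : ∀ j, g^[n j] (x j) = x (j + 1)) (j : Fin (k + 1)) (m : ℕ) :
    ∃ N, m ≤ N ∧ g^[N] (x j) = x (j + m • (1 : Fin (k + 1))) := by
  induction m with
  | zero => exact ⟨0, le_refl 0, by rw [zero_nsmul, add_zero]; rfl⟩
  | succ m ih =>
    obtain ⟨N, hN, hx⟩ := ih
    refine ⟨n (j + m • (1 : Fin (k + 1))) + N, ?_, ?_⟩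
    · have := hn (j + m • (1 : Fin (k + 1)))
      omega
    · rw [Function.iterate_add_apply, hx, h, succ_nsmul, add_assoc]

theorem cch_turn (k : ℕ) : (k + 1) • (1 : Fin (k + 1)) = 0 := by
  have h := card_nsmul_eq_zero' (G := Fin (k + 1)) (x := 1)
  rwa [Nat.card_eq_fintype_card, Fintype.card_fin] at h

/-- **Closing a chain.** If the orbits of `F` lead, for all `j`, from near `q j` to near `q (j + 1)`
(indices modulo `k + 1`) outside the neighbourhoods `J l` of all the `q l`, then a diffeomorphism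
`G` near `F` has a periodic orbit that passes near `q j₀` and through `V`. -/
theorem close_chain [FiniteDimensional ℝ E] [T2Space W] [CompactSpace W]
    [IsManifold I ∞ W] [I.Boundaryless] {r : ℕ∞} (F : W ≃ₘ^r⟮I, I⟯ W) (k : ℕ)
    (q : Fin (k + 1) → W) (hq : Function.Injective q) (J : Fin (k + 1) → Set W)
    (hJ : ∀ j, J j ∈ 𝓝 (q j)) (j₀ : Fin (k + 1)) (V : Set W)
    (h : ∀ U : Fin (k + 1) → Set W, (∀ j, U j ∈ 𝓝 (q j)) → ∀ j, ∃ s ∈ U j, ∃ n : ℕ, 0 < n ∧
      (F : W → W)^[n] s ∈ U (j + 1) ∧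
      (∀ i, 0 < i → i < n → ∀ l, (F : W → W)^[i] s ∉ J l) ∧
      (j = j₀ → ∃ i, 0 < i ∧ i < n ∧ (F : W → W)^[i] s ∈ V)) (U₀ : Set W)
    (hU₀ : U₀ ∈ 𝓝 (q j₀)) :
    ∀ 𝒰 ∈ @nhds _ (crTopology I r) F, ∃ G ∈ 𝒰, ∃ u ∈ V, ∃ n : ℕ, 0 < n ∧
      (G : W → W)^[n] u = u ∧ ∃ i, (G : W → W)^[i] u ∈ U₀ := by
  intro 𝒰 h𝒰
  obtain ⟨J', hJ', hJJ', hdis⟩ := cch_sep k q hq J hJ
  choose T hT hTd hT0 hTJ hTe using fun j => exists_translations (I := I) (q j) (J' j) (hJ' j)
  have hle : (r : WithTop ℕ∞) ≤ (∞ : WithTop ℕ∞) := by exact_mod_cast le_top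
  have hTr : ∀ j, ContMDiff (𝓘(ℝ, E).prod I) I r (T j) := fun j => (hT j).of_le hle
  have hTdr : ∀ j v, ∃ D : W ≃ₘ^r⟮I, I⟯ W, ∀ x, D x = T j (v, x) := by
    intro j v
    obtain ⟨D₀, hD₀⟩ := hTd j v
    exact ⟨{ toEquiv := D₀.toEquiv
             contMDiff_toFun := D₀.contMDiff.of_le hle
             contMDiff_invFun := D₀.symm.contMDiff.of_le hle }, hD₀⟩
  have hTm : ∀ j v, ∀ x ∈ J' j, T j (v, x) ∈ J' j := by
    intro j v x hx
    by_contra hcon
    obtain ⟨D, hD⟩ := hTdr j v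
    have h1 := hTJ j v _ hcon
    rw [← hD, ← hD] at h1
    have h2 : D x = x := D.injective h1
    rw [← hD, h2] at hcon
    exact hcon hx
  set L : List (Fin (k + 1)) := List.finRange (k + 1) with hL
  have hLn : L.Nodup := List.nodup_finRange _
  have hLm : ∀ j, j ∈ L := fun j => List.mem_finRange j
  have hAs := cch_smooth (I := I) T hTr L
  let Φ : (Fin (k + 1) → E × E) × W → W := fun p => F (cch_A T L p)
  have hΦ : ContMDiff (𝓘(ℝ, Fin (k + 1) → E × E).prod I) I r Φ := F.contMDiff.comp hAs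
  have hF' : ∀ x, F x = Φ (0, x) := by
    intro x
    show F x = F (cch_A T L (0, x))
    rw [cch_zero T hT0]
  have hev := mem_nhds_of_family Φ 0 (fun q => hΦ.contMDiffAt) F hF' 𝒰 h𝒰
  rw [Metric.eventually_nhds_iff] at hev
  obtain ⟨ε, hε, hev⟩ := hev
  have hcont : ∀ j, ∀ᶠ x in 𝓝 (q j),
      ‖extChartAt I (q j) x - extChartAt I (q j) (q j)‖ < ε := by
    intro j
    have hc := (continuousAt_extChartAt (I := I) (q j))
    have := hc.eventually (Metric.ball_mem_nhds (extChartAt I (q j) (q j)) hε)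
    filter_upwards [this] with x hx
    rwa [dist_eq_norm] at hx
  have hUev : ∀ j, ∀ᶠ x in 𝓝 (q j), x ∈ J' j ∧
      ‖extChartAt I (q j) x - extChartAt I (q j) (q j)‖ < ε ∧
      (T j (extChartAt I (q j) x - extChartAt I (q j) (q j), q j) = x ∧
        T j (extChartAt I (q j) (q j) - extChartAt I (q j) x, x) = q j) ∧
      (j = j₀ → x ∈ U₀) := by
    intro j
    have h0 : ∀ᶠ x in 𝓝 (q j), (j = j₀ → x ∈ U₀) := by
      by_cases hj : j = j₀
      · subst hj
        filter_upwards [hU₀] with x hx _ using hx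
      · exact Filter.Eventually.of_forall fun x hx => absurd hx hj
    filter_upwards [hJ' j, hcont j, hTe j, h0] with x a b c d using ⟨a, b, c, d⟩
  choose s hs n hn hxe hout hV using h _ hUev
  let x : Fin (k + 1) → W := fun j => (F : W → W)^[n (j - 1)] (s (j - 1))
  have hx1 : ∀ j, x (j + 1) = (F : W → W)^[n j] (s j) := by
    intro j
    show (F : W → W)^[n (j + 1 - 1)] (s (j + 1 - 1)) = _
    rw [add_sub_cancel_right]
  have hxU : ∀ j, x j ∈ J' j ∧
      ‖extChartAt I (q j) (x j) - extChartAt I (q j) (q j)‖ < ε ∧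
      (T j (extChartAt I (q j) (x j) - extChartAt I (q j) (q j), q j) = x j ∧
        T j (extChartAt I (q j) (q j) - extChartAt I (q j) (x j), x j) = q j) ∧
      (j = j₀ → x j ∈ U₀) := by
    intro j
    have h1 := hxe (j - 1)
    rw [← hx1, sub_add_cancel] at h1
    exact h1
  have hsU : ∀ j, s j ∈ J' j ∧
      ‖extChartAt I (q j) (s j) - extChartAt I (q j) (q j)‖ < ε ∧
      (T j (extChartAt I (q j) (s j) - extChartAt I (q j) (q j), q j) = s j ∧
        T j (extChartAt I (q j) (q j) - extChartAt I (q j) (s j), s j) = q j) ∧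
      (j = j₀ → s j ∈ U₀) := fun j => hs j
  let w : Fin (k + 1) → E × E := fun j =>
    (extChartAt I (q j) (s j) - extChartAt I (q j) (q j),
      extChartAt I (q j) (q j) - extChartAt I (q j) (x j))
  obtain ⟨D, hD⟩ := cch_diffeo (I := I) T hTdr L w
  have hDx : ∀ j, D (x j) = s j := by
    intro j
    rw [hD, cch_mem T J' hTJ hTm hdis L hLn w j (x j) (hxU j).1 (hLm j)]
    show T j (extChartAt I (q j) (s j) - extChartAt I (q j) (q j),
      T j (extChartAt I (q j) (q j) - extChartAt I (q j) (x j), x j)) = s j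
    rw [(hxU j).2.2.1.2, (hsU j).2.2.1.1]
  have hDout : ∀ y, (∀ j, y ∉ J j) → D y = y := by
    intro y hy
    rw [hD]
    exact cch_out T J' hTJ L w y (fun j hj => hy j (hJJ' j hj))
  let G : W ≃ₘ^r⟮I, I⟯ W := D.trans F
  have hG : ∀ y, G y = F (D y) := fun y => rfl
  have hG𝒰 : G ∈ 𝒰 := by
    refine hev (y := w) ?_ G ?_
    · rw [dist_zero_right, pi_norm_lt_iff hε]
      intro j
      rw [Prod.norm_def]
      refine max_lt (hsU j).2.1 ?_
      show ‖extChartAt I (q j) (q j) - extChartAt I (q j) (x j)‖ < ε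
      rw [norm_sub_rev]
      exact (hxU j).2.1
    · intro y
      show F (D y) = F (cch_A T L (w, y))
      rw [hD]
  have key : ∀ j i, 0 < i → i ≤ n j → (G : W → W)^[i] (x j) = (F : W → W)^[i] (s j) := by
    intro j i
    induction i with
    | zero => intro h0; exact absurd h0 (lt_irrefl 0)
    | succ i ih =>
      intro _ hin
      rw [Function.iterate_succ_apply', Function.iterate_succ_apply']
      rcases Nat.eq_zero_or_pos i with h0 | h0
      · subst h0
        simp only [Function.iterate_zero, id_eq]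
        rw [hG, hDx]
      · rw [ih h0 (by omega), hG, hDout _ (hout j i h0 (by omega))]
  have hstep : ∀ j, (G : W → W)^[n j] (x j) = x (j + 1) := by
    intro j
    rw [key j (n j) (hn j) le_rfl, hx1]
  obtain ⟨N, hN, hNx⟩ := cch_cycle (G : W → W) x n hn hstep j₀ (k + 1)
  rw [cch_turn, add_zero] at hNx
  obtain ⟨i, hi0, hin, hiV⟩ := hV j₀ rfl
  have hu := key j₀ i hi0 hin.le
  refine ⟨G, hG𝒰, (F : W → W)^[i] (s j₀), hiV, N, by omega, ?_, (N - 1) * i, ?_⟩
  · rw [← hu, ← Function.iterate_add_apply, add_comm, Function.iterate_add_apply, hNx]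
  · rw [← hu, ← Function.iterate_add_apply]
    have h1 : (N - 1) * i + i = N * i := by
      obtain ⟨M, rfl⟩ : ∃ M, N = M + 1 := ⟨N - 1, by omega⟩
      rw [Nat.add_sub_cancel]; ring
    rw [h1, Function.iterate_mul, Function.iterate_fixed hNx]
    exact (hxU j₀).2.2.2 rfl

end Pool.Agent.SC
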