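import Pool.Agent.Lib.MP_1e8d1a_an.SC.BumpA
import Pool.Agent.Lib.MP_1e8d1a_an.IR.Defs
import Pool.Agent.Lib.MP_1e8d1a_an.LC.D2a
import Pool.Agent.Lib.MP_1e8d1a_an.HM.Pairs

/-! Closing at a point visited by the isolated returns of another point; group extensions. -/

open scoped ContDiff Manifold Topology

namespace Pool.Agent.SC

variable {E : Type} [NormedAddCommGroup E] [NormedSpace ℝ E] {H : Type} [TopologicalSpace H]
  {I : ModelWithCorners ℝ E H} {W : Type} [TopologicalSpace W] [ChartedSpace H W]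

/-- a periodic point is closable -/
theorem nh_closable_periodic {r : ℕ∞} (F : W ≃ₘ^r⟮I, I⟯ W) (p : W)
    (h : ∃ n : ℕ, 0 < n ∧ (F : W → W)^[n] p = p) : Closable I F p := fun U hU =>
  ⟨F, @mem_of_mem_nhds _ (crTopology I r) _ _ hU, h⟩

/-- The closing principle, with a visit to a given set. -/
theorem nh_close_family [FiniteDimensional ℝ E] [T2Space W] [CompactSpace W]
    [IsManifold I ∞ W] [I.Boundaryless] {r : ℕ∞} {P : Type}
    [NormedAddCommGroup P] [NormedSpace ℝ P] (Φ : P × W → W)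
    (hΦ : ∀ q, ContMDiffAt (𝓘(ℝ, P).prod I) I r Φ (0, q)) (F : W ≃ₘ^r⟮I, I⟯ W)
    (hF : ∀ q, F q = Φ (0, q)) (p : W) (J : Set W) (hJ : J ∈ 𝓝 p) (V : Set W)
    (h : ∀ U ∈ 𝓝 p, ∀ ε > 0, ∃ t : P, ‖t‖ < ε ∧ ∃ G : W ≃ₘ^r⟮I, I⟯ W, (∀ q, G q = Φ (t, q)) ∧
      ∃ q ∈ U, ∃ n : ℕ, 0 < n ∧ (G : W → W)^[n] q ∈ U ∧
        (∀ i, 0 < i → i < n → (G : W → W)^[i] q ∉ J) ∧
        ∃ i, 0 < i ∧ i < n ∧ (G : W → W)^[i] q ∈ V) :
    ∀ U ∈ @nhds _ (crTopology I r) F, ∃ G ∈ U, ∃ u ∈ V, ∃ n : ℕ, 0 < n ∧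
      (G : W → W)^[n] u = u := by
  intro 𝒰 hU
  obtain ⟨T, hT, hTd, hT0, hTJ, hTe⟩ := exists_translations (I := I) p J hJ
  have hle : (r : WithTop ℕ∞) ≤ (∞ : WithTop ℕ∞) := by exact_mod_cast le_top
  have hTr : ContMDiff (𝓘(ℝ, E).prod I) I r T := hT.of_le hle
  -- the big family
  let Φ' : (E × P × E) × W → W := fun x => T (x.1.1, Φ (x.1.2.1, T (x.1.2.2, x.2)))
  have h1 : ContMDiff (𝓘(ℝ, E × P × E).prod I) 𝓘(ℝ, E) r
      (fun x : (E × P × E) × W => x.1.1) :=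
    (contDiff_fst.contMDiff (n := r)).comp contMDiff_fst
  have h2 : ContMDiff (𝓘(ℝ, E × P × E).prod I) 𝓘(ℝ, P) r
      (fun x : (E × P × E) × W => x.1.2.1) :=
    ((contDiff_fst.comp contDiff_snd).contMDiff (n := r)).comp contMDiff_fst
  have h3 : ContMDiff (𝓘(ℝ, E × P × E).prod I) 𝓘(ℝ, E) r
      (fun x : (E × P × E) × W => x.1.2.2) :=
    ((contDiff_snd.comp contDiff_snd).contMDiff (n := r)).comp contMDiff_fst
  have h4 : ContMDiff (𝓘(ℝ, E × P × E).prod I) I r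
      (fun x : (E × P × E) × W => T (x.1.2.2, x.2)) :=
    hTr.comp (h3.prodMk contMDiff_snd)
  have hΦ' : ∀ q, ContMDiffAt (𝓘(ℝ, E × P × E).prod I) I r Φ' (0, q) := by
    intro q
    have h5 : ContMDiffAt (𝓘(ℝ, E × P × E).prod I) (𝓘(ℝ, P).prod I) r
        (fun x : (E × P × E) × W => (x.1.2.1, T (x.1.2.2, x.2))) (0, q) :=
      (h2.contMDiffAt).prodMk (h4.contMDiffAt)
    have h6 : ContMDiffAt (𝓘(ℝ, E × P × E).prod I) I r
        (fun x : (E × P × E) × W => Φ (x.1.2.1, T (x.1.2.2, x.2))) (0, q) := by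
      refine ContMDiffAt.comp_of_eq (g := Φ)
        (f := fun x : (E × P × E) × W => (x.1.2.1, T (x.1.2.2, x.2)))
        (y := ((0 : P), q)) (hΦ q) h5 ?_
      show ((0 : P), T ((0 : E), q)) = ((0 : P), q)
      rw [hT0]
    have h7 : ContMDiffAt (𝓘(ℝ, E × P × E).prod I) (𝓘(ℝ, E).prod I) r
        (fun x : (E × P × E) × W => (x.1.1, Φ (x.1.2.1, T (x.1.2.2, x.2)))) (0, q) :=
      (h1.contMDiffAt).prodMk h6
    exact ContMDiffAt.comp (0, q) (hTr.contMDiffAt) h7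
  have hF' : ∀ q, F q = Φ' (0, q) := by
    intro q
    show F q = T ((0 : E), Φ ((0 : P), T ((0 : E), q)))
    rw [hT0, hT0, hF]
  have hev := mem_nhds_of_family Φ' 0 hΦ' F hF' 𝒰 hU
  rw [Metric.eventually_nhds_iff] at hev
  obtain ⟨ε, hε, hev⟩ := hev
  have hcont : ∀ᶠ q in 𝓝 p, ‖extChartAt I p q - extChartAt I p p‖ < ε := by
    have hc := (continuousAt_extChartAt (I := I) p)
    have := hc.eventually (Metric.ball_mem_nhds (extChartAt I p p) hε)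
    filter_upwards [this] with q hq
    rwa [dist_eq_norm] at hq
  obtain ⟨t, ht, G, hG, q, hq, n, hn, hz, hi, i₀, hi₀, hi₀n, hi₀V⟩ := h _ (hcont.and hTe) ε hε
  obtain ⟨hq1, hq2, -⟩ := hq
  obtain ⟨hz1, -, hz2⟩ := hz
  set v : E := extChartAt I p q - extChartAt I p p with hv
  set z : W := (G : W → W)^[n] q with hzdef
  set v' : E := extChartAt I p p - extChartAt I p z with hv'
  obtain ⟨D₀, hD₀⟩ := hTd v
  obtain ⟨D₁, hD₁⟩ := hTd v'
  let D : W ≃ₘ^r⟮I, I⟯ W :=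
    { toEquiv := D₀.toEquiv
      contMDiff_toFun := D₀.contMDiff.of_le hle
      contMDiff_invFun := D₀.symm.contMDiff.of_le hle }
  let D' : W ≃ₘ^r⟮I, I⟯ W :=
    { toEquiv := D₁.toEquiv
      contMDiff_toFun := D₁.contMDiff.of_le hle
      contMDiff_invFun := D₁.symm.contMDiff.of_le hle }
  have hD : ∀ x, D x = T (v, x) := hD₀
  have hD' : ∀ x, D' x = T (v', x) := hD₁
  have hDp : D p = q := by rw [hD]; exact hq2
  have hD'z : D' z = p := by rw [hD']; exact hz2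
  have hDfix : ∀ x ∉ J, D x = x := fun x hx => by rw [hD]; exact hTJ v x hx
  have hD'fix : ∀ x ∉ J, D' x = x := fun x hx => by rw [hD']; exact hTJ v' x hx
  let G' : W ≃ₘ^r⟮I, I⟯ W := (D.trans G).trans D'
  have hG' : ∀ x, G' x = D' (G (D x)) := fun x => rfl
  have key : ∀ i, 0 < i → i < n → (G' : W → W)^[i] p = (G : W → W)^[i] q := by
    intro i
    induction i with
    | zero => intro h0; exact absurd h0 (lt_irrefl 0)
    | succ i ih =>
      intro _ hin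
      have hJ' := hi (i + 1) (Nat.succ_pos i) hin
      rcases Nat.eq_zero_or_pos i with h0 | h0
      · subst h0
        rw [Function.iterate_succ_apply', Function.iterate_succ_apply'] at *
        simp only [Function.iterate_zero, id_eq] at *
        rw [hG', hDp]
        exact hD'fix _ hJ'
      · have h8 := ih h0 (by omega)
        rw [Function.iterate_succ_apply', h8, hG',
          hDfix _ (hi i h0 (by omega)), Function.iterate_succ_apply']
        rw [Function.iterate_succ_apply'] at hJ'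
        exact hD'fix _ hJ'
  have hper : (G' : W → W)^[n] p = p := by
    obtain ⟨m, rfl⟩ : ∃ m, n = m + 1 := ⟨n - 1, by omega⟩
    rw [Function.iterate_succ_apply'] at hzdef
    rw [Function.iterate_succ_apply']
    rcases Nat.eq_zero_or_pos m with h0 | h0
    · subst h0
      simp only [Function.iterate_zero, id_eq] at *
      rw [hG', hDp, ← hzdef, hD'z]
    · rw [key m h0 (by omega), hG', hDfix _ (hi m h0 (by omega)), ← hzdef, hD'z]
  refine ⟨G', ?_, (G' : W → W)^[i₀] p, ?_, n, hn, ?_⟩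
  · refine hev (y := (v', t, v)) ?_ G' ?_
    · rw [dist_zero_right, Prod.norm_def, Prod.norm_def]
      refine max_lt ?_ (max_lt ht hq1)
      rw [hv', norm_sub_rev]
      exact hz1
    · intro x
      show D' (G (D x)) = T (v', Φ (t, T (v, x)))
      rw [hD', hG, hD]
  · rw [key i₀ hi₀ hi₀n]
    exact hi₀V
  · rw [← Function.iterate_add_apply, add_comm, Function.iterate_add_apply, hper]

/-- the returns of a group extension -/
theorem nh_ext_returns [FiniteDimensional ℝ E] [T2Space W] [CompactSpace W]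
    [IsManifold I ∞ W] [I.Boundaryless] {r : ℕ∞} (F : W ≃ₘ^r⟮I, I⟯ W)
    {P : Type} [NormedAddCommGroup P] [NormedSpace ℝ P] (ψ : P × W → W) (R : ℝ)
    (hψ : SymmetryFamily I r F ψ R)
    {X : Type} [TopologicalSpace X] (Φ : X → X) (π : W → X)
    (hπo : IsOpenMap π) (hinv : ∀ v x, π (ψ (v, x)) = π x)
    (hfib : ∀ x x', π x = π x' → ∃ v, ψ (v, x) = x')
    (hF : ∀ x, π (F x) = Φ (π x)) (q : W) (J V₀ : Set X)
    (h : ∀ U ∈ 𝓝 (π q), ∀ N : ℕ, ∃ n ≥ N, ∃ z ∈ U, Φ^[n] z ∈ U ∧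
      (∀ i, 0 < i → i < n → Φ^[i] z ∉ J) ∧ ∃ i, 0 < i ∧ i < n ∧ Φ^[i] z ∈ V₀) :
    ∀ U ∈ 𝓝 q, ∀ ε > 0, ∃ t : P, ‖t‖ < ε ∧ ∃ G : W ≃ₘ^r⟮I, I⟯ W,
      (∀ x, G x = ψ (t, F x)) ∧ ∃ y ∈ U, ∃ n : ℕ, 0 < n ∧ (G : W → W)^[n] y ∈ U ∧
        (∀ i, 0 < i → i < n → (G : W → W)^[i] y ∉ π ⁻¹' J) ∧
        ∃ i, 0 < i ∧ i < n ∧ (G : W → W)^[i] y ∈ π ⁻¹' V₀ := by
  intro U hUq ε hε
  have hit : ∀ n x, π ((F : W → W)^[n] x) = Φ^[n] (π x) := by
    intro n
    induction n with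
    | zero => intro x; rfl
    | succ n ih =>
      intro x
      rw [Function.iterate_succ_apply', Function.iterate_succ_apply', hF, ih]
  have hU' : π '' U ∈ 𝓝 (π q) := hπo.image_mem_nhds hUq
  obtain ⟨N₁, hN₁⟩ := exists_nat_gt (R / ε)
  obtain ⟨n, hn, z, ⟨y, hyU, hy⟩, ⟨y', hy'U, hy'⟩, hiso, i₀, hi₀, hi₀n, hi₀V⟩ :=
    h _ hU' (max N₁ 1)
  have hn0 : 0 < n := lt_of_lt_of_le Nat.one_pos ((le_max_right _ _).trans hn)
  have h1 : π ((F : W → W)^[n] y) = π y' := by rw [hit, hy, hy']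
  obtain ⟨v₀, hv₀⟩ := hfib _ _ h1
  obtain ⟨v, hvR, hv⟩ := hψ.bound v₀
  rw [hv] at hv₀
  have hn0' : (0 : ℝ) < n := by exact_mod_cast hn0
  set t : P := (1 / (n : ℝ)) • v with ht
  have htn : ‖t‖ < ε := by
    rw [ht, norm_smul, Real.norm_eq_abs, abs_of_pos (by positivity), one_div_mul_eq_div,
      div_lt_iff₀ hn0']
    have h2 : R / ε < n := hN₁.trans_le (by exact_mod_cast (le_max_left _ _).trans hn)
    rw [div_lt_iff₀ hε] at h2
    linarith
  let G₀ : W ≃ₘ^r⟮I, I⟯ W :=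
    { toFun := fun x => ψ (t, x)
      invFun := fun x => ψ ((-1 : ℝ) • t, x)
      left_inv := fun x => by
        have h3 := hψ.add (-1) 1 t x
        rw [neg_add_cancel, zero_smul, hψ.zero, one_smul] at h3
        exact h3.symm
      right_inv := fun x => by
        have h3 := hψ.add 1 (-1) t x
        rw [add_neg_cancel, zero_smul, hψ.zero, one_smul] at h3
        exact h3.symm
      contMDiff_toFun := hψ.smooth.comp (contMDiff_const.prodMk contMDiff_id)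
      contMDiff_invFun := hψ.smooth.comp (contMDiff_const.prodMk contMDiff_id) }
  let G : W ≃ₘ^r⟮I, I⟯ W := F.trans G₀
  have hG : ∀ x, G x = ψ (t, F x) := fun x => rfl
  have hGi : ∀ (i : ℕ), (G : W → W)^[i] y = ψ ((i : ℝ) • t, (F : W → W)^[i] y) := by
    intro i
    induction i with
    | zero => simp [hψ.zero]
    | succ i ih =>
      rw [Function.iterate_succ_apply', ih, hG, hψ.comm, Function.iterate_succ_apply']
      have h3 := hψ.add 1 (i : ℝ) t (F ((F : W → W)^[i] y))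
      rw [one_smul] at h3
      rw [← h3]
      congr 3
      push_cast
      ring
  have hGπ : ∀ i, π ((G : W → W)^[i] y) = Φ^[i] z := by
    intro i
    rw [hGi, hinv, hit, hy]
  refine ⟨t, htn, G, hG, y, hyU, n, hn0, ?_, fun i hi1 hi2 hi3 => ?_, i₀, hi₀, hi₀n, ?_⟩
  · rw [hGi, ht, smul_smul, mul_one_div_cancel hn0'.ne', one_smul, hv₀]
    exact hy'U
  · apply hiso i hi1 hi2
    rw [← hGπ]
    exact hi3
  · show π _ ∈ V₀
    rw [hGπ]
    exact hi₀V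

/-- **Closing over a point with isolated returns** (group extensions). -/
theorem nh_close_ext [FiniteDimensional ℝ E] [T2Space W] [CompactSpace W]
    [IsManifold I ∞ W] [I.Boundaryless] {r : ℕ∞} (F : W ≃ₘ^r⟮I, I⟯ W)
    {P : Type} [NormedAddCommGroup P] [NormedSpace ℝ P] (ψ : P × W → W) (R : ℝ)
    (hψ : SymmetryFamily I r F ψ R)
    {X : Type} [TopologicalSpace X] (Φ : X → X) (π : W → X) (hπc : Continuous π)
    (hπo : IsOpenMap π) (hinv : ∀ v x, π (ψ (v, x)) = π x)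
    (hfib : ∀ x x', π x = π x' → ∃ v, ψ (v, x) = x')
    (hF : ∀ x, π (F x) = Φ (π x)) (q : W) (J : Set X) (hJ : J ∈ 𝓝 (π q))
    (h : ∀ U ∈ 𝓝 (π q), ∀ N : ℕ, ∃ n ≥ N, ∃ z ∈ U, Φ^[n] z ∈ U ∧
      ∀ i, 0 < i → i < n → Φ^[i] z ∉ J) : Closable I F q := by
  have hFsnd : ContMDiff (𝓘(ℝ, P).prod I) I r (fun x : P × W => F x.2) :=
    F.contMDiff.comp contMDiff_snd
  have hfst : ContMDiff (𝓘(ℝ, P).prod I) 𝓘(ℝ, P) r (fun x : P × W => x.1) := contMDiff_fst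
  have hΦ : ContMDiff (𝓘(ℝ, P).prod I) I r (fun x : P × W => ψ (x.1, F x.2)) :=
    hψ.smooth.comp (hfst.prodMk hFsnd)
  refine closable_of_family (P := P) (fun x => ψ (x.1, F x.2)) (fun q => hΦ.contMDiffAt) F
    (fun q => (hψ.zero _).symm) q (π ⁻¹' J) (hπc.continuousAt hJ) fun U hU ε hε => ?_
  obtain ⟨t, ht, G, hG, y, hy, n, hn, hny, hi, -⟩ := nh_ext_returns F ψ R hψ Φ π hπo hinv hfib hF q
    J Set.univ (fun U hU N => by
      obtain ⟨n, hn, z, hz, hz1, hz2⟩ := h U hU (max N 2)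
      exact ⟨n, (le_max_left _ _).trans hn, z, hz, hz1, hz2, 1, Nat.one_pos,
        lt_of_lt_of_le Nat.one_lt_two ((le_max_right _ _).trans hn), Set.mem_univ _⟩) U hU ε hε
  exact ⟨t, ht, G, hG, y, hy, n, hn, hny, hi⟩

/-- **Closing over a point visited by isolated returns** (group extensions). -/
theorem nh_close_ext_via [FiniteDimensional ℝ E] [T2Space W] [CompactSpace W]
    [IsManifold I ∞ W] [I.Boundaryless] {r : ℕ∞} (F : W ≃ₘ^r⟮I, I⟯ W)
    {P : Type} [NormedAddCommGroup P] [NormedSpace ℝ P] (ψ : P × W → W) (R : ℝ)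
    (hψ : SymmetryFamily I (⊤ : ℕ∞) F ψ R)
    {X : Type} [TopologicalSpace X] [T2Space X] (Φ : X → X) (π : W → X) (hπc : Continuous π)
    (hπo : IsOpenMap π) (hinv : ∀ v x, π (ψ (v, x)) = π x)
    (hfib : ∀ x x', π x = π x' → ∃ v, ψ (v, x) = x')
    (hF : ∀ x, π (F x) = Φ (π x)) (q : W) (J : Set X) (hJ : J ∈ 𝓝 (π q)) (x₀ : X)
    (h : ∀ U ∈ 𝓝 (π q), ∀ V₀ ∈ 𝓝 x₀, ∀ N : ℕ, ∃ n ≥ N, ∃ z ∈ U, Φ^[n] z ∈ U ∧
      (∀ i, 0 < i → i < n → Φ^[i] z ∉ J) ∧ ∃ i, 0 < i ∧ i < n ∧ Φ^[i] z ∈ V₀) (p : W)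
    (hp : π p = x₀) : Closable I F p := by
  have hle : (r : WithTop ℕ∞) ≤ (∞ : WithTop ℕ∞) := by exact_mod_cast le_top
  have hψr : SymmetryFamily I r F ψ R :=
    ⟨hψ.smooth.of_le hle, hψ.zero, hψ.add, hψ.comm, hψ.bound⟩
  have hFsnd : ContMDiff (𝓘(ℝ, P).prod I) I r (fun x : P × W => F x.2) :=
    F.contMDiff.comp contMDiff_snd
  have hfst : ContMDiff (𝓘(ℝ, P).prod I) 𝓘(ℝ, P) r (fun x : P × W => x.1) := contMDiff_fst
  have hΦ : ContMDiff (𝓘(ℝ, P).prod I) I r (fun x : P × W => ψ (x.1, F x.2)) :=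
    hψr.smooth.comp (hfst.prodMk hFsnd)
  have claimA : ∀ 𝒰 ∈ @nhds _ (crTopology I r) F, ∀ V₀ ∈ 𝓝 x₀, ∃ G ∈ 𝒰, ∃ u : W, π u ∈ V₀ ∧
      Closable I G u := by
    intro 𝒰 h𝒰 V₀ hV₀
    obtain ⟨G, hG, u, hu, hper⟩ := nh_close_family (P := P) (fun x => ψ (x.1, F x.2))
      (fun q => hΦ.contMDiffAt) F (fun q => (hψ.zero _).symm) q (π ⁻¹' J) (hπc.continuousAt hJ)
      (π ⁻¹' V₀) (nh_ext_returns F ψ R hψr Φ π hπo hinv hfib hF q J V₀
        fun U hU N => h U hU V₀ hV₀ N) 𝒰 h𝒰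
    exact ⟨G, hG, u, hu, nh_closable_periodic G u hper⟩
  obtain ⟨u, hu, hcl⟩ : ∃ u, π u = x₀ ∧ Closable I F u := by
    by_contra hcon
    push Not at hcon
    have hK : IsCompact (π ⁻¹' {x₀}) := (isClosed_singleton.preimage hπc).isCompact
    have h1 : ∀ u ∈ π ⁻¹' {x₀}, ∃ V : Set W, IsOpen V ∧ u ∈ V ∧
        ∃ 𝒰 ∈ @nhds _ (crTopology I r) F, ∀ G ∈ 𝒰, ∀ q ∈ V, ¬ Closable I G q := by
      intro u hu
      by_contra h2
      push Not at h2
      refine hcon u hu (closable_of_pairs F u fun 𝒰 h𝒰 V hV => ?_)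
      obtain ⟨V', hV'V, hV', huV'⟩ := mem_nhds_iff.1 hV
      obtain ⟨G, hG, q, hq, hGq⟩ := h2 V' hV' huV' 𝒰 h𝒰
      exact ⟨G, hG, q, hV'V hq, hGq⟩
    choose! V hVo hVm 𝒰 h𝒰 hno using h1
    obtain ⟨t, ht, hcov⟩ := hK.elim_nhds_subcover V fun u hu => (hVo u hu).mem_nhds (hVm u hu)
    have hopen : IsOpen (⋃ u ∈ t, V u) := isOpen_biUnion fun u hu => hVo u (ht u hu)
    have hcl : IsClosed (π '' (⋃ u ∈ t, V u)ᶜ) :=
      (hopen.isClosed_compl.isCompact.image hπc).isClosed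
    have hV₀ : (π '' (⋃ u ∈ t, V u)ᶜ)ᶜ ∈ 𝓝 x₀ := by
      refine hcl.isOpen_compl.mem_nhds ?_
      rintro ⟨u, hu, hux⟩
      exact hu (hcov hux)
    have hU₀ : (⋂ u ∈ t, 𝒰 u) ∈ @nhds _ (crTopology I r) F :=
      (Filter.biInter_finset_mem t).2 fun u hu => h𝒰 u (ht u hu)
    obtain ⟨G, hG, u, hu, hGu⟩ := claimA _ hU₀ _ hV₀
    have h2 : u ∈ ⋃ u ∈ t, V u := by
      by_contra h3
      exact hu ⟨u, h3, rfl⟩
    obtain ⟨u', hu't, hu'⟩ := Set.mem_iUnion₂.1 h2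
    exact hno u' (ht u' hu't) G (Set.mem_iInter₂.1 hG u' hu't) u hu' hGu
  obtain ⟨v, hv⟩ := hfib p u (by rw [hp, hu])
  have hsm : ∀ w : P, ContMDiff I (𝓘(ℝ, P).prod I) ∞ (fun x : W => (w, x)) := fun w =>
    contMDiff_const.prodMk contMDiff_id
  let D : W ≃ₘ^∞⟮I, I⟯ W :=
    { toFun := fun x => ψ (v, x)
      invFun := fun x => ψ ((-1 : ℝ) • v, x)
      left_inv := fun x => by
        have h3 := hψ.add (-1) 1 v x
        rw [neg_add_cancel, zero_smul, hψ.zero, one_smul] at h3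
        exact h3.symm
      right_inv := fun x => by
        have h3 := hψ.add 1 (-1) v x
        rw [add_neg_cancel, zero_smul, hψ.zero, one_smul] at h3
        exact h3.symm
      contMDiff_toFun := hψ.smooth.comp (hsm _)
      contMDiff_invFun := hψ.smooth.comp (hsm _) }
  refine closable_conj D F F (fun x => ?_) p ?_
  · show F x = D.symm (F (ψ (v, x)))
    rw [hψ.comm]
    exact (D.symm_apply_apply (F x)).symm
  · show Closable I F (ψ (v, p))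
    rw [hv]
    exact hcl

end Pool.Agent.SC
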