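import Pool.Agent.Lib.MP_1e8d1a_an.NH.Lin3

/-! Linear splittings: from a cocycle and its inverse to the form used for the shadowing. -/

open scoped Topology

namespace Pool.Agent.SC

/-- the linear part of `DomSplitW` -/
def LinSplit {L : Type} (T S : L → L) {V : Type} [NormedAddCommGroup V] [NormedSpace ℝ V]
    (A A' P : L → V →ₗ[ℝ] V) (m : L → ℝ) (C θ : ℝ) : Prop :=
  (∀ y v, P y (P y v) = P y v) ∧
    (∀ y v, P (T y) v = 0 → A y (A' y v) = v ∧ P y (A' y v) = 0) ∧
    (∀ (k : ℕ) y v, ‖coc T (fun y v => A y v) k y (P y v)‖ ≤ C * θ ^ k * wprod T m k y * ‖v‖) ∧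
    ∀ (k : ℕ) y v, wprod T m k (S^[k] y) * ‖bcoc S (fun y v => A' y v) k y (v - P y v)‖ ≤
      C * θ ^ k * ‖v‖

/-- a cocycle `A` over `T` with an invariant splitting, dominated at the level `m` -/
def CocSplit {L : Type} (T : L → L) {V : Type} [NormedAddCommGroup V] [NormedSpace ℝ V]
    (A P : L → V →ₗ[ℝ] V) (m : L → ℝ) (C θ : ℝ) : Prop :=
  (∀ y v, P y (P y v) = P y v) ∧ (∀ y v, P (T y) (A y v) = A y (P y v)) ∧
    (∀ (k : ℕ) y v, ‖coc T (fun y v => A y v) k y (P y v)‖ ≤ C * θ ^ k * wprod T m k y * ‖v‖) ∧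
    ∀ (k : ℕ) y v, wprod T m k y * ‖v - P y v‖ ≤
      C * θ ^ k * ‖coc T (fun y v => A y v) k y (v - P y v)‖

section
variable {L V : Type} [NormedAddCommGroup V] [NormedSpace ℝ V] {T S : L → L}
  {A B P : L → V →ₗ[ℝ] V}

theorem cv_iter (hTS : ∀ y, T (S y) = y) (k : ℕ) (y : L) : T^[k] (S^[k] y) = y :=
  (Function.LeftInverse.iterate (g := T) (f := S) hTS k) y

/-- the products commute with the projections -/
theorem cv_comm (hP : ∀ y v, P (T y) (A y v) = A y (P y v)) (k : ℕ) (y : L) (v : V) :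
    P (T^[k] y) (coc T (fun y v => A y v) k y v) = coc T (fun y v => A y v) k y (P y v) := by
  induction k with
  | zero => rfl
  | succ k ih =>
    rw [Function.iterate_succ_apply']
    show P (T (T^[k] y)) (A (T^[k] y) _) = A (T^[k] y) _
    rw [hP, ih]

/-- `bcoc` is the inverse of `coc` -/
theorem cv_coc_bcoc (hTS : ∀ y, T (S y) = y)
    (hAB : ∀ y v, A y (B y v) = v) (k : ℕ) : ∀ (y : L) (v : V),
    coc T (fun y v => A y v) k (S^[k] y) (bcoc S (fun y v => B y v) k y v) = v := by
  induction k with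
  | zero => intro y v; rfl
  | succ k ih =>
    intro y v
    have h1 : ∀ (k : ℕ) (x : L) (w : V), coc T (fun y v => A y v) (k + 1) x w =
        coc T (fun y v => A y v) k (T x) (A x w) := by
      intro k
      induction k with
      | zero => intro x w; rfl
      | succ k ih =>
        intro x w
        show A (T^[k + 1] x) (coc T (fun y v => A y v) (k + 1) x w) = _
        rw [ih]
        rfl
    rw [h1]
    show coc T (fun y v => A y v) k (T (S^[k + 1] y))
      (A (S^[k + 1] y) (B (S^[k + 1] y) (bcoc S (fun y v => B y v) k y v))) = v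
    rw [hAB, Function.iterate_succ_apply', hTS]
    exact ih y v

theorem cv_coc_inj (hBA : ∀ y v, B y (A y v) = v) (k : ℕ) (y : L) (v w : V)
    (h : coc T (fun y v => A y v) k y v = coc T (fun y v => A y v) k y w) : v = w := by
  induction k with
  | zero => exact h
  | succ k ih =>
    apply ih
    have h1 : A (T^[k] y) (coc T (fun y v => A y v) k y v) =
        A (T^[k] y) (coc T (fun y v => A y v) k y w) := h
    have h2 := congrArg (B (T^[k] y)) h1
    rwa [hBA, hBA] at h2

theorem cv_sub_le {C : ℝ} (hP : ∀ y v, ‖P y v‖ ≤ C * ‖v‖) (y : L) (v : V) :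
    ‖v - P y v‖ ≤ (1 + C) * ‖v‖ := by
  refine (norm_sub_le _ _).trans ?_
  have := hP y v
  linarith

/-- **From a cocycle**, the same direction. -/
theorem cv_forward (hTS : ∀ y, T (S y) = y)
    (hAB : ∀ y v, A y (B y v) = v) (hBA : ∀ y v, B y (A y v) = v) {m : L → ℝ} {C θ : ℝ}
    (hC : 0 ≤ C) (hθ : 0 ≤ θ) (hm : ∀ y, 0 < m y)
    (h : CocSplit T A P m C θ) : LinSplit T S A B P m (C * (1 + C)) θ := by
  obtain ⟨h1, h2, h3, h4⟩ := h
  have hP0 : ∀ y v, ‖P y v‖ ≤ C * ‖v‖ := by
    intro y v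
    have := h3 0 y v
    rw [pow_zero, mul_one, wprod_zero, mul_one] at this
    exact this
  have hCC : C ≤ C * (1 + C) := by nlinarith
  refine ⟨h1, fun y v hv => ⟨hAB y v, ?_⟩, fun k y v => (h3 k y v).trans ?_, fun k y v => ?_⟩
  · have h5 : A y (P y (B y v)) = 0 := by
      rw [← h2, hAB, hv]
    have h6 := congrArg (B y) h5
    rwa [hBA, map_zero] at h6
  · have h7 := wprod_pos T hm k y
    have h8 := pow_nonneg hθ k
    have h9 : C * θ ^ k * wprod T m k y * ‖v‖ = C * (θ ^ k * wprod T m k y * ‖v‖) := by ring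
    have h10 : C * (1 + C) * θ ^ k * wprod T m k y * ‖v‖ =
        C * (1 + C) * (θ ^ k * wprod T m k y * ‖v‖) := by ring
    rw [h9, h10]
    exact mul_le_mul_of_nonneg_right hCC (by positivity)
  · set w := v - P y v with hw
    have hPw : P y w = 0 := by rw [hw, map_sub, h1, sub_self]
    set u := bcoc S (fun y v => B y v) k y w with hu
    have hu1 : coc T (fun y v => A y v) k (S^[k] y) u = w := cv_coc_bcoc hTS hAB k y w
    have hu2 : P (S^[k] y) u = 0 := by
      have h5 := cv_comm (P := P) h2 k (S^[k] y) u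
      rw [cv_iter hTS, hu1, hPw] at h5
      refine cv_coc_inj (T := T) (A := A) (B := B) hBA k (S^[k] y) _ _ ?_
      rw [← h5]
      have h6 := nh_coc_sub T A k (S^[k] y) (0 : V) 0
      rw [sub_self, sub_self] at h6
      exact h6.symm
    have h5 := h4 k (S^[k] y) u
    rw [hu2, sub_zero, hu1] at h5
    refine h5.trans ?_
    have h6 := cv_sub_le hP0 y v
    have h8 := pow_nonneg hθ k
    calc C * θ ^ k * ‖w‖ ≤ C * θ ^ k * ((1 + C) * ‖v‖) :=
          mul_le_mul_of_nonneg_left h6 (by positivity)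
      _ = C * (1 + C) * θ ^ k * ‖v‖ := by ring

/-- the weights of the inverse -/
theorem cv_weights (hST : ∀ y, S (T y) = y) (m : L → ℝ) (k : ℕ) (y : L) :
    wprod T (fun y => (m (T y))⁻¹) k y = (wprod S m k (T^[k] y))⁻¹ := by
  have hSi : ∀ k j, S^[k] (T^[j + k] y) = T^[j] y := by
    intro k
    induction k with
    | zero => intro j; rfl
    | succ k ih =>
      intro j
      have h1 : j + (k + 1) = (j + 1) + k := by omega
      rw [h1, Function.iterate_succ_apply', ih, Function.iterate_succ_apply', hST]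
  unfold wprod
  rw [← Finset.prod_inv_distrib, ← Finset.prod_range_reflect]
  refine Finset.prod_congr rfl fun i hi => ?_
  have hi' := Finset.mem_range.1 hi
  have h1 := hSi i (k - i)
  rw [show k - i + i = k by omega] at h1
  rw [h1]
  show (m (T (T^[k - 1 - i] y)))⁻¹ = (m (T^[k - i] y))⁻¹
  rw [← Function.iterate_succ_apply' (f := T), show (k - 1 - i).succ = k - i by omega]

/-- **From the inverse cocycle.** -/
theorem cv_backward (hST : ∀ y, S (T y) = y) (hTS : ∀ y, T (S y) = y)
    (hAB : ∀ y v, A y (B y v) = v) (hBA : ∀ y v, B y (A y v) = v) {m : L → ℝ} {C θ : ℝ}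
    (hC : 0 ≤ C) (hθ : 0 ≤ θ) (hm : ∀ y, 0 < m y)
    (h : CocSplit S (fun y => B (S y)) P m C θ) :
    LinSplit T S A B (fun y => LinearMap.id - P y) (fun y => (m (T y))⁻¹) (C * (1 + C)) θ := by
  obtain ⟨h1, h2, h3, h4⟩ := h
  have hP0 : ∀ y v, ‖P y v‖ ≤ C * ‖v‖ := by
    intro y v
    have := h3 0 y v
    rw [pow_zero, mul_one, wprod_zero, mul_one] at this
    exact this
  have hCC : C ≤ C * (1 + C) := by nlinarith
  have hid : ∀ y v, (LinearMap.id - P y : V →ₗ[ℝ] V) v = v - P y v := fun y v => rfl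
  have h2' : ∀ y v, P y (B y v) = B y (P (T y) v) := by
    intro y v
    have h5 := h2 (T y) v
    simp only [hST] at h5
    exact h5
  have hSA : ∀ (k : ℕ) (y : L) (v : V), bcoc S (fun y v => B y v) k y v =
      coc S (fun y v => B (S y) v) k y v := by
    intro k y v
    induction k with
    | zero => rfl
    | succ k ih =>
      show B (S^[k + 1] y) (bcoc S (fun y v => B y v) k y v) =
        B (S (S^[k] y)) (coc S (fun y v => B (S y) v) k y v)
      rw [ih, Function.iterate_succ_apply']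
  refine ⟨fun y v => ?_, fun y v hv => ⟨hAB y v, ?_⟩, fun k y v => ?_, fun k y v => ?_⟩
  · simp only [hid, map_sub, h1]
    abel
  · rw [hid] at hv ⊢
    rw [h2', ← sub_eq_zero.1 hv, sub_self]
  · simp only [hid]
    set w := v - P y v with hw
    have hPw : P y w = 0 := by rw [hw, map_sub, h1, sub_self]
    set u := coc T (fun y v => A y v) k y w with hu
    have hSk : S^[k] (T^[k] y) = y := cv_iter hST k y
    have hu1 : coc S (fun y v => B (S y) v) k (T^[k] y) u = w := by
      rw [← hSA]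
      refine cv_coc_inj (T := T) (A := A) (B := B) hBA k y _ _ ?_
      have h5 := cv_coc_bcoc (T := T) (S := S) (A := A) (B := B) hTS hAB k (T^[k] y) u
      rw [hSk] at h5
      exact h5
    have hu2 : P (T^[k] y) u = 0 := by
      have h5 := cv_comm (T := S) (A := fun y => B (S y)) (P := P) h2 k (T^[k] y) u
      rw [hSk] at h5
      have h5' : P y w = coc S (fun y v => B (S y) v) k (T^[k] y) (P (T^[k] y) u) := by
        rw [← hu1]
        exact h5
      rw [hPw, ← hSA] at h5'
      have h6 := cv_coc_bcoc (T := T) (S := S) (A := A) (B := B) hTS hAB k (T^[k] y)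
        (P (T^[k] y) u)
      rw [← h5', hSk] at h6
      rw [← h6]
      have h7 := nh_coc_sub T A k y (0 : V) 0
      rwa [sub_self, sub_self] at h7
    have h5 := h4 k (T^[k] y) u
    rw [hu2, sub_zero] at h5
    have h5' : wprod S m k (T^[k] y) * ‖u‖ ≤ C * θ ^ k * ‖w‖ := by
      rw [← hu1] at *
      exact h5
    have h6 := cv_sub_le hP0 y v
    have h8 := pow_nonneg hθ k
    rw [cv_weights hST]
    have h9 : 0 < wprod S m k (T^[k] y) := wprod_pos S hm k _
    have h10 : ‖u‖ ≤ (C * θ ^ k * ((1 + C) * ‖v‖)) * (wprod S m k (T^[k] y))⁻¹ := by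
      rw [le_mul_inv_iff₀ h9, mul_comm]
      exact h5'.trans (mul_le_mul_of_nonneg_left h6 (by positivity))
    refine h10.trans (le_of_eq ?_)
    ring
  · simp only [hid, sub_sub_cancel]
    rw [cv_weights hST, cv_iter hTS, hSA]
    have h9 : 0 < wprod S m k y := wprod_pos S hm k _
    rw [inv_mul_le_iff₀ h9]
    refine (h3 k y v).trans ?_
    have h8 := pow_nonneg hθ k
    have h10 : C * θ ^ k * wprod S m k y * ‖v‖ = C * (θ ^ k * wprod S m k y * ‖v‖) := by ring
    have h11 : wprod S m k y * (C * (1 + C) * θ ^ k * ‖v‖) =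
        C * (1 + C) * (θ ^ k * wprod S m k y * ‖v‖) := by ring
    rw [h10, h11]
    exact mul_le_mul_of_nonneg_right hCC (by positivity)

end

end Pool.Agent.SC
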