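import Mathlib

/-! Dominated tubes over arbitrary homeomorphisms: definitions. -/

open scoped Topology

namespace Pool.Agent.SC

/-- Orbits of `T` lead from `a` to `b`: every neighbourhood of `a` contains a point with an iterate,
of arbitrarily large order, in a given neighbourhood of `b`. -/
def Leads {L : Type} [TopologicalSpace L] (T : L → L) (a b : L) : Prop :=
  ∀ U ∈ 𝓝 a, ∀ V ∈ 𝓝 b, ∀ N : ℕ, ∃ n ≥ N, ∃ y ∈ U, T^[n] y ∈ V

/-- Orbits of `T` lead from `a` via `c` to `b`. -/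
def LeadsVia {L : Type} [TopologicalSpace L] (T : L → L) (a c b : L) : Prop :=
  ∀ U ∈ 𝓝 a, ∀ O ∈ 𝓝 c, ∀ V ∈ 𝓝 b, ∀ N : ℕ, ∃ i ≥ N, ∃ n ≥ i + N, ∃ y ∈ U,
    T^[i] y ∈ O ∧ T^[n] y ∈ V

/-- `T` is topologically transitive. -/
def TopTransitive {L : Type} [TopologicalSpace L] (T : L → L) : Prop :=
  ∀ U V : Set L, IsOpen U → IsOpen V → U.Nonempty → V.Nonempty → ∃ n > 0, ∃ y ∈ U, T^[n] y ∈ V

/-- forward products `A_{T^{k-1} y} ... A_{T y} A_y` -/
def coc {L V : Type} (T : L → L) (A : L → V → V) : ℕ → L → V → V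
  | 0, _, v => v
  | k + 1, y, v => A (T^[k] y) (coc T A k y v)

/-- backward products `A'_{S^k y} ... A'_{S y}` -/
def bcoc {L V : Type} (S : L → L) (A' : L → V → V) : ℕ → L → V → V
  | 0, _, v => v
  | k + 1, y, v => A' (S^[k + 1] y) (bcoc S A' k y v)

/-- The maps `G (y, ·)`, from the fibre `V` over `y` to the fibre `V` over `T y`, have a dominated
splitting at the level `μ`: `G (y, v) = A_y v + φ (y, v)`, where `A_y` is linear, bounded uniformly in
`y`, `P_y` is a linear projection, the products of the `A` along orbits satisfy `‖A^k P‖ ≤ C α^k` with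
`α < μ`; on the kernels of the `P_y` the `A_y` have inverses `A'_y` with `‖A'^k (1 - P)‖ ≤ C β^k`,
`β μ < 1`; and `φ (y, ·)` vanishes at `0` and is Lipschitz with a constant `κ` that is small with
respect to `C, α, β, μ`. -/
def DomSplit {L : Type} [TopologicalSpace L] (T : L ≃ₜ L) {V : Type}
    [NormedAddCommGroup V] [NormedSpace ℝ V] (G : L × V → V) (μ : ℝ) : Prop :=
  ∃ (A A' P : L → V →ₗ[ℝ] V) (φ : L × V → V) (M C α β κ : ℝ),
    0 ≤ C ∧ 0 ≤ α ∧ α < μ ∧ 0 ≤ β ∧ β * μ < 1 ∧ 0 ≤ κ ∧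
    C * (1 / (μ - α) + β / (1 - β * μ)) * κ < 1 ∧
    (∀ y v, ‖A y v‖ ≤ M * ‖v‖) ∧ (∀ y v, P y (P y v) = P y v) ∧
    (∀ y v, P (T y) v = 0 → A y (A' y v) = v ∧ P y (A' y v) = 0) ∧
    (∀ (k : ℕ) y v, ‖coc T (fun y v => A y v) k y (P y v)‖ ≤ C * α ^ k * ‖v‖) ∧
    (∀ (k : ℕ) y v, ‖bcoc T.symm (fun y v => A' y v) k y (v - P y v)‖ ≤ C * β ^ k * ‖v‖) ∧
    (∀ y, φ (y, 0) = 0) ∧ (∀ y v v', ‖φ (y, v) - φ (y, v')‖ ≤ κ * ‖v - v'‖) ∧
    ∀ y v, G (y, v) = A y v + φ (y, v)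

/-- `h : L × V → X` is a tube for `Φ` over the set `h (L × {0})`: on the vectors of norm at most `ρ`
it carries the skew product `(y, v) ↦ (T y, G (y, v))` to `Φ`. -/
def IsTube {X : Type} (Φ : X → X) {L : Type} (T : L → L) {V : Type} [NormedAddCommGroup V]
    (G : L × V → V) (h : L × V → X) (ρ : ℝ) : Prop :=
  ∀ y v, ‖v‖ ≤ ρ → Φ (h (y, v)) = h (T y, G (y, v))

/-- `q` is in the strong stable set, of rate `μ`, of the point `y`: the forward orbit of `q` is
asymptotic, inside the tube, to the orbit of `y`, with distances `o(μ^i)`. -/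
def StrongStable {X : Type} (Φ : X → X) {L : Type} (T : L → L) {V : Type} [NormedAddCommGroup V]
    (G : L × V → V) (h : L × V → X) (μ : ℝ) (q : X) (y : L) : Prop :=
  ∃ (N : ℕ) (a : ℕ → V), Filter.Tendsto (fun i => (μ ^ i)⁻¹ * ‖a i‖) Filter.atTop (𝓝 0) ∧
    ∀ i ≥ N, Φ^[i] q = h (T^[i] y, a i) ∧ a (i + 1) = G (T^[i] y, a i)

/-- `q` is in the strong unstable set, of rate `μ`, of the point `y`: the backward orbit of `q` is
asymptotic, inside the tube, to the backward orbit of `y`, with distances `o(μ^{-i})`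
(`Ψ = Φ⁻¹`, `S = T⁻¹`). -/
def StrongUnstable {X : Type} (Ψ : X → X) {L : Type} (S : L → L) {V : Type}
    [NormedAddCommGroup V] (G : L × V → V) (h : L × V → X) (μ : ℝ) (q : X) (y : L) : Prop :=
  ∃ (N : ℕ) (b : ℕ → V), Filter.Tendsto (fun i => μ ^ i * ‖b i‖) Filter.atTop (𝓝 0) ∧
    ∀ i ≥ N, Ψ^[i] q = h (S^[i] y, b i) ∧ b i = G (S^[i + 1] y, b (i + 1))

/-- The data of a partially hyperbolic set: `h` is a tube, of radius `ρ`, over `h (L × {0})`, and the
fibre maps have dominated splittings at a level `μs ≤ 1` (strong stable / rest) and at a level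
`μu ≥ 1` (rest / strong unstable). -/
def PHTube {X : Type} [TopologicalSpace X] (Φ : X → X) {L : Type} [TopologicalSpace L]
    (T : L ≃ₜ L) {V : Type} [NormedAddCommGroup V] [NormedSpace ℝ V] (G : L × V → V)
    (h : L × V → X) (ρ μs μu : ℝ) : Prop :=
  Continuous G ∧ Continuous h ∧ 0 < ρ ∧ IsTube Φ T G h ρ ∧ 0 < μs ∧ μs ≤ 1 ∧ 1 ≤ μu ∧
    DomSplit T G μs ∧ DomSplit T G μu

/-- `q` is a strong homoclinic point, with the phases `yp` (forward) and `ym` (backward): it is not in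
`h (L × {0})`, it is in the strong stable set of `yp` and in the strong unstable set of `ym`. -/
def StrongHomoclinic {X : Type} (Φ : X ≃ X) {L : Type} (T : L ≃ L) {V : Type}
    [NormedAddCommGroup V] (G : L × V → V) (h : L × V → X) (μs μu : ℝ) (q : X) (yp ym : L) :
    Prop :=
  (∀ y, h (y, 0) ≠ q) ∧ StrongStable Φ T G h μs q yp ∧ StrongUnstable Φ.symm T.symm G h μu q ym

end Pool.Agent.SC
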