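import Pool.Agent.Lib.MP_1e8d1a_an.NH.Link

/-! Excursions from a homoclinic point through the tube. -/

open scoped Topology

namespace Pool.Agent.SC

/-- the tube around the zero section avoids a neighbourhood of `q` -/
theorem nh_away {X L V : Type} [TopologicalSpace X] [T2Space X] [TopologicalSpace L]
    [CompactSpace L] [NormedAddCommGroup V] (h : L × V → X) (hh : Continuous h) (q : X)
    (hq : ∀ y, h (y, 0) ≠ q) : ∃ δ > 0, ∃ J ∈ 𝓝 q, ∀ y v, ‖v‖ < δ → h (y, v) ∉ J := by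
  have h1 : ∀ y ∈ (Set.univ : Set L), ∀ᶠ z : (V × X) × L in 𝓝 (((0 : V), q), y),
      h (z.2, z.1.1) ≠ z.1.2 := by
    intro y _
    have c1 : Continuous (fun z : (V × X) × L => h (z.2, z.1.1)) := by fun_prop
    have c2 : Continuous (fun z : (V × X) × L => z.1.2) := by fun_prop
    exact (isOpen_ne_fun c1 c2).mem_nhds (hq y)
  have h2 := isCompact_univ.eventually_forall_of_forall_eventually
    (P := fun (w : V × X) (y : L) => h (y, w.1) ≠ w.2) h1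
  rw [nhds_prod_eq] at h2
  obtain ⟨O, hO, J, hJ, hOJ⟩ := Filter.mem_prod_iff.1 h2
  obtain ⟨δ, hδ, hδO⟩ := Metric.mem_nhds_iff.1 hO
  refine ⟨δ, hδ, J, hJ, fun y v hv hcon => ?_⟩
  have h3 : ((v, h (y, v)) : V × X) ∈ O ×ˢ J :=
    ⟨hδO (by rwa [Metric.mem_ball, dist_zero_right]), hcon⟩
  exact hOJ h3 y (Set.mem_univ _) rfl

/-- finitely many iterates of a point near `q` avoid a neighbourhood of `q` -/
theorem nh_finite {X : Type} [TopologicalSpace X] [T2Space X] (f : X → X) (hf : Continuous f)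
    (q : X) (N : ℕ) (hq : ∀ m, 0 < m → f^[m] q ≠ q) :
    ∃ U ∈ 𝓝 q, ∃ J ∈ 𝓝 q, ∀ z ∈ U, ∀ m, 0 < m → m ≤ N → f^[m] z ∉ J := by
  induction N with
  | zero => exact ⟨Set.univ, Filter.univ_mem, Set.univ, Filter.univ_mem,
      fun z _ m h1 h2 => by omega⟩
  | succ N ih =>
    obtain ⟨U, hU, J, hJ, h1⟩ := ih
    obtain ⟨A, B, hA, hB, hqA, hqB, hAB⟩ := t2_separation (hq (N + 1) (Nat.succ_pos N))
    have h2 : f^[N + 1] ⁻¹' A ∈ 𝓝 q := (hf.iterate (N + 1)).continuousAt (hA.mem_nhds hqA)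
    refine ⟨U ∩ f^[N + 1] ⁻¹' A, Filter.inter_mem hU h2, J ∩ B,
      Filter.inter_mem hJ (hB.mem_nhds hqB), fun z hz m hm1 hm2 hm3 => ?_⟩
    rcases Nat.lt_or_ge m (N + 1) with hm | hm
    · exact h1 z hz.1 m hm1 (by omega) hm3.1
    · have h3 : m = N + 1 := by omega
      subst h3
      exact Set.disjoint_left.1 hAB hz.2 hm3.2

/-- **Excursions.** -/
theorem nh_exc {X : Type} [TopologicalSpace X] [T2Space X] (Φ : X ≃ₜ X) {L : Type}
    [TopologicalSpace L] [CompactSpace L] (T : L ≃ₜ L) {V : Type} [NormedAddCommGroup V]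
    [NormedSpace ℝ V] [CompleteSpace V] (G : L × V → V) (hG : Continuous G) {μs μu : ℝ}
    (hs0 : 0 < μs) (hs1 : μs ≤ 1) (hu1 : 1 ≤ μu) (hGs : DomSplit T G μs) (hGu : DomSplit T G μu)
    (h : L × V → X) (hh : Continuous h) {ρ : ℝ} (hρ : 0 < ρ)
    (hT : IsTube Φ T G h ρ) (q : X) (hq : ∀ y, h (y, 0) ≠ q) (yp ym : L)
    (hp : StrongStable Φ T G h μs q yp) (hm : StrongUnstable Φ.symm T.symm G h μu q ym) :
    ∃ J ∈ 𝓝 q, ∀ U ∈ 𝓝 q, ∀ y₀ : L, ∀ V₀ ∈ 𝓝 (h (y₀, 0)), ∃ N : ℕ, ∃ Bp ∈ 𝓝 yp, ∃ Bm ∈ 𝓝 ym,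
      ∃ B₀ ∈ 𝓝 y₀, ∀ n ≥ N, ∀ y ∈ Bp, T^[n] y ∈ Bm → ∃ z ∈ U, Φ^[n] z ∈ U ∧
        (∀ i, 0 < i → i < n → Φ^[i] z ∉ J) ∧
        ∀ i, N ≤ i → i + N ≤ n → T^[i] y ∈ B₀ → Φ^[i] z ∈ V₀ := by
  obtain ⟨Np, a, haw, hap⟩ := hp
  obtain ⟨Nm, b, hbw, hbm⟩ := hm
  have ha : Filter.Tendsto (fun i => ‖a i‖) Filter.atTop (𝓝 0) := by
    refine squeeze_zero (fun i => norm_nonneg _) (fun i => ?_) haw
    refine le_mul_of_one_le_left (norm_nonneg _) ?_
    rw [one_le_inv₀ (pow_pos hs0 i)]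
    exact pow_le_one₀ hs0.le hs1
  have hb : Filter.Tendsto (fun i => ‖b i‖) Filter.atTop (𝓝 0) := by
    refine squeeze_zero (fun i => norm_nonneg _) (fun i => ?_) hbw
    exact le_mul_of_one_le_left (norm_nonneg _) (one_le_pow₀ hu1)
  obtain ⟨δ, hδ, J₁, hJ₁, haway⟩ := nh_away h hh q hq
  -- `q` is not periodic
  have hnp : ∀ m, 0 < m → Φ^[m] q ≠ q := by
    intro m hm hcon
    have h1 : ∀ k, Φ^[m * k] q = q := fun k => Function.IsPeriodicPt.mul_const (m := m) hcon k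
    obtain ⟨i₀, hi₀⟩ := Filter.eventually_atTop.1 (ha.eventually_lt_const hδ)
    have h3 : i₀ + Np ≤ m * (i₀ + Np) := Nat.le_mul_of_pos_left _ hm
    have h4 := haway (T^[m * (i₀ + Np)] yp) (a (m * (i₀ + Np))) (hi₀ _ (by omega))
    rw [← (hap (m * (i₀ + Np)) (by omega)).1, h1] at h4
    exact h4 (mem_of_mem_nhds hJ₁)
  have hsymm : ∀ (m : ℕ) (z : X), Φ.symm^[m] (Φ^[m] z) = z := fun m z =>
    (Function.LeftInverse.iterate Φ.symm_apply_apply m) z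
  have hsymm' : ∀ (m : ℕ) (z : X), Φ^[m] (Φ.symm^[m] z) = z := fun m z =>
    (Function.LeftInverse.iterate Φ.apply_symm_apply m) z
  have hnp' : ∀ m, 0 < m → Φ.symm^[m] q ≠ q := by
    intro m hm hcon
    apply hnp m hm
    conv_lhs => rw [← hcon]
    exact hsymm' m q
  -- the constants
  set δ₀ := min δ ρ with hδ₀
  have hδ₀0 : 0 < δ₀ := lt_min hδ hρ
  obtain ⟨N₁, hN₁⟩ : ∃ N₁, ∀ i ≥ N₁, ‖a i‖ < δ₀ / 4 ∧ ‖b i‖ < δ₀ / 4 ∧ Np ≤ i ∧ Nm ≤ i := by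
    have e1 : ∀ᶠ i in Filter.atTop, ‖a i‖ < δ₀ / 4 := ha.eventually_lt_const (by positivity)
    have e2 : ∀ᶠ i in Filter.atTop, ‖b i‖ < δ₀ / 4 := hb.eventually_lt_const (by positivity)
    exact Filter.eventually_atTop.1 (e1.and (e2.and
      ((Filter.eventually_ge_atTop Np).and (Filter.eventually_ge_atTop Nm))))
  obtain ⟨U₁, hU₁, J₂, hJ₂, hfin⟩ := nh_finite Φ Φ.continuous q N₁ hnp
  obtain ⟨U₂, hU₂, J₃, hJ₃, hfin'⟩ := nh_finite Φ.symm Φ.symm.continuous q N₁ hnp'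
  refine ⟨J₁ ∩ (J₂ ∩ J₃), Filter.inter_mem hJ₁ (Filter.inter_mem hJ₂ hJ₃),
    fun U hU y₀ V₀ hV₀ => ?_⟩
  set U' := U ∩ (U₁ ∩ U₂) with hU'def
  have hU' : U' ∈ 𝓝 q := Filter.inter_mem hU (Filter.inter_mem hU₁ hU₂)
  -- the two ends
  have hstart : ∀ᶠ z : L × V in 𝓝 (T^[N₁] yp, a N₁), Φ.symm^[N₁] (h z) ∈ U' := by
    have hc : Continuous (fun z : L × V => Φ.symm^[N₁] (h z)) :=
      (Φ.symm.continuous.iterate N₁).comp hh
    have h1 : Φ.symm^[N₁] (h (T^[N₁] yp, a N₁)) = q := by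
      rw [← (hap N₁ (hN₁ N₁ le_rfl).2.2.1).1, hsymm]
    have h2 := hc.tendsto (T^[N₁] yp, a N₁)
    rw [h1] at h2
    exact h2.eventually hU'
  have hend : ∀ᶠ z : L × V in 𝓝 (T.symm^[N₁] ym, b N₁), Φ^[N₁] (h z) ∈ U' := by
    have hc : Continuous (fun z : L × V => Φ^[N₁] (h z)) := (Φ.continuous.iterate N₁).comp hh
    have h1 : Φ^[N₁] (h (T.symm^[N₁] ym, b N₁)) = q := by
      rw [← (hbm N₁ (hN₁ N₁ le_rfl).2.2.2).1, hsymm']
    have h2 := hc.tendsto (T.symm^[N₁] ym, b N₁)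
    rw [h1] at h2
    exact h2.eventually hU'
  have hmid : ∀ᶠ z : L × V in 𝓝 (y₀, (0 : V)), h z ∈ V₀ := (hh.tendsto (y₀, 0)).eventually hV₀
  rw [nhds_prod_eq] at hstart hend hmid
  obtain ⟨B₁, hB₁, O₁, hO₁, h₁⟩ := Filter.mem_prod_iff.1 hstart
  obtain ⟨B₂, hB₂, O₂, hO₂, h₂⟩ := Filter.mem_prod_iff.1 hend
  obtain ⟨B₀, hB₀, O₃, hO₃, h₃⟩ := Filter.mem_prod_iff.1 hmid
  obtain ⟨η₁, hη₁, hη₁O⟩ := Metric.mem_nhds_iff.1 hO₁
  obtain ⟨η₂, hη₂, hη₂O⟩ := Metric.mem_nhds_iff.1 hO₂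
  obtain ⟨η₃, hη₃, hη₃O⟩ := Metric.mem_nhds_iff.1 hO₃
  set η := min (min η₁ η₂) (min η₃ δ₀) with hη
  have hη0 : 0 < η := lt_min (lt_min hη₁ hη₂) (lt_min hη₃ hδ₀0)
  have hηa : η ≤ η₁ := (min_le_left _ _).trans (min_le_left _ _)
  have hηb : η ≤ η₂ := (min_le_left _ _).trans (min_le_right _ _)
  have hηc : η ≤ η₃ := (min_le_right _ _).trans (min_le_left _ _)
  have hηd : η ≤ δ₀ := (min_le_right _ _).trans (min_le_right _ _)
  obtain ⟨N₂, hN₂⟩ : ∃ N₂, ∀ i ≥ N₂, ‖a i‖ < η / 4 ∧ ‖b i‖ < η / 4 ∧ N₁ ≤ i := by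
    have e1 : ∀ᶠ i in Filter.atTop, ‖a i‖ < η / 4 := ha.eventually_lt_const (by positivity)
    have e2 : ∀ᶠ i in Filter.atTop, ‖b i‖ < η / 4 := hb.eventually_lt_const (by positivity)
    exact Filter.eventually_atTop.1 (e1.and (e2.and (Filter.eventually_ge_atTop N₁)))
  have hN₂₁ : N₁ ≤ N₂ := (hN₂ N₂ le_rfl).2.2
  have hlink := nh_link T G hG hs0 hs1 hu1 hGs hGu yp ym a b haw hbw N₁
    (fun i hi => (hap i ((hN₁ N₁ le_rfl).2.2.1.trans hi)).2)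
    (fun i hi => (hbm i ((hN₁ N₁ le_rfl).2.2.2.trans hi)).2) (ε := η / 4) (by positivity)
  have hS1 : ∀ᶠ p in nhF T yp ym, T^[N₁] p.1 ∈ B₁ :=
    (nhF_ty T T.continuous yp ym N₁).eventually hB₁
  have hS2 : ∀ᶠ p in nhF T yp ym, T^[p.2 - N₁] p.1 ∈ B₂ := (nhF_te T yp ym N₁).eventually hB₂
  have hn : ∀ᶠ p in nhF T yp ym, 2 * N₂ + 2 ≤ p.2 :=
    (nhF_tn T yp ym).eventually (Filter.eventually_ge_atTop _)
  have hall : ∀ᶠ p in nhF T yp ym, ∃ z ∈ U, Φ^[p.2] z ∈ U ∧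
        (∀ i, 0 < i → i < p.2 → Φ^[i] z ∉ J₁ ∩ (J₂ ∩ J₃)) ∧
        ∀ i, N₂ ≤ i → i + N₂ ≤ p.2 → T^[i] p.1 ∈ B₀ → Φ^[i] z ∈ V₀ := by
    filter_upwards [hlink, hS1, hS2, hn] with p h1 h3 h4 h5
    obtain ⟨y, n⟩ := p
    simp only at h1 h3 h4 h5 ⊢
    obtain ⟨v, hv1, hv2⟩ := h1
    have hvδ : ∀ i, N₁ ≤ i → i + N₁ ≤ n → ‖v i‖ < δ₀ := by
      intro i hi1 hi2
      have e1 := hv2 i hi1 hi2
      have e2 := (hN₁ i hi1).1
      have e3 := (hN₁ (n - i) (by omega)).2.1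
      have e4 : ‖a i + b (n - i)‖ ≤ ‖a i‖ + ‖b (n - i)‖ := norm_add_le _ _
      have e5 : ‖v i‖ ≤ ‖v i - (a i + b (n - i))‖ + ‖a i + b (n - i)‖ := by
        have := norm_add_le (v i - (a i + b (n - i))) (a i + b (n - i))
        rwa [sub_add_cancel] at this
      linarith
    set z := Φ.symm^[N₁] (h (T^[N₁] y, v N₁)) with hz
    have horb : ∀ j, N₁ + j + N₁ ≤ n → Φ^[N₁ + j] z = h (T^[N₁ + j] y, v (N₁ + j)) := by
      intro j
      induction j with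
      | zero =>
        intro _
        rw [hz, add_zero, hsymm']
      | succ j ih =>
        intro hj
        have e1 := ih (by omega)
        rw [← add_assoc, Function.iterate_succ_apply', e1, hT _ _ ?_, ← hv1 (N₁ + j) (by omega)
          (by omega), Function.iterate_succ_apply']
        exact ((hvδ (N₁ + j) (by omega) (by omega)).trans_le (min_le_right _ _)).le
    have horb' : ∀ i, N₁ ≤ i → i + N₁ ≤ n → Φ^[i] z = h (T^[i] y, v i) := by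
      intro i hi1 hi2
      have e1 := horb (i - N₁) (by omega)
      have e2 : N₁ + (i - N₁) = i := by omega
      rwa [e2] at e1
    have hzU : z ∈ U' := by
      have e1 := hv2 N₁ le_rfl (by omega)
      have e2 := (hN₂ (n - N₁) (by omega)).2.1
      have e3 : ‖v N₁ - a N₁‖ < η₁ := by
        have e4 : v N₁ - a N₁ = (v N₁ - (a N₁ + b (n - N₁))) + b (n - N₁) := by abel
        rw [e4]
        refine lt_of_le_of_lt (norm_add_le _ _) ?_
        linarith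
      exact h₁ (show (T^[N₁] y, v N₁) ∈ B₁ ×ˢ O₁ from
        ⟨h3, hη₁O (by rwa [Metric.mem_ball, dist_eq_norm])⟩)
    have hzU2 : Φ^[n] z ∈ U' := by
      have e0 : n = N₁ + (n - N₁) := by omega
      have e1 := hv2 (n - N₁) (by omega) (by omega)
      have e00 : n - (n - N₁) = N₁ := by omega
      rw [e00] at e1
      have e2 := (hN₂ (n - N₁) (by omega)).1
      have e3 : ‖v (n - N₁) - b N₁‖ < η₂ := by
        have e4 : v (n - N₁) - b N₁ =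
            (v (n - N₁) - (a (n - N₁) + b N₁)) + a (n - N₁) := by abel
        rw [e4]
        refine lt_of_le_of_lt (norm_add_le _ _) ?_
        linarith
      have e5 : Φ^[n] z = Φ^[N₁] (Φ^[n - N₁] z) := by
        conv_lhs => rw [e0, Function.iterate_add_apply]
      rw [e5, horb' (n - N₁) (by omega) (by omega)]
      exact h₂ (show (T^[n - N₁] y, v (n - N₁)) ∈ B₂ ×ˢ O₂ from
        ⟨h4, hη₂O (by rwa [Metric.mem_ball, dist_eq_norm])⟩)
    refine ⟨z, hzU.1, hzU2.1, fun i hi1 hi2 hi3 => ?_, fun i hi1 hi2 hi3 => ?_⟩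
    · rcases Nat.lt_or_ge N₁ i with hi | hi
      · rcases Nat.lt_or_ge (i + N₁) n with hj | hj
        · -- in the tube
          rw [horb' i hi.le hj.le] at hi3
          exact haway _ _ ((hvδ i hi.le hj.le).trans_le (min_le_left _ _)) hi3.1
        · -- the end
          have e1 : Φ^[i] z = Φ.symm^[n - i] (Φ^[n] z) := by
            have e2 : n = (n - i) + i := by omega
            conv_rhs => rw [e2, Function.iterate_add_apply]
            rw [show n - i + i - i = n - i by omega, hsymm]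
          rw [e1] at hi3
          exact hfin' _ hzU2.2.2 (n - i) (by omega) (by omega) hi3.2.2
      · exact hfin z hzU.2.1 i hi1 hi hi3.2.1
    · rw [horb' i (by omega) (by omega)]
      have e3 := hv2 i (by omega) (by omega)
      have e4 := (hN₂ i hi1).1
      have e5 := (hN₂ (n - i) (by omega)).2.1
      have e6 : ‖v i‖ < η₃ := by
        have e7 : ‖v i‖ ≤ ‖v i - (a i + b (n - i))‖ + ‖a i + b (n - i)‖ := by
          have := norm_add_le (v i - (a i + b (n - i))) (a i + b (n - i))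
          rwa [sub_add_cancel] at this
        have e8 : ‖a i + b (n - i)‖ ≤ ‖a i‖ + ‖b (n - i)‖ := norm_add_le _ _
        linarith
      exact h₃ (show (T^[i] y, v i) ∈ B₀ ×ˢ O₃ from
        ⟨hi3, hη₃O (by rwa [Metric.mem_ball, dist_zero_right])⟩)
  obtain ⟨t₁, ht₁, t₂, ht₂, ht⟩ := Filter.mem_inf_iff_superset.1 hall
  obtain ⟨Bp, hBp, s, hs, hBs⟩ := Filter.mem_prod_iff.1 ht₁
  obtain ⟨N₃, hN₃⟩ := Filter.mem_atTop_sets.1 hs
  obtain ⟨Bm, hBm, hBm2⟩ := Filter.mem_comap.1 ht₂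
  refine ⟨max N₂ N₃, Bp, hBp, Bm, hBm, B₀, hB₀, fun n hn' y hy hyn => ?_⟩
  obtain ⟨z, hz1, hz2, hz3, hz4⟩ := ht (show (y, n) ∈ t₁ ∩ t₂ from
    ⟨hBs ⟨hy, hN₃ n ((le_max_right _ _).trans hn')⟩, hBm2 hyn⟩)
  exact ⟨z, hz1, hz2, hz3, fun i hi1 hi2 hi3 => hz4 i ((le_max_left _ _).trans hi1)
    (by have := le_max_left N₂ N₃; omega) hi3⟩

end Pool.Agent.SC
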