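import Pool.Agent.Lib.MP_1e8d1a_an.NH.Lin3

/-! Linking a head and a tail over a long base orbit, with weights along the orbits. -/

open scoped Topology

namespace Pool.Agent.SC

/-- **Linking**, version with weights, with a truncated head `a` and a truncated tail `b` (both
indexed by the time). -/
theorem nh_link4 {L : Type} (T S : L → L) (hST : ∀ y, S (T y) = y) (hTS : ∀ y, T (S y) = y)
    {V : Type} [NormedAddCommGroup V] [NormedSpace ℝ V] [CompleteSpace V] (G : L × V → V)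
    {ms mu : L → ℝ} (hs1 : ∀ y, ms y ≤ 1) (hu1 : ∀ y, 1 ≤ mu y)
    (hGs : DomSplitW T S G ms) (hGu : DomSplitW T S G mu) (D D' σ σ' : ℕ → ℝ)
    (hD0' : ∀ i, 0 ≤ D' i) (hσ : ∀ i, 0 < σ i) (hσa : Antitone σ) (hσ' : ∀ i, 0 < σ' i)
    {c₁ : ℝ} (hσc : ∀ i, σ' (i + 1) ≤ c₁ * σ' i)
    (hD : Filter.Tendsto (fun i => (σ i)⁻¹ * D i) Filter.atTop (𝓝 0))
    (hD' : Filter.Tendsto (fun i => σ' i * D' i) Filter.atTop (𝓝 0)) (N₁ : ℕ)
    {ε : ℝ} (hε : 0 < ε) :
    ∃ N₂ ≥ N₁, ∃ τ > 0, ∃ N₀ ≥ 2 * N₂ + 2, ∀ n ≥ N₀, ∀ (y : L) (a b : ℕ → V),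
      (∀ i ≤ N₂, σ i ≤ 2 * wprod T ms i y) →
      wprod T mu (N₂ + 1) (T^[n - (N₂ + 1)] y) ≤ 2 * σ' (N₂ + 1) →
      (∀ i, N₁ ≤ i → i < N₂ → a (i + 1) = G (T^[i] y, a i)) →
      (∀ i, N₁ ≤ i → i ≤ N₂ → ‖a i‖ ≤ D i + τ) → (∀ i, N₂ < i → a i = 0) →
      (∀ i, n - N₂ ≤ i → i + N₁ < n → b (i + 1) = G (T^[i] y, b i)) →
      (∀ j, N₁ ≤ j → j ≤ N₂ → ‖b (n - j)‖ ≤ D' j + τ) → (∀ i, i + N₂ < n → b i = 0) →
      ∃ v : ℕ → V, (∀ i, N₁ ≤ i → i + N₁ < n → v (i + 1) = G (T^[i] y, v i)) ∧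
        ∀ i, N₁ ≤ i → i + N₁ ≤ n → ‖v i - (a i + b i)‖ ≤ ε := by
  obtain ⟨Ks, hKs, hshs⟩ := nh_shadowW T S hST hTS G hGs
  obtain ⟨Ku, hKu, hshu⟩ := nh_shadowW T S hST hTS G hGu
  obtain ⟨M, hM, hlin, hsup1, hsup2⟩ := nh_boundsW T S G hGs
  have hG0 : ∀ y, G (y, 0) = 0 := by
    intro y
    have := hlin y 0
    rw [norm_zero, mul_zero] at this
    exact norm_le_zero_iff.1 this
  have hms0 : ∀ y, 0 < ms y := by
    obtain ⟨-, -, -, -, -, -, -, -, c, -, -, -, -, hc, hcm, -⟩ := hGs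
    exact fun y => hc.trans_le (hcm y)
  have hmu0 : ∀ y, 0 < mu y := fun y => one_pos.trans_le (hu1 y)
  have hsp : ∀ i y, 0 < wprod T ms i y := fun i y => wprod_pos T hms0 i y
  have hup : ∀ i y, 0 < wprod T mu i y := fun i y => wprod_pos T hmu0 i y
  have hsle : ∀ i y, wprod T ms i y ≤ 1 := fun i y => wprod_le_one T hms0 hs1 i y
  have hule : ∀ i y, 1 ≤ wprod T mu i y := fun i y => one_le_wprod T hu1 i y
  -- constants
  obtain ⟨ε₃, hε₃, hε₃K⟩ : ∃ ε₃ > 0, Ks * ε₃ ≤ ε / 3 := by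
    refine ⟨ε / 3 / (Ks + 1), by positivity, ?_⟩
    rw [mul_div_assoc', div_le_iff₀ (by linarith)]
    nlinarith
  obtain ⟨ε₁, hε₁, hε₁K, hε₁M⟩ : ∃ ε₁ > 0, Ks * ε₁ ≤ ε / 3 ∧ M * (Ks * ε₁) ≤ ε₃ / 2 := by
    refine ⟨min (ε / 3 / (Ks + 1)) (ε₃ / 2 / (M * Ks + 1)), by positivity, ?_, ?_⟩
    · refine (mul_le_mul_of_nonneg_left (min_le_left _ _) hKs).trans ?_
      rw [mul_div_assoc', div_le_iff₀ (by linarith)]
      nlinarith
    · rw [← mul_assoc]
      refine (mul_le_mul_of_nonneg_left (min_le_right _ _) (by positivity)).trans ?_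
      have : 0 ≤ M * Ks := by positivity
      rw [mul_div_assoc', div_le_iff₀ (by linarith)]
      nlinarith
  obtain ⟨N₃, hN₃⟩ : ∃ N₃, ∀ i ≥ N₃, M * D i ≤ ε₃ / 8 * σ i := by
    have h1 := hD.const_mul M
    rw [mul_zero] at h1
    obtain ⟨N₃, hN₃⟩ := Filter.eventually_atTop.1
      (h1.eventually_lt_const (show (0:ℝ) < ε₃ / 8 by positivity))
    refine ⟨N₃, fun i hi => ?_⟩
    have h2 := (hN₃ i hi).le
    have h3 : M * D i = M * ((σ i)⁻¹ * D i) * σ i := by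
      have := (hσ i).ne'
      field_simp
    rw [h3]
    exact mul_le_mul_of_nonneg_right h2 (hσ i).le
  set w := ε₃ / 2 * σ N₃ with hw
  have hw0 : 0 < w := by have := hσ N₃; positivity
  obtain ⟨ε₂, hε₂, hε₂K, hε₂M⟩ : ∃ ε₂ > 0, Ku * ε₂ ≤ ε / 3 ∧ M * (Ku * ε₂) ≤ w := by
    refine ⟨min (ε / 3 / (Ku + 1)) (w / (M * Ku + 1)), by positivity, ?_, ?_⟩
    · refine (mul_le_mul_of_nonneg_left (min_le_left _ _) hKu).trans ?_
      rw [mul_div_assoc', div_le_iff₀ (by linarith)]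
      nlinarith
    · rw [← mul_assoc]
      refine (mul_le_mul_of_nonneg_left (min_le_right _ _) (by positivity)).trans ?_
      have : 0 ≤ M * Ku := by positivity
      rw [mul_div_assoc', div_le_iff₀ (by linarith)]
      nlinarith
  obtain ⟨N₂, hN₂⟩ : ∃ N₂, N₁ ≤ N₂ ∧ N₃ ≤ N₂ ∧ M * D N₂ ≤ ε₁ / 4 * σ N₂ ∧
      D' N₂ ≤ ε₂ / 4 * (σ' (N₂ + 1))⁻¹ := by
    have h1 := hD.const_mul M
    have h2 := hD'.const_mul c₁
    rw [mul_zero] at h1 h2
    have e1 := h1.eventually_lt_const (show (0:ℝ) < ε₁ / 4 by positivity)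
    have e2 := h2.eventually_lt_const (show (0:ℝ) < ε₂ / 4 by positivity)
    obtain ⟨N₂, h3⟩ := (e1.and (e2.and ((Filter.eventually_ge_atTop N₁).and
      (Filter.eventually_ge_atTop N₃)))).exists
    obtain ⟨h3, h4, h5, h6⟩ := h3
    refine ⟨N₂, h5, h6, ?_, ?_⟩
    · have h7 : M * D N₂ = M * ((σ N₂)⁻¹ * D N₂) * σ N₂ := by
        have := (hσ N₂).ne'
        field_simp
      rw [h7]
      exact mul_le_mul_of_nonneg_right h3.le (hσ _).le
    · rw [le_mul_inv_iff₀ (hσ' _)]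
      refine le_trans ?_ h4.le
      rw [mul_comm, ← mul_assoc]
      exact mul_le_mul_of_nonneg_right (hσc N₂) (hD0' _)
  obtain ⟨hN₂₁, hN₂₃, hN₂a, hN₂b⟩ := hN₂
  obtain ⟨τ, hτ, hτ1, hτ2, hτ3⟩ : ∃ τ > 0, M * τ ≤ ε₁ / 4 * σ N₂ ∧
      τ ≤ ε₂ / 4 * (σ' (N₂ + 1))⁻¹ ∧ M * τ ≤ ε₃ / 8 * σ N₂ := by
    have e1 : 0 < ε₁ / 4 * σ N₂ := by have := hσ N₂; positivity
    have e2 : 0 < ε₂ / 4 * (σ' (N₂ + 1))⁻¹ := by have := hσ' (N₂ + 1); positivity
    have e3 : 0 < ε₃ / 8 * σ N₂ := by have := hσ N₂; positivity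
    refine ⟨min (ε₂ / 4 * (σ' (N₂ + 1))⁻¹)
      (min (ε₁ / 4 * σ N₂) (ε₃ / 8 * σ N₂) / (M + 1)), ?_, ?_, min_le_left _ _, ?_⟩
    · exact lt_min e2 (div_pos (lt_min e1 e3) (by linarith))
    · refine (mul_le_mul_of_nonneg_left (min_le_right _ _) hM).trans ?_
      rw [mul_div_assoc', div_le_iff₀ (by linarith)]
      have e4 := min_le_left (ε₁ / 4 * σ N₂) (ε₃ / 8 * σ N₂)
      have e5 : 0 < min (ε₁ / 4 * σ N₂) (ε₃ / 8 * σ N₂) := lt_min e1 e3
      nlinarith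
    · refine (mul_le_mul_of_nonneg_left (min_le_right _ _) hM).trans ?_
      rw [mul_div_assoc', div_le_iff₀ (by linarith)]
      have e4 := min_le_right (ε₁ / 4 * σ N₂) (ε₃ / 8 * σ N₂)
      have e5 : 0 < min (ε₁ / 4 * σ N₂) (ε₃ / 8 * σ N₂) := lt_min e1 e3
      nlinarith
  refine ⟨N₂, hN₂₁, τ, hτ, 2 * N₂ + 2 * N₁ + N₃ + 2, by omega,
    fun n hn y a b hys hyu ha1 ha2 ha3 hb1 hb2 hb3 => ?_⟩
  set x := T^[N₁] y with hx
  have hTT : ∀ j, T^[j] x = T^[N₁ + j] y := by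
    intro j
    rw [hx, ← Function.iterate_add_apply, add_comm]
  have hwx : ∀ j, N₁ + j ≤ N₂ → σ (N₁ + j) ≤ 2 * wprod T ms j x := by
    intro j hj
    have e1 := hys (N₁ + j) hj
    rw [wprod_add] at e1
    have e2 : wprod T ms N₁ y * wprod T ms j x ≤ 1 * wprod T ms j x :=
      mul_le_mul_of_nonneg_right (hsle _ _) (hsp _ _).le
    linarith
  -- step 1
  obtain ⟨a', ha'1, ha'2⟩ := hshs (n - 2 * N₁) x (fun j => a (N₁ + j)) ε₁
    hε₁.le (fun j hj => by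
      rw [hTT]
      show ‖a (N₁ + j + 1) - G (T^[N₁ + j] y, a (N₁ + j))‖ ≤ _
      have hpos : 0 ≤ ε₁ * wprod T ms j x := mul_nonneg hε₁.le (hsp _ _).le
      rcases Nat.lt_trichotomy (N₁ + j) N₂ with hi | hi | hi
      · rw [ha1 (N₁ + j) (by omega) hi, sub_self, norm_zero]
        exact hpos
      · have e3 := hwx j hi.le
        rw [hi] at e3
        rw [hi, ha3 (N₂ + 1) (by omega), zero_sub, norm_neg]
        refine (hlin _ _).trans ?_
        have e1 := ha2 N₂ hN₂₁ le_rfl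
        have e2 : M * ‖a N₂‖ ≤ M * D N₂ + M * τ := by
          rw [← mul_add]
          exact mul_le_mul_of_nonneg_left e1 hM
        have e4 : ε₁ / 2 * σ N₂ ≤ ε₁ / 2 * (2 * wprod T ms j x) :=
          mul_le_mul_of_nonneg_left e3 (by positivity)
        linarith
      · rw [ha3 _ hi, ha3 _ (by omega : N₂ < N₁ + j + 1), hG0, sub_self, norm_zero]
        exact hpos)
  -- step 2
  set R := wprod T mu (n - 2 * N₁) x with hR
  have hR0 : 0 < R := hup _ _
  obtain ⟨b', hb'1, hb'2⟩ := hshu (n - 2 * N₁) x (fun j => b (N₁ + j))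
    (ε₂ * R⁻¹) (by positivity) (fun j hj => by
      have hpos : 0 ≤ ε₂ * R⁻¹ * wprod T mu j x := by
        have e2 := hup j x
        positivity
      rw [hTT]
      show ‖b (N₁ + j + 1) - G (T^[N₁ + j] y, b (N₁ + j))‖ ≤ _
      rcases Nat.lt_trichotomy (N₁ + j + 1 + N₂) n with hi | hi | hi
      · rw [hb3 _ (by omega : N₁ + j + 1 + N₂ < n), hb3 _ (by omega : N₁ + j + N₂ < n), hG0,
          sub_self, norm_zero]
        exact hpos
      · rw [hb3 _ (by omega : N₁ + j + N₂ < n), hG0, sub_zero]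
        have e0 : N₁ + j + 1 = n - N₂ := by omega
        rw [e0]
        have e1 := hb2 N₂ hN₂₁ le_rfl
        have e2 : R = wprod T mu j x * wprod T mu (N₂ + 1 - N₁) (T^[j] x) := by
          rw [← wprod_add, hR]
          congr 1
          omega
        have e3 : T^[n - (N₂ + 1)] y = T^[j] x := by
          rw [hTT]
          congr 2
          omega
        have e4 : wprod T mu (N₂ + 1 - N₁) (T^[j] x) ≤ 2 * σ' (N₂ + 1) := by
          have e5 : wprod T mu (N₂ + 1) (T^[j] x) = wprod T mu (N₂ + 1 - N₁) (T^[j] x) *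
              wprod T mu N₁ (T^[N₂ + 1 - N₁] (T^[j] x)) := by
            rw [← wprod_add]
            congr 1
            omega
          rw [e3, e5] at hyu
          refine le_trans ?_ hyu
          exact le_mul_of_one_le_right (hup _ _).le (hule _ _)
        have e6 : ε₂ * R⁻¹ * wprod T mu j x =
            ε₂ * (wprod T mu (N₂ + 1 - N₁) (T^[j] x))⁻¹ := by
          rw [e2]
          have e7 := (hup j x).ne'
          have e8 := (hup (N₂ + 1 - N₁) (T^[j] x)).ne'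
          field_simp
        rw [e6]
        have e9 : (2 * σ' (N₂ + 1))⁻¹ ≤ (wprod T mu (N₂ + 1 - N₁) (T^[j] x))⁻¹ :=
          inv_anti₀ (hup _ _) e4
        have e10 : ε₂ * (2 * σ' (N₂ + 1))⁻¹ ≤
            ε₂ * (wprod T mu (N₂ + 1 - N₁) (T^[j] x))⁻¹ :=
          mul_le_mul_of_nonneg_left e9 hε₂.le
        have e11 : ε₂ * (2 * σ' (N₂ + 1))⁻¹ = ε₂ / 4 * (σ' (N₂ + 1))⁻¹ +
            ε₂ / 4 * (σ' (N₂ + 1))⁻¹ := by
          rw [mul_inv]
          ring
        linarith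
      · rw [hb1 (N₁ + j) (by omega) (by omega), sub_self, norm_zero]
        exact hpos)
  have hb'3 : ∀ j ≤ n - 2 * N₁, ‖b' j - b (N₁ + j)‖ ≤ Ku * ε₂ := by
    intro j hj
    refine (hb'2 j hj).trans ?_
    have e1 : Ku * (ε₂ * R⁻¹) * wprod T mu j x = Ku * ε₂ * (R⁻¹ * wprod T mu j x) := by
      ring
    rw [e1]
    refine mul_le_of_le_one_right (by positivity) ?_
    rw [inv_mul_le_iff₀ hR0, mul_one]
    have e2 : R = wprod T mu j x * wprod T mu (n - 2 * N₁ - j) (T^[j] x) := by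
      rw [← wprod_add, hR]
      congr 1
      omega
    rw [e2]
    exact le_mul_of_one_le_right (hup _ _).le (hule _ _)
  -- step 3
  obtain ⟨v, hv1, hv2⟩ := hshs (n - 2 * N₁) x (fun j => a' j + b' j) ε₃ hε₃.le
    (fun j hj => by
      show ‖(a' (j + 1) + b' (j + 1)) - G (T^[j] x, a' j + b' j)‖ ≤ _
      rw [ha'1 j hj, hb'1 j hj]
      rcases Nat.lt_or_ge (N₁ + j) N₃ with hi | hi
      · refine (hsup2 _ _ _).trans ?_
        have e1 := hb'3 j hj.le
        rw [hb3 _ (by omega : N₁ + j + N₂ < n), sub_zero] at e1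
        have e4 : M * ‖b' j‖ ≤ M * (Ku * ε₂) := mul_le_mul_of_nonneg_left e1 hM
        have e5 : σ N₃ ≤ σ (N₁ + j) := hσa (by omega)
        have e7 := hwx j (by omega)
        have e6 : w ≤ ε₃ * wprod T ms j x := by
          rw [hw]
          have e8 : ε₃ / 2 * σ N₃ ≤ ε₃ / 2 * (2 * wprod T ms j x) :=
            mul_le_mul_of_nonneg_left (e5.trans e7) (by positivity)
          linarith
        linarith
      · refine (hsup1 _ _ _).trans ?_
        have e1 := ha'2 j hj.le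
        have e2 : ‖a' j‖ ≤ ‖a' j - a (N₁ + j)‖ + ‖a (N₁ + j)‖ := by
          have := norm_add_le (a' j - a (N₁ + j)) (a (N₁ + j))
          rwa [sub_add_cancel] at this
        have e3 : M * ‖a (N₁ + j)‖ ≤ ε₃ / 2 * wprod T ms j x := by
          rcases Nat.lt_or_ge N₂ (N₁ + j) with hk | hk
          · rw [ha3 _ hk, norm_zero, mul_zero]
            have := hsp j x
            positivity
          · have e4 := ha2 (N₁ + j) (by omega) hk
            have e5 := hN₃ (N₁ + j) hi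
            have e6 : M * ‖a (N₁ + j)‖ ≤ M * D (N₁ + j) + M * τ := by
              rw [← mul_add]
              exact mul_le_mul_of_nonneg_left e4 hM
            have e7 : σ N₂ ≤ σ (N₁ + j) := hσa hk
            have e8 : ε₃ / 8 * σ N₂ ≤ ε₃ / 8 * σ (N₁ + j) :=
              mul_le_mul_of_nonneg_left e7 (by positivity)
            have e9 := hwx j hk
            have e10 : ε₃ / 4 * σ (N₁ + j) ≤ ε₃ / 4 * (2 * wprod T ms j x) :=
              mul_le_mul_of_nonneg_left e9 (by positivity)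
            linarith
        have e4 : M * ‖a' j‖ ≤ M * (Ks * ε₁ * wprod T ms j x) + M * ‖a (N₁ + j)‖ := by
          rw [← mul_add]
          exact mul_le_mul_of_nonneg_left (e2.trans (by linarith)) hM
        have e7 : M * (Ks * ε₁ * wprod T ms j x) ≤ ε₃ / 2 * wprod T ms j x := by
          rw [← mul_assoc]
          exact mul_le_mul_of_nonneg_right hε₁M (hsp _ _).le
        linarith)
  refine ⟨fun i => v (i - N₁), fun i hi1 hi2 => ?_, fun i hi1 hi2 => ?_⟩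
  · have e1 := hv1 (i - N₁) (by omega)
    have e2 : i + 1 - N₁ = i - N₁ + 1 := by omega
    have e3 : N₁ + (i - N₁) = i := by omega
    show v (i + 1 - N₁) = G (T^[i] y, v (i - N₁))
    rw [e2, e1, hTT, e3]
  · have e3 : N₁ + (i - N₁) = i := by omega
    have e4 := hv2 (i - N₁) (by omega)
    have e5 := hb'3 (i - N₁) (by omega)
    have e6 := ha'2 (i - N₁) (by omega)
    rw [e3] at e5 e6
    show ‖v (i - N₁) - (a i + b i)‖ ≤ ε
    have e7 : v (i - N₁) - (a i + b i) = (v (i - N₁) - (a' (i - N₁) + b' (i - N₁))) +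
        (a' (i - N₁) - a i) + (b' (i - N₁) - b i) := by abel
    rw [e7]
    refine (norm_add₃_le).trans ?_
    have e8 : Ks * ε₃ * wprod T ms (i - N₁) x ≤ ε / 3 :=
      (mul_le_of_le_one_right (by positivity) (hsle _ _)).trans hε₃K
    have e9 : Ks * ε₁ * wprod T ms (i - N₁) x ≤ ε / 3 :=
      (mul_le_of_le_one_right (by positivity) (hsle _ _)).trans hε₁K
    linarith

end Pool.Agent.SC
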