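import Pool.Agent.Lib.MP_1e8d1a_an.NH.Exc3

/-! Excursions from one point to another along a partially hyperbolic set, outside neighbourhoods of
finitely many points. -/

open scoped Topology

namespace Pool.Agent.SC

/-- finitely many iterates of a point near `q` avoid neighbourhoods of finitely many points -/
theorem nh_finite2 {X : Type} [TopologicalSpace X] [T2Space X] (f : X → X) (hf : Continuous f)
    {κ : Type} [Finite κ] (Q : κ → X) (q : X) (N : ℕ) (hq : ∀ m, 0 < m → ∀ l, f^[m] q ≠ Q l) :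
    ∃ U ∈ 𝓝 q, ∃ J : κ → Set X, (∀ l, J l ∈ 𝓝 (Q l)) ∧
      ∀ z ∈ U, ∀ m, 0 < m → m ≤ N → ∀ l, f^[m] z ∉ J l := by
  induction N with
  | zero => exact ⟨Set.univ, Filter.univ_mem, fun _ => Set.univ, fun _ => Filter.univ_mem,
      fun z _ m h1 h2 => by omega⟩
  | succ N ih =>
    obtain ⟨U, hU, J, hJ, h1⟩ := ih
    choose A B hA hB hqA hqB hAB using fun l => t2_separation (hq (N + 1) (Nat.succ_pos N) l)
    have h2 : ∀ l, f^[N + 1] ⁻¹' (A l) ∈ 𝓝 q := fun l =>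
      (hf.iterate (N + 1)).continuousAt ((hA l).mem_nhds (hqA l))
    refine ⟨U ∩ ⋂ l, f^[N + 1] ⁻¹' (A l), Filter.inter_mem hU (Filter.iInter_mem.2 h2),
      fun l => J l ∩ B l, fun l => Filter.inter_mem (hJ l) ((hB l).mem_nhds (hqB l)),
      fun z hz m hm1 hm2 l hm3 => ?_⟩
    rcases Nat.lt_or_ge m (N + 1) with hm | hm
    · exact h1 z hz.1 m hm1 (by omega) l hm3.1
    · have h3 : m = N + 1 := by omega
      subst h3
      exact Set.disjoint_left.1 (hAB l) (Set.mem_iInter.1 hz.2 l) hm3.2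

/-- **Excursions**, from `q` to `q'`. -/
theorem nh_exc4 {X : Type} [TopologicalSpace X] [T2Space X] (Φ : X ≃ₜ X) {V₀ : Type}
    [NormedAddCommGroup V₀] (e : X → V₀) (he : Topology.IsInducing e) {L : Type}
    [TopologicalSpace L] (T : L ≃ₜ L) (j : L → X) (hj : Continuous j)
    {V : Type} [NormedAddCommGroup V]
    [NormedSpace ℝ V] [CompleteSpace V] (G : L × V → V) (h : L × V → X) (ℓ : L → X → V)
    {ρ δ K : ℝ} (hρ : 0 < ρ) (hδ : 0 < δ) (hK : 0 ≤ K) (H0 : ∀ y, h (y, 0) = j y)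
    (H1 : ∀ y v, ‖v‖ ≤ ρ → Φ (h (y, v)) = h (T y, G (y, v)))
    (H2 : ∀ y x, ‖e x - e (j y)‖ ≤ δ → ‖ℓ y x‖ ≤ K * ‖e x - e (j y)‖ ∧ h (y, ℓ y x) = x)
    (H3 : ∀ y v v', ‖v‖ ≤ ρ → ‖v'‖ ≤ ρ → ‖e (h (y, v)) - e (h (y, v'))‖ ≤ K * ‖v - v'‖)
    (H4 : ∀ y x, ‖e x - e (j y)‖ ≤ δ → G (y, ℓ y x) = ℓ (T y) (Φ x))
    {ms mu : L → ℝ} (hmsc : Continuous ms) (hmuc : Continuous mu) (hs1 : ∀ y, ms y ≤ 1)
    (hu1 : ∀ y, 1 ≤ mu y) {c₁ : ℝ} (hu2 : ∀ y, mu y ≤ c₁)
    (hGs : DomSplitW T T.symm G ms) (hGu : DomSplitW T T.symm G mu)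
    {κ : Type} [Finite κ] (Q : κ → X) {r₀ : ℝ} (hr₀ : 0 < r₀)
    (hq : ∀ l y, r₀ ≤ ‖e (Q l) - e (j y)‖) (q q' : X) (hnp : ∀ m, 0 < m → ∀ l, Φ^[m] q ≠ Q l)
    (hnp' : ∀ m, 0 < m → ∀ l, Φ.symm^[m] q' ≠ Q l) (yp ym : L)
    (hp : Filter.Tendsto (fun i => (wprod T ms i yp)⁻¹ *
      ‖e (Φ^[i] q) - e (j (T^[i] yp))‖) Filter.atTop (𝓝 0))
    (hm : Filter.Tendsto (fun i => wprod T mu i (T.symm^[i] ym) *
      ‖e (Φ.symm^[i] q') - e (j (T.symm^[i] ym))‖) Filter.atTop (𝓝 0)) :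
    ∃ J : κ → Set X, (∀ l, J l ∈ 𝓝 (Q l)) ∧ ∀ U ∈ 𝓝 q, ∀ Ue ∈ 𝓝 q', ∀ y₀ : L, ∀ V₁ ∈ 𝓝 (j y₀),
      ∃ N : ℕ, ∃ Bp ∈ 𝓝 yp, ∃ Bm ∈ 𝓝 ym,
      ∃ B₀ ∈ 𝓝 y₀, ∀ n ≥ N, ∀ y ∈ Bp, T^[n] y ∈ Bm → ∃ z ∈ U, Φ^[n] z ∈ Ue ∧
        (∀ i, 0 < i → i < n → ∀ l, Φ^[i] z ∉ J l) ∧
        ∀ i, N ≤ i → i + N ≤ n → T^[i] y ∈ B₀ → Φ^[i] z ∈ V₁ := by
  have hms0 : ∀ y, 0 < ms y := by
    obtain ⟨-, -, -, -, -, -, -, -, c, -, -, -, -, hc, hcm, -⟩ := hGs
    exact fun y => hc.trans_le (hcm y)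
  have hmu0 : ∀ y, 0 < mu y := fun y => one_pos.trans_le (hu1 y)
  set d : ℕ → ℝ := fun i => ‖e (Φ^[i] q) - e (j (T^[i] yp))‖ with hd
  set d' : ℕ → ℝ := fun i => ‖e (Φ.symm^[i] q') - e (j (T.symm^[i] ym))‖ with hd'
  have hd0 : ∀ i, 0 ≤ d i := fun i => norm_nonneg _
  have hd0' : ∀ i, 0 ≤ d' i := fun i => norm_nonneg _
  set σ : ℕ → ℝ := fun i => wprod T ms i yp with hσ
  set σ' : ℕ → ℝ := fun i => wprod T mu i (T.symm^[i] ym) with hσ'
  have hσ0 : ∀ i, 0 < σ i := fun i => wprod_pos T hms0 i yp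
  have hσ1' : ∀ i, 1 ≤ σ' i := fun i => one_le_wprod T hu1 i _
  have hdt : Filter.Tendsto d Filter.atTop (𝓝 0) := by
    refine squeeze_zero hd0 (fun i => ?_) hp
    refine le_mul_of_one_le_left (norm_nonneg _) ?_
    rw [one_le_inv₀ (hσ0 i)]
    exact wprod_le_one T hms0 hs1 i yp
  have hdt' : Filter.Tendsto d' Filter.atTop (𝓝 0) := by
    refine squeeze_zero hd0' (fun i => ?_) hm
    exact le_mul_of_one_le_left (norm_nonneg _) (hσ1' i)
  have hsymm : ∀ (m : ℕ) (z : X), Φ.symm^[m] (Φ^[m] z) = z := fun m z =>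
    (Function.LeftInverse.iterate Φ.symm_apply_apply m) z
  have hsymm' : ∀ (m : ℕ) (z : X), Φ^[m] (Φ.symm^[m] z) = z := fun m z =>
    (Function.LeftInverse.iterate Φ.apply_symm_apply m) z
  have hTsymm : ∀ (m : ℕ) (z : L), T.symm^[m] (T^[m] z) = z := fun m z =>
    (Function.LeftInverse.iterate T.symm_apply_apply m) z
  -- the constants
  obtain ⟨η₀, hη₀, hη₀ρ, hη₀r⟩ : ∃ η₀ > 0, η₀ ≤ ρ ∧ K * η₀ < r₀ / 2 := by
    refine ⟨min ρ (r₀ / (2 * (K + 1))), lt_min hρ (by positivity), min_le_left _ _, ?_⟩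
    refine lt_of_le_of_lt (mul_le_mul_of_nonneg_left (min_le_right _ _) hK) ?_
    rw [mul_div_assoc', div_lt_iff₀ (by positivity)]
    nlinarith
  obtain ⟨N₁, hN₁⟩ : ∃ N₁, ∀ i ≥ N₁, K * d i < η₀ / 8 ∧ K * d' i < η₀ / 8 ∧ d i < δ / 2 ∧
      d' i < δ / 2 := by
    have c1 := hdt.const_mul K
    have c2 := hdt'.const_mul K
    rw [mul_zero] at c1 c2
    exact Filter.eventually_atTop.1 ((c1.eventually_lt_const (by positivity)).and
      ((c2.eventually_lt_const (by positivity)).and ((hdt.eventually_lt_const (by positivity)).and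
      (hdt'.eventually_lt_const (by positivity)))))
  obtain ⟨U₁, hU₁, J₂, hJ₂, hfin⟩ := nh_finite2 Φ Φ.continuous Q q N₁ hnp
  obtain ⟨U₂, hU₂, J₃, hJ₃, hfin'⟩ := nh_finite2 Φ.symm Φ.symm.continuous Q q' N₁ hnp'
  have hJ₁ : ∀ l, {x | ‖e x - e (Q l)‖ < r₀ / 2} ∈ 𝓝 (Q l) := by
    intro l
    have c1 : Filter.Tendsto (fun x => ‖e x - e (Q l)‖) (𝓝 (Q l)) (𝓝 0) := by
      have c2 := ((he.continuous.tendsto (Q l)).sub_const (e (Q l))).norm
      rwa [sub_self, norm_zero] at c2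
    exact c1.eventually_lt_const (by positivity)
  refine ⟨fun l => {x | ‖e x - e (Q l)‖ < r₀ / 2} ∩ (J₂ l ∩ J₃ l), fun l =>
    Filter.inter_mem (hJ₁ l) (Filter.inter_mem (hJ₂ l) (hJ₃ l)), fun U hU Ue hUe y₀ V₁ hV₁ => ?_⟩
  set U' := U ∩ U₁ with hU'def
  have hU' : U' ∈ 𝓝 q := Filter.inter_mem hU hU₁
  set Ue' := Ue ∩ U₂ with hUe'def
  have hUe' : Ue' ∈ 𝓝 q' := Filter.inter_mem hUe hU₂
  -- the two ends
  obtain ⟨η₁, hη₁, hstart⟩ : ∃ η₁ > 0, ∀ x, ‖e x - e (Φ^[N₁] q)‖ < η₁ → Φ.symm^[N₁] x ∈ U' := by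
    refine nh_ball_of_nhds e he (Φ^[N₁] q) (U := (Φ.symm^[N₁]) ⁻¹' U') ?_
    refine (Φ.symm.continuous.iterate N₁).continuousAt ?_
    rwa [hsymm]
  obtain ⟨η₂, hη₂, hend⟩ : ∃ η₂ > 0, ∀ x, ‖e x - e (Φ.symm^[N₁] q')‖ < η₂ → Φ^[N₁] x ∈ Ue' := by
    refine nh_ball_of_nhds e he (Φ.symm^[N₁] q') (U := (Φ^[N₁]) ⁻¹' Ue') ?_
    refine (Φ.continuous.iterate N₁).continuousAt ?_
    rwa [hsymm']
  obtain ⟨η₃, hη₃, hmid⟩ := nh_ball_of_nhds e he (j y₀) hV₁
  set η := min (min η₁ η₂) (min (η₃ / 2) η₀) with hη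
  have hη0 : 0 < η := lt_min (lt_min hη₁ hη₂) (lt_min (by positivity) hη₀)
  have hηa : η ≤ η₁ := (min_le_left _ _).trans (min_le_left _ _)
  have hηb : η ≤ η₂ := (min_le_left _ _).trans (min_le_right _ _)
  have hηc : η ≤ η₃ / 2 := (min_le_right _ _).trans (min_le_left _ _)
  have hηd : η ≤ η₀ := (min_le_right _ _).trans (min_le_right _ _)
  obtain ⟨ε, hε, hεK, hε4⟩ : ∃ ε > 0, K * ε < η ∧ ε ≤ η / 4 := by
    refine ⟨η / (4 * (K + 1)), by positivity, ?_, ?_⟩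
    · rw [mul_div_assoc', div_lt_iff₀ (by positivity)]
      nlinarith
    · exact div_le_div_of_nonneg_left hη0.le (by norm_num) (by linarith)
  have hσa : Antitone σ := by
    refine antitone_nat_of_succ_le fun i => ?_
    show wprod T ms (i + 1) yp ≤ wprod T ms i yp
    rw [wprod_succ]
    exact mul_le_of_le_one_right (hσ0 i).le (hs1 _)
  have hpK : Filter.Tendsto (fun i => (σ i)⁻¹ * (K * d i)) Filter.atTop (𝓝 0) := by
    have c1 := hp.const_mul K
    rw [mul_zero] at c1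
    refine c1.congr fun i => ?_
    show K * ((σ i)⁻¹ * d i) = _
    ring
  have hmK : Filter.Tendsto (fun i => σ' i * (K * d' i)) Filter.atTop (𝓝 0) := by
    have c1 := hm.const_mul K
    rw [mul_zero] at c1
    refine c1.congr fun i => ?_
    show K * (σ' i * d' i) = _
    ring
  obtain ⟨N₂, hN₂₁, τ, hτ, N₀, hN₀, hlink⟩ := nh_link4 T T.symm T.symm_apply_apply
    T.apply_symm_apply G hs1 hu1 hGs hGu (fun i => K * d i) (fun i => K * d' i) σ σ'
    (fun i => mul_nonneg hK (hd0' i)) hσ0 hσa (fun i => one_pos.trans_le (hσ1' i))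
    (fun i => nh_back_weights T T.symm T.apply_symm_apply hu1 hu2 ym i) hpK hmK N₁ hε
  obtain ⟨τ', hτ', hτ'1, hτ'2, hτ'3⟩ : ∃ τ' > 0, K * τ' ≤ τ ∧ K * τ' ≤ η₀ / 8 ∧ τ' ≤ δ / 2 := by
    refine ⟨min (δ / 2) (min τ (η₀ / 8) / (K + 1)), by positivity, ?_, ?_, min_le_left _ _⟩
    · refine (mul_le_mul_of_nonneg_left (min_le_right _ _) hK).trans ?_
      rw [mul_div_assoc', div_le_iff₀ (by positivity)]
      have e4 := min_le_left τ (η₀ / 8)
      have e5 : 0 < min τ (η₀ / 8) := lt_min hτ (by positivity)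
      nlinarith
    · refine (mul_le_mul_of_nonneg_left (min_le_right _ _) hK).trans ?_
      rw [mul_div_assoc', div_le_iff₀ (by positivity)]
      have e4 := min_le_right τ (η₀ / 8)
      have e5 : 0 < min τ (η₀ / 8) := lt_min hτ (by positivity)
      nlinarith
  have hjc : Continuous fun y => e (j y) := he.continuous.comp hj
  have hBp : ∀ᶠ y in 𝓝 yp, ∀ i ≤ N₂, ‖e (j (T^[i] y)) - e (j (T^[i] yp))‖ < τ' ∧
      σ i < 2 * wprod T ms i y := by
    have c0 : ∀ i ∈ Set.Iic N₂, ∀ᶠ y in 𝓝 yp, ‖e (j (T^[i] y)) - e (j (T^[i] yp))‖ < τ' ∧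
        σ i < 2 * wprod T ms i y := by
      intro i _
      refine Filter.Eventually.and ?_ ?_
      · have c1 : Continuous fun y => ‖e (j (T^[i] y)) - e (j (T^[i] yp))‖ :=
          ((hjc.comp (T.continuous.iterate i)).sub continuous_const).norm
        have c2 := c1.tendsto yp
        rw [sub_self, norm_zero] at c2
        exact c2.eventually_lt_const hτ'
      · have c1 : Continuous fun y => 2 * wprod T ms i y :=
          continuous_const.mul (wprod_cont T.continuous hmsc i)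
        refine (c1.tendsto yp).eventually_const_lt ?_
        show wprod T ms i yp < 2 * wprod T ms i yp
        have := hσ0 i
        simp only [hσ] at this
        linarith
    have c3 := (Filter.eventually_all_finite (Set.finite_Iic N₂)).2 c0
    filter_upwards [c3] with y hy i hi
    exact hy i hi
  have hBm : ∀ᶠ y in 𝓝 ym, ∀ i ≤ N₂ + 1, ‖e (j (T.symm^[i] y)) - e (j (T.symm^[i] ym))‖ < τ' ∧
      wprod T mu i (T.symm^[i] y) < 2 * σ' i := by
    have c0 : ∀ i ∈ Set.Iic (N₂ + 1), ∀ᶠ y in 𝓝 ym,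
        ‖e (j (T.symm^[i] y)) - e (j (T.symm^[i] ym))‖ < τ' ∧
        wprod T mu i (T.symm^[i] y) < 2 * σ' i := by
      intro i _
      refine Filter.Eventually.and ?_ ?_
      · have c1 : Continuous fun y => ‖e (j (T.symm^[i] y)) - e (j (T.symm^[i] ym))‖ :=
          ((hjc.comp (T.symm.continuous.iterate i)).sub continuous_const).norm
        have c2 := c1.tendsto ym
        rw [sub_self, norm_zero] at c2
        exact c2.eventually_lt_const hτ'
      · have c1 : Continuous fun y => wprod T mu i (T.symm^[i] y) :=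
          (wprod_cont T.continuous hmuc i).comp (T.symm.continuous.iterate i)
        refine (c1.tendsto ym).eventually_lt_const ?_
        show σ' i < 2 * σ' i
        have := hσ1' i
        linarith
    have c3 := (Filter.eventually_all_finite (Set.finite_Iic (N₂ + 1))).2 c0
    filter_upwards [c3] with y hy i hi
    exact hy i hi
  have hB₀ : ∀ᶠ y in 𝓝 y₀, ‖e (j y) - e (j y₀)‖ < η₃ / 2 := by
    have c1 : Continuous fun y => ‖e (j y) - e (j y₀)‖ := (hjc.sub continuous_const).norm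
    have c2 := c1.tendsto y₀
    rw [sub_self, norm_zero] at c2
    exact c2.eventually_lt_const (by positivity)
  refine ⟨N₀, _, hBp, _, hBm, _, hB₀, fun n hn y hy hyn => ?_⟩
  have hy' : ∀ i ≤ N₂, ‖e (j (T^[i] y)) - e (j (T^[i] yp))‖ < τ' ∧
      σ i < 2 * wprod T ms i y := hy
  have hback : ∀ i ≤ n, T.symm^[i] (T^[n] y) = T^[n - i] y := by
    intro i hi
    have c1 : n = i + (n - i) := by omega
    conv_lhs => rw [c1, Function.iterate_add_apply]
    exact hTsymm i _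
  have hyn' : ∀ i ≤ N₂ + 1, ‖e (j (T^[n - i] y)) - e (j (T.symm^[i] ym))‖ < τ' ∧
      wprod T mu i (T^[n - i] y) < 2 * σ' i := by
    intro i hi
    have c1 := hyn i hi
    rwa [hback i (by omega)] at c1
  set a : ℕ → V := fun i => if i ≤ N₂ then ℓ (T^[i] y) (Φ^[i] q) else 0 with ha
  set b : ℕ → V := fun i => if n - N₂ ≤ i then ℓ (T^[i] y) (Φ.symm^[n - i] q') else 0 with hb
  have hac : ∀ i, N₁ ≤ i → i ≤ N₂ → ‖e (Φ^[i] q) - e (j (T^[i] y))‖ ≤ d i + τ' ∧
      ‖e (Φ^[i] q) - e (j (T^[i] y))‖ ≤ δ := by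
    intro i hi1 hi2
    have c1 : ‖e (Φ^[i] q) - e (j (T^[i] y))‖ ≤ d i + τ' := by
      have c2 : e (Φ^[i] q) - e (j (T^[i] y)) = (e (Φ^[i] q) - e (j (T^[i] yp))) +
          (e (j (T^[i] yp)) - e (j (T^[i] y))) := by abel
      rw [c2]
      refine (norm_add_le _ _).trans ?_
      have c3 := (hy' i hi2).1
      rw [norm_sub_rev] at c3
      exact add_le_add le_rfl c3.le
    refine ⟨c1, c1.trans ?_⟩
    have c2 := (hN₁ i hi1).2.2.1
    linarith
  have hbc : ∀ i, N₁ ≤ i → i ≤ N₂ → ‖e (Φ.symm^[i] q') - e (j (T^[n - i] y))‖ ≤ d' i + τ' ∧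
      ‖e (Φ.symm^[i] q') - e (j (T^[n - i] y))‖ ≤ δ := by
    intro i hi1 hi2
    have c1 : ‖e (Φ.symm^[i] q') - e (j (T^[n - i] y))‖ ≤ d' i + τ' := by
      have c2 : e (Φ.symm^[i] q') - e (j (T^[n - i] y)) =
          (e (Φ.symm^[i] q') - e (j (T.symm^[i] ym))) +
          (e (j (T.symm^[i] ym)) - e (j (T^[n - i] y))) := by abel
      rw [c2]
      refine (norm_add_le _ _).trans ?_
      have c3 := (hyn' i (by omega)).1
      rw [norm_sub_rev] at c3
      exact add_le_add le_rfl c3.le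
    refine ⟨c1, c1.trans ?_⟩
    have c2 := (hN₁ i hi1).2.2.2
    linarith
  have han : ∀ i, N₁ ≤ i → i ≤ N₂ → ‖a i‖ ≤ K * d i + K * τ' := by
    intro i hi1 hi2
    obtain ⟨c1, c2⟩ := hac i hi1 hi2
    simp only [ha, if_pos hi2]
    refine (H2 _ _ c2).1.trans ?_
    rw [← mul_add]
    exact mul_le_mul_of_nonneg_left c1 hK
  have hbn : ∀ i, N₁ ≤ i → i ≤ N₂ → ‖b (n - i)‖ ≤ K * d' i + K * τ' := by
    intro i hi1 hi2
    obtain ⟨c1, c2⟩ := hbc i hi1 hi2
    simp only [hb, if_pos (show n - N₂ ≤ n - i by omega), show n - (n - i) = i by omega]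
    refine (H2 _ _ c2).1.trans ?_
    rw [← mul_add]
    exact mul_le_mul_of_nonneg_left c1 hK
  have ha0 : ∀ i, N₂ < i → a i = 0 := fun i hi => by
    simp only [ha, if_neg (show ¬ i ≤ N₂ by omega)]
  have hb0 : ∀ i, i + N₂ < n → b i = 0 := fun i hi => by
    simp only [hb, if_neg (show ¬ n - N₂ ≤ i by omega)]
  obtain ⟨v, hv1, hv2⟩ := hlink n hn y a b (fun i hi => (hy' i hi).2.le)
    ((hyn' (N₂ + 1) le_rfl).2.le) (fun i hi1 hi2 => by
      simp only [ha, if_pos hi2.le, if_pos (show i + 1 ≤ N₂ from hi2)]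
      rw [H4 _ _ (hac i hi1 hi2.le).2, Function.iterate_succ_apply', Function.iterate_succ_apply'])
    (fun i hi1 hi2 => (han i hi1 hi2).trans (by linarith)) ha0
    (fun i hi1 hi2 => by
      simp only [hb, if_pos hi1, if_pos (show n - N₂ ≤ i + 1 by omega)]
      have c1 := (hbc (n - i) (by omega) (by omega)).2
      rw [show n - (n - i) = i by omega] at c1
      rw [H4 _ _ c1, Function.iterate_succ_apply', show n - i = (n - (i + 1)) + 1 by omega,
        Function.iterate_succ_apply', Φ.apply_symm_apply])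
    (fun i hi1 hi2 => (hbn i hi1 hi2).trans (by linarith)) hb0
  have hvδ : ∀ i, N₁ ≤ i → i + N₁ ≤ n → ‖v i‖ ≤ η₀ := by
    intro i hi1 hi2
    have c1 := hv2 i hi1 hi2
    have c2 : ‖a i‖ ≤ η₀ / 4 := by
      rcases Nat.lt_or_ge N₂ i with hk | hk
      · rw [ha0 i hk, norm_zero]
        positivity
      · have c3 := han i hi1 hk
        have c4 := (hN₁ i hi1).1
        linarith
    have c3 : ‖b i‖ ≤ η₀ / 4 := by
      rcases Nat.lt_or_ge (i + N₂) n with hk | hk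
      · rw [hb0 i hk, norm_zero]
        positivity
      · have c3 := hbn (n - i) (by omega) (by omega)
        rw [show n - (n - i) = i by omega] at c3
        have c4 := (hN₁ (n - i) (by omega)).2.1
        linarith
    have c5 : ‖v i‖ ≤ ‖v i - (a i + b i)‖ + ‖a i + b i‖ := by
      have := norm_add_le (v i - (a i + b i)) (a i + b i)
      rwa [sub_add_cancel] at this
    have c6 := norm_add_le (a i) (b i)
    linarith
  set z := Φ.symm^[N₁] (h (T^[N₁] y, v N₁)) with hz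
  have horb : ∀ k, N₁ + k + N₁ ≤ n → Φ^[N₁ + k] z = h (T^[N₁ + k] y, v (N₁ + k)) := by
    intro k
    induction k with
    | zero =>
      intro _
      rw [hz, add_zero, hsymm']
    | succ k ih =>
      intro hk
      have e1 := ih (by omega)
      rw [← add_assoc, Function.iterate_succ_apply', e1, H1 _ _ ?_, ← hv1 (N₁ + k) (by omega)
        (by omega), Function.iterate_succ_apply']
      exact (hvδ (N₁ + k) (by omega) (by omega)).trans hη₀ρ
  have horb' : ∀ i, N₁ ≤ i → i + N₁ ≤ n → Φ^[i] z = h (T^[i] y, v i) := by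
    intro i hi1 hi2
    have e1 := horb (i - N₁) (by omega)
    have e2 : N₁ + (i - N₁) = i := by omega
    rwa [e2] at e1
  have hzU : z ∈ U' := by
    apply hstart
    have c1 := hac N₁ le_rfl hN₂₁
    have c2 := (H2 _ _ c1.2).2
    have c3 : a N₁ = ℓ (T^[N₁] y) (Φ^[N₁] q) := by simp only [ha, if_pos hN₂₁]
    rw [← c3] at c2
    have c4 : ‖a N₁‖ ≤ ρ := by
      have c5 := han N₁ le_rfl hN₂₁
      have c6 := (hN₁ N₁ le_rfl).1
      linarith
    have c5 := H3 (T^[N₁] y) (v N₁) (a N₁) ((hvδ N₁ le_rfl (by omega)).trans hη₀ρ) c4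
    rw [c2] at c5
    have c6 := hv2 N₁ le_rfl (by omega)
    rw [hb0 N₁ (by omega), add_zero] at c6
    exact lt_of_le_of_lt (c5.trans (mul_le_mul_of_nonneg_left c6 hK)) (hεK.trans_le hηa)
  have hzU2 : Φ^[n] z ∈ Ue' := by
    have e0 : n = N₁ + (n - N₁) := by omega
    have e5 : Φ^[n] z = Φ^[N₁] (Φ^[n - N₁] z) := by
      conv_lhs => rw [e0, Function.iterate_add_apply]
    rw [e5, horb' (n - N₁) (by omega) (by omega)]
    apply hend
    have c1 := hbc N₁ le_rfl hN₂₁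
    have c2 := (H2 _ _ c1.2).2
    have c3 : b (n - N₁) = ℓ (T^[n - N₁] y) (Φ.symm^[N₁] q') := by
      simp only [hb, if_pos (show n - N₂ ≤ n - N₁ by omega), show n - (n - N₁) = N₁ by omega]
    rw [← c3] at c2
    have c4 : ‖b (n - N₁)‖ ≤ ρ := by
      have c5 := hbn N₁ le_rfl hN₂₁
      have c6 := (hN₁ N₁ le_rfl).2.1
      linarith
    have c5 := H3 (T^[n - N₁] y) (v (n - N₁)) (b (n - N₁))
      ((hvδ (n - N₁) (by omega) (by omega)).trans hη₀ρ) c4
    rw [c2] at c5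
    have c6 := hv2 (n - N₁) (by omega) (by omega)
    rw [ha0 (n - N₁) (by omega), zero_add] at c6
    exact lt_of_le_of_lt (c5.trans (mul_le_mul_of_nonneg_left c6 hK)) (hεK.trans_le hηb)
  refine ⟨z, hzU.1, hzU2.1, fun i hi1 hi2 l hi3 => ?_, fun i hi1 hi2 hi3 => ?_⟩
  · rcases Nat.lt_or_ge N₁ i with hi | hi
    · rcases Nat.lt_or_ge (i + N₁) n with hk | hk
      · -- near the set
        rw [horb' i hi.le hk.le] at hi3
        have c1 := hvδ i hi.le hk.le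
        have c2 := H3 (T^[i] y) (v i) 0 (c1.trans hη₀ρ) (by rw [norm_zero]; exact hρ.le)
        rw [H0, sub_zero] at c2
        have c3 : ‖e (h (T^[i] y, v i)) - e (Q l)‖ < r₀ / 2 := hi3.1
        have c4 := hq l (T^[i] y)
        have c5 : e (Q l) - e (j (T^[i] y)) = (e (h (T^[i] y, v i)) - e (j (T^[i] y))) -
            (e (h (T^[i] y, v i)) - e (Q l)) := by abel
        rw [c5] at c4
        have c6 := norm_sub_le (e (h (T^[i] y, v i)) - e (j (T^[i] y)))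
          (e (h (T^[i] y, v i)) - e (Q l))
        have c7 : K * ‖v i‖ ≤ K * η₀ := mul_le_mul_of_nonneg_left c1 hK
        linarith
      · -- the end
        have e1 : Φ^[i] z = Φ.symm^[n - i] (Φ^[n] z) := by
          have e2 : n = (n - i) + i := by omega
          conv_rhs => rw [e2, Function.iterate_add_apply]
          rw [show n - i + i - i = n - i by omega, hsymm]
        rw [e1] at hi3
        exact hfin' _ hzU2.2 (n - i) (by omega) (by omega) l hi3.2.2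
    · exact hfin z hzU.2 i hi1 hi l hi3.2.1
  · apply hmid
    rw [horb' i (by omega) (by omega)]
    have c1 := hv2 i (by omega) (by omega)
    rw [ha0 i (by omega), hb0 i (by omega), add_zero, sub_zero] at c1
    have c2 := H3 (T^[i] y) (v i) 0 ((hvδ i (by omega) (by omega)).trans hη₀ρ)
      (by rw [norm_zero]; exact hρ.le)
    rw [H0, sub_zero] at c2
    have c3 : ‖e (j (T^[i] y)) - e (j y₀)‖ < η₃ / 2 := hi3
    have c4 : e (h (T^[i] y, v i)) - e (j y₀) = (e (h (T^[i] y, v i)) - e (j (T^[i] y))) +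
        (e (j (T^[i] y)) - e (j y₀)) := by abel
    rw [c4]
    refine lt_of_le_of_lt (norm_add_le _ _) ?_
    have c5 : K * ‖v i‖ ≤ K * ε := mul_le_mul_of_nonneg_left c1 hK
    linarith

end Pool.Agent.SC
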