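import Pool.Agent.Lib.MP_1e8d1a_an.NH.Defs

/-! Weighted shadowing over a fixed base orbit. -/

open scoped Topology

namespace Pool.Agent.SC

section
variable {L V : Type} [NormedAddCommGroup V] [NormedSpace ℝ V] (T S : L → L)
  (A A' P : L → V →ₗ[ℝ] V)

theorem nh_coc_sub (k : ℕ) (y : L) (v w : V) :
    coc T (fun y v => A y v) k y (v - w) =
      coc T (fun y v => A y v) k y v - coc T (fun y v => A y v) k y w := by
  induction k with
  | zero => rfl
  | succ k ih => simp only [coc, ih, map_sub]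

theorem nh_bcoc_sub (k : ℕ) (y : L) (v w : V) :
    bcoc S (fun y v => A' y v) k y (v - w) =
      bcoc S (fun y v => A' y v) k y v - bcoc S (fun y v => A' y v) k y w := by
  induction k with
  | zero => rfl
  | succ k ih => simp only [bcoc, ih, map_sub]

/-- forward part of the Green operator -/
noncomputable def nhS (y : L) (g : ℕ → V) (i : ℕ) : V :=
  ∑ j ∈ Finset.range i, coc T (fun y v => A y v) (i - 1 - j) (T^[j + 1] y)
    (P (T^[j + 1] y) (g j))

/-- backward part of the Green operator -/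
noncomputable def nhR (n : ℕ) (y : L) (g : ℕ → V) (i : ℕ) : V :=
  ∑ j ∈ Finset.Ico i n, bcoc S (fun y v => A' y v) (j + 1 - i) (T^[j + 1] y)
    (g j - P (T^[j + 1] y) (g j))

theorem nhS_succ (y : L) (g : ℕ → V) (i : ℕ) :
    nhS T A P y g (i + 1) = A (T^[i] y) (nhS T A P y g i) + P (T^[i + 1] y) (g i) := by
  unfold nhS
  rw [Finset.sum_range_succ, map_sum]
  congr 1
  · refine Finset.sum_congr rfl fun j hj => ?_
    have hj' := Finset.mem_range.1 hj
    have h1 : i + 1 - 1 - j = (i - 1 - j) + 1 := by omega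
    rw [h1, coc, ← Function.iterate_add_apply]
    have h2 : i - 1 - j + (j + 1) = i := by omega
    rw [h2]
  · have h1 : i + 1 - 1 - i = 0 := by omega
    rw [h1, coc]

theorem nh_bcoc_ker (hTS : ∀ y, T (S y) = y)
    (hA : ∀ y v, P (T y) v = 0 → A y (A' y v) = v ∧ P y (A' y v) = 0) (k : ℕ) (y : L) (w : V)
    (hw : P y w = 0) : P (S^[k] y) (bcoc S (fun y v => A' y v) k y w) = 0 := by
  induction k with
  | zero => exact hw
  | succ k ih =>
    rw [bcoc]
    refine (hA _ _ ?_).2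
    rw [Function.iterate_succ_apply', hTS]
    exact ih

theorem nh_bcoc_inv (hTS : ∀ y, T (S y) = y)
    (hA : ∀ y v, P (T y) v = 0 → A y (A' y v) = v ∧ P y (A' y v) = 0) (k : ℕ) (y : L) (w : V)
    (hw : P y w = 0) : A (S^[k + 1] y) (A' (S^[k + 1] y) (bcoc S (fun y v => A' y v) k y w)) =
      bcoc S (fun y v => A' y v) k y w := by
  refine (hA _ _ ?_).1
  rw [Function.iterate_succ_apply', hTS]
  exact nh_bcoc_ker T S A A' P hTS hA k y w hw

theorem nhR_step (hST : ∀ y, S (T y) = y) (hTS : ∀ y, T (S y) = y)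
    (hP : ∀ y v, P y (P y v) = P y v)
    (hA : ∀ y v, P (T y) v = 0 → A y (A' y v) = v ∧ P y (A' y v) = 0) (n : ℕ) (y : L)
    (g : ℕ → V) (i : ℕ) (hi : i < n) :
    A (T^[i] y) (nhR T S A' P n y g i) =
      nhR T S A' P n y g (i + 1) + (g i - P (T^[i + 1] y) (g i)) := by
  have hSi : ∀ k m, S^[k] (T^[m + k] y) = T^[m] y := by
    intro k
    induction k with
    | zero => intro m; rfl
    | succ k ih =>
      intro m
      have h1 : m + (k + 1) = (m + 1) + k := by omega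
      rw [h1, Function.iterate_succ_apply', ih, Function.iterate_succ_apply', hST]
  have hker : ∀ y v, P y (v - P y v) = 0 := by
    intro y v
    rw [map_sub, hP, sub_self]
  have hstep : ∀ j, i ≤ j → A (T^[i] y) (bcoc S (fun y v => A' y v) (j + 1 - i) (T^[j + 1] y)
      (g j - P (T^[j + 1] y) (g j))) = bcoc S (fun y v => A' y v) (j - i) (T^[j + 1] y)
      (g j - P (T^[j + 1] y) (g j)) := by
    intro j hj
    have h1 : j + 1 - i = (j - i) + 1 := by omega
    have h2 : S^[j - i + 1] (T^[j + 1] y) = T^[i] y := by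
      have h3 := hSi (j - i + 1) i
      have h4 : i + (j - i + 1) = j + 1 := by omega
      rwa [h4] at h3
    rw [h1, bcoc]
    have h5 := nh_bcoc_inv T S A A' P hTS hA (j - i) (T^[j + 1] y) (g j - P (T^[j + 1] y) (g j))
      (hker _ _)
    rwa [h2] at h5 ⊢
  unfold nhR
  rw [Finset.sum_eq_sum_Ico_succ_bot hi, map_add, add_comm, map_sum]
  congr 1
  · refine Finset.sum_congr rfl fun j hj => ?_
    have hj' := Finset.mem_Ico.1 hj
    have h5 : j + 1 - (i + 1) = j - i := by omega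
    rw [h5]
    exact hstep j (by omega)
  · rw [hstep i le_rfl, Nat.sub_self, bcoc]

theorem nh_geom {θ : ℝ} (h0 : 0 ≤ θ) (h1 : θ < 1) (n : ℕ) :
    ∑ k ∈ Finset.range n, θ ^ k ≤ 1 / (1 - θ) := by
  rw [le_div_iff₀ (by linarith), geom_sum_mul_neg]
  have := pow_nonneg h0 n
  linarith

theorem nhS_bound {C α μ : ℝ} (hC : 0 ≤ C) (h0 : 0 ≤ α) (h1 : α < μ)
    (hf : ∀ (k : ℕ) y v, ‖coc T (fun y v => A y v) k y (P y v)‖ ≤ C * α ^ k * ‖v‖)
    (n : ℕ) (y : L) (g g' : ℕ → V) {M : ℝ} (hg : ∀ j < n, ‖g j - g' j‖ ≤ M * μ ^ j) (hM : 0 ≤ M)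
    (i : ℕ) (hi : i ≤ n) :
    ‖nhS T A P y g i - nhS T A P y g' i‖ ≤ C * (1 / (μ - α)) * M * μ ^ i := by
  unfold nhS
  rw [← Finset.sum_sub_distrib]
  refine (norm_sum_le _ _).trans ?_
  have h2 : ∀ j ∈ Finset.range i,
      ‖coc T (fun y v => A y v) (i - 1 - j) (T^[j + 1] y) (P (T^[j + 1] y) (g j)) -
        coc T (fun y v => A y v) (i - 1 - j) (T^[j + 1] y) (P (T^[j + 1] y) (g' j))‖ ≤
      C * M * (μ ^ j * α ^ (i - 1 - j)) := by
    intro j hj
    rw [← nh_coc_sub, ← map_sub]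
    refine (hf _ _ _).trans ?_
    have h3 := hg j (lt_of_lt_of_le (Finset.mem_range.1 hj) hi)
    have h4 : 0 ≤ C * α ^ (i - 1 - j) := mul_nonneg hC (pow_nonneg h0 _)
    calc C * α ^ (i - 1 - j) * ‖g j - g' j‖ ≤ C * α ^ (i - 1 - j) * (M * μ ^ j) :=
          mul_le_mul_of_nonneg_left h3 h4
      _ = C * M * (μ ^ j * α ^ (i - 1 - j)) := by ring
  refine (Finset.sum_le_sum h2).trans ?_
  rw [← Finset.mul_sum]
  have h5 : (∑ j ∈ Finset.range i, μ ^ j * α ^ (i - 1 - j)) * (μ - α) = μ ^ i - α ^ i :=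
    geom_sum₂_mul μ α i
  have h6 : ∑ j ∈ Finset.range i, μ ^ j * α ^ (i - 1 - j) ≤ 1 / (μ - α) * μ ^ i := by
    rw [one_div, inv_mul_eq_div, le_div_iff₀ (by linarith), h5]
    have := pow_nonneg h0 i
    linarith
  calc C * M * ∑ j ∈ Finset.range i, μ ^ j * α ^ (i - 1 - j)
      ≤ C * M * (1 / (μ - α) * μ ^ i) := mul_le_mul_of_nonneg_left h6 (mul_nonneg hC hM)
    _ = C * (1 / (μ - α)) * M * μ ^ i := by ring

theorem nhR_bound {C β μ : ℝ} (hC : 0 ≤ C) (h0 : 0 ≤ β) (hμ : 0 < μ) (h1 : β * μ < 1)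
    (hb : ∀ (k : ℕ) y v, ‖bcoc S (fun y v => A' y v) k y (v - P y v)‖ ≤ C * β ^ k * ‖v‖)
    (n : ℕ) (y : L) (g g' : ℕ → V) {M : ℝ} (hg : ∀ j < n, ‖g j - g' j‖ ≤ M * μ ^ j) (hM : 0 ≤ M)
    (i : ℕ) : ‖nhR T S A' P n y g i - nhR T S A' P n y g' i‖ ≤
      C * (β / (1 - β * μ)) * M * μ ^ i := by
  unfold nhR
  rw [← Finset.sum_sub_distrib]
  refine (norm_sum_le _ _).trans ?_
  have h2 : ∀ j ∈ Finset.Ico i n,
      ‖bcoc S (fun y v => A' y v) (j + 1 - i) (T^[j + 1] y) (g j - P (T^[j + 1] y) (g j)) -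
        bcoc S (fun y v => A' y v) (j + 1 - i) (T^[j + 1] y) (g' j - P (T^[j + 1] y) (g' j))‖ ≤
      C * M * β * μ ^ i * (β * μ) ^ (j - i) := by
    intro j hj
    rw [← nh_bcoc_sub]
    have h3 : g j - P (T^[j + 1] y) (g j) - (g' j - P (T^[j + 1] y) (g' j)) =
        (g j - g' j) - P (T^[j + 1] y) (g j - g' j) := by
      rw [map_sub]
      abel
    rw [h3]
    refine (hb _ _ _).trans ?_
    have h4 := hg j (Finset.mem_Ico.1 hj).2
    have h6 : 0 ≤ β ^ (j + 1 - i) := pow_nonneg h0 _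
    have h7 : j + 1 - i = (j - i) + 1 := by have := (Finset.mem_Ico.1 hj).1; omega
    have h8 : μ ^ j = μ ^ i * μ ^ (j - i) := by
      rw [← pow_add]
      congr 1
      have := (Finset.mem_Ico.1 hj).1
      omega
    calc C * β ^ (j + 1 - i) * ‖g j - g' j‖ ≤ C * β ^ (j + 1 - i) * (M * μ ^ j) :=
          mul_le_mul_of_nonneg_left h4 (mul_nonneg hC h6)
      _ = C * M * β * μ ^ i * (β * μ) ^ (j - i) := by
          rw [h7, h8, mul_pow, pow_succ]
          ring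
  refine (Finset.sum_le_sum h2).trans ?_
  rw [← Finset.mul_sum, Finset.sum_Ico_eq_sum_range]
  have h7 : ∑ k ∈ Finset.range (n - i), (β * μ) ^ (i + k - i) =
      ∑ k ∈ Finset.range (n - i), (β * μ) ^ k :=
    Finset.sum_congr rfl fun k _ => by rw [Nat.add_sub_cancel_left]
  rw [h7]
  have h5 := nh_geom (mul_nonneg h0 hμ.le) h1 (n - i)
  have h6 : C * (β / (1 - β * μ)) * M * μ ^ i = C * M * β * μ ^ i * (1 / (1 - β * μ)) := by ring
  rw [h6]
  exact mul_le_mul_of_nonneg_left h5 (by positivity)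

end

/-- **Weighted shadowing over a fixed base orbit.** -/
theorem nh_shadow {L : Type} [TopologicalSpace L] (T : L ≃ₜ L) {V : Type}
    [NormedAddCommGroup V] [NormedSpace ℝ V] [CompleteSpace V] (G : L × V → V) {μ : ℝ}
    (hμ : 0 < μ) (hG : DomSplit T G μ) : ∃ K : ℝ, 0 ≤ K ∧ ∀ (n : ℕ) (y : L) (u : ℕ → V) (ε : ℝ),
      0 ≤ ε → (∀ i < n, ‖u (i + 1) - G (T^[i] y, u i)‖ ≤ ε * μ ^ i) →
      ∃ v : ℕ → V, (∀ i < n, v (i + 1) = G (T^[i] y, v i)) ∧
        ∀ i ≤ n, ‖v i - u i‖ ≤ K * ε * μ ^ i := by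
  obtain ⟨A, A', P, φ, M, C, α, β, κ, hC, hα, hαμ, hβ, hβμ, hκ, hsmall, -, hP, hA, hf, hb, -, hφ,
    hGe⟩ := hG
  set K₀ := C * (1 / (μ - α) + β / (1 - β * μ)) with hK₀
  have hK₀0 : 0 ≤ K₀ := by
    have h1 : 0 ≤ 1 / (μ - α) := by
      apply div_nonneg zero_le_one
      linarith
    have h2 : 0 ≤ β / (1 - β * μ) := by
      apply div_nonneg hβ
      linarith
    positivity
  have hK₀κ : K₀ * κ < 1 := hsmall
  refine ⟨K₀ / (1 - K₀ * κ), div_nonneg hK₀0 (by linarith), fun n y u ε hε hu => ?_⟩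
  have hμp : ∀ i, 0 < μ ^ i := fun i => pow_pos hμ i
  -- the extension of a finite sequence
  let ext : (Fin (n + 1) → V) → ℕ → V := fun d j =>
    if h : j < n + 1 then μ ^ j • d ⟨j, h⟩ else 0
  let gg : (Fin (n + 1) → V) → ℕ → V := fun d j =>
    φ (T^[j] y, u j + ext d j) - φ (T^[j] y, u j) - (u (j + 1) - G (T^[j] y, u j))
  let Γ : (ℕ → V) → ℕ → V := fun g i => nhS T A P y g i - nhR T T.symm A' P n y g i
  let N : (Fin (n + 1) → V) → (Fin (n + 1) → V) := fun d i => (μ ^ (i : ℕ))⁻¹ • Γ (gg d) i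
  have hΓb : ∀ (g g' : ℕ → V) (M : ℝ), 0 ≤ M → (∀ j < n, ‖g j - g' j‖ ≤ M * μ ^ j) → ∀ i ≤ n,
      ‖Γ g i - Γ g' i‖ ≤ K₀ * M * μ ^ i := by
    intro g g' M hM hg i hi
    have h2 : Γ g i - Γ g' i = (nhS T A P y g i - nhS T A P y g' i) -
        (nhR T T.symm A' P n y g i - nhR T T.symm A' P n y g' i) := by
      show (nhS T A P y g i - nhR T T.symm A' P n y g i) -
        (nhS T A P y g' i - nhR T T.symm A' P n y g' i) = _
      abel
    rw [h2]
    refine (norm_sub_le _ _).trans ?_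
    have h3 := nhS_bound T A P hC hα hαμ hf n y g g' hg hM i hi
    have h4 := nhR_bound T T.symm A' P hC hβ hμ hβμ hb n y g g' hg hM i
    have h5 : K₀ * M * μ ^ i = C * (1 / (μ - α)) * M * μ ^ i + C * (β / (1 - β * μ)) * M * μ ^ i := by
      rw [hK₀]
      ring
    rw [h5]
    linarith
  have hext : ∀ d d' j, ‖ext d j - ext d' j‖ ≤ ‖d - d'‖ * μ ^ j := by
    intro d d' j
    by_cases hj : j < n + 1
    · simp only [ext, dif_pos hj]
      rw [← smul_sub, norm_smul, Real.norm_eq_abs, abs_of_pos (hμp j), mul_comm]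
      exact mul_le_mul_of_nonneg_right (norm_le_pi_norm (d - d') ⟨j, hj⟩) (hμp j).le
    · simp only [ext, dif_neg hj, sub_zero, norm_zero]
      exact mul_nonneg (norm_nonneg _) (hμp j).le
  have hgg : ∀ d d' j, ‖gg d j - gg d' j‖ ≤ κ * ‖d - d'‖ * μ ^ j := by
    intro d d' j
    have h2 : gg d j - gg d' j = φ (T^[j] y, u j + ext d j) - φ (T^[j] y, u j + ext d' j) := by
      simp only [gg]
      abel
    rw [h2]
    refine (hφ _ _ _).trans ?_
    rw [add_sub_add_left_eq_sub, mul_assoc]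
    exact mul_le_mul_of_nonneg_left (hext d d' j) hκ
  have hNb : ∀ d d', ‖N d - N d'‖ ≤ K₀ * κ * ‖d - d'‖ := by
    intro d d'
    rw [pi_norm_le_iff_of_nonneg (by positivity)]
    intro i
    have h2 := hΓb (gg d) (gg d') (κ * ‖d - d'‖) (by positivity) (fun j _ => hgg d d' j) i
      (Nat.lt_succ_iff.1 i.2)
    show ‖(μ ^ (i : ℕ))⁻¹ • Γ (gg d) i - (μ ^ (i : ℕ))⁻¹ • Γ (gg d') i‖ ≤ _
    rw [← smul_sub, norm_smul, norm_inv, Real.norm_eq_abs, abs_of_pos (hμp i),
      inv_mul_le_iff₀ (hμp i)]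
    calc _ ≤ K₀ * (κ * ‖d - d'‖) * μ ^ (i : ℕ) := h2
      _ = μ ^ (i : ℕ) * (K₀ * κ * ‖d - d'‖) := by ring
  obtain ⟨q, hq⟩ : ∃ q : NNReal, (q : ℝ) = K₀ * κ := ⟨(K₀ * κ).toNNReal, Real.coe_toNNReal _
    (by positivity)⟩
  have hcontr : ContractingWith q N := by
    refine ⟨?_, LipschitzWith.of_dist_le_mul fun c c' => ?_⟩
    · rw [← NNReal.coe_lt_coe, hq]
      exact hK₀κ
    · rw [dist_eq_norm, dist_eq_norm, hq]
      exact hNb c c'
  set c := hcontr.fixedPoint N with hcdef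
  have hc : N c = c := hcontr.fixedPoint_isFixedPt
  have hΓ0 : ∀ i, Γ (fun _ => 0) i = 0 := by
    intro i
    show nhS T A P y (fun _ => 0) i - nhR T T.symm A' P n y (fun _ => 0) i = 0
    unfold nhS nhR
    have h2 : ∀ k y', coc T (fun y v => A y v) k y' (0 : V) = 0 := by
      intro k y'
      have := nh_coc_sub T A k y' (0 : V) 0
      simpa using this
    have h3 : ∀ k y', bcoc T.symm (fun y v => A' y v) k y' (0 : V) = 0 := by
      intro k y'
      have := nh_bcoc_sub T.symm A' k y' (0 : V) 0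
      simpa using this
    simp [h2, h3]
  have hext0 : ∀ j, ext 0 j = 0 := by
    intro j
    by_cases hj : j < n + 1
    · simp only [ext, dif_pos hj, Pi.zero_apply, smul_zero]
    · simp only [ext, dif_neg hj]
  have hN0 : ‖N 0‖ ≤ K₀ * ε := by
    rw [pi_norm_le_iff_of_nonneg (by positivity)]
    intro i
    have h2 := hΓb (gg 0) (fun _ => 0) ε hε (fun j hj => ?_) i (Nat.lt_succ_iff.1 i.2)
    · rw [hΓ0, sub_zero] at h2
      show ‖(μ ^ (i : ℕ))⁻¹ • Γ (gg 0) i‖ ≤ _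
      rw [norm_smul, norm_inv, Real.norm_eq_abs, abs_of_pos (hμp i), inv_mul_le_iff₀ (hμp i)]
      linarith
    · simp only [gg, hext0, add_zero, sub_self, zero_sub, sub_zero, norm_neg]
      exact hu j hj
  have hcn : ‖c‖ ≤ K₀ / (1 - K₀ * κ) * ε := by
    have h2 := hNb c 0
    rw [hc, sub_zero] at h2
    have h3 : ‖c‖ ≤ ‖c - N 0‖ + ‖N 0‖ := by
      have := norm_add_le (c - N 0) (N 0)
      rwa [sub_add_cancel] at this
    rw [div_mul_eq_mul_div, le_div_iff₀ (by linarith)]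
    nlinarith
  have hrec : ∀ (g : ℕ → V) (i : ℕ), i < n → Γ g (i + 1) = A (T^[i] y) (Γ g i) + g i := by
    intro g i hi
    have h2 := nhS_succ T A P y g i
    have h3 := nhR_step T T.symm A A' P (fun y => T.symm_apply_apply y)
      (fun y => T.apply_symm_apply y) hP hA n y g i hi
    show nhS T A P y g (i + 1) - nhR T T.symm A' P n y g (i + 1) =
      A (T^[i] y) (nhS T A P y g i - nhR T T.symm A' P n y g i) + g i
    rw [h2, map_sub, h3]
    abel
  have hcΓ : ∀ i ≤ n, ext c i = Γ (gg c) i := by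
    intro i hi
    simp only [ext, dif_pos (Nat.lt_succ_of_le hi)]
    conv_lhs => rw [← hc]
    show μ ^ i • ((μ ^ i)⁻¹ • Γ (gg c) i) = _
    rw [smul_smul, mul_inv_cancel₀ (hμp i).ne', one_smul]
  refine ⟨fun i => u i + ext c i, fun i hi => ?_, fun i hi => ?_⟩
  · show u (i + 1) + ext c (i + 1) = G (T^[i] y, u i + ext c i)
    rw [hcΓ (i + 1) hi, hrec _ i hi, ← hcΓ i hi.le]
    simp only [gg]
    rw [hGe, hGe, map_add]
    abel
  · show ‖u i + ext c i - u i‖ ≤ _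
    rw [add_sub_cancel_left]
    have h2 := hext c 0 i
    rw [hext0, sub_zero, sub_zero] at h2
    exact h2.trans (mul_le_mul_of_nonneg_right hcn (hμp i).le)

end Pool.Agent.SC
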