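import Mathlib

/-! Products along orbits. -/

namespace Pool.Agent.SC

/-- the product of `m` over the first `k` points of the orbit of `y` -/
def wprod {L : Type} (T : L → L) (m : L → ℝ) (k : ℕ) (y : L) : ℝ :=
  ∏ i ∈ Finset.range k, m (T^[i] y)

end Pool.Agent.SC
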