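import Pool.Agent.Lib.MP_1e8d1a_an.NH.Lin
import Pool.Agent.Lib.MP_1e8d1a_an.NH.WProd

/-! Weighted shadowing over a fixed base orbit, weights = products of a function along the orbit. -/

open scoped Topology

namespace Pool.Agent.SC

theorem wprod_zero {L : Type} (T : L → L) (m : L → ℝ) (y : L) : wprod T m 0 y = 1 := by
  simp [wprod]

theorem wprod_succ {L : Type} (T : L → L) (m : L → ℝ) (k : ℕ) (y : L) :
    wprod T m (k + 1) y = wprod T m k y * m (T^[k] y) := by
  rw [wprod, Finset.prod_range_succ, wprod]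

theorem wprod_add {L : Type} (T : L → L) (m : L → ℝ) (j k : ℕ) (y : L) :
    wprod T m (j + k) y = wprod T m j y * wprod T m k (T^[j] y) := by
  rw [wprod, Finset.prod_range_add, wprod, wprod]
  congr 1
  refine Finset.prod_congr rfl fun i _ => ?_
  rw [← Function.iterate_add_apply, add_comm]

theorem wprod_pos {L : Type} (T : L → L) {m : L → ℝ} (hm : ∀ y, 0 < m y) (k : ℕ) (y : L) :
    0 < wprod T m k y := Finset.prod_pos fun _ _ => hm _

theorem wprod_le_one {L : Type} (T : L → L) {m : L → ℝ} (hm : ∀ y, 0 < m y) (h1 : ∀ y, m y ≤ 1)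
    (k : ℕ) (y : L) : wprod T m k y ≤ 1 :=
  Finset.prod_le_one (fun _ _ => (hm _).le) fun _ _ => h1 _

theorem one_le_wprod {L : Type} (T : L → L) {m : L → ℝ} (h1 : ∀ y, 1 ≤ m y)
    (k : ℕ) (y : L) : 1 ≤ wprod T m k y := by
  induction k with
  | zero => rw [wprod_zero]
  | succ k ih =>
    rw [wprod_succ]
    exact one_le_mul_of_one_le_of_one_le ih (h1 _)

/-- The maps `G (y, ·)` have a dominated splitting at the level `m` (a function on `L`). -/
def DomSplitW {L : Type} (T S : L → L) {V : Type}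
    [NormedAddCommGroup V] [NormedSpace ℝ V] (G : L × V → V) (m : L → ℝ) : Prop :=
  ∃ (A A' P : L → V →ₗ[ℝ] V) (φ : L × V → V) (M C θ κ c : ℝ),
    0 ≤ C ∧ 0 ≤ θ ∧ θ < 1 ∧ 0 ≤ κ ∧ 0 < c ∧ (∀ y, c ≤ m y) ∧
    C / c * (2 / (1 - θ)) * κ < 1 ∧
    (∀ y v, ‖A y v‖ ≤ M * ‖v‖) ∧ (∀ y v, P y (P y v) = P y v) ∧
    (∀ y v, P (T y) v = 0 → A y (A' y v) = v ∧ P y (A' y v) = 0) ∧
    (∀ (k : ℕ) y v, ‖coc T (fun y v => A y v) k y (P y v)‖ ≤ C * θ ^ k * wprod T m k y * ‖v‖) ∧
    (∀ (k : ℕ) y v, wprod T m k (S^[k] y) * ‖bcoc S (fun y v => A' y v) k y (v - P y v)‖ ≤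
      C * θ ^ k * ‖v‖) ∧
    (∀ y, φ (y, 0) = 0) ∧ (∀ y v v', ‖φ (y, v) - φ (y, v')‖ ≤ κ * ‖v - v'‖) ∧
    ∀ y v, G (y, v) = A y v + φ (y, v)

section
variable {L V : Type} [NormedAddCommGroup V] [NormedSpace ℝ V] (T S : L → L)
  (A A' P : L → V →ₗ[ℝ] V)

theorem nhS_boundW {C θ c : ℝ} {m : L → ℝ} (hC : 0 ≤ C) (h0 : 0 ≤ θ) (h1 : θ < 1) (hc : 0 < c)
    (hm : ∀ y, c ≤ m y)
    (hf : ∀ (k : ℕ) y v, ‖coc T (fun y v => A y v) k y (P y v)‖ ≤
      C * θ ^ k * wprod T m k y * ‖v‖)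
    (n : ℕ) (y : L) (g g' : ℕ → V) {M : ℝ} (hg : ∀ j < n, ‖g j - g' j‖ ≤ M * wprod T m j y)
    (hM : 0 ≤ M) (i : ℕ) (hi : i ≤ n) :
    ‖nhS T A P y g i - nhS T A P y g' i‖ ≤ C / c * (1 / (1 - θ)) * M * wprod T m i y := by
  have hm0 : ∀ y, 0 < m y := fun y => hc.trans_le (hm y)
  have hwp : ∀ k y, 0 < wprod T m k y := fun k y => wprod_pos T hm0 k y
  unfold nhS
  rw [← Finset.sum_sub_distrib]
  refine (norm_sum_le _ _).trans ?_
  have h2 : ∀ j ∈ Finset.range i,
      ‖coc T (fun y v => A y v) (i - 1 - j) (T^[j + 1] y) (P (T^[j + 1] y) (g j)) -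
        coc T (fun y v => A y v) (i - 1 - j) (T^[j + 1] y) (P (T^[j + 1] y) (g' j))‖ ≤
      C / c * M * wprod T m i y * θ ^ (i - 1 - j) := by
    intro j hj
    have hj' := Finset.mem_range.1 hj
    rw [← nh_coc_sub, ← map_sub]
    refine (hf _ _ _).trans ?_
    have h3 := hg j (lt_of_lt_of_le hj' hi)
    have h4 : 0 ≤ C * θ ^ (i - 1 - j) * wprod T m (i - 1 - j) (T^[j + 1] y) :=
      mul_nonneg (mul_nonneg hC (pow_nonneg h0 _)) (hwp _ _).le
    have h5 : wprod T m i y = wprod T m j y * m (T^[j] y) *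
        wprod T m (i - 1 - j) (T^[j + 1] y) := by
      rw [← wprod_succ, ← wprod_add]
      congr 1
      omega
    have h6 : c * (wprod T m j y * wprod T m (i - 1 - j) (T^[j + 1] y)) ≤ wprod T m i y := by
      have h7 : wprod T m i y = m (T^[j] y) *
          (wprod T m j y * wprod T m (i - 1 - j) (T^[j + 1] y)) := by
        rw [h5]
        ring
      rw [h7]
      exact mul_le_mul_of_nonneg_right (hm _) (mul_pos (hwp _ _) (hwp _ _)).le
    calc C * θ ^ (i - 1 - j) * wprod T m (i - 1 - j) (T^[j + 1] y) * ‖g j - g' j‖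
        ≤ C * θ ^ (i - 1 - j) * wprod T m (i - 1 - j) (T^[j + 1] y) * (M * wprod T m j y) :=
          mul_le_mul_of_nonneg_left h3 h4
      _ = C / c * M * θ ^ (i - 1 - j) *
          (c * (wprod T m j y * wprod T m (i - 1 - j) (T^[j + 1] y))) := by
          field_simp
      _ ≤ C / c * M * θ ^ (i - 1 - j) * wprod T m i y := by
          refine mul_le_mul_of_nonneg_left h6 ?_
          have := pow_nonneg h0 (i - 1 - j)
          positivity
      _ = C / c * M * wprod T m i y * θ ^ (i - 1 - j) := by ring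
  refine (Finset.sum_le_sum h2).trans ?_
  rw [← Finset.mul_sum]
  have h6 : ∑ j ∈ Finset.range i, θ ^ (i - 1 - j) ≤ 1 / (1 - θ) := by
    rw [Finset.sum_range_reflect (fun k => θ ^ k) i]
    exact nh_geom h0 h1 i
  calc C / c * M * wprod T m i y * ∑ j ∈ Finset.range i, θ ^ (i - 1 - j)
      ≤ C / c * M * wprod T m i y * (1 / (1 - θ)) := by
        refine mul_le_mul_of_nonneg_left h6 ?_
        have := hwp i y
        positivity
    _ = C / c * (1 / (1 - θ)) * M * wprod T m i y := by ring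

theorem nhR_boundW {C θ c : ℝ} {m : L → ℝ} (hST : ∀ y, S (T y) = y) (hC : 0 ≤ C) (h0 : 0 ≤ θ)
    (h1 : θ < 1) (hc : 0 < c) (hm : ∀ y, c ≤ m y)
    (hb : ∀ (k : ℕ) y v, wprod T m k (S^[k] y) * ‖bcoc S (fun y v => A' y v) k y (v - P y v)‖ ≤
      C * θ ^ k * ‖v‖)
    (n : ℕ) (y : L) (g g' : ℕ → V) {M : ℝ} (hg : ∀ j < n, ‖g j - g' j‖ ≤ M * wprod T m j y)
    (hM : 0 ≤ M) (i : ℕ) : ‖nhR T S A' P n y g i - nhR T S A' P n y g' i‖ ≤
      C / c * (1 / (1 - θ)) * M * wprod T m i y := by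
  have hm0 : ∀ y, 0 < m y := fun y => hc.trans_le (hm y)
  have hwp : ∀ k y, 0 < wprod T m k y := fun k y => wprod_pos T hm0 k y
  have hSi : ∀ k m, S^[k] (T^[m + k] y) = T^[m] y := by
    intro k
    induction k with
    | zero => intro m; rfl
    | succ k ih =>
      intro m
      have h1 : m + (k + 1) = (m + 1) + k := by omega
      rw [h1, Function.iterate_succ_apply', ih, Function.iterate_succ_apply', hST]
  unfold nhR
  rw [← Finset.sum_sub_distrib]
  refine (norm_sum_le _ _).trans ?_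
  have h2 : ∀ j ∈ Finset.Ico i n,
      ‖bcoc S (fun y v => A' y v) (j + 1 - i) (T^[j + 1] y) (g j - P (T^[j + 1] y) (g j)) -
        bcoc S (fun y v => A' y v) (j + 1 - i) (T^[j + 1] y) (g' j - P (T^[j + 1] y) (g' j))‖ ≤
      C / c * M * wprod T m i y * θ ^ (j - i) := by
    intro j hj
    obtain ⟨hij, hjn⟩ := Finset.mem_Ico.1 hj
    rw [← nh_bcoc_sub]
    have h3 : g j - P (T^[j + 1] y) (g j) - (g' j - P (T^[j + 1] y) (g' j)) =
        (g j - g' j) - P (T^[j + 1] y) (g j - g' j) := by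
      rw [map_sub]
      abel
    rw [h3]
    have h4 := hg j hjn
    have h5 := hb (j + 1 - i) (T^[j + 1] y) (g j - g' j)
    have h6 : S^[j + 1 - i] (T^[j + 1] y) = T^[i] y := by
      have h7 := hSi (j + 1 - i) i
      rwa [show i + (j + 1 - i) = j + 1 by omega] at h7
    rw [h6] at h5
    have h8 : wprod T m (j + 1 - i) (T^[i] y) = wprod T m (j - i) (T^[i] y) * m (T^[j] y) := by
      rw [show j + 1 - i = (j - i) + 1 by omega, wprod_succ, ← Function.iterate_add_apply,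
        show j - i + i = j by omega]
    have h9 : wprod T m j y = wprod T m i y * wprod T m (j - i) (T^[i] y) := by
      rw [← wprod_add]
      congr 1
      omega
    set N := ‖bcoc S (fun y v => A' y v) (j + 1 - i) (T^[j + 1] y)
      (g j - g' j - P (T^[j + 1] y) (g j - g' j))‖ with hN
    have hN0 : 0 ≤ N := norm_nonneg _
    rw [h8] at h5
    have hw1 := hwp (j - i) (T^[i] y)
    have hw2 := hwp i y
    have hθ1 : θ ^ (j + 1 - i) ≤ θ ^ (j - i) :=
      pow_le_pow_of_le_one h0 h1.le (by omega)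
    have h10 : wprod T m (j - i) (T^[i] y) * (c * N) ≤
        C * θ ^ (j - i) * (M * (wprod T m i y * wprod T m (j - i) (T^[i] y))) := by
      calc wprod T m (j - i) (T^[i] y) * (c * N)
          ≤ wprod T m (j - i) (T^[i] y) * (m (T^[j] y) * N) := by
            refine mul_le_mul_of_nonneg_left ?_ hw1.le
            exact mul_le_mul_of_nonneg_right (hm _) hN0
        _ = wprod T m (j - i) (T^[i] y) * m (T^[j] y) * N := by ring
        _ ≤ C * θ ^ (j + 1 - i) * ‖g j - g' j‖ := h5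
        _ ≤ C * θ ^ (j - i) * (M * (wprod T m i y * wprod T m (j - i) (T^[i] y))) := by
            rw [← h9]
            refine mul_le_mul ?_ h4 (norm_nonneg _) ?_
            · exact mul_le_mul_of_nonneg_left hθ1 hC
            · exact mul_nonneg hC (pow_nonneg h0 _)
    have h11 : c * N ≤ C * θ ^ (j - i) * M * wprod T m i y := by
      refine le_of_mul_le_mul_left ?_ hw1
      calc _ ≤ _ := h10
        _ = wprod T m (j - i) (T^[i] y) * (C * θ ^ (j - i) * M * wprod T m i y) := by ring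
    have h12 : N ≤ (C * θ ^ (j - i) * M * wprod T m i y) / c := by
      rw [le_div_iff₀ hc]
      linarith
    refine h12.trans (le_of_eq ?_)
    ring
  refine (Finset.sum_le_sum h2).trans ?_
  rw [← Finset.mul_sum, Finset.sum_Ico_eq_sum_range]
  have h7 : ∑ k ∈ Finset.range (n - i), θ ^ (i + k - i) =
      ∑ k ∈ Finset.range (n - i), θ ^ k :=
    Finset.sum_congr rfl fun k _ => by rw [Nat.add_sub_cancel_left]
  rw [h7]
  have h5 := nh_geom h0 h1 (n - i)
  have h6 : C / c * (1 / (1 - θ)) * M * wprod T m i y =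
      C / c * M * wprod T m i y * (1 / (1 - θ)) := by ring
  rw [h6]
  refine mul_le_mul_of_nonneg_left h5 ?_
  have := hwp i y
  positivity

end

/-- **Weighted shadowing over a fixed base orbit.** -/
theorem nh_shadowW {L : Type} (T S : L → L) (hST : ∀ y, S (T y) = y) (hTS : ∀ y, T (S y) = y)
    {V : Type} [NormedAddCommGroup V] [NormedSpace ℝ V] [CompleteSpace V] (G : L × V → V)
    {m : L → ℝ} (hG : DomSplitW T S G m) : ∃ K : ℝ, 0 ≤ K ∧
      ∀ (n : ℕ) (y : L) (u : ℕ → V) (ε : ℝ),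
      0 ≤ ε → (∀ i < n, ‖u (i + 1) - G (T^[i] y, u i)‖ ≤ ε * wprod T m i y) →
      ∃ v : ℕ → V, (∀ i < n, v (i + 1) = G (T^[i] y, v i)) ∧
        ∀ i ≤ n, ‖v i - u i‖ ≤ K * ε * wprod T m i y := by
  obtain ⟨A, A', P, φ, M, C, θ, κ, c, hC, hθ, hθ1, hκ, hc0, hcm, hsmall, -, hP, hA, hf, hb, -, hφ,
    hGe⟩ := hG
  set K₀ := C / c * (2 / (1 - θ)) with hK₀
  have hK₀0 : 0 ≤ K₀ := by
    have h1 : 0 ≤ 2 / (1 - θ) := by
      apply div_nonneg zero_le_two
      linarith
    positivity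
  have hK₀κ : K₀ * κ < 1 := hsmall
  refine ⟨K₀ / (1 - K₀ * κ), div_nonneg hK₀0 (by linarith), fun n y u ε hε hu => ?_⟩
  have hm0 : ∀ y, 0 < m y := fun y => hc0.trans_le (hcm y)
  set w : ℕ → ℝ := fun i => wprod T m i y with hw
  have hμp : ∀ i, 0 < w i := fun i => wprod_pos T hm0 i y
  -- the extension of a finite sequence
  let ext : (Fin (n + 1) → V) → ℕ → V := fun d j =>
    if h : j < n + 1 then w j • d ⟨j, h⟩ else 0
  let gg : (Fin (n + 1) → V) → ℕ → V := fun d j =>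
    φ (T^[j] y, u j + ext d j) - φ (T^[j] y, u j) - (u (j + 1) - G (T^[j] y, u j))
  let Γ : (ℕ → V) → ℕ → V := fun g i => nhS T A P y g i - nhR T S A' P n y g i
  let N : (Fin (n + 1) → V) → (Fin (n + 1) → V) := fun d i => (w (i : ℕ))⁻¹ • Γ (gg d) i
  have hΓb : ∀ (g g' : ℕ → V) (M : ℝ), 0 ≤ M → (∀ j < n, ‖g j - g' j‖ ≤ M * w j) → ∀ i ≤ n,
      ‖Γ g i - Γ g' i‖ ≤ K₀ * M * w i := by
    intro g g' M hM hg i hi
    have h2 : Γ g i - Γ g' i = (nhS T A P y g i - nhS T A P y g' i) -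
        (nhR T S A' P n y g i - nhR T S A' P n y g' i) := by
      show (nhS T A P y g i - nhR T S A' P n y g i) -
        (nhS T A P y g' i - nhR T S A' P n y g' i) = _
      abel
    rw [h2]
    refine (norm_sub_le _ _).trans ?_
    have h3 := nhS_boundW T A P hC hθ hθ1 hc0 hcm hf n y g g' hg hM i hi
    have h4 := nhR_boundW T S A' P hST hC hθ hθ1 hc0 hcm hb n y g g' hg hM i
    have h5 : K₀ * M * w i = C / c * (1 / (1 - θ)) * M * wprod T m i y +
        C / c * (1 / (1 - θ)) * M * wprod T m i y := by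
      rw [hK₀]
      ring
    rw [h5]
    linarith
  have hext : ∀ d d' j, ‖ext d j - ext d' j‖ ≤ ‖d - d'‖ * w j := by
    intro d d' j
    by_cases hj : j < n + 1
    · simp only [ext, dif_pos hj]
      rw [← smul_sub, norm_smul, Real.norm_eq_abs, abs_of_pos (hμp j), mul_comm]
      exact mul_le_mul_of_nonneg_right (norm_le_pi_norm (d - d') ⟨j, hj⟩) (hμp j).le
    · simp only [ext, dif_neg hj, sub_zero, norm_zero]
      exact mul_nonneg (norm_nonneg _) (hμp j).le
  have hgg : ∀ d d' j, ‖gg d j - gg d' j‖ ≤ κ * ‖d - d'‖ * w j := by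
    intro d d' j
    have h2 : gg d j - gg d' j = φ (T^[j] y, u j + ext d j) - φ (T^[j] y, u j + ext d' j) := by
      simp only [gg]
      abel
    rw [h2]
    refine (hφ _ _ _).trans ?_
    rw [add_sub_add_left_eq_sub, mul_assoc]
    exact mul_le_mul_of_nonneg_left (hext d d' j) hκ
  have hNb : ∀ d d', ‖N d - N d'‖ ≤ K₀ * κ * ‖d - d'‖ := by
    intro d d'
    rw [pi_norm_le_iff_of_nonneg (by positivity)]
    intro i
    have h2 := hΓb (gg d) (gg d') (κ * ‖d - d'‖) (by positivity) (fun j _ => hgg d d' j) i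
      (Nat.lt_succ_iff.1 i.2)
    show ‖(w (i : ℕ))⁻¹ • Γ (gg d) i - (w (i : ℕ))⁻¹ • Γ (gg d') i‖ ≤ _
    rw [← smul_sub, norm_smul, norm_inv, Real.norm_eq_abs, abs_of_pos (hμp i),
      inv_mul_le_iff₀ (hμp i)]
    calc _ ≤ K₀ * (κ * ‖d - d'‖) * w (i : ℕ) := h2
      _ = w (i : ℕ) * (K₀ * κ * ‖d - d'‖) := by ring
  obtain ⟨q, hq⟩ : ∃ q : NNReal, (q : ℝ) = K₀ * κ := ⟨(K₀ * κ).toNNReal, Real.coe_toNNReal _
    (by positivity)⟩
  have hcontr : ContractingWith q N := by
    refine ⟨?_, LipschitzWith.of_dist_le_mul fun c c' => ?_⟩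
    · rw [← NNReal.coe_lt_coe, hq]
      exact hK₀κ
    · rw [dist_eq_norm, dist_eq_norm, hq]
      exact hNb c c'
  set d := hcontr.fixedPoint N with hcdef
  have hd : N d = d := hcontr.fixedPoint_isFixedPt
  have hΓ0 : ∀ i, Γ (fun _ => 0) i = 0 := by
    intro i
    show nhS T A P y (fun _ => 0) i - nhR T S A' P n y (fun _ => 0) i = 0
    unfold nhS nhR
    have h2 : ∀ k y', coc T (fun y v => A y v) k y' (0 : V) = 0 := by
      intro k y'
      have := nh_coc_sub T A k y' (0 : V) 0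
      simpa using this
    have h3 : ∀ k y', bcoc S (fun y v => A' y v) k y' (0 : V) = 0 := by
      intro k y'
      have := nh_bcoc_sub S A' k y' (0 : V) 0
      simpa using this
    simp [h2, h3]
  have hext0 : ∀ j, ext 0 j = 0 := by
    intro j
    by_cases hj : j < n + 1
    · simp only [ext, dif_pos hj, Pi.zero_apply, smul_zero]
    · simp only [ext, dif_neg hj]
  have hN0 : ‖N 0‖ ≤ K₀ * ε := by
    rw [pi_norm_le_iff_of_nonneg (by positivity)]
    intro i
    have h2 := hΓb (gg 0) (fun _ => 0) ε hε (fun j hj => ?_) i (Nat.lt_succ_iff.1 i.2)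
    · rw [hΓ0, sub_zero] at h2
      show ‖(w (i : ℕ))⁻¹ • Γ (gg 0) i‖ ≤ _
      rw [norm_smul, norm_inv, Real.norm_eq_abs, abs_of_pos (hμp i), inv_mul_le_iff₀ (hμp i)]
      linarith
    · simp only [gg, hext0, add_zero, sub_self, zero_sub, sub_zero, norm_neg]
      exact hu j hj
  have hcn : ‖d‖ ≤ K₀ / (1 - K₀ * κ) * ε := by
    have h2 := hNb d 0
    rw [hd, sub_zero] at h2
    have h3 : ‖d‖ ≤ ‖d - N 0‖ + ‖N 0‖ := by
      have := norm_add_le (d - N 0) (N 0)
      rwa [sub_add_cancel] at this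
    rw [div_mul_eq_mul_div, le_div_iff₀ (by linarith)]
    nlinarith
  have hrec : ∀ (g : ℕ → V) (i : ℕ), i < n → Γ g (i + 1) = A (T^[i] y) (Γ g i) + g i := by
    intro g i hi
    have h2 := nhS_succ T A P y g i
    have h3 := nhR_step T S A A' P hST hTS hP hA n y g i hi
    show nhS T A P y g (i + 1) - nhR T S A' P n y g (i + 1) =
      A (T^[i] y) (nhS T A P y g i - nhR T S A' P n y g i) + g i
    rw [h2, map_sub, h3]
    abel
  have hcΓ : ∀ i ≤ n, ext d i = Γ (gg d) i := by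
    intro i hi
    simp only [ext, dif_pos (Nat.lt_succ_of_le hi)]
    conv_lhs => rw [← hd]
    show w i • ((w i)⁻¹ • Γ (gg d) i) = _
    rw [smul_smul, mul_inv_cancel₀ (hμp i).ne', one_smul]
  refine ⟨fun i => u i + ext d i, fun i hi => ?_, fun i hi => ?_⟩
  · show u (i + 1) + ext d (i + 1) = G (T^[i] y, u i + ext d i)
    rw [hcΓ (i + 1) hi, hrec _ i hi, ← hcΓ i hi.le]
    simp only [gg]
    rw [hGe, hGe, map_add]
    abel
  · show ‖u i + ext d i - u i‖ ≤ _
    rw [add_sub_cancel_left]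
    have h2 := hext d 0 i
    rw [hext0, sub_zero, sub_zero] at h2
    exact h2.trans (mul_le_mul_of_nonneg_right hcn (hμp i).le)

/-- linear bound and superposition bound -/
theorem nh_boundsW {L : Type} (T S : L → L) {V : Type}
    [NormedAddCommGroup V] [NormedSpace ℝ V] (G : L × V → V) {m : L → ℝ}
    (hG : DomSplitW T S G m) :
    ∃ M : ℝ, 0 ≤ M ∧ (∀ y v, ‖G (y, v)‖ ≤ M * ‖v‖) ∧
      (∀ y v w, ‖G (y, v) + G (y, w) - G (y, v + w)‖ ≤ M * ‖v‖) ∧
      ∀ y v w, ‖G (y, v) + G (y, w) - G (y, v + w)‖ ≤ M * ‖w‖ := by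
  obtain ⟨A, A', P, φ, M, C, θ, κ, c, hC, hθ, hθ1, hκ, hc0, hcm, hsmall, hM, hP, hA, hf, hb, h0,
    hφ, hGe⟩ := hG
  have h1 : ∀ y v, ‖φ (y, v)‖ ≤ κ * ‖v‖ := by
    intro y v
    have := hφ y v 0
    rwa [h0, sub_zero, sub_zero] at this
  have h2 : ∀ y v w, G (y, v) + G (y, w) - G (y, v + w) = φ (y, v) - (φ (y, w + v) - φ (y, w)) := by
    intro y v w
    rw [hGe, hGe, hGe, map_add, add_comm w v]
    abel
  have h3 : ∀ y v w, ‖G (y, v) + G (y, w) - G (y, v + w)‖ ≤ 2 * κ * ‖v‖ := by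
    intro y v w
    rw [h2]
    refine (norm_sub_le _ _).trans ?_
    have h4 := hφ y (w + v) w
    rw [add_sub_cancel_left] at h4
    have h5 := h1 y v
    linarith
  have hle1 : M ≤ max M 0 + 2 * κ := by
    have := le_max_left M 0
    linarith
  have hle2 : 2 * κ ≤ max M 0 + 2 * κ := by
    have := le_max_right M 0
    linarith
  refine ⟨max M 0 + 2 * κ, by positivity, fun y v => ?_, fun y v w => ?_, fun y v w => ?_⟩
  · rw [hGe]
    refine (norm_add_le _ _).trans ?_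
    have h4 := hM y v
    have h5 := h1 y v
    have h6 : M ≤ max M 0 := le_max_left M 0
    have h7 := norm_nonneg v
    nlinarith
  · exact (h3 y v w).trans (mul_le_mul_of_nonneg_right hle2 (norm_nonneg _))
  · have h4 := h3 y w v
    rw [add_comm (G (y, w)), add_comm w v] at h4
    exact h4.trans (mul_le_mul_of_nonneg_right hle2 (norm_nonneg _))

end Pool.Agent.SC
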