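import Pool.Agent.Lib.MP_1e8d1a_an.NH.Lin

/-! Linking a strong stable orbit to a strong unstable orbit over a long base orbit. -/

open scoped Topology

namespace Pool.Agent.SC

/-- linear bound and superposition bound -/
theorem nh_bounds {L : Type} [TopologicalSpace L] (T : L ≃ₜ L) {V : Type}
    [NormedAddCommGroup V] [NormedSpace ℝ V] (G : L × V → V) {μ : ℝ} (hG : DomSplit T G μ) :
    ∃ M : ℝ, 0 ≤ M ∧ (∀ y v, ‖G (y, v)‖ ≤ M * ‖v‖) ∧
      (∀ y v w, ‖G (y, v) + G (y, w) - G (y, v + w)‖ ≤ M * ‖v‖) ∧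
      ∀ y v w, ‖G (y, v) + G (y, w) - G (y, v + w)‖ ≤ M * ‖w‖ := by
  obtain ⟨A, A', P, φ, M, C, α, β, κ, hC, hα, hαμ, hβ, hβμ, hκ, hsmall, hM, hP, hA, hf, hb, h0, hφ,
    hGe⟩ := hG
  have h1 : ∀ y v, ‖φ (y, v)‖ ≤ κ * ‖v‖ := by
    intro y v
    have := hφ y v 0
    rwa [h0, sub_zero, sub_zero] at this
  have h2 : ∀ y v w, G (y, v) + G (y, w) - G (y, v + w) = φ (y, v) - (φ (y, w + v) - φ (y, w)) := by
    intro y v w
    rw [hGe, hGe, hGe, map_add, add_comm w v]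
    abel
  have h3 : ∀ y v w, ‖G (y, v) + G (y, w) - G (y, v + w)‖ ≤ 2 * κ * ‖v‖ := by
    intro y v w
    rw [h2]
    refine (norm_sub_le _ _).trans ?_
    have h4 := hφ y (w + v) w
    rw [add_sub_cancel_left] at h4
    have h5 := h1 y v
    linarith
  have hle1 : M ≤ max M 0 + 2 * κ := by
    have := le_max_left M 0
    linarith
  have hle2 : 2 * κ ≤ max M 0 + 2 * κ := by
    have := le_max_right M 0
    linarith
  refine ⟨max M 0 + 2 * κ, by positivity, fun y v => ?_, fun y v w => ?_, fun y v w => ?_⟩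
  · rw [hGe]
    refine (norm_add_le _ _).trans ?_
    have h4 := hM y v
    have h5 := h1 y v
    have h6 : M ≤ max M 0 := le_max_left M 0
    have h7 := norm_nonneg v
    nlinarith
  · exact (h3 y v w).trans (mul_le_mul_of_nonneg_right hle2 (norm_nonneg _))
  · have h4 := h3 y w v
    rw [add_comm (G (y, w)), add_comm w v] at h4
    exact h4.trans (mul_le_mul_of_nonneg_right hle2 (norm_nonneg _))

/-- the filter of the pairs `(y, n)` with `y` near `yp`, `n` large and `T^n y` near `ym` -/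
def nhF {L : Type} [TopologicalSpace L] (T : L → L) (yp ym : L) : Filter (L × ℕ) :=
  (𝓝 yp ×ˢ Filter.atTop) ⊓ Filter.comap (fun p : L × ℕ => T^[p.2] p.1) (𝓝 ym)

theorem nhF_tn {L : Type} [TopologicalSpace L] (T : L → L) (yp ym : L) :
    Filter.Tendsto (fun p : L × ℕ => p.2) (nhF T yp ym) Filter.atTop :=
  Filter.tendsto_snd.mono_left inf_le_left

theorem nhF_ty {L : Type} [TopologicalSpace L] (T : L → L) (hT : Continuous T) (yp ym : L)
    (i : ℕ) : Filter.Tendsto (fun p : L × ℕ => T^[i] p.1) (nhF T yp ym) (𝓝 (T^[i] yp)) :=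
  ((hT.iterate i).tendsto yp).comp (Filter.tendsto_fst.mono_left inf_le_left)

theorem nhF_te {L : Type} [TopologicalSpace L] (T : L ≃ₜ L) (yp ym : L)
    (i : ℕ) : Filter.Tendsto (fun p : L × ℕ => T^[p.2 - i] p.1) (nhF T yp ym)
      (𝓝 (T.symm^[i] ym)) := by
  have te : Filter.Tendsto (fun p : L × ℕ => T^[p.2] p.1) (nhF T yp ym) (𝓝 ym) :=
    Filter.tendsto_comap.mono_left inf_le_right
  have h1 := ((T.symm.continuous.iterate i).tendsto ym).comp te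
  refine h1.congr' ?_
  filter_upwards [(nhF_tn T yp ym).eventually (Filter.eventually_ge_atTop i)] with p hp'
  show T.symm^[i] (T^[p.2] p.1) = T^[p.2 - i] p.1
  have h2 : p.2 = i + (p.2 - i) := by omega
  conv_lhs => rw [h2, Function.iterate_add_apply]
  exact (Function.LeftInverse.iterate T.symm_apply_apply i) _

/-- **Linking.** -/
theorem nh_link {L : Type} [TopologicalSpace L] (T : L ≃ₜ L) {V : Type}
    [NormedAddCommGroup V] [NormedSpace ℝ V] [CompleteSpace V] (G : L × V → V)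
    (hG : Continuous G) {μs μu : ℝ} (hs0 : 0 < μs) (hs1 : μs ≤ 1) (hu1 : 1 ≤ μu)
    (hGs : DomSplit T G μs) (hGu : DomSplit T G μu) (yp ym : L) (a b : ℕ → V)
    (ha : Filter.Tendsto (fun i => (μs ^ i)⁻¹ * ‖a i‖) Filter.atTop (𝓝 0))
    (hb : Filter.Tendsto (fun i => μu ^ i * ‖b i‖) Filter.atTop (𝓝 0)) (N₁ : ℕ)
    (hap : ∀ i ≥ N₁, a (i + 1) = G (T^[i] yp, a i))
    (hbm : ∀ i ≥ N₁, b i = G (T.symm^[i + 1] ym, b (i + 1))) {ε : ℝ} (hε : 0 < ε) :
    ∀ᶠ p in nhF T yp ym, ∃ v : ℕ → V,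
      (∀ i, N₁ ≤ i → i + N₁ < p.2 → v (i + 1) = G (T^[i] p.1, v i)) ∧
      ∀ i, N₁ ≤ i → i + N₁ ≤ p.2 → ‖v i - (a i + b (p.2 - i))‖ ≤ ε := by
  obtain ⟨Ks, hKs, hshs⟩ := nh_shadow T G hs0 hGs
  have hu0 : 0 < μu := by linarith
  obtain ⟨Ku, hKu, hshu⟩ := nh_shadow T G hu0 hGu
  obtain ⟨M, hM, hlin, hsup1, hsup2⟩ := nh_bounds T G hGs
  have hsp : ∀ i, 0 < μs ^ i := fun i => pow_pos hs0 i
  have hup : ∀ i, 0 < μu ^ i := fun i => pow_pos hu0 i
  have hsle : ∀ i, μs ^ i ≤ 1 := fun i => pow_le_one₀ hs0.le hs1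
  have hule : ∀ i, 1 ≤ μu ^ i := fun i => one_le_pow₀ hu1
  -- constants
  obtain ⟨ε₃, hε₃, hε₃K⟩ : ∃ ε₃ > 0, Ks * ε₃ ≤ ε / 3 := by
    refine ⟨ε / 3 / (Ks + 1), by positivity, ?_⟩
    rw [mul_div_assoc', div_le_iff₀ (by linarith)]
    nlinarith
  obtain ⟨ε₁, hε₁, hε₁K, hε₁M⟩ : ∃ ε₁ > 0, Ks * ε₁ ≤ ε / 3 ∧ M * (Ks * ε₁) ≤ ε₃ / 2 := by
    refine ⟨min (ε / 3 / (Ks + 1)) (ε₃ / 2 / (M * Ks + 1)), by positivity, ?_, ?_⟩
    · refine (mul_le_mul_of_nonneg_left (min_le_left _ _) hKs).trans ?_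
      rw [mul_div_assoc', div_le_iff₀ (by linarith)]
      nlinarith
    · rw [← mul_assoc]
      refine (mul_le_mul_of_nonneg_left (min_le_right _ _) (by positivity)).trans ?_
      have : 0 ≤ M * Ks := by positivity
      rw [mul_div_assoc', div_le_iff₀ (by linarith)]
      nlinarith
  obtain ⟨N₃, hN₃⟩ : ∃ N₃, ∀ i ≥ N₃, M * ‖a i‖ ≤ ε₃ / 2 * μs ^ i := by
    have h1 := ha.const_mul M
    rw [mul_zero] at h1
    obtain ⟨N₃, hN₃⟩ := Filter.eventually_atTop.1 (h1.eventually_lt_const (half_pos hε₃))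
    refine ⟨N₃, fun i hi => ?_⟩
    have h2 := (hN₃ i hi).le
    have h3 : M * ‖a i‖ = M * ((μs ^ i)⁻¹ * ‖a i‖) * μs ^ i := by
      have := (hsp i).ne'
      field_simp
    rw [h3]
    exact mul_le_mul_of_nonneg_right h2 (hsp i).le
  set w := ε₃ / 2 * μs ^ N₃ with hw
  have hw0 : 0 < w := by have := hsp N₃; positivity
  obtain ⟨ε₂, hε₂, hε₂K, hε₂M⟩ : ∃ ε₂ > 0, Ku * ε₂ ≤ ε / 3 ∧ M * (Ku * ε₂) ≤ w := by
    refine ⟨min (ε / 3 / (Ku + 1)) (w / (M * Ku + 1)), by positivity, ?_, ?_⟩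
    · refine (mul_le_mul_of_nonneg_left (min_le_left _ _) hKu).trans ?_
      rw [mul_div_assoc', div_le_iff₀ (by linarith)]
      nlinarith
    · rw [← mul_assoc]
      refine (mul_le_mul_of_nonneg_left (min_le_right _ _) (by positivity)).trans ?_
      have : 0 ≤ M * Ku := by positivity
      rw [mul_div_assoc', div_le_iff₀ (by linarith)]
      nlinarith
  have hb0 : Filter.Tendsto (fun i => ‖b i‖) Filter.atTop (𝓝 0) := by
    refine squeeze_zero (fun i => norm_nonneg _) (fun i => ?_) hb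
    exact le_mul_of_one_le_left (norm_nonneg _) (hule i)
  obtain ⟨N₄, hN₄⟩ : ∃ N₄, ∀ i ≥ N₄, M * ‖b i‖ ≤ w := by
    have h1 := hb0.const_mul M
    rw [mul_zero] at h1
    obtain ⟨N₄, hN₄⟩ := Filter.eventually_atTop.1 (h1.eventually_lt_const hw0)
    exact ⟨N₄, fun i hi => (hN₄ i hi).le⟩
  obtain ⟨N₂, hN₂⟩ : ∃ N₂, ∀ i ≥ N₂, ‖a (i + 1)‖ + M * ‖a i‖ ≤ ε₁ * μs ^ i ∧
      ‖b i‖ + M * ‖b (i + 1)‖ ≤ ε₂ * (μu ^ (i + 1))⁻¹ := by
    have h1 : Filter.Tendsto (fun i => μs * ((μs ^ (i + 1))⁻¹ * ‖a (i + 1)‖) +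
        M * ((μs ^ i)⁻¹ * ‖a i‖)) Filter.atTop (𝓝 (μs * 0 + M * 0)) :=
      ((ha.comp (Filter.tendsto_add_atTop_nat 1)).const_mul μs).add (ha.const_mul M)
    have h2 : Filter.Tendsto (fun i => μu * (μu ^ i * ‖b i‖) +
        M * (μu ^ (i + 1) * ‖b (i + 1)‖)) Filter.atTop (𝓝 (μu * 0 + M * 0)) :=
      (hb.const_mul μu).add ((hb.comp (Filter.tendsto_add_atTop_nat 1)).const_mul M)
    rw [mul_zero, mul_zero, add_zero] at h1 h2
    obtain ⟨N₂, hN₂⟩ := Filter.eventually_atTop.1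
      ((h1.eventually_lt_const hε₁).and (h2.eventually_lt_const hε₂))
    refine ⟨N₂, fun i hi => ⟨?_, ?_⟩⟩
    · have h3 := (hN₂ i hi).1.le
      have h4 : ‖a (i + 1)‖ + M * ‖a i‖ = (μs * ((μs ^ (i + 1))⁻¹ * ‖a (i + 1)‖) +
        M * ((μs ^ i)⁻¹ * ‖a i‖)) * μs ^ i := by
        have e1 := (hsp i).ne'
        have e2 := hs0.ne'
        rw [pow_succ]
        field_simp
      rw [h4]
      exact mul_le_mul_of_nonneg_right h3 (hsp i).le
    · have h3 := (hN₂ i hi).2.le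
      have h4 : ‖b i‖ + M * ‖b (i + 1)‖ = (μu * (μu ^ i * ‖b i‖) +
        M * (μu ^ (i + 1) * ‖b (i + 1)‖)) * (μu ^ (i + 1))⁻¹ := by
        have e1 := (hup i).ne'
        have e2 := hu0.ne'
        rw [pow_succ]
        field_simp
      rw [h4]
      exact mul_le_mul_of_nonneg_right h3 (inv_nonneg.2 (hup _).le)
  -- the head and the tail
  have tn := nhF_tn T yp ym
  have hA : ∀ i, N₁ ≤ i → ∀ᶠ p in nhF T yp ym,
      ‖a (i + 1) - G (T^[i] p.1, a i)‖ ≤ ε₁ * μs ^ i := by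
    intro i hi
    have h1 : Filter.Tendsto (fun p : L × ℕ => a (i + 1) - G (T^[i] p.1, a i)) (nhF T yp ym)
        (𝓝 (a (i + 1) - G (T^[i] yp, a i))) := by
      refine tendsto_const_nhds.sub ?_
      exact (hG.tendsto _).comp
        ((nhF_ty T T.continuous yp ym i).prodMk_nhds tendsto_const_nhds)
    rw [hap i hi, sub_self] at h1
    have h2 := h1.norm
    rw [norm_zero] at h2
    rw [hap i hi]
    exact (h2.eventually_lt_const (mul_pos hε₁ (hsp i))).mono fun p hp' => hp'.le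
  have hB : ∀ j, N₁ ≤ j → ∀ᶠ p in nhF T yp ym,
      ‖b j - G (T^[p.2 - (j + 1)] p.1, b (j + 1))‖ ≤ ε₂ * (μu ^ (j + 1))⁻¹ := by
    intro j hj
    have h1 : Filter.Tendsto (fun p : L × ℕ => b j - G (T^[p.2 - (j + 1)] p.1, b (j + 1)))
        (nhF T yp ym) (𝓝 (b j - G (T.symm^[j + 1] ym, b (j + 1)))) := by
      refine tendsto_const_nhds.sub ?_
      exact (hG.tendsto _).comp ((nhF_te T yp ym (j + 1)).prodMk_nhds tendsto_const_nhds)
    rw [← hbm j hj, sub_self] at h1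
    have h2 := h1.norm
    rw [norm_zero] at h2
    exact (h2.eventually_lt_const (mul_pos hε₂ (inv_pos.2 (hup _)))).mono fun p hp' => hp'.le
  have hA' : ∀ᶠ p in nhF T yp ym, ∀ i ∈ Finset.Icc N₁ N₂,
      ‖a (i + 1) - G (T^[i] p.1, a i)‖ ≤ ε₁ * μs ^ i :=
    (Filter.eventually_all_finset _).2 fun i hi => hA i (Finset.mem_Icc.1 hi).1
  have hB' : ∀ᶠ p in nhF T yp ym, ∀ j ∈ Finset.Icc N₁ N₂,
      ‖b j - G (T^[p.2 - (j + 1)] p.1, b (j + 1))‖ ≤ ε₂ * (μu ^ (j + 1))⁻¹ :=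
    (Filter.eventually_all_finset _).2 fun i hi => hB i (Finset.mem_Icc.1 hi).1
  have hn : ∀ᶠ p in nhF T yp ym, 2 * N₁ + N₃ + N₄ ≤ p.2 :=
    tn.eventually (Filter.eventually_ge_atTop _)
  filter_upwards [hA', hB', hn] with p h1 h2 h3
  obtain ⟨y, n⟩ := p
  simp only at h1 h2 h3 ⊢
  have hTT : ∀ j, T^[j] (T^[N₁] y) = T^[N₁ + j] y := by
    intro j
    rw [← Function.iterate_add_apply, add_comm]
  -- step 1
  obtain ⟨a', ha'1, ha'2⟩ := hshs (n - 2 * N₁) (T^[N₁] y) (fun j => a (N₁ + j)) (ε₁ * μs ^ N₁)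
    (by have := hsp N₁; positivity) (fun j hj => by
      rw [hTT, mul_assoc, ← pow_add]
      rcases Nat.lt_or_ge N₂ (N₁ + j) with hi | hi
      · refine (norm_sub_le _ _).trans (le_trans ?_ (hN₂ (N₁ + j) hi.le).1)
        exact add_le_add le_rfl (hlin _ _)
      · exact h1 (N₁ + j) (Finset.mem_Icc.2 ⟨by omega, hi⟩))
  -- step 2
  obtain ⟨b', hb'1, hb'2⟩ := hshu (n - 2 * N₁) (T^[N₁] y) (fun j => b (n - (N₁ + j)))
    (ε₂ * (μu ^ (n - N₁))⁻¹) (by have := hup (n - N₁); positivity) (fun j hj => by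
      have e0 : N₁ + (j + 1) = N₁ + j + 1 := by omega
      have e1 : n - (N₁ + j) = (n - (N₁ + j + 1)) + 1 := by omega
      have e2 : ε₂ * (μu ^ (n - N₁))⁻¹ * μu ^ j = ε₂ * (μu ^ (n - (N₁ + j + 1) + 1))⁻¹ := by
        have e3 : n - N₁ = (n - (N₁ + j + 1) + 1) + j := by omega
        rw [e3, pow_add]
        have e4 := (hup (n - (N₁ + j + 1) + 1)).ne'
        have e5 := (hup j).ne'
        field_simp
      show ‖b (n - (N₁ + (j + 1))) - G (T^[j] (T^[N₁] y), b (n - (N₁ + j)))‖ ≤ _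
      rw [hTT, e2, e0, e1]
      rcases Nat.lt_or_ge N₂ (n - (N₁ + j + 1)) with hi | hi
      · refine (norm_sub_le _ _).trans (le_trans ?_ (hN₂ _ hi.le).2)
        exact add_le_add le_rfl (hlin _ _)
      · have e6 := h2 (n - (N₁ + j + 1)) (Finset.mem_Icc.2 ⟨by omega, hi⟩)
        have e7 : n - (n - (N₁ + j + 1) + 1) = N₁ + j := by omega
        rw [e7] at e6
        exact e6)
  have hb'3 : ∀ j ≤ n - 2 * N₁, ‖b' j - b (n - (N₁ + j))‖ ≤ Ku * ε₂ := by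
    intro j hj
    refine (hb'2 j hj).trans ?_
    have e1 : Ku * (ε₂ * (μu ^ (n - N₁))⁻¹) * μu ^ j = Ku * ε₂ * ((μu ^ (n - N₁))⁻¹ * μu ^ j) := by
      ring
    rw [e1]
    refine mul_le_of_le_one_right (by positivity) ?_
    rw [inv_mul_le_iff₀ (hup _), mul_one]
    exact pow_le_pow_right₀ hu1 (by omega)
  -- step 3
  obtain ⟨v, hv1, hv2⟩ := hshs (n - 2 * N₁) (T^[N₁] y) (fun j => a' j + b' j) ε₃ hε₃.le
    (fun j hj => by
      show ‖(a' (j + 1) + b' (j + 1)) - G (T^[j] (T^[N₁] y), a' j + b' j)‖ ≤ _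
      rw [ha'1 j hj, hb'1 j hj]
      rcases Nat.lt_or_ge j N₃ with hi | hi
      · refine (hsup2 _ _ _).trans ?_
        have e1 := hb'3 j hj.le
        have e2 : ‖b' j‖ ≤ ‖b' j - b (n - (N₁ + j))‖ + ‖b (n - (N₁ + j))‖ := by
          have := norm_add_le (b' j - b (n - (N₁ + j))) (b (n - (N₁ + j)))
          rwa [sub_add_cancel] at this
        have e3 := hN₄ (n - (N₁ + j)) (by omega)
        have e4 : M * ‖b' j‖ ≤ M * (Ku * ε₂) + M * ‖b (n - (N₁ + j))‖ := by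
          rw [← mul_add]
          exact mul_le_mul_of_nonneg_left (e2.trans (by linarith)) hM
        have e5 : μs ^ N₃ ≤ μs ^ j := pow_le_pow_of_le_one hs0.le hs1 hi.le
        have e6 : w + w ≤ ε₃ * μs ^ j := by
          rw [hw]
          have := mul_le_mul_of_nonneg_left e5 hε₃.le
          linarith
        linarith
      · refine (hsup1 _ _ _).trans ?_
        have e1 := ha'2 j hj.le
        have e2 : ‖a' j‖ ≤ ‖a' j - a (N₁ + j)‖ + ‖a (N₁ + j)‖ := by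
          have := norm_add_le (a' j - a (N₁ + j)) (a (N₁ + j))
          rwa [sub_add_cancel] at this
        have e3 := hN₃ (N₁ + j) (by omega)
        have e4 : M * ‖a' j‖ ≤ M * (Ks * (ε₁ * μs ^ N₁) * μs ^ j) + M * ‖a (N₁ + j)‖ := by
          rw [← mul_add]
          exact mul_le_mul_of_nonneg_left (e2.trans (by linarith)) hM
        have e5 : μs ^ (N₁ + j) ≤ μs ^ j := pow_le_pow_of_le_one hs0.le hs1 (by omega)
        have e6 : ε₃ / 2 * μs ^ (N₁ + j) ≤ ε₃ / 2 * μs ^ j :=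
          mul_le_mul_of_nonneg_left e5 (by positivity)
        have e7 : M * (Ks * (ε₁ * μs ^ N₁) * μs ^ j) ≤ ε₃ / 2 * μs ^ j := by
          have e8 : M * (Ks * (ε₁ * μs ^ N₁) * μs ^ j) = M * (Ks * ε₁) * (μs ^ N₁ * μs ^ j) := by
            ring
          rw [e8]
          have e9 : μs ^ N₁ * μs ^ j ≤ 1 * μs ^ j :=
            mul_le_mul_of_nonneg_right (hsle _) (hsp _).le
          rw [one_mul] at e9
          exact mul_le_mul hε₁M e9 (mul_nonneg (hsp _).le (hsp _).le) (by positivity)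
        linarith)
  refine ⟨fun i => v (i - N₁), fun i hi1 hi2 => ?_, fun i hi1 hi2 => ?_⟩
  · have e1 := hv1 (i - N₁) (by omega)
    have e2 : i + 1 - N₁ = i - N₁ + 1 := by omega
    have e3 : N₁ + (i - N₁) = i := by omega
    show v (i + 1 - N₁) = G (T^[i] y, v (i - N₁))
    rw [e2, e1, hTT, e3]
  · have e3 : N₁ + (i - N₁) = i := by omega
    have e4 := hv2 (i - N₁) (by omega)
    have e5 := hb'3 (i - N₁) (by omega)
    have e6 := ha'2 (i - N₁) (by omega)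
    rw [e3] at e5 e6
    show ‖v (i - N₁) - (a i + b (n - i))‖ ≤ ε
    have e7 : v (i - N₁) - (a i + b (n - i)) = (v (i - N₁) - (a' (i - N₁) + b' (i - N₁))) +
        (a' (i - N₁) - a i) + (b' (i - N₁) - b (n - i)) := by abel
    rw [e7]
    refine (norm_add₃_le).trans ?_
    have e8 : Ks * ε₃ * μs ^ (i - N₁) ≤ ε / 3 :=
      (mul_le_of_le_one_right (by positivity) (hsle _)).trans hε₃K
    have e9 : Ks * (ε₁ * μs ^ N₁) * μs ^ (i - N₁) ≤ ε / 3 := by
      have e10 : Ks * (ε₁ * μs ^ N₁) * μs ^ (i - N₁) = Ks * ε₁ * (μs ^ N₁ * μs ^ (i - N₁)) := by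
        ring
      rw [e10]
      refine le_trans (mul_le_of_le_one_right (by positivity) ?_) hε₁K
      exact mul_le_one₀ (hsle _) (hsp _).le (hsle _)
    linarith

end Pool.Agent.SC
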