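import Pool.Agent.Lib.MP_1e8d1a_an.NH.WProd
import Pool.Agent.Lib.MP_1e8d1a_an.NH.AtlDefs

/-! Dominated splittings over invariant sets of diffeomorphisms: definitions. -/

open scoped ContDiff Manifold Topology

namespace Pool.Agent.SC

variable {E : Type} [NormedAddCommGroup E] [NormedSpace ℝ E] {H : Type} [TopologicalSpace H]
  (I : ModelWithCorners ℝ E H) {W : Type} [TopologicalSpace W] [ChartedSpace H W]

/-- `F` has over `Λ` a dominated splitting at the level `m`, a continuous function on `Λ` with
`0 < m ≤ 1`: for some continuous Riemannian metric `g` there are linear projections `P_y` of the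
tangent spaces, `y ∈ Λ`, which commute with the derivative of `F`, such that for the `k`-th iterate
`‖DF^k P v‖ ≤ C θ^k m_k ‖v‖` and `m_k ‖v - P v‖ ≤ C θ^k ‖DF^k (v - P v)‖`, where `θ < 1` and `m_k`
is the product of `m` over the first `k` points of the orbit. The images of the `P_y` are the strong
stable bundle; they are contracted uniformly. -/
def Dominated [IsManifold I ∞ W] (F : W → W) (Λ : Set W) (m : W → ℝ) : Prop :=
  ContinuousOn m Λ ∧ (∀ y ∈ Λ, 0 < m y ∧ m y ≤ 1) ∧
  ∃ (g : Bundle.ContinuousRiemannianMetric E (fun x : W => TangentSpace I x))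
    (P : ∀ y : W, TangentSpace I y →ₗ[ℝ] TangentSpace I y) (C θ : ℝ), 0 ≤ θ ∧ θ < 1 ∧
    ∀ y ∈ Λ, (∀ v, P y (P y v) = P y v) ∧
      (∀ v, P (F y) (mfderiv I I F y v) = mfderiv I I F y (P y v)) ∧
      ∀ (k : ℕ) v, gnorm g (F^[k] y) (mfderiv I I F^[k] y (P y v)) ≤
          C * θ ^ k * wprod F m k y * gnorm g y v ∧
        wprod F m k y * gnorm g y (v - P y v) ≤
          C * θ ^ k * gnorm g (F^[k] y) (mfderiv I I F^[k] y (v - P y v))

/-- `x` is in the strong stable set, for the level `m`, of the point `y`: the distance of the orbits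
of `x` and `y`, measured by the differences of any smooth function, tends to zero faster than the
products of `m` along the orbit of `y`. -/
def StrongStableSet (F : W → W) (m : W → ℝ) (y x : W) : Prop :=
  ∀ g : W → ℝ, ContMDiff I 𝓘(ℝ, ℝ) ∞ g → Filter.Tendsto
    (fun k => (wprod F m k y)⁻¹ * (g (F^[k] x) - g (F^[k] y))) Filter.atTop (𝓝 0)

end Pool.Agent.SC
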