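import Pool.Agent.Lib.MP_1e8d1a_an.SC.Defs
import Pool.Agent.Lib.MP_1e8d1a_an.IR.Defs
import Pool.Agent.Lib.MP_1e8d1a_an.NH.PHDefs

/-! Homoclinic points and heteroclinic cycles of partially hyperbolic sets: definitions. -/

open scoped ContDiff Manifold Topology

namespace Pool.Agent.SC

/-- The orbits of `F` in `Λ` lead from `a` to `b`: they pass from every neighbourhood of `a` to every
neighbourhood of `b`, in arbitrarily long times. -/
def LeadsIn {X : Type} [TopologicalSpace X] (F : X → X) (Λ : Set X) (a b : X) : Prop :=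
  ∀ U ∈ 𝓝 a, ∀ V ∈ 𝓝 b, ∀ N : ℕ, ∃ n ≥ N, ∃ y ∈ Λ, y ∈ U ∧ F^[n] y ∈ V

/-- The orbits of `F` in `Λ` lead from `a` via `c` to `b`. -/
def LeadsInVia {X : Type} [TopologicalSpace X] (F : X → X) (Λ : Set X) (a c b : X) : Prop :=
  ∀ U ∈ 𝓝 a, ∀ O ∈ 𝓝 c, ∀ V ∈ 𝓝 b, ∀ N : ℕ, ∃ i ≥ N, ∃ n ≥ i + N, ∃ y ∈ Λ, y ∈ U ∧
    F^[i] y ∈ O ∧ F^[n] y ∈ V

/-- The restriction of `F` to `Λ` is topologically transitive. -/
def TransitiveOn {X : Type} [TopologicalSpace X] (F : X → X) (Λ : Set X) : Prop :=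
  ∀ U V : Set X, IsOpen U → IsOpen V → (Λ ∩ U).Nonempty → (Λ ∩ V).Nonempty →
    ∃ n > 0, ∃ y ∈ Λ, y ∈ U ∧ F^[n] y ∈ V

variable {E : Type} [NormedAddCommGroup E] [NormedSpace ℝ E] {H : Type} [TopologicalSpace H]
  (I : ModelWithCorners ℝ E H) {W : Type} [TopologicalSpace W] [ChartedSpace H W]

/-- `q` is in the strong stable set of the point `y` of `Λ`, for some dominated splitting over
`Λ`. -/
def InStrongStable [IsManifold I ∞ W] (F : W → W) (Λ : Set W) (y q : W) : Prop :=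
  y ∈ Λ ∧ ∃ m : W → ℝ, Dominated I F Λ m ∧ StrongStableSet I F m y q

/-- A heteroclinic cycle of partially hyperbolic sets `Λ 0, ..., Λ k` of `F` (indices modulo
`k + 1`): the `Λ j` are closed and invariant; `q j` is in the strong stable set of `yp j ∈ Λ j` for
`F`, and `q (j + 1)` is in the strong stable set of `ym j ∈ Λ j` for the inverse of `F`; no `q l` is
in any of the `Λ j`, and the `q l` are on different orbits. (So `Λ j` is partially hyperbolic; the
centres may have any dimensions and the dynamics in them are arbitrary. For `k = 0`: a homoclinic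
point `q 0` of the set `Λ 0`.) -/
def PHCycle [IsManifold I ∞ W] (F : W ≃ W) (k : ℕ) (Λ : Fin (k + 1) → Set W)
    (q yp ym : Fin (k + 1) → W) : Prop :=
  (∀ j, IsClosed (Λ j) ∧ (∀ x, F x ∈ Λ j ↔ x ∈ Λ j) ∧ InStrongStable I F (Λ j) (yp j) (q j) ∧
    InStrongStable I F.symm (Λ j) (ym j) (q (j + 1))) ∧
  ∀ j l, q l ∉ Λ j ∧ (l ≠ j → ∀ i : ℕ, (F : W → W)^[i] (q j) ≠ q l)

/-- `F` is an extension of `Φ` by a compact connected group of smooth symmetries: `π` is continuous,
open and surjective, `π F = Φ π`, and the fibres of `π` are the orbits of a family `ψ` of symmetries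
of `F`. (No symmetries: `π` a homeomorphism.) -/
def SymExtension (F : W → W) {X : Type} [TopologicalSpace X] (Φ : X → X) (π : W → X) : Prop :=
  Continuous π ∧ IsOpenMap π ∧ Function.Surjective π ∧ (∀ x, π (F x) = Φ (π x)) ∧
    ∃ (P : Type) (_ : NormedAddCommGroup P) (_ : NormedSpace ℝ P) (ψ : P × W → W) (R : ℝ),
      SymmetryFamily I (⊤ : ℕ∞) F ψ R ∧ (∀ v x, π (ψ (v, x)) = π x) ∧
      ∀ x x', π x = π x' → ∃ v, ψ (v, x) = x'

/-- The pair `(F, p)` is good: `F` is an extension, by a compact connected group of smooth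
symmetries (trivial if `k > 0`), of a product `b × Φ` on `B × M`, where `b` is an arbitrary map of a
Hausdorff space `B` and `Φ` is a `C^1` diffeomorphism of a compact manifold `M`; `Φ` has a
heteroclinic cycle (homoclinic point for `k = 0`) of partially hyperbolic sets `Λ j` such that the
orbits of `b × Φ` in `B × Λ j` lead from `(β j, yp j)` to `(β (j + 1), ym j)`; and for some `j`
either `π p = (β j, q j)` or these orbits lead via `π p`. (Simplest cases: `F = Φ`, `B` a point;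
`F = b × Φ` a product of diffeomorphisms.) -/
def PHGood (F : W → W) (p : W) : Prop :=
  ∃ (B : Type) (_ : TopologicalSpace B) (_ : T2Space B) (b : B → B)
    (E' : Type) (_ : NormedAddCommGroup E') (_ : NormedSpace ℝ E') (_ : FiniteDimensional ℝ E')
    (H' : Type) (_ : TopologicalSpace H') (J : ModelWithCorners ℝ E' H') (_ : J.Boundaryless)
    (M : Type) (_ : TopologicalSpace M) (_ : T2Space M) (_ : CompactSpace M)
    (_ : ChartedSpace H' M) (_ : IsManifold J ∞ M) (Φ : M ≃ₘ^1⟮J, J⟯ M) (π : W → B × M)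
    (k : ℕ) (Λ : Fin (k + 1) → Set M) (q yp ym : Fin (k + 1) → M) (β : Fin (k + 1) → B),
    SymExtension I F (Prod.map b Φ) π ∧ (k = 0 ∨ Function.Injective π) ∧
    PHCycle J Φ.toEquiv k Λ q yp ym ∧
    (∀ j, LeadsIn (Prod.map b Φ) (Set.univ ×ˢ Λ j) (β j, yp j) (β (j + 1), ym j)) ∧
    ∃ j, π p = (β j, q j) ∨ ((π p).2 ∈ Λ j ∧
      LeadsInVia (Prod.map b Φ) (Set.univ ×ˢ Λ j) (β j, yp j) (π p) (β (j + 1), ym j))

/-- `(F, p)` is a `C^r` limit of good pairs. -/
def PHLimit {r : ℕ∞} (F : W ≃ₘ^r⟮I, I⟯ W) (p : W) : Prop :=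
  ∀ U ∈ @nhds _ (crTopology I r) F, ∀ V ∈ 𝓝 p, ∃ F' ∈ U, ∃ p' ∈ V, PHGood I F' p'

end Pool.Agent.SC
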