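import Pool.Agent.Lib.MP_1e8d1a_an.NH.Defs
import Pool.Agent.Lib.MP_1e8d1a_an.SC.Rec

/-! Transitive homeomorphisms. -/

open scoped Topology

namespace Pool.Agent.SC

theorem nh_trans_large {L : Type} [TopologicalSpace L] {T : L → L} (hc : Continuous T)
    (hT : TopTransitive T) (N : ℕ) : ∀ U V : Set L, IsOpen U → IsOpen V → U.Nonempty →
    V.Nonempty → ∃ n ≥ N, ∃ y ∈ U, T^[n] y ∈ V := by
  induction N with
  | zero =>
    intro U V hU hV hU1 hV1
    obtain ⟨n, -, y, hy, hyn⟩ := hT U V hU hV hU1 hV1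
    exact ⟨n, Nat.zero_le _, y, hy, hyn⟩
  | succ N ih =>
    intro U V hU hV hU1 hV1
    obtain ⟨n, hn, y, hy, hyn⟩ := ih U V hU hV hU1 hV1
    have h1 : IsOpen (U ∩ T^[n] ⁻¹' V) := hU.inter (hV.preimage (hc.iterate n))
    obtain ⟨m, hm, z, hz, hzm⟩ := hT _ _ h1 h1 ⟨y, hy, hyn⟩ ⟨y, hy, hyn⟩
    refine ⟨n + m, by omega, z, hz.1, ?_⟩
    rw [Function.iterate_add_apply]
    exact hzm.2

theorem nh_leads {L : Type} [TopologicalSpace L] {T : L → L} (hc : Continuous T)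
    (hT : TopTransitive T) (a b : L) : Leads T a b := by
  intro U hU V hV N
  obtain ⟨U', hU'U, hU', haU⟩ := mem_nhds_iff.1 hU
  obtain ⟨V', hV'V, hV', hbV⟩ := mem_nhds_iff.1 hV
  obtain ⟨n, hn, y, hy, hyn⟩ := nh_trans_large hc hT N U' V' hU' hV' ⟨a, haU⟩ ⟨b, hbV⟩
  exact ⟨n, hn, y, hU'U hy, hV'V hyn⟩

theorem nh_leadsVia {L : Type} [TopologicalSpace L] (T : L ≃ₜ L) (hT : TopTransitive T)
    (a c b : L) : LeadsVia T a c b := by
  intro U hU O hO V hV N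
  obtain ⟨U', hU'U, hU', haU⟩ := mem_nhds_iff.1 hU
  obtain ⟨O', hO'O, hO', hcO⟩ := mem_nhds_iff.1 hO
  obtain ⟨V', hV'V, hV', hbV⟩ := mem_nhds_iff.1 hV
  obtain ⟨i, hi, y, hy, hyi⟩ :=
    nh_trans_large T.continuous hT N U' O' hU' hO' ⟨a, haU⟩ ⟨c, hcO⟩
  have hsymm : ∀ (m : ℕ) (z : L), T.symm^[m] (T^[m] z) = z := fun m z =>
    (Function.LeftInverse.iterate T.symm_apply_apply m) z
  have hsymm' : ∀ (m : ℕ) (z : L), T^[m] (T.symm^[m] z) = z := fun m z =>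
    (Function.LeftInverse.iterate T.apply_symm_apply m) z
  have h1 : IsOpen (O' ∩ T.symm^[i] ⁻¹' U') :=
    hO'.inter (hU'.preimage (T.symm.continuous.iterate i))
  have h2 : (O' ∩ T.symm^[i] ⁻¹' U').Nonempty :=
    ⟨T^[i] y, hyi, by show T.symm^[i] (T^[i] y) ∈ U'; rw [hsymm]; exact hy⟩
  obtain ⟨m, hm, z, hz, hzm⟩ := nh_trans_large T.continuous hT N _ V' h1 hV' h2 ⟨b, hbV⟩
  refine ⟨i, hi, m + i, by omega, T.symm^[i] z, hU'U hz.2, ?_, ?_⟩
  · rw [hsymm']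
    exact hO'O hz.1
  · rw [Function.iterate_add_apply, hsymm']
    exact hV'V hzm

/-- integer powers of a homeomorphism are continuous, as maps -/
theorem nh_zpow_cont {L : Type} [TopologicalSpace L] (T : L ≃ₜ L) (i : ℤ) :
    Continuous (fun x => (T.toEquiv ^ i) x) := rec_cont T i

/-- A homeomorphism that has a dense orbit through a recurrent point is topologically transitive. -/
theorem nh_trans_of_recurrent {L : Type} [TopologicalSpace L] [T1Space L] (T : L ≃ₜ L) (x : L)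
    (hx : Recurrent T.toEquiv x) (hd : Dense (Set.range fun i : ℤ => (T.toEquiv ^ i) x)) :
    TopTransitive T := by
  intro U V hU hV hU1 hV1
  obtain ⟨-, hi, i, rfl⟩ := hd.inter_open_nonempty U hU hU1
  obtain ⟨-, hj, j, rfl⟩ := hd.inter_open_nonempty V hV hV1
  have hU' : (fun y => (T.toEquiv ^ i) y) ⁻¹' U ∈ 𝓝 x :=
    (nh_zpow_cont T i).continuousAt (hU.mem_nhds hi)
  have hV' : (fun y => (T.toEquiv ^ j) y) ⁻¹' V ∈ 𝓝 x :=
    (nh_zpow_cont T j).continuousAt (hV.mem_nhds hj)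
  have hinf := rec_infinite T x hx _ (Filter.inter_mem hU' hV')
  obtain ⟨k, hk, hk2⟩ : ∃ k ∈ {k : ℤ | (T.toEquiv ^ k : Equiv.Perm L) x ∈
      (fun y => (T.toEquiv ^ i) y) ⁻¹' U ∩ (fun y => (T.toEquiv ^ j) y) ⁻¹' V},
      k ∉ Set.Icc (-|i - j|) |i - j| := by
    by_contra hcon
    push Not at hcon
    exact hinf ((Set.finite_Icc _ _).subset hcon)
  have hmul : ∀ a b : ℤ, (T.toEquiv ^ a : Equiv.Perm L) ((T.toEquiv ^ b : Equiv.Perm L) x) =
      (T.toEquiv ^ (a + b) : Equiv.Perm L) x := by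
    intro a b
    rw [zpow_add, Equiv.Perm.mul_apply]
  have hpow : ∀ (a b : ℤ), a < b → ∃ n > 0, T^[n] ((T.toEquiv ^ a : Equiv.Perm L) x) =
      (T.toEquiv ^ b : Equiv.Perm L) x := by
    intro a b hab
    obtain ⟨n, hn⟩ := Int.eq_ofNat_of_zero_le (sub_nonneg.2 hab.le)
    refine ⟨n, by omega, ?_⟩
    rw [← rec_pow_eq, ← zpow_natCast, hmul]
    congr 2
    omega
  have h1 : (T.toEquiv ^ (i + k) : Equiv.Perm L) x ∈ U := by
    rw [← hmul]
    exact hk.1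
  have h2 : (T.toEquiv ^ (j + k) : Equiv.Perm L) x ∈ V := by
    rw [← hmul]
    exact hk.2
  rcases lt_or_ge |i - j| k with h3 | h3
  · have h4 := le_abs_self (i - j)
    obtain ⟨n, hn, hnx⟩ := hpow i (j + k) (by omega)
    exact ⟨n, hn, _, hi, by rw [hnx]; exact h2⟩
  · have h4 := le_abs_self (i - j)
    have h5 : k < -|i - j| := by
      by_contra h6
      exact hk2 ⟨by omega, h3⟩
    obtain ⟨n, hn, hnx⟩ := hpow (i + k) j (by omega)
    exact ⟨n, hn, _, h1, by rw [hnx]; exact hj⟩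

end Pool.Agent.SC
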