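import Pool.Agent.Lib.MP_1e8d1a_an.NH.PHExc
import Pool.Agent.Lib.MP_1e8d1a_an.NH.PHDefs2
import Pool.Agent.Lib.MP_1e8d1a_an.NH.Clos
import Pool.Agent.Lib.MP_1e8d1a_an.NH.Trans
import Pool.Agent.Lib.MP_1e8d1a_an.IR.Main

/-! The closing lemma at homoclinic points of partially hyperbolic sets, and on the sets. -/

open scoped ContDiff Manifold Topology

set_option linter.unusedSectionVars false

namespace Pool.Agent.SC

section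
variable {W : Type} [TopologicalSpace W]

theorem ph_leads_of_trans (F : W ≃ₜ W) {Λ : Set W} (hinv : ∀ x, F x ∈ Λ ↔ x ∈ Λ)
    (h : TransitiveOn F Λ) {a b : W} (ha : a ∈ Λ) (hb : b ∈ Λ) :
    LeadsIn F Λ a b ∧ ∀ c ∈ Λ, LeadsInVia F Λ a c b := by
  let T : Λ ≃ₜ Λ := F.subtype fun x => (hinv x).symm
  have hT : ∀ (k : ℕ) (y : Λ), ((T^[k] y : Λ) : W) = F^[k] y := fun k y =>
    tc_sub (F := F) (T := T) (fun y => rfl) k y
  have htr : TopTransitive T := by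
    intro U V hU hV hU1 hV1
    obtain ⟨U', hU', rfl⟩ := isOpen_induced_iff.1 hU
    obtain ⟨V', hV', rfl⟩ := isOpen_induced_iff.1 hV
    obtain ⟨u, hu⟩ := hU1
    obtain ⟨v, hv⟩ := hV1
    obtain ⟨n, hn, y, hyΛ, hy, hyn⟩ := h U' V' hU' hV' ⟨u, u.2, hu⟩ ⟨v, v.2, hv⟩
    exact ⟨n, hn, ⟨y, hyΛ⟩, hy, by show ((T^[n] ⟨y, hyΛ⟩ : Λ) : W) ∈ V'; rw [hT]; exact hyn⟩
  refine ⟨fun U hU V hV N => ?_, fun c hc U hU O hO V hV N => ?_⟩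
  · obtain ⟨n, hn, y, hy, hyn⟩ := nh_leads T.continuous htr ⟨a, ha⟩ ⟨b, hb⟩
      (Subtype.val ⁻¹' U) (continuous_subtype_val.continuousAt hU)
      (Subtype.val ⁻¹' V) (continuous_subtype_val.continuousAt hV) N
    exact ⟨n, hn, y, y.2, hy, by rw [← hT]; exact hyn⟩
  · obtain ⟨i, hi, n, hn, y, hy, hyi, hyn⟩ := nh_leadsVia T htr ⟨a, ha⟩ ⟨c, hc⟩ ⟨b, hb⟩
      (Subtype.val ⁻¹' U) (continuous_subtype_val.continuousAt hU)
      (Subtype.val ⁻¹' O) (continuous_subtype_val.continuousAt hO)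
      (Subtype.val ⁻¹' V) (continuous_subtype_val.continuousAt hV) N
    exact ⟨i, hi, n, hn, y, y.2, hy, by rw [← hT]; exact hyi, by rw [← hT]; exact hyn⟩

/-- the orbit closure of a recurrent point -/
theorem ph_recurrent (F : W ≃ₜ W) [T1Space W] {x : W} (hx : Recurrent F.toEquiv x) {Λ : Set W}
    (hΛ : Λ = closure (Set.range fun i : ℤ => (F.toEquiv ^ i : Equiv.Perm W) x))
    (hinv : ∀ y, F y ∈ Λ ↔ y ∈ Λ) : x ∈ Λ ∧ TransitiveOn F Λ := by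
  have hxΛ : x ∈ Λ := by
    rw [hΛ]
    exact subset_closure ⟨0, by simp⟩
  refine ⟨hxΛ, ?_⟩
  let T : Λ ≃ₜ Λ := F.subtype fun x => (hinv x).symm
  have hT : ∀ (k : ℕ) (y : Λ), ((T^[k] y : Λ) : W) = F^[k] y := fun k y =>
    tc_sub (F := F) (T := T) (fun y => rfl) k y
  have hTn : ∀ (n : ℕ) (y : Λ), (((T.toEquiv ^ n : Equiv.Perm Λ) y : Λ) : W) =
      (F.toEquiv ^ n : Equiv.Perm W) y := by
    intro n y
    rw [rec_pow_eq, rec_pow_eq, hT]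
  have hTz : ∀ (i : ℤ) (y : Λ), (((T.toEquiv ^ i : Equiv.Perm Λ) y : Λ) : W) =
      (F.toEquiv ^ i : Equiv.Perm W) y := by
    intro i y
    obtain ⟨n, rfl | rfl⟩ := i.eq_nat_or_neg
    · rw [zpow_natCast, zpow_natCast, hTn]
    · rw [zpow_neg, zpow_neg, zpow_natCast, zpow_natCast, Equiv.Perm.eq_inv_iff_eq, ← hTn]
      exact congrArg Subtype.val ((T.toEquiv ^ n).apply_symm_apply y)
  have hrec : Recurrent T.toEquiv ⟨x, hxΛ⟩ := by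
    intro hcon
    apply hx
    have h1 := Topology.IsEmbedding.subtypeVal.comp hcon
    have h2 : (Subtype.val ∘ fun m : ℤ => (T.toEquiv ^ m : Equiv.Perm Λ) ⟨x, hxΛ⟩) =
        fun m : ℤ => (F.toEquiv ^ m : Equiv.Perm W) x := funext fun m => hTz m _
    rwa [h2] at h1
  have hd : Dense (Set.range fun i : ℤ => (T.toEquiv ^ i) (⟨x, hxΛ⟩ : Λ)) := by
    rw [dense_iff_inter_open]
    intro U hU hU1
    obtain ⟨U', hU', rfl⟩ := isOpen_induced_iff.1 hU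
    obtain ⟨u, hu⟩ := hU1
    have h1 : (u : W) ∈ closure (Set.range fun i : ℤ => (F.toEquiv ^ i : Equiv.Perm W) x) := by
      rw [← hΛ]
      exact u.2
    obtain ⟨-, hv, i, rfl⟩ := mem_closure_iff.1 h1 U' hU' hu
    exact ⟨(T.toEquiv ^ i) ⟨x, hxΛ⟩, by show (((T.toEquiv ^ i : Equiv.Perm Λ) ⟨x, hxΛ⟩ : Λ) : W) ∈ U'
                                        rw [hTz]; exact hv, i, rfl⟩
  have htr := nh_trans_of_recurrent T ⟨x, hxΛ⟩ hrec hd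
  intro U V hU hV hU1 hV1
  obtain ⟨u, huΛ, hu⟩ := hU1
  obtain ⟨v, hvΛ, hv⟩ := hV1
  obtain ⟨n, hn, y, hy, hyn⟩ := htr (Subtype.val ⁻¹' U) (Subtype.val ⁻¹' V)
    (hU.preimage continuous_subtype_val) (hV.preimage continuous_subtype_val) ⟨⟨u, huΛ⟩, hu⟩
    ⟨⟨v, hvΛ⟩, hv⟩
  exact ⟨n, hn, y, y.2, hy, by rw [← hT]; exact hyn⟩

end

variable {E : Type} [NormedAddCommGroup E] [NormedSpace ℝ E] [FiniteDimensional ℝ E]
  {H : Type} [TopologicalSpace H] {I : ModelWithCorners ℝ E H} [I.Boundaryless]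
  {W : Type} [TopologicalSpace W] [ChartedSpace H W] [IsManifold I ∞ W] [T2Space W]
  [CompactSpace W]
  {E' : Type} [NormedAddCommGroup E'] [NormedSpace ℝ E'] [FiniteDimensional ℝ E']
  {H' : Type} [TopologicalSpace H'] {J : ModelWithCorners ℝ E' H'} [J.Boundaryless]
  {M : Type} [TopologicalSpace M] [ChartedSpace H' M] [IsManifold J ∞ M] [T2Space M]
  [CompactSpace M]

/-- `q` is a homoclinic point of the closed invariant set `Λ` -/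
def PHHomoclinic (I : ModelWithCorners ℝ E H) {W : Type} [TopologicalSpace W] [ChartedSpace H W]
    [IsManifold I ∞ W] (F : W ≃ W) (Λ : Set W) (q yp ym : W) : Prop :=
  IsClosed Λ ∧ (∀ x, F x ∈ Λ ↔ x ∈ Λ) ∧ q ∉ Λ ∧
    InStrongStable I F Λ yp q ∧ InStrongStable I F.symm Λ ym q

section
variable {B : Type} [TopologicalSpace B] (b : B → B)

theorem ph_iter_prod {X : Type} (Φ : X → X) (n : ℕ) (x : B × X) :
    (Prod.map b Φ)^[n] x = (b^[n] x.1, Φ^[n] x.2) := by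
  induction n with
  | zero => rfl
  | succ n ih =>
    rw [Function.iterate_succ_apply', ih, Function.iterate_succ_apply',
      Function.iterate_succ_apply']
    rfl

/-- isolated returns to a homoclinic point -/
theorem ph_returns (Φ : M ≃ₘ^1⟮J, J⟯ M) {Λ : Set M} {q yp ym : M} {β : B}
    (h : PHHomoclinic J Φ.toEquiv Λ q yp ym)
    (hl : LeadsIn (Prod.map b Φ) (Set.univ ×ˢ Λ) (β, yp) (β, ym)) :
    ∃ J' ∈ 𝓝 (β, q), ∀ U ∈ 𝓝 (β, q), ∀ N : ℕ, ∃ n ≥ N, ∃ z ∈ U, (Prod.map b Φ)^[n] z ∈ U ∧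
      ∀ i, 0 < i → i < n → (Prod.map b Φ)^[i] z ∉ J' := by
  obtain ⟨hΛ, hinv, hq, ⟨hyp, ms, hs, hp⟩, hym, mu, hu, hm⟩ := h
  obtain ⟨J', hJ', hex⟩ := ph_exc Φ hΛ hinv hs hu hq hyp hym hp hm
  refine ⟨Set.univ ×ˢ J', _root_.prod_mem_nhds Filter.univ_mem hJ', fun U hU N => ?_⟩
  obtain ⟨U₁, hU₁, U₂, hU₂, hUU⟩ := mem_nhds_prod_iff.1 hU
  obtain ⟨N₀, Bp, hBp, Bm, hBm, B₀, hB₀, hex⟩ := hex U₂ hU₂ yp hyp Set.univ Filter.univ_mem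
  obtain ⟨n, hn, y, hyΛ, hy, hyn⟩ := hl (U₁ ×ˢ Bp) (_root_.prod_mem_nhds hU₁ hBp) (U₁ ×ˢ Bm)
    (_root_.prod_mem_nhds hU₁ hBm) (max N N₀)
  rw [ph_iter_prod] at hyn
  obtain ⟨z, hz, hz1, hz2, -⟩ := hex n ((le_max_right _ _).trans hn) y.2 hyΛ.2 hy.2 hyn.2
  refine ⟨n, (le_max_left _ _).trans hn, (y.1, z), hUU ⟨hy.1, hz⟩, ?_, fun i hi1 hi2 hi3 => ?_⟩
  · rw [ph_iter_prod]
    exact hUU ⟨hyn.1, hz1⟩
  · rw [ph_iter_prod] at hi3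
    exact hz2 i hi1 hi2 hi3.2

/-- isolated returns that visit a neighbourhood of a point of the set -/
theorem ph_returns_via (Φ : M ≃ₘ^1⟮J, J⟯ M) {Λ : Set M} {q yp ym : M} {β : B} {x₀ : B × M}
    (h : PHHomoclinic J Φ.toEquiv Λ q yp ym) (hy₀ : x₀.2 ∈ Λ)
    (hl : LeadsInVia (Prod.map b Φ) (Set.univ ×ˢ Λ) (β, yp) x₀ (β, ym)) :
    ∃ J' ∈ 𝓝 (β, q), ∀ U ∈ 𝓝 (β, q), ∀ V₀ ∈ 𝓝 x₀, ∀ N : ℕ, ∃ n ≥ N, ∃ z ∈ U,
      (Prod.map b Φ)^[n] z ∈ U ∧ (∀ i, 0 < i → i < n → (Prod.map b Φ)^[i] z ∉ J') ∧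
      ∃ i, 0 < i ∧ i < n ∧ (Prod.map b Φ)^[i] z ∈ V₀ := by
  obtain ⟨hΛ, hinv, hq, ⟨hyp, ms, hs, hp⟩, hym, mu, hu, hm⟩ := h
  obtain ⟨J', hJ', hex⟩ := ph_exc Φ hΛ hinv hs hu hq hyp hym hp hm
  refine ⟨Set.univ ×ˢ J', _root_.prod_mem_nhds Filter.univ_mem hJ', fun U hU V₀ hV₀ N => ?_⟩
  obtain ⟨U₁, hU₁, U₂, hU₂, hUU⟩ := mem_nhds_prod_iff.1 hU
  obtain ⟨V₁, hV₁, V₂, hV₂, hVV⟩ := mem_nhds_prod_iff.1 hV₀
  obtain ⟨N₀, Bp, hBp, Bm, hBm, B₀, hB₀, hex⟩ := hex U₂ hU₂ x₀.2 hy₀ V₂ hV₂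
  obtain ⟨i, hi, n, hn, y, hyΛ, hy, hyi, hyn⟩ := hl (U₁ ×ˢ Bp) (_root_.prod_mem_nhds hU₁ hBp)
    (V₁ ×ˢ B₀) (_root_.prod_mem_nhds hV₁ hB₀) (U₁ ×ˢ Bm) (_root_.prod_mem_nhds hU₁ hBm) (max (max N N₀) 1)
  rw [ph_iter_prod] at hyi hyn
  have h1 : N ≤ max (max N N₀) 1 := (le_max_left _ _).trans (le_max_left _ _)
  have h2 : N₀ ≤ max (max N N₀) 1 := (le_max_right _ _).trans (le_max_left _ _)
  have h3 : 1 ≤ max (max N N₀) 1 := le_max_right _ _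
  obtain ⟨z, hz, hz1, hz2, hz3⟩ := hex n (by omega) y.2 hyΛ.2 hy.2 hyn.2
  refine ⟨n, by omega, (y.1, z), hUU ⟨hy.1, hz⟩, ?_, fun j hj1 hj2 hj3 => ?_, i, by omega,
    by omega, ?_⟩
  · rw [ph_iter_prod]
    exact hUU ⟨hyn.1, hz1⟩
  · rw [ph_iter_prod] at hj3
    exact hz2 j hj1 hj2 hj3.2
  · rw [ph_iter_prod]
    exact hVV ⟨hyi.1, hz3 i (by omega) (by omega) hyi.2⟩

/-- **The closing lemma over a partially hyperbolic set.** -/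
theorem ph_closable_ext [T2Space B] {r : ℕ∞} (F : W ≃ₘ^r⟮I, I⟯ W) (Φ : M ≃ₘ^1⟮J, J⟯ M)
    (π : W → B × M) (hπ : SymExtension I F (Prod.map b Φ) π) (p : W) {Λ : Set M} {q yp ym : M}
    (h1 : PHHomoclinic J Φ.toEquiv Λ q yp ym) (β : B)
    (h : (π p = (β, q) ∧ LeadsIn (Prod.map b Φ) (Set.univ ×ˢ Λ) (β, yp) (β, ym)) ∨
      ((π p).2 ∈ Λ ∧ LeadsInVia (Prod.map b Φ) (Set.univ ×ˢ Λ) (β, yp) (π p) (β, ym))) :
    Closable I F p := by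
  obtain ⟨hπc, hπo, hπs, hF, P, _, _, ψ, R, hψ, hinv, hfib⟩ := hπ
  obtain ⟨h2, h3⟩ | ⟨h2, h3⟩ := h
  · have hle : (r : WithTop ℕ∞) ≤ (∞ : WithTop ℕ∞) := by exact_mod_cast le_top
    have hψr : SymmetryFamily I r F ψ R :=
      ⟨hψ.smooth.of_le hle, hψ.zero, hψ.add, hψ.comm, hψ.bound⟩
    obtain ⟨J', hJ', hret⟩ := ph_returns b Φ h1 h3
    rw [← h2] at hJ' hret
    exact nh_close_ext F ψ R hψr (Prod.map b Φ) π hπc hπo hinv hfib hF p J' hJ' hret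
  · obtain ⟨q', hq'⟩ := hπs (β, q)
    obtain ⟨J', hJ', hret⟩ := ph_returns_via b Φ h1 h2 h3
    rw [← hq'] at hJ' hret
    exact nh_close_ext_via F ψ R hψ (Prod.map b Φ) π hπc hπo hinv hfib hF q' J' hJ' _ hret p rfl

end

/-- a `C^r` diffeomorphism as a `C^1` diffeomorphism -/
theorem ph_lower_reg {r : ℕ∞} (hr : 1 ≤ r) (F : W ≃ₘ^r⟮I, I⟯ W) :
    ∃ Φ : W ≃ₘ^1⟮I, I⟯ W, Φ.toEquiv = F.toEquiv := by
  have hr' : (1 : WithTop ℕ∞) ≤ (r : WithTop ℕ∞) := by exact_mod_cast hr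
  exact ⟨{ toEquiv := F.toEquiv
           contMDiff_toFun := F.contMDiff.of_le hr'
           contMDiff_invFun := F.symm.contMDiff.of_le hr' }, rfl⟩

/-- no symmetries -/
theorem ph_symExtension_homeo (F : W → W) {X : Type} [TopologicalSpace X] (Φ : X → X) (π : W ≃ₜ X)
    (h : ∀ x, π (F x) = Φ (π x)) : SymExtension I F Φ π :=
  ⟨π.continuous, π.isOpenMap, π.surjective, h, Fin 0 → ℝ, inferInstance, inferInstance,
    fun x => x.2, 0, symmetryFamily_trivial F, fun _ _ => rfl, fun _ _ h => ⟨0, π.injective h⟩⟩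

theorem ph_leads_unit (F : W → W) (Λ : Set W) (a b : W) (h : LeadsIn F Λ a b) :
    LeadsIn (Prod.map (id : Unit → Unit) F) (Set.univ ×ˢ Λ) ((), a) ((), b) := by
  intro U hU V hV N
  obtain ⟨U₁, hU₁, U₂, hU₂, hUU⟩ := mem_nhds_prod_iff.1 hU
  obtain ⟨V₁, hV₁, V₂, hV₂, hVV⟩ := mem_nhds_prod_iff.1 hV
  obtain ⟨n, hn, y, hy, hy1, hy2⟩ := h U₂ hU₂ V₂ hV₂ N
  refine ⟨n, hn, ((), y), ⟨Set.mem_univ _, hy⟩, hUU ⟨mem_of_mem_nhds hU₁, hy1⟩, ?_⟩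
  rw [ph_iter_prod]
  exact hVV ⟨mem_of_mem_nhds hV₁, hy2⟩

theorem ph_leadsVia_unit (F : W → W) (Λ : Set W) (a c b : W) (h : LeadsInVia F Λ a c b) :
    LeadsInVia (Prod.map (id : Unit → Unit) F) (Set.univ ×ˢ Λ) ((), a) ((), c) ((), b) := by
  intro U hU O hO V hV N
  obtain ⟨U₁, hU₁, U₂, hU₂, hUU⟩ := mem_nhds_prod_iff.1 hU
  obtain ⟨O₁, hO₁, O₂, hO₂, hOO⟩ := mem_nhds_prod_iff.1 hO
  obtain ⟨V₁, hV₁, V₂, hV₂, hVV⟩ := mem_nhds_prod_iff.1 hV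
  obtain ⟨i, hi, n, hn, y, hy, hy1, hy2, hy3⟩ := h U₂ hU₂ O₂ hO₂ V₂ hV₂ N
  refine ⟨i, hi, n, hn, ((), y), ⟨Set.mem_univ _, hy⟩, hUU ⟨mem_of_mem_nhds hU₁, hy1⟩, ?_, ?_⟩
  · rw [ph_iter_prod]
    exact hOO ⟨mem_of_mem_nhds hO₁, hy2⟩
  · rw [ph_iter_prod]
    exact hVV ⟨mem_of_mem_nhds hV₁, hy3⟩

/-- cycles of transitive sets are good -/
theorem ph_good_of_trans {r : ℕ∞} (hr : 1 ≤ r) (F : W ≃ₘ^r⟮I, I⟯ W) {k : ℕ}
    {Λ : Fin (k + 1) → Set W} {q yp ym : Fin (k + 1) → W}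
    (h : PHCycle I F.toEquiv k Λ q yp ym) (ht : ∀ j, TransitiveOn F (Λ j)) (j : Fin (k + 1))
    (p : W) (hp : p ∈ insert (q j) (Λ j)) : PHGood I F p := by
  obtain ⟨Φ, hΦ⟩ := ph_lower_reg hr F
  have hΦ' : (Φ : W → W) = F := congrArg (fun e : W ≃ W => (e : W → W)) hΦ
  have hx : SymExtension I F (Prod.map (id : Unit → Unit) Φ)
      ((Homeomorph.punitProd W).symm : W ≃ₜ Unit × W) := by
    refine ph_symExtension_homeo F _ _ fun x => ?_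
    rw [hΦ']
    rfl
  have hl : ∀ j, LeadsIn F (Λ j) (yp j) (ym j) ∧ ∀ c ∈ Λ j, LeadsInVia F (Λ j) (yp j) c (ym j) :=
    fun j => ph_leads_of_trans F.toHomeomorph (h.1 j).2.1 (ht j) (h.1 j).2.2.1.1 (h.1 j).2.2.2.1
  refine ⟨Unit, inferInstance, inferInstance, id, E, inferInstance, inferInstance, inferInstance,
    H, inferInstance, I, inferInstance, W, inferInstance, inferInstance, inferInstance,
    inferInstance, inferInstance, Φ, _, k, Λ, q, yp, ym, fun _ => (), hx,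
    Or.inr (Homeomorph.punitProd W).symm.injective, ?_, fun j => ?_, j, ?_⟩
  · rw [hΦ]
    exact h
  · rw [hΦ']
    exact ph_leads_unit F (Λ j) (yp j) (ym j) (hl j).1
  · rcases hp with rfl | hp
    · exact Or.inl rfl
    · refine Or.inr ⟨hp, ?_⟩
      rw [hΦ']
      exact ph_leadsVia_unit F (Λ j) (yp j) p (ym j) ((hl j).2 p hp)

end Pool.Agent.SC
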