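import Pool.Agent.Lib.MP_1e8d1a_an.NH.PHExc4
import Pool.Agent.Lib.MP_1e8d1a_an.NH.PHMain
import Pool.Agent.Lib.MP_1e8d1a_an.NH.C3

/-! The closing lemma along heteroclinic cycles of partially hyperbolic sets. -/

open scoped ContDiff Manifold Topology

set_option linter.unusedSectionVars false

namespace Pool.Agent.SC

variable {E : Type} [NormedAddCommGroup E] [NormedSpace ℝ E] [FiniteDimensional ℝ E]
  {H : Type} [TopologicalSpace H] {I : ModelWithCorners ℝ E H} [I.Boundaryless]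
  {W : Type} [TopologicalSpace W] [ChartedSpace H W] [IsManifold I ∞ W] [T2Space W]
  [CompactSpace W]

/-- a point outside `Λ` that is forward asymptotic to `Λ` is not periodic -/
theorem ph_nonper {F : W → W} {Λ : Set W} (hΛ : IsClosed Λ) (hinv : ∀ y ∈ Λ, F y ∈ Λ) {y q : W}
    (h : InStrongStable I F Λ y q) (hq : q ∉ Λ) : ∀ n, 0 < n → F^[n] q ≠ q := by
  obtain ⟨hy, m, hm, hs⟩ := h
  obtain ⟨ι, f, -⟩ := SmoothBumpCovering.exists_isSubordinate I (isClosed_univ (X := W))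
    (U := fun _ => Set.univ) (fun _ _ => Filter.univ_mem)
  have := f.fintype
  have hind : Topology.IsInducing (atE f) :=
    ((at_E f).1.continuous.isClosedEmbedding (at_E f).2).isInducing
  obtain ⟨r₀, hr₀, hq'⟩ := nh_ball_of_nhds (atE f) hind q (hΛ.isOpen_compl.mem_nhds hq)
  have hyk : ∀ k, F^[k] y ∈ Λ := by
    intro k
    induction k with
    | zero => exact hy
    | succ k ih =>
      rw [Function.iterate_succ_apply']
      exact hinv _ ih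
  have hw0 : ∀ k, 0 < wprod F m k y := fun k => Finset.prod_pos fun i _ => (hm.2.1 _ (hyk i)).1
  have hw1 : ∀ k, wprod F m k y ≤ 1 := fun k =>
    Finset.prod_le_one (fun i _ => (hm.2.1 _ (hyk i)).1.le) fun i _ => (hm.2.1 _ (hyk i)).2
  have ht : Filter.Tendsto (fun k => ‖atE f (F^[k] q) - atE f (F^[k] y)‖) Filter.atTop
      (𝓝 0) := by
    refine squeeze_zero (fun k => norm_nonneg _) (fun k => ?_) (ph_ss_norm f hs)
    refine le_mul_of_one_le_left (norm_nonneg _) ?_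
    rw [abs_of_pos (inv_pos.2 (hw0 k))]
    exact (one_le_inv₀ (hw0 k)).2 (hw1 k)
  intro n hn hcon
  have h1 : ∀ k, F^[n * k] q = q := fun k => Function.IsPeriodicPt.mul_const (m := n) hcon k
  obtain ⟨i₀, hi₀⟩ := Filter.eventually_atTop.1 (ht.eventually_lt_const hr₀)
  have h2 := hi₀ (n * i₀) (Nat.le_mul_of_pos_left _ hn)
  rw [h1, norm_sub_rev] at h2
  exact hq' _ h2 (hyk _)

variable {E' : Type} [NormedAddCommGroup E'] [NormedSpace ℝ E'] [FiniteDimensional ℝ E']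
  {H' : Type} [TopologicalSpace H'] {J : ModelWithCorners ℝ E' H'} [J.Boundaryless]
  {M : Type} [TopologicalSpace M] [ChartedSpace H' M] [IsManifold J ∞ M] [T2Space M]
  [CompactSpace M]

/-- one link of a cycle -/
theorem ph_link {B : Type} [TopologicalSpace B] (b : B → B) (Φ : M ≃ₘ^1⟮J, J⟯ M) {κ : Type}
    [Finite κ] (Q : κ → M) {Λ : Set M}
    (hΛ : IsClosed Λ) (hinv : ∀ x, Φ x ∈ Λ ↔ x ∈ Λ) (hq : ∀ l, Q l ∉ Λ) {q q' yp ym : M}
    (hnp : ∀ m, 0 < m → ∀ l, Φ^[m] q ≠ Q l) (hnp' : ∀ m, 0 < m → ∀ l, Φ.symm^[m] q' ≠ Q l)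
    (hp : InStrongStable J Φ Λ yp q) (hm : InStrongStable J Φ.symm Λ ym q') (β β' : B) :
    ∃ J' : κ → Set M, (∀ l, J' l ∈ 𝓝 (Q l)) ∧
      (LeadsIn (Prod.map b Φ) (Set.univ ×ˢ Λ) (β, yp) (β', ym) →
        ∀ U ∈ 𝓝 (β, q), ∀ Ue ∈ 𝓝 (β', q'), ∀ N : ℕ,
        ∃ n ≥ N, ∃ s ∈ U, (Prod.map b Φ)^[n] s ∈ Ue ∧
        ∀ i, 0 < i → i < n → ∀ l, ((Prod.map b Φ)^[i] s).2 ∉ J' l) ∧
      ∀ p : B × M, p.2 ∈ Λ → LeadsInVia (Prod.map b Φ) (Set.univ ×ˢ Λ) (β, yp) p (β', ym) →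
        ∀ U ∈ 𝓝 (β, q), ∀ Ue ∈ 𝓝 (β', q'), ∀ V ∈ 𝓝 p, ∀ N : ℕ,
        ∃ n ≥ N, ∃ s ∈ U, (Prod.map b Φ)^[n] s ∈ Ue ∧
          (∀ i, 0 < i → i < n → ∀ l, ((Prod.map b Φ)^[i] s).2 ∉ J' l) ∧
          ∃ i, 0 < i ∧ i < n ∧ (Prod.map b Φ)^[i] s ∈ V := by
  obtain ⟨hyp, ms, hs, hp⟩ := hp
  obtain ⟨hym, mu, hu, hm⟩ := hm
  obtain ⟨J', hJ', hex⟩ := ph_exc4 Φ hΛ hinv hs hu Q hq hnp hnp' hyp hym hp hm
  refine ⟨J', hJ', fun hl U hU Ue hUe N => ?_, fun p hpΛ hl U hU Ue hUe V hV N => ?_⟩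
  · obtain ⟨U₁, hU₁, U₂, hU₂, hUU⟩ := mem_nhds_prod_iff.1 hU
    obtain ⟨V₁, hV₁, V₂, hV₂, hVV⟩ := mem_nhds_prod_iff.1 hUe
    obtain ⟨N₀, Bp, hBp, Bm, hBm, B₀, hB₀, hex⟩ := hex U₂ hU₂ V₂ hV₂ yp hyp Set.univ
      Filter.univ_mem
    obtain ⟨n, hn, y, hyΛ, hy, hyn⟩ := hl (U₁ ×ˢ Bp) (_root_.prod_mem_nhds hU₁ hBp) (V₁ ×ˢ Bm)
      (_root_.prod_mem_nhds hV₁ hBm) (max N N₀)
    rw [ph_iter_prod] at hyn
    obtain ⟨z, hz, hz1, hz2, -⟩ := hex n ((le_max_right _ _).trans hn) y.2 hyΛ.2 hy.2 hyn.2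
    refine ⟨n, (le_max_left _ _).trans hn, (y.1, z), hUU ⟨hy.1, hz⟩, ?_, fun i hi1 hi2 l => ?_⟩
    · rw [ph_iter_prod]
      exact hVV ⟨hyn.1, hz1⟩
    · rw [ph_iter_prod]
      exact hz2 i hi1 hi2 l
  · obtain ⟨U₁, hU₁, U₂, hU₂, hUU⟩ := mem_nhds_prod_iff.1 hU
    obtain ⟨V₁, hV₁, V₂, hV₂, hVV⟩ := mem_nhds_prod_iff.1 hUe
    obtain ⟨O₁, hO₁, O₂, hO₂, hOO⟩ := mem_nhds_prod_iff.1 hV
    obtain ⟨N₀, Bp, hBp, Bm, hBm, B₀, hB₀, hex⟩ := hex U₂ hU₂ V₂ hV₂ p.2 hpΛ O₂ hO₂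
    obtain ⟨i, hi, n, hn, y, hyΛ, hy, hyi, hyn⟩ := hl (U₁ ×ˢ Bp) (_root_.prod_mem_nhds hU₁ hBp)
      (O₁ ×ˢ B₀) (_root_.prod_mem_nhds hO₁ hB₀) (V₁ ×ˢ Bm) (_root_.prod_mem_nhds hV₁ hBm)
      (max (max N N₀) 1)
    rw [ph_iter_prod] at hyi hyn
    have h1 : N ≤ max (max N N₀) 1 := (le_max_left _ _).trans (le_max_left _ _)
    have h2 : N₀ ≤ max (max N N₀) 1 := (le_max_right _ _).trans (le_max_left _ _)
    have h3 : 1 ≤ max (max N N₀) 1 := le_max_right _ _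
    obtain ⟨z, hz, hz1, hz2, hz3⟩ := hex n (by omega) y.2 hyΛ.2 hy.2 hyn.2
    refine ⟨n, by omega, (y.1, z), hUU ⟨hy.1, hz⟩, ?_, fun i hi1 hi2 l => ?_, i, by omega,
      by omega, ?_⟩
    · rw [ph_iter_prod]
      exact hVV ⟨hyn.1, hz1⟩
    · rw [ph_iter_prod]
      exact hz2 i hi1 hi2 l
    · rw [ph_iter_prod]
      exact hOO ⟨hyi.1, hz3 i (by omega) (by omega) hyi.2⟩

/-- **The closing lemma along heteroclinic cycles of partially hyperbolic sets.** -/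
theorem ph_closable_cycle {r : ℕ∞} (F : W ≃ₘ^r⟮I, I⟯ W) {B : Type} [TopologicalSpace B]
    (b : B → B) (Φ : M ≃ₘ^1⟮J, J⟯ M) (π : W → B × M) (hπc : Continuous π) (hπo : IsOpenMap π)
    (hπs : Function.Surjective π) (hπi : Function.Injective π)
    (hF : ∀ x, π (F x) = Prod.map b Φ (π x)) (p : W) {k : ℕ} {Λ : Fin (k + 1) → Set M}
    {q yp ym : Fin (k + 1) → M} (h : PHCycle J Φ.toEquiv k Λ q yp ym) (β : Fin (k + 1) → B)
    (hl : ∀ j, LeadsIn (Prod.map b Φ) (Set.univ ×ˢ Λ j) (β j, yp j) (β (j + 1), ym j))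
    (j₀ : Fin (k + 1)) (hp : π p = (β j₀, q j₀) ∨ ((π p).2 ∈ Λ j₀ ∧
      LeadsInVia (Prod.map b Φ) (Set.univ ×ˢ Λ j₀) (β j₀, yp j₀) (π p) (β (j₀ + 1), ym j₀))) :
    Closable I F p := by
  obtain ⟨h1, h2⟩ := h
  have hinj : Function.Injective q := by
    intro a b hab
    by_contra hne
    exact (h2 a b).2 (fun h => hne h.symm) 0 hab
  have hnp : ∀ j, ∀ m, 0 < m → ∀ l, Φ^[m] (q j) ≠ q l := by
    intro j m hm l
    by_cases hjl : l = j
    · subst hjl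
      exact ph_nonper (h1 l).1 (fun y hy => ((h1 l).2.1 y).2 hy) (h1 l).2.2.1 (h2 l l).1 m hm
    · exact (h2 j l).2 hjl m
  have hnp' : ∀ j, ∀ m, 0 < m → ∀ l, Φ.symm^[m] (q (j + 1)) ≠ q l := by
    intro j m hm l hcon
    by_cases hjl : l = j + 1
    · rw [hjl] at hcon
      refine ph_nonper (F := Φ.symm) (h1 j).1 (fun y hy => ?_) (h1 j).2.2.2 (h2 j (j + 1)).1 m hm
        hcon
      have h3 := (h1 j).2.1 (Φ.symm y)
      have h4 : Φ.toEquiv (Φ.symm y) = y := Φ.apply_symm_apply y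
      rw [h4] at h3
      exact h3.1 hy
    · have h3 : Φ^[m] (q l) = q (j + 1) := by
        rw [← hcon]
        exact (Function.LeftInverse.iterate Φ.apply_symm_apply m) _
      exact (h2 l (j + 1)).2 (fun h => hjl h.symm) m h3
  have hlink := fun j => ph_link b Φ q (h1 j).1 (h1 j).2.1
    (fun l => (h2 j l).1) (hnp j) (hnp' j) (h1 j).2.2.1 (h1 j).2.2.2 (β j) (β (j + 1))
  choose J' hJ' hl1 hl2 using hlink
  choose Q hQ using fun j => hπs (β j, q j)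
  have hQi : Function.Injective Q := by
    intro a b hab
    apply hinj
    have h3 := hQ a
    rw [hab, hQ b] at h3
    exact (congrArg Prod.snd h3).symm
  have hit : ∀ n x, π ((F : W → W)^[n] x) = (Prod.map b Φ)^[n] (π x) := by
    intro n
    induction n with
    | zero => intro x; rfl
    | succ n ih =>
      intro x
      rw [Function.iterate_succ_apply', Function.iterate_succ_apply', hF, ih]
  have hJ'' : ∀ l, π ⁻¹' (Set.univ ×ˢ ⋂ j, J' j l) ∈ 𝓝 (Q l) := fun l => by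
    refine hπc.continuousAt ?_
    rw [hQ]
    exact _root_.prod_mem_nhds Filter.univ_mem (Filter.iInter_mem.2 fun j => hJ' j l)
  have himg : ∀ (U : Fin (k + 1) → Set W), (∀ j, U j ∈ 𝓝 (Q j)) → ∀ j,
      π '' (U j) ∈ 𝓝 (β j, q j) := by
    intro U hU j
    rw [← hQ]
    exact hπo.image_mem_nhds (hU j)
  have hmem : ∀ (U : Set W) x, π x ∈ π '' U → x ∈ U := by
    rintro U x ⟨y, hy, hxy⟩
    rwa [← hπi hxy]
  rcases hp with hp | ⟨hpΛ, hvia⟩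
  · have hpQ : p = Q j₀ := hπi (by rw [hp, hQ])
    subst hpQ
    refine closable_of_pairs F (Q j₀) fun 𝒰 h𝒰 V hV => ?_
    obtain ⟨G, hG, u, -, n, hn, hu, i, hi⟩ := close_chain F k Q hQi _ hJ'' j₀
      Set.univ (fun U hU j => by
        obtain ⟨n, hn, _, ⟨s, hs, rfl⟩, hs1, hs2⟩ := hl1 j (hl j) (π '' U j) (himg U hU j)
          (π '' U (j + 1)) (himg U hU (j + 1)) 2
        rw [← hit] at hs1
        exact ⟨s, hs, n, by omega, hmem _ _ hs1, fun i hi1 hi2 l hi3 => by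
          apply hs2 i hi1 hi2 l
          rw [← hit]
          exact Set.mem_iInter.1 hi3.2 j, fun _ => ⟨1, by omega, by omega,
            Set.mem_univ _⟩⟩) V hV 𝒰 h𝒰
    refine ⟨G, hG, (G : W → W)^[i] u, hi, nh_closable_periodic G _ ⟨n, hn, ?_⟩⟩
    rw [← Function.iterate_add_apply, add_comm, Function.iterate_add_apply, hu]
  · refine closable_of_pairs F p fun 𝒰 h𝒰 V hV => ?_
    obtain ⟨G, hG, u, huV, n, hn, hu, -⟩ := close_chain F k Q hQi _ hJ'' j₀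
      V (fun U hU j => by
        by_cases hj : j = j₀
        · subst hj
          obtain ⟨n, hn, _, ⟨s, hs, rfl⟩, hs1, hs2, i₁, hi₁, hi₁', hs3⟩ := hl2 j (π p) hpΛ hvia
            (π '' U j) (himg U hU j) (π '' U (j + 1)) (himg U hU (j + 1)) (π '' V)
            (hπo.image_mem_nhds hV) 1
          rw [← hit] at hs1 hs3
          exact ⟨s, hs, n, by omega, hmem _ _ hs1, fun i hi1 hi2 l hi3 => by
            apply hs2 i hi1 hi2 l
            rw [← hit]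
            exact Set.mem_iInter.1 hi3.2 j, fun _ => ⟨i₁, hi₁, hi₁', hmem _ _ hs3⟩⟩
        · obtain ⟨n, hn, _, ⟨s, hs, rfl⟩, hs1, hs2⟩ := hl1 j (hl j) (π '' U j) (himg U hU j)
            (π '' U (j + 1)) (himg U hU (j + 1)) 1
          rw [← hit] at hs1
          exact ⟨s, hs, n, by omega, hmem _ _ hs1, fun i hi1 hi2 l hi3 => by
            apply hs2 i hi1 hi2 l
            rw [← hit]
            exact Set.mem_iInter.1 hi3.2 j, fun h => absurd h hj⟩) Set.univ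
      Filter.univ_mem 𝒰 h𝒰
    exact ⟨G, hG, u, huV, nh_closable_periodic G _ ⟨n, hn, hu⟩⟩

/-- good pairs -/
theorem ph_closable {r : ℕ∞} (F : W ≃ₘ^r⟮I, I⟯ W) (p : W) (h : PHGood I F p) :
    Closable I F p := by
  obtain ⟨B, _, _, b, E', _, _, _, H', _, J, _, M, _, _, _, _, _, Φ, π, k, Λ, q, yp, ym, β, hπ,
    hk, hc, hl, j, hp⟩ := h
  rcases hk with rfl | hπi
  · have hj : ∀ a b : Fin (0 + 1), a = b := fun a b => Subsingleton.elim (α := Fin 1) a b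
    have h1 : PHHomoclinic J Φ.toEquiv (Λ j) (q j) (yp j) (ym j) := by
      refine ⟨(hc.1 j).1, (hc.1 j).2.1, (hc.2 j j).1, (hc.1 j).2.2.1, ?_⟩
      have h2 := (hc.1 j).2.2.2
      rwa [hj (j + 1) j] at h2
    refine ph_closable_ext b F Φ π hπ p h1 (β j) ?_
    have h3 := hl j
    rw [hj (j + 1) j] at h3 hp
    rcases hp with hp | hp
    · exact Or.inl ⟨hp, h3⟩
    · exact Or.inr hp
  · exact ph_closable_cycle F b Φ π hπ.1 hπ.2.1 hπ.2.2.1 hπi hπ.2.2.2.1 p hc β hl j hp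

/-- limits -/
theorem ph_closable_limit {r : ℕ∞} (F : W ≃ₘ^r⟮I, I⟯ W) (p : W)
    (h : PHLimit I F p) : Closable I F p := by
  refine closable_of_pairs F p fun U hU V hV => ?_
  obtain ⟨F', hF', p', hp', h1⟩ := h U hU V hV
  exact ⟨F', hF', p', hp', ph_closable F' p' h1⟩

end Pool.Agent.SC
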