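import Pool.Agent.Lib.MP_1e8d1a_an.NH.Tc
import Pool.Agent.Lib.MP_1e8d1a_an.NH.Exc3
import Pool.Agent.Lib.MP_1e8d1a_an.NH.AT2
import Pool.Agent.Lib.MP_1e8d1a_an.NH.AT3
import Pool.Agent.Lib.MP_1e8d1a_an.NH.AT4
import Pool.Agent.Lib.MP_1e8d1a_an.NH.AT7

/-! Excursions from a homoclinic point of a partially hyperbolic set of a diffeomorphism. -/

open scoped ContDiff Manifold Topology

set_option linter.unusedSectionVars false

namespace Pool.Agent.SC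

variable {E : Type} [NormedAddCommGroup E] [NormedSpace ℝ E] [FiniteDimensional ℝ E]
  {H : Type} [TopologicalSpace H] {I : ModelWithCorners ℝ E H} [I.Boundaryless]
  {W : Type} [TopologicalSpace W] [ChartedSpace H W] [IsManifold I ∞ W] [T2Space W]
  [CompactSpace W]

theorem ph_ss_norm {ι : Type} [Fintype ι] (f : SmoothBumpCovering ι I W) {F : W → W} {m : W → ℝ}
    {y x : W} (h : StrongStableSet I F m y x) : Filter.Tendsto
      (fun k => |(wprod F m k y)⁻¹| * ‖atE f (F^[k] x) - atE f (F^[k] y)‖) Filter.atTop (𝓝 0) := by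
  have h0 : FiniteDimensional ℝ (ι → E × ℝ) := inferInstance
  set Lc := (Module.finBasis ℝ (ι → E × ℝ)).equivFunL with hLc
  have h1 : Filter.Tendsto (fun k => (wprod F m k y)⁻¹ •
      (Lc (atE f (F^[k] x)) - Lc (atE f (F^[k] y)))) Filter.atTop (𝓝 0) := by
    rw [tendsto_pi_nhds]
    intro j
    have h2 := h (fun z => Lc (atE f z) j) (by
      have h3 : ContDiff ℝ ∞ (fun z : ι → E × ℝ => Lc z j) :=
        ((ContinuousLinearMap.proj (R := ℝ) (φ := fun _ => ℝ) j).comp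
          (Lc : (ι → E × ℝ) →L[ℝ] _)).contDiff
      exact h3.contMDiff.comp (at_E f).1)
    exact h2
  have h2 := (Lc.symm.continuous.tendsto 0).comp h1
  rw [map_zero] at h2
  have h3 := h2.norm
  rw [norm_zero] at h3
  refine h3.congr fun k => ?_
  show ‖Lc.symm ((wprod F m k y)⁻¹ • (Lc (atE f (F^[k] x)) - Lc (atE f (F^[k] y))))‖ = _
  rw [map_smul, map_sub, Lc.symm_apply_apply, Lc.symm_apply_apply, norm_smul, Real.norm_eq_abs]

theorem ph_lower {Λ : Set W} (hΛ : IsClosed Λ) {m : W → ℝ} (hm : ContinuousOn m Λ)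
    (hm0 : ∀ y ∈ Λ, 0 < m y) : ∃ c > 0, ∀ y ∈ Λ, c ≤ m y := by
  rcases Λ.eq_empty_or_nonempty with h | h
  · exact ⟨1, one_pos, fun y hy => by rw [h] at hy; exact hy.elim⟩
  · obtain ⟨y, hy, hmin⟩ := hΛ.isCompact.exists_isMinOn h hm
    exact ⟨m y, hm0 y hy, fun z hz => hmin hz⟩

theorem ph_small {a b : ℝ} : ∃ κ > 0, a * κ < 1 ∧ b * κ < 1 := by
  refine ⟨1 / (|a| + |b| + 1), by positivity, ?_, ?_⟩
  · rw [mul_one_div, div_lt_one (by positivity)]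
    have := le_abs_self a
    have := abs_nonneg b
    linarith
  · rw [mul_one_div, div_lt_one (by positivity)]
    have := le_abs_self b
    have := abs_nonneg a
    linarith

/-- **Excursions from a homoclinic point of a partially hyperbolic set.** -/
theorem ph_exc (F : W ≃ₘ^1⟮I, I⟯ W) {Λ : Set W} (hΛ : IsClosed Λ)
    (hinv : ∀ x, F x ∈ Λ ↔ x ∈ Λ) {ms mu : W → ℝ} (hs : Dominated I F Λ ms)
    (hu : Dominated I F.symm Λ mu) {q yp ym : W} (hq : q ∉ Λ) (hyp : yp ∈ Λ) (hym : ym ∈ Λ)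
    (hp : StrongStableSet I F ms yp q) (hm : StrongStableSet I F.symm mu ym q) :
    ∃ J ∈ 𝓝 q, ∀ U ∈ 𝓝 q, ∀ y₀ ∈ Λ, ∀ V₁ ∈ 𝓝 y₀, ∃ N : ℕ, ∃ Bp ∈ 𝓝 yp, ∃ Bm ∈ 𝓝 ym,
      ∃ B₀ ∈ 𝓝 y₀, ∀ n ≥ N, ∀ y ∈ Λ, y ∈ Bp → F^[n] y ∈ Bm → ∃ z ∈ U, F^[n] z ∈ U ∧
        (∀ i, 0 < i → i < n → F^[i] z ∉ J) ∧
        ∀ i, N ≤ i → i + N ≤ n → F^[i] y ∈ B₀ → F^[i] z ∈ V₁ := by
  obtain ⟨hsc, hs1, gs, Ps, Cs, θs, hθs0, hθs1, hPs⟩ := hs
  obtain ⟨huc, hu1, gu, Pu, Cu, θu, hθu0, hθu1, hPu⟩ := hu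
  obtain ⟨ι, _, f, K, hK, hbd⟩ := at_cover gs gu
  have hFs : ContMDiff I I 1 F := F.contMDiff
  have hFs' : ContMDiff I I 1 F.symm := F.symm.contMDiff
  -- the dynamics on the set
  let T : Λ ≃ₜ Λ := F.toHomeomorph.subtype fun x => (hinv x).symm
  have hT : ∀ y : Λ, (T y : W) = F y := fun y => rfl
  have hTs : ∀ y : Λ, (T.symm y : W) = F.symm y := fun y => rfl
  -- the splittings in the charts
  obtain ⟨PEs, hPEs⟩ := tc_split f hFs hT (fun y hy => (hs1 y hy).1) gs hK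
    (fun y v => (hbd y v).1) (fun y v => (hbd y v).2.1) Ps hθs0 hPs
  obtain ⟨PEu, hPEu⟩ := tc_split f hFs' hTs (fun y hy => (hu1 y hy).1) gu hK
    (fun y v => (hbd y v).2.2.1) (fun y v => (hbd y v).2.2.2) Pu hθu0 hPu
  set A : Λ → E →ₗ[ℝ] E := fun y => (atA f F (y : W) : E →ₗ[ℝ] E) with hA
  set B : Λ → E →ₗ[ℝ] E := fun y => (atA f F.symm (F (y : W)) : E →ₗ[ℝ] E) with hB
  have hAB : ∀ y v, A y (B y v) = v := by
    intro y v
    have h1 := tc_inv f hFs' hFs (fun x => F.apply_symm_apply x) (F (y : W)) v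
    rw [F.symm_apply_apply] at h1
    exact h1
  have hBA : ∀ y v, B y (A y v) = v := fun y v =>
    tc_inv f hFs hFs' (fun x => F.symm_apply_apply x) (y : W) v
  have hBS : (fun y : Λ => (atA f F.symm (y : W) : E →ₗ[ℝ] E)) = fun y => B (T.symm y) := by
    funext y
    show (atA f F.symm (y : W) : E →ₗ[ℝ] E) = (atA f F.symm (F (T.symm y : W)) : E →ₗ[ℝ] E)
    rw [hTs, F.apply_symm_apply]
  rw [hBS] at hPEu
  have hls := cv_forward (T := T) (S := T.symm) T.apply_symm_apply hAB hBA (by positivity) hθs0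
    (fun y : Λ => (hs1 y y.2).1) hPEs
  have hlu := cv_backward (T := T) (S := T.symm) T.symm_apply_apply T.apply_symm_apply hAB hBA
    (by positivity) hθu0 (fun y : Λ => (hu1 y y.2).1) hPEu
  set C₁ := K * K * |Cs| * (1 + K * K * |Cs|) with hC₁
  set C₂ := K * K * |Cu| * (1 + K * K * |Cu|) with hC₂
  obtain ⟨c, hc, hcm⟩ := ph_lower hΛ hsc fun y hy => (hs1 y hy).1
  obtain ⟨c', hc', hcm'⟩ := ph_lower hΛ huc fun y hy => (hu1 y hy).1
  obtain ⟨κ, hκ, hκ1, hκ2⟩ := ph_small (a := C₁ / c * (2 / (1 - θs)))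
    (b := C₂ / 1 * (2 / (1 - θu)))
  obtain ⟨δ₂, hδ₂, K₂, hL⟩ := at_L f
  obtain ⟨ρ₁, hρ₁, δ₁, hδ₁, M, G, hG0, hGM, hGκ, hG1, hG4⟩ := at_G f (at_L f) hFs hκ
  obtain ⟨ρ₂, hρ₂, K₃, hH⟩ := at_H f
  set mu' : Λ → ℝ := fun y => (mu (T y : W))⁻¹ with hmu'
  have hmu'1 : ∀ y, 1 ≤ mu' y := by
    intro y
    have h1 := hu1 (T y) (T y).2
    exact (one_le_inv₀ h1.1).2 h1.2
  have hmu'2 : ∀ y, mu' y ≤ c'⁻¹ := by
    intro y
    exact inv_anti₀ hc' (hcm' _ (T y).2)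
  have hDs : DomSplitW T T.symm (fun z : Λ × E => G ((z.1 : W), z.2)) (fun y => ms y) := by
    refine ⟨A, B, PEs, fun z => G ((z.1 : W), z.2) - A z.1 z.2, M, C₁, θs, κ, c, by positivity,
      hθs0, hθs1, hκ.le, hc, fun y => hcm y y.2, hκ1, fun y v => hGM y v, hls.1, hls.2.1, hls.2.2.1,
      hls.2.2.2, fun y => ?_, fun y v v' => hGκ y v v', fun y v => ?_⟩
    · show G ((y : W), 0) - A y 0 = 0
      rw [hG0, map_zero, sub_zero]
    · show G ((y : W), v) = A y v + (G ((y : W), v) - A y v)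
      abel
  have hDu : DomSplitW T T.symm (fun z : Λ × E => G ((z.1 : W), z.2)) mu' := by
    refine ⟨A, B, fun y => LinearMap.id - PEu y, fun z => G ((z.1 : W), z.2) - A z.1 z.2, M, C₂,
      θu, κ, 1, by positivity, hθu0, hθu1, hκ.le, one_pos, hmu'1, hκ2, fun y v => hGM y v, hlu.1,
      hlu.2.1, hlu.2.2.1, hlu.2.2.2, fun y => ?_, fun y v v' => hGκ y v v', fun y v => ?_⟩
    · show G ((y : W), 0) - A y 0 = 0
      rw [hG0, map_zero, sub_zero]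
    · show G ((y : W), v) = A y v + (G ((y : W), v) - A y v)
      abel
  have hind : Topology.IsInducing (atE f) :=
    ((at_E f).1.continuous.isClosedEmbedding (at_E f).2).isInducing
  obtain ⟨r₀, hr₀, hq'⟩ := nh_ball_of_nhds (atE f) hind q (hΛ.isOpen_compl.mem_nhds hq)
  have hKle2 : K₂ ≤ max (max K₂ K₃) 0 := (le_max_left _ _).trans (le_max_left _ _)
  have hKle3 : K₃ ≤ max (max K₂ K₃) 0 := (le_max_right _ _).trans (le_max_left _ _)
  obtain ⟨J, hJ, hex⟩ := nh_exc3 F.toHomeomorph (atE f) hind T (Subtype.val : Λ → W)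
    continuous_subtype_val (fun z : Λ × E => G ((z.1 : W), z.2))
    (fun z : Λ × E => atH f ((z.1 : W), z.2)) (fun (y : Λ) x => atL f (y : W) x)
    (ρ := min ρ₁ ρ₂) (δ := min δ₁ δ₂) (K := max (max K₂ K₃) 0) (lt_min hρ₁ hρ₂)
    (lt_min hδ₁ hδ₂) (le_max_right _ _)
    (fun y => by
      show (extChartAt I (atC f (y : W))).symm (extChartAt I (atC f (y : W)) (y : W) + 0) = y
      rw [add_zero]
      exact (extChartAt I (atC f (y : W))).left_inv (f.mem_extChartAt_ind_source _ _))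
    (fun y v hv => hG1 y v (hv.trans (min_le_left _ _)))
    (fun y x hx => by
      have h1 := hL y x (hx.trans (min_le_right _ _))
      exact ⟨h1.1.trans (mul_le_mul_of_nonneg_right hKle2 (norm_nonneg _)), h1.2⟩)
    (fun y v v' hv hv' => (hH y v v' (hv.trans (min_le_right _ _))
      (hv'.trans (min_le_right _ _))).trans
      (mul_le_mul_of_nonneg_right hKle3 (norm_nonneg _)))
    (fun y x hx => hG4 y x (hx.trans (min_le_left _ _)))
    (ms := fun y => ms y) (mu := mu') (continuousOn_iff_continuous_domRestrict.1 hsc)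
    (by
      have h1 : Continuous fun y : Λ => mu (y : W) := continuousOn_iff_continuous_domRestrict.1 huc
      exact (h1.comp T.continuous).inv₀ fun y => (hu1 _ (T y).2).1.ne')
    (fun y => (hs1 y y.2).2) hmu'1 hmu'2 hDs hDu q hr₀
    (fun y => by
      by_contra h1
      push Not at h1
      rw [norm_sub_rev] at h1
      exact hq' _ h1 y.2)
    ⟨yp, hyp⟩ ⟨ym, hym⟩
    (by
      refine (ph_ss_norm f hp).congr fun k => ?_
      have h1 : 0 < wprod F ms k yp := by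
        have h2 := wprod_pos T (m := fun y : Λ => ms y) (fun y => (hs1 y y.2).1) k ⟨yp, hyp⟩
        rwa [tc_wprod_sub hT] at h2
      rw [abs_of_pos (inv_pos.2 h1), tc_wprod_sub hT, tc_sub hT]
      rfl)
    (by
      refine (ph_ss_norm f hm).congr fun k => ?_
      have h1 : 0 < wprod F.symm mu k ym := by
        have h2 := wprod_pos T.symm (m := fun y : Λ => mu y) (fun y => (hu1 y y.2).1) k ⟨ym, hym⟩
        rwa [tc_wprod_sub hTs] at h2
      have h3 : wprod T mu' k (T.symm^[k] ⟨ym, hym⟩) = (wprod F.symm mu k ym)⁻¹ := by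
        have h4 := cv_weights (T := T) (S := T.symm) T.symm_apply_apply (fun y : Λ => mu y) k
          (T.symm^[k] ⟨ym, hym⟩)
        rw [cv_iter T.apply_symm_apply, tc_wprod_sub hTs] at h4
        exact h4
      rw [abs_of_pos (inv_pos.2 h1), h3, tc_sub hTs]
      rfl)
  refine ⟨J, hJ, fun U hU y₀ hy₀ V₁ hV₁ => ?_⟩
  obtain ⟨N, Bp, hBp, Bm, hBm, B₀, hB₀, hex⟩ := hex U hU ⟨y₀, hy₀⟩ V₁ hV₁
  obtain ⟨Bp', hBp', hBp1⟩ := mem_nhds_subtype _ _ _ |>.1 hBp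
  obtain ⟨Bm', hBm', hBm1⟩ := mem_nhds_subtype _ _ _ |>.1 hBm
  obtain ⟨B₀', hB₀', hB₀1⟩ := mem_nhds_subtype _ _ _ |>.1 hB₀
  refine ⟨N, Bp', hBp', Bm', hBm', B₀', hB₀', fun n hn y hyΛ hy hyn => ?_⟩
  have hTk : ∀ k, ((T^[k] ⟨y, hyΛ⟩ : Λ) : W) = F^[k] y := fun k => tc_sub hT k ⟨y, hyΛ⟩
  obtain ⟨z, hz1, hz2, hz3, hz4⟩ := hex n hn ⟨y, hyΛ⟩ (hBp1 hy) (hBm1 (by
    show ((T^[n] ⟨y, hyΛ⟩ : Λ) : W) ∈ Bm'
    rw [hTk]
    exact hyn))
  refine ⟨z, hz1, hz2, hz3, fun i hi1 hi2 hi3 => hz4 i hi1 hi2 (hB₀1 ?_)⟩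
  show ((T^[i] ⟨y, hyΛ⟩ : Λ) : W) ∈ B₀'
  rw [hTk]
  exact hi3

end Pool.Agent.SC
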