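import Pool.Agent.Lib.MP_1e8d1a_an.NH.PHExc
import Pool.Agent.Lib.MP_1e8d1a_an.NH.Exc4

/-! Excursions along a partially hyperbolic set of a diffeomorphism. -/

open scoped ContDiff Manifold Topology

set_option linter.unusedSectionVars false

namespace Pool.Agent.SC

variable {E : Type} [NormedAddCommGroup E] [NormedSpace ℝ E] [FiniteDimensional ℝ E]
  {H : Type} [TopologicalSpace H] {I : ModelWithCorners ℝ E H} [I.Boundaryless]
  {W : Type} [TopologicalSpace W] [ChartedSpace H W] [IsManifold I ∞ W] [T2Space W]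
  [CompactSpace W]

/-- **Excursions along a partially hyperbolic set**, from `q` to `q'`. -/
theorem ph_exc4 (F : W ≃ₘ^1⟮I, I⟯ W) {Λ : Set W} (hΛ : IsClosed Λ)
    (hinv : ∀ x, F x ∈ Λ ↔ x ∈ Λ) {ms mu : W → ℝ} (hs : Dominated I F Λ ms)
    (hu : Dominated I F.symm Λ mu) {κ : Type} [Finite κ] (Q : κ → W) (hq : ∀ l, Q l ∉ Λ)
    {q q' yp ym : W} (hnp : ∀ m, 0 < m → ∀ l, F^[m] q ≠ Q l)
    (hnp' : ∀ m, 0 < m → ∀ l, F.symm^[m] q' ≠ Q l) (hyp : yp ∈ Λ) (hym : ym ∈ Λ)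
    (hp : StrongStableSet I F ms yp q) (hm : StrongStableSet I F.symm mu ym q') :
    ∃ J : κ → Set W, (∀ l, J l ∈ 𝓝 (Q l)) ∧ ∀ U ∈ 𝓝 q, ∀ Ue ∈ 𝓝 q', ∀ y₀ ∈ Λ, ∀ V₁ ∈ 𝓝 y₀,
      ∃ N : ℕ, ∃ Bp ∈ 𝓝 yp, ∃ Bm ∈ 𝓝 ym,
      ∃ B₀ ∈ 𝓝 y₀, ∀ n ≥ N, ∀ y ∈ Λ, y ∈ Bp → F^[n] y ∈ Bm → ∃ z ∈ U, F^[n] z ∈ Ue ∧
        (∀ i, 0 < i → i < n → ∀ l, F^[i] z ∉ J l) ∧
        ∀ i, N ≤ i → i + N ≤ n → F^[i] y ∈ B₀ → F^[i] z ∈ V₁ := by
  obtain ⟨hsc, hs1, gs, Ps, Cs, θs, hθs0, hθs1, hPs⟩ := hs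
  obtain ⟨huc, hu1, gu, Pu, Cu, θu, hθu0, hθu1, hPu⟩ := hu
  obtain ⟨ι, _, f, K, hK, hbd⟩ := at_cover gs gu
  have hFs : ContMDiff I I 1 F := F.contMDiff
  have hFs' : ContMDiff I I 1 F.symm := F.symm.contMDiff
  -- the dynamics on the set
  let T : Λ ≃ₜ Λ := F.toHomeomorph.subtype fun x => (hinv x).symm
  have hT : ∀ y : Λ, (T y : W) = F y := fun y => rfl
  have hTs : ∀ y : Λ, (T.symm y : W) = F.symm y := fun y => rfl
  -- the splittings in the charts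
  obtain ⟨PEs, hPEs⟩ := tc_split f hFs hT (fun y hy => (hs1 y hy).1) gs hK
    (fun y v => (hbd y v).1) (fun y v => (hbd y v).2.1) Ps hθs0 hPs
  obtain ⟨PEu, hPEu⟩ := tc_split f hFs' hTs (fun y hy => (hu1 y hy).1) gu hK
    (fun y v => (hbd y v).2.2.1) (fun y v => (hbd y v).2.2.2) Pu hθu0 hPu
  set A : Λ → E →ₗ[ℝ] E := fun y => (atA f F (y : W) : E →ₗ[ℝ] E) with hA
  set B : Λ → E →ₗ[ℝ] E := fun y => (atA f F.symm (F (y : W)) : E →ₗ[ℝ] E) with hB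
  have hAB : ∀ y v, A y (B y v) = v := by
    intro y v
    have h1 := tc_inv f hFs' hFs (fun x => F.apply_symm_apply x) (F (y : W)) v
    rw [F.symm_apply_apply] at h1
    exact h1
  have hBA : ∀ y v, B y (A y v) = v := fun y v =>
    tc_inv f hFs hFs' (fun x => F.symm_apply_apply x) (y : W) v
  have hBS : (fun y : Λ => (atA f F.symm (y : W) : E →ₗ[ℝ] E)) = fun y => B (T.symm y) := by
    funext y
    show (atA f F.symm (y : W) : E →ₗ[ℝ] E) = (atA f F.symm (F (T.symm y : W)) : E →ₗ[ℝ] E)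
    rw [hTs, F.apply_symm_apply]
  rw [hBS] at hPEu
  have hls := cv_forward (T := T) (S := T.symm) T.apply_symm_apply hAB hBA (by positivity) hθs0
    (fun y : Λ => (hs1 y y.2).1) hPEs
  have hlu := cv_backward (T := T) (S := T.symm) T.symm_apply_apply T.apply_symm_apply hAB hBA
    (by positivity) hθu0 (fun y : Λ => (hu1 y y.2).1) hPEu
  set C₁ := K * K * |Cs| * (1 + K * K * |Cs|) with hC₁
  set C₂ := K * K * |Cu| * (1 + K * K * |Cu|) with hC₂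
  obtain ⟨c, hc, hcm⟩ := ph_lower hΛ hsc fun y hy => (hs1 y hy).1
  obtain ⟨c', hc', hcm'⟩ := ph_lower hΛ huc fun y hy => (hu1 y hy).1
  obtain ⟨κ₀, hκ, hκ1, hκ2⟩ := ph_small (a := C₁ / c * (2 / (1 - θs)))
    (b := C₂ / 1 * (2 / (1 - θu)))
  obtain ⟨δ₂, hδ₂, K₂, hL⟩ := at_L f
  obtain ⟨ρ₁, hρ₁, δ₁, hδ₁, M, G, hG0, hGM, hGκ, hG1, hG4⟩ := at_G f (at_L f) hFs hκ
  obtain ⟨ρ₂, hρ₂, K₃, hH⟩ := at_H f
  set mu' : Λ → ℝ := fun y => (mu (T y : W))⁻¹ with hmu'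
  have hmu'1 : ∀ y, 1 ≤ mu' y := by
    intro y
    have h1 := hu1 (T y) (T y).2
    exact (one_le_inv₀ h1.1).2 h1.2
  have hmu'2 : ∀ y, mu' y ≤ c'⁻¹ := by
    intro y
    exact inv_anti₀ hc' (hcm' _ (T y).2)
  have hDs : DomSplitW T T.symm (fun z : Λ × E => G ((z.1 : W), z.2)) (fun y => ms y) := by
    refine ⟨A, B, PEs, fun z => G ((z.1 : W), z.2) - A z.1 z.2, M, C₁, θs, κ₀, c, by positivity,
      hθs0, hθs1, hκ.le, hc, fun y => hcm y y.2, hκ1, fun y v => hGM y v, hls.1, hls.2.1, hls.2.2.1,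
      hls.2.2.2, fun y => ?_, fun y v v' => hGκ y v v', fun y v => ?_⟩
    · show G ((y : W), 0) - A y 0 = 0
      rw [hG0, map_zero, sub_zero]
    · show G ((y : W), v) = A y v + (G ((y : W), v) - A y v)
      abel
  have hDu : DomSplitW T T.symm (fun z : Λ × E => G ((z.1 : W), z.2)) mu' := by
    refine ⟨A, B, fun y => LinearMap.id - PEu y, fun z => G ((z.1 : W), z.2) - A z.1 z.2, M, C₂,
      θu, κ₀, 1, by positivity, hθu0, hθu1, hκ.le, one_pos, hmu'1, hκ2, fun y v => hGM y v, hlu.1,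
      hlu.2.1, hlu.2.2.1, hlu.2.2.2, fun y => ?_, fun y v v' => hGκ y v v', fun y v => ?_⟩
    · show G ((y : W), 0) - A y 0 = 0
      rw [hG0, map_zero, sub_zero]
    · show G ((y : W), v) = A y v + (G ((y : W), v) - A y v)
      abel
  have hind : Topology.IsInducing (atE f) :=
    ((at_E f).1.continuous.isClosedEmbedding (at_E f).2).isInducing
  obtain ⟨r₀, hr₀, hq'⟩ : ∃ r₀ > 0, ∀ l, ∀ z, ‖atE f z - atE f (Q l)‖ < r₀ → z ∈ Λᶜ := by
    choose r hr hr' using fun l =>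
      nh_ball_of_nhds (atE f) hind (Q l) (hΛ.isOpen_compl.mem_nhds (hq l))
    rcases isEmpty_or_nonempty κ with hκe | hκn
    · exact ⟨1, one_pos, fun l => (hκe.false l).elim⟩
    · obtain ⟨l₀, hl₀⟩ := Finite.exists_min r
      exact ⟨r l₀, hr l₀, fun l z hz => hr' l z (hz.trans_le (hl₀ l))⟩
  have hKle2 : K₂ ≤ max (max K₂ K₃) 0 := (le_max_left _ _).trans (le_max_left _ _)
  have hKle3 : K₃ ≤ max (max K₂ K₃) 0 := (le_max_right _ _).trans (le_max_left _ _)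
  obtain ⟨J, hJ, hex⟩ := nh_exc4 F.toHomeomorph (atE f) hind T (Subtype.val : Λ → W)
    continuous_subtype_val (fun z : Λ × E => G ((z.1 : W), z.2))
    (fun z : Λ × E => atH f ((z.1 : W), z.2)) (fun (y : Λ) x => atL f (y : W) x)
    (ρ := min ρ₁ ρ₂) (δ := min δ₁ δ₂) (K := max (max K₂ K₃) 0) (lt_min hρ₁ hρ₂)
    (lt_min hδ₁ hδ₂) (le_max_right _ _)
    (fun y => by
      show (extChartAt I (atC f (y : W))).symm (extChartAt I (atC f (y : W)) (y : W) + 0) = y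
      rw [add_zero]
      exact (extChartAt I (atC f (y : W))).left_inv (f.mem_extChartAt_ind_source _ _))
    (fun y v hv => hG1 y v (hv.trans (min_le_left _ _)))
    (fun y x hx => by
      have h1 := hL y x (hx.trans (min_le_right _ _))
      exact ⟨h1.1.trans (mul_le_mul_of_nonneg_right hKle2 (norm_nonneg _)), h1.2⟩)
    (fun y v v' hv hv' => (hH y v v' (hv.trans (min_le_right _ _))
      (hv'.trans (min_le_right _ _))).trans
      (mul_le_mul_of_nonneg_right hKle3 (norm_nonneg _)))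
    (fun y x hx => hG4 y x (hx.trans (min_le_left _ _)))
    (ms := fun y => ms y) (mu := mu') (continuousOn_iff_continuous_domRestrict.1 hsc)
    (by
      have h1 : Continuous fun y : Λ => mu (y : W) := continuousOn_iff_continuous_domRestrict.1 huc
      exact (h1.comp T.continuous).inv₀ fun y => (hu1 _ (T y).2).1.ne')
    (fun y => (hs1 y y.2).2) hmu'1 hmu'2 hDs hDu Q hr₀
    (fun l y => by
      by_contra h1
      push Not at h1
      rw [norm_sub_rev] at h1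
      exact hq' l _ h1 y.2)
    q q' hnp hnp' ⟨yp, hyp⟩ ⟨ym, hym⟩
    (by
      refine (ph_ss_norm f hp).congr fun k => ?_
      have h1 : 0 < wprod F ms k yp := by
        have h2 := wprod_pos T (m := fun y : Λ => ms y) (fun y => (hs1 y y.2).1) k ⟨yp, hyp⟩
        rwa [tc_wprod_sub hT] at h2
      rw [abs_of_pos (inv_pos.2 h1), tc_wprod_sub hT, tc_sub hT]
      rfl)
    (by
      refine (ph_ss_norm f hm).congr fun k => ?_
      have h1 : 0 < wprod F.symm mu k ym := by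
        have h2 := wprod_pos T.symm (m := fun y : Λ => mu y) (fun y => (hu1 y y.2).1) k ⟨ym, hym⟩
        rwa [tc_wprod_sub hTs] at h2
      have h3 : wprod T mu' k (T.symm^[k] ⟨ym, hym⟩) = (wprod F.symm mu k ym)⁻¹ := by
        have h4 := cv_weights (T := T) (S := T.symm) T.symm_apply_apply (fun y : Λ => mu y) k
          (T.symm^[k] ⟨ym, hym⟩)
        rw [cv_iter T.apply_symm_apply, tc_wprod_sub hTs] at h4
        exact h4
      rw [abs_of_pos (inv_pos.2 h1), h3, tc_sub hTs]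
      rfl)
  refine ⟨J, hJ, fun U hU Ue hUe y₀ hy₀ V₁ hV₁ => ?_⟩
  obtain ⟨N, Bp, hBp, Bm, hBm, B₀, hB₀, hex⟩ := hex U hU Ue hUe ⟨y₀, hy₀⟩ V₁ hV₁
  obtain ⟨Bp', hBp', hBp1⟩ := mem_nhds_subtype _ _ _ |>.1 hBp
  obtain ⟨Bm', hBm', hBm1⟩ := mem_nhds_subtype _ _ _ |>.1 hBm
  obtain ⟨B₀', hB₀', hB₀1⟩ := mem_nhds_subtype _ _ _ |>.1 hB₀
  refine ⟨N, Bp', hBp', Bm', hBm', B₀', hB₀', fun n hn y hyΛ hy hyn => ?_⟩
  have hTk : ∀ k, ((T^[k] ⟨y, hyΛ⟩ : Λ) : W) = F^[k] y := fun k => tc_sub hT k ⟨y, hyΛ⟩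
  obtain ⟨z, hz1, hz2, hz3, hz4⟩ := hex n hn ⟨y, hyΛ⟩ (hBp1 hy) (hBm1 (by
    show ((T^[n] ⟨y, hyΛ⟩ : Λ) : W) ∈ Bm'
    rw [hTk]
    exact hyn))
  refine ⟨z, hz1, hz2, hz3, fun i hi1 hi2 hi3 => hz4 i hi1 hi2 (hB₀1 ?_)⟩
  show ((T^[i] ⟨y, hyΛ⟩ : Λ) : W) ∈ B₀'
  rw [hTk]
  exact hi3

end Pool.Agent.SC
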