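import Pool.Agent.Lib.MP_1e8d1a_an.EQ.F7
import Pool.Agent.Lib.MP_1e8d1a_an.EQ.B1

/-!
The quantitative bump lemma: a displacement of size `c s^k` inside a ball of radius `s` of a chart is
a `C^r` small perturbation, uniformly for `s ≤ s₀` (`k` and `c` depend on the neighbourhood; `r` may
be `∞`).
-/

open scoped ContDiff Manifold Topology BoundedContinuousFunction

namespace Pool.Agent.SC

open Pool.Agent.EQ

/-- A smooth bump of radius `s`, with bounds of the derivatives. -/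
theorem q_bump (X V : Type) [NormedAddCommGroup X] [NormedSpace ℝ X] [FiniteDimensional ℝ X]
    [NormedAddCommGroup V] [NormedSpace ℝ V] (k : ℕ) :
    ∃ C : ℝ, 1 ≤ C ∧ ∀ (c : X) (s : ℝ) (a : V), 0 < s → s ≤ 1 → ∃ u : X → V, ContDiff ℝ ∞ u ∧
      (∀ y, ‖y - c‖ ≤ s / 2 → u y = a) ∧ (∀ y, s ≤ ‖y - c‖ → u y = 0) ∧
      ∀ j ≤ k, ∀ y, ‖iteratedFDeriv ℝ j u y‖ ≤ C * ‖a‖ / s ^ k := by
  let b₁ : ContDiffBump (0 : X) := ⟨1 / 2, 1, by norm_num, by norm_num⟩
  have hsm : ∀ n : ℕ, ContDiff ℝ n (b₁ : X → ℝ) := fun n => b₁.contDiff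
  have hsi : ContDiff ℝ ∞ (b₁ : X → ℝ) := b₁.contDiff
  have hcs : HasCompactSupport (b₁ : X → ℝ) := b₁.hasCompactSupport
  have hbd : ∀ j : ℕ, ∃ C : ℝ, ∀ y, ‖iteratedFDeriv ℝ j (b₁ : X → ℝ) y‖ ≤ C := fun j =>
    (hcs.iteratedFDeriv j).exists_bound_of_continuous ((hsm j).continuous_iteratedFDeriv le_rfl)
  choose C hC using hbd
  refine ⟨max 1 (∑ j ∈ Finset.range (k + 1), |C j|), le_max_left _ _, ?_⟩
  intro c s a hs hs1
  have hbs : ContDiff ℝ ∞ (fun y => b₁ (s⁻¹ • (y - c))) :=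
    hsi.comp (contDiff_const.smul (contDiff_id.sub contDiff_const))
  have hb1 : ∀ y, ‖y - c‖ ≤ s / 2 → b₁ (s⁻¹ • (y - c)) = 1 := by
    intro y hy
    apply b₁.one_of_mem_closedBall
    rw [mem_closedBall_zero_iff, norm_smul, norm_inv, Real.norm_of_nonneg hs.le]
    change s⁻¹ * ‖y - c‖ ≤ 1 / 2
    rw [inv_mul_le_iff₀ hs]
    linarith
  have hb0 : ∀ y, s ≤ ‖y - c‖ → b₁ (s⁻¹ • (y - c)) = 0 := by
    intro y hy
    apply b₁.zero_of_le_dist
    rw [dist_zero_right, norm_smul, norm_inv, Real.norm_of_nonneg hs.le]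
    change 1 ≤ s⁻¹ * ‖y - c‖
    rw [inv_mul_eq_div, le_div_iff₀ hs]
    linarith
  have hbj : ∀ j ≤ k, ∀ y, ‖iteratedFDeriv ℝ j (fun y => b₁ (s⁻¹ • (y - c))) y‖ ≤
      max 1 (∑ j ∈ Finset.range (k + 1), |C j|) / s ^ k := by
    intro j hj y
    have e1 : iteratedFDeriv ℝ j (fun y => b₁ (s⁻¹ • (y - c))) y =
        s⁻¹ ^ j • iteratedFDeriv ℝ j (b₁ : X → ℝ) (s⁻¹ • (y - c)) := by
      have h1 := iteratedFDeriv_comp_sub (𝕜 := ℝ) (f := fun z : X => b₁ (s⁻¹ • z)) j c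
      have h2 := iteratedFDeriv_comp_const_smul (𝕜 := ℝ) (i := j) s⁻¹ (hsm j)
      rw [h1 y]
      rw [congrFun h2 (y - c)]
    rw [e1, norm_smul, norm_pow, norm_inv, Real.norm_of_nonneg hs.le]
    have h3 : s⁻¹ ^ j ≤ s⁻¹ ^ k :=
      pow_le_pow_right₀ ((one_le_inv₀ hs).2 hs1) hj
    have h4 : ‖iteratedFDeriv ℝ j (b₁ : X → ℝ) (s⁻¹ • (y - c))‖ ≤
        max 1 (∑ j ∈ Finset.range (k + 1), |C j|) := by
      refine (hC j _).trans ((le_abs_self _).trans (le_trans ?_ (le_max_right _ _)))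
      exact Finset.single_le_sum (f := fun j => |C j|) (fun i _ => abs_nonneg _)
        (Finset.mem_range.2 (Nat.lt_succ_of_le hj))
    calc s⁻¹ ^ j * ‖iteratedFDeriv ℝ j (b₁ : X → ℝ) (s⁻¹ • (y - c))‖
        ≤ s⁻¹ ^ k * max 1 (∑ j ∈ Finset.range (k + 1), |C j|) := by gcongr
      _ = max 1 (∑ j ∈ Finset.range (k + 1), |C j|) / s ^ k := by
        rw [inv_pow, inv_mul_eq_div]
  refine ⟨fun y => b₁ (s⁻¹ • (y - c)) • a, hbs.smul contDiff_const, ?_, ?_, ?_⟩
  · intro y hy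
    simp only
    rw [hb1 y hy, one_smul]
  · intro y hy
    simp only
    rw [hb0 y hy, zero_smul]
  · intro j hj y
    have e1 : (fun y => b₁ (s⁻¹ • (y - c)) • a) = (ContinuousLinearMap.toSpanSingleton ℝ a) ∘
        (fun y => b₁ (s⁻¹ • (y - c))) := by
      funext z
      simp [ContinuousLinearMap.toSpanSingleton_apply]
    rw [e1]
    have h1 := (ContinuousLinearMap.toSpanSingleton ℝ a).norm_iteratedFDeriv_comp_left
      (f := fun y => b₁ (s⁻¹ • (y - c))) (x := y) (N := (∞ : WithTop ℕ∞)) (n := j)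
      hbs.contDiffAt (by exact_mod_cast le_top)
    refine h1.trans ?_
    rw [ContinuousLinearMap.norm_toSpanSingleton]
    calc ‖a‖ * ‖iteratedFDeriv ℝ j (fun y => b₁ (s⁻¹ • (y - c))) y‖ ≤
          ‖a‖ * (max 1 (∑ j ∈ Finset.range (k + 1), |C j|) / s ^ k) := by
          gcongr
          exact hbj j hj y
      _ = max 1 (∑ j ∈ Finset.range (k + 1), |C j|) * ‖a‖ / s ^ k := by ring

variable {E : Type} [NormedAddCommGroup E] [NormedSpace ℝ E] {H : Type} [TopologicalSpace H]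
  {I : ModelWithCorners ℝ E H} {W : Type} [TopologicalSpace W] [ChartedSpace H W]

theorem q_inverse_id_add [FiniteDimensional ℝ E] (n : WithTop ℕ∞) (hn : n ≠ 0) (α : E → E)
    (hα : ContDiff ℝ n α) (h : ∀ y, ‖fderiv ℝ α y‖ ≤ 1 / 4) :
    ∃ R : E → E, ContDiff ℝ n R ∧ (∀ y, R (y + α y) = y) ∧ ∀ y, R y + α (R y) = y := by
  have : CompleteSpace E := FiniteDimensional.complete ℝ E
  have hαd : Differentiable ℝ α := hα.differentiable hn
  have hlip : LipschitzWith (1 / 4 : NNReal) α := by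
    refine lipschitzWith_of_nnnorm_fderiv_le (𝕜 := ℝ) (fun y => hαd y) (fun y => ?_)
    rw [← NNReal.coe_le_coe]
    simpa using h y
  have happ : ApproximatesLinearOn (fun y : E => y + α y)
      ((ContinuousLinearEquiv.refl ℝ E : E ≃L[ℝ] E) : E →L[ℝ] E) Set.univ (1 / 4 : NNReal) := by
    intro x _ y _
    have h := hlip.dist_le_mul x y
    rw [dist_eq_norm, dist_eq_norm] at h
    have e : (x + α x) - (y + α y) -
        ((ContinuousLinearEquiv.refl ℝ E : E ≃L[ℝ] E) : E →L[ℝ] E) (x - y) =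
        α x - α y := by
      simp only [ContinuousLinearEquiv.coe_refl, ContinuousLinearMap.coe_id', id_eq]
      abel
    rw [e]
    exact h
  have hsub : Subsingleton E ∨
      (1 / 4 : NNReal) < ‖((ContinuousLinearEquiv.refl ℝ E : E ≃L[ℝ] E).symm : E →L[ℝ] E)‖₊⁻¹ := by
    rcases subsingleton_or_nontrivial E with h | h
    · exact Or.inl h
    · refine Or.inr ?_
      have h1 : ‖((ContinuousLinearEquiv.refl ℝ E : E ≃L[ℝ] E).symm : E →L[ℝ] E)‖₊ = 1 := by
        have h2 : ((ContinuousLinearEquiv.refl ℝ E : E ≃L[ℝ] E).symm : E →L[ℝ] E) =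
          ContinuousLinearMap.id ℝ E := rfl
        rw [h2, ← NNReal.coe_inj]
        exact ContinuousLinearMap.norm_id
      rw [h1, inv_one, ← NNReal.coe_lt_coe]
      norm_num
  choose A hA using fun y => Trans1_equiv (fderiv ℝ α y) (h y)
  have hder : ∀ y, HasFDerivAt (fun y : E => y + α y) (A y : E →L[ℝ] E) y := by
    intro y
    rw [hA]
    exact (hasFDerivAt_id y).add (hαd y).hasFDerivAt
  have hsm : ContDiff ℝ n (fun y : E => y + α y) := contDiff_id.add hα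
  let Φ : E ≃ₜ E := happ.toHomeomorph _ hsub
  refine ⟨Φ.symm, Homeomorph.contDiff_symm Φ (f₀' := A) hder hsm, fun y => ?_, fun y => ?_⟩
  · exact Φ.symm_apply_apply y
  · exact Φ.apply_symm_apply y

theorem q_diffeo_shf [FiniteDimensional ℝ E] [T2Space W] [IsManifold I ∞ W]
    [I.Boundaryless] (n : WithTop ℕ∞) (hn : n ≠ 0) (hn' : n ≤ ∞) (p : W) (δ : ℝ)
    (hball : Metric.closedBall (extChartAt I p p) δ ⊆ (extChartAt I p).target)
    (α : E → E) (hα : ContDiff ℝ n α) (h : ∀ y, ‖fderiv ℝ α y‖ ≤ 1 / 4)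
    (hα1 : ∀ y, δ ≤ ‖y‖ → α y = 0) :
    ∃ D : W ≃ₘ^n⟮I, I⟯ W, ∀ q, D q = shf I p α q := by
  obtain ⟨R, hR, hRS, hSR⟩ := q_inverse_id_add n hn α hα h
  have hS1 : ∀ y, δ ≤ ‖y‖ → y + α y = y := by
    intro y hy
    rw [hα1 y hy, add_zero]
  have hR1 : ∀ y, δ ≤ ‖y‖ → R y = y := by
    intro y hy
    have h1 := hRS y
    rwa [hS1 y hy] at h1
  have hS2 : ∀ y, ‖y‖ < δ → ‖y + α y‖ < δ := by
    intro y hy
    by_contra hc
    push Not at hc
    have h1 : y + α y + α (y + α y) = y + α y := hS1 (y + α y) hc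
    have h2 := hRS (y + α y)
    rw [h1, hRS y] at h2
    rw [← h2] at hc
    exact absurd hy (not_lt.2 hc)
  have hR2 : ∀ y, ‖y‖ < δ → ‖R y‖ < δ := by
    intro y hy
    by_contra hc
    push Not at hc
    have h1 : R y + α (R y) = R y := hS1 (R y) hc
    rw [hSR y] at h1
    rw [← h1] at hc
    exact absurd hy (not_lt.2 hc)
  obtain ⟨D, hD, _⟩ := exists_diffeo_tr (I := I) (n := n) hn' p δ hball
    (fun y => y + α y) R (contDiff_id.add hα) hR hRS hSR hS1 hS2 hR1 hR2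
  exact ⟨D, hD⟩

/-- A diffeomorphism of class `r`, seen as one of class `k ≤ r`. -/
def qDown {r : ℕ∞} {k : ℕ} (hk : (k : ℕ∞) ≤ r) (F : W ≃ₘ^r⟮I, I⟯ W) :
    W ≃ₘ^((k : ℕ∞) : WithTop ℕ∞)⟮I, I⟯ W where
  toEquiv := F.toEquiv
  contMDiff_toFun := F.contMDiff_toFun.of_le (by exact_mod_cast hk)
  contMDiff_invFun := F.contMDiff_invFun.of_le (by exact_mod_cast hk)

/-- **Small shifts in a chart are small perturbations.** -/
theorem q_near [FiniteDimensional ℝ E] [T2Space W] [IsManifold I ∞ W] [I.Boundaryless] {r : ℕ∞}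
    (hr : 1 ≤ r) (F : W ≃ₘ^r⟮I, I⟯ W) (p : W) (R : ℝ) (hR : 0 < R)
    (hball : Metric.closedBall (extChartAt I p p) (2 * R) ⊆ (extChartAt I p).target)
    (U : Set (W ≃ₘ^r⟮I, I⟯ W)) (hU : U ∈ @nhds _ (crTopology I r) F) :
    ∃ (k : ℕ) (ε : ℝ), (k : ℕ∞) ≤ r ∧ 1 ≤ k ∧ 0 < ε ∧ ∀ α : E → E, ContDiff ℝ ∞ α →
      (∀ j ≤ k, ∀ y, ‖iteratedFDeriv ℝ j α y‖ ≤ ε) → (∀ y, R / 2 ≤ ‖y‖ → α y = 0) →
      ∀ G : W ≃ₘ^r⟮I, I⟯ W, (∀ q, G q = F (shf I p α q)) → G ∈ U := by
  let 𝓖 : Filter (W ≃ₘ^r⟮I, I⟯ W) :=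
    { sets := {U | ∃ (k : ℕ) (ε : ℝ), (k : ℕ∞) ≤ r ∧ 1 ≤ k ∧ 0 < ε ∧ ∀ α : E → E,
        ContDiff ℝ ∞ α → (∀ j ≤ k, ∀ y, ‖iteratedFDeriv ℝ j α y‖ ≤ ε) →
        (∀ y, R / 2 ≤ ‖y‖ → α y = 0) →
        ∀ G : W ≃ₘ^r⟮I, I⟯ W, (∀ q, G q = F (shf I p α q)) → G ∈ U}
      univ_sets := ⟨1, 1, by exact_mod_cast hr, le_rfl, one_pos, fun _ _ _ _ _ _ => trivial⟩
      sets_of_superset := by
        rintro U V ⟨k, ε, h1, h2, h3, h4⟩ hUV
        exact ⟨k, ε, h1, h2, h3, fun α a b c G hG => hUV (h4 α a b c G hG)⟩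
      inter_sets := by
        rintro U V ⟨k, ε, h1, h2, h3, h4⟩ ⟨k', ε', h1', h2', h3', h4'⟩
        refine ⟨max k k', min ε ε', ?_, h2.trans (le_max_left _ _), lt_min h3 h3', ?_⟩
        · rcases max_choice k k' with h | h <;> rw [h] <;> assumption
        · intro α a b c G hG
          exact ⟨h4 α a (fun j hj y => (b j (hj.trans (le_max_left _ _)) y).trans
              (min_le_left _ _)) c G hG,
            h4' α a (fun j hj y => (b j (hj.trans (le_max_right _ _)) y).trans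
              (min_le_right _ _)) c G hG⟩ }
  have hle : 𝓖 ≤ @nhds _ (crTopology I r) F := by
    show 𝓖 ≤ @nhds _ (TopologicalSpace.generateFrom _) F
    rw [TopologicalSpace.nhds_generateFrom]
    refine le_iInf₂ fun N hN => Filter.le_principal_iff.2 ?_
    obtain ⟨hFN, f, φ, ψ, K, ε, k, hkr, hφ, hψ, hK, hKφ, hfK, hε, rfl⟩ := hN
    have hm : ((max k 1 : ℕ) : ℕ∞) ≤ r := by
      rcases max_choice k 1 with h | h <;> rw [h]
      · exact hkr
      · exact_mod_cast hr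
    have hle : (((max k 1 : ℕ) : ℕ∞) : WithTop ℕ∞) ≤ (∞ : WithTop ℕ∞) := by
      exact_mod_cast le_top
    obtain ⟨cut, hcut, hcut1, hcut0⟩ := F7_cut E R hR
    let P : Type := CkB (max k 1) E E
    let S : P × E → E := fun z => z.2 + cut z.2 • fn z.1 z.2
    have hS : ContDiff ℝ (((max k 1 : ℕ) : ℕ∞) : WithTop ℕ∞) S :=
      contDiff_snd.add (((hcut.of_le hle).comp contDiff_snd).smul
        (F7_ev (r := max k 1) (X := E) (Y := E)))
    have hS1 : ∀ (t' : P) y, 2 * R ≤ ‖y‖ → S (t', y) = y := by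
      intro t' y hy
      show y + cut y • fn t' y = y
      rw [hcut0 y (by linarith), zero_smul, add_zero]
    have hS0 : ∀ y, S ((0 : P), y) = y := by
      intro y
      show y + cut y • fn (0 : CkB (max k 1) E E) y = y
      rw [F7_fn_zero, smul_zero, add_zero]
    let Φ : P × W → W := fun x => F (trans2_tr I p (fun y => S (x.1, y)) x.2)
    have hΦ : ∀ q, ContMDiffAt (𝓘(ℝ, P).prod I) I (((max k 1 : ℕ) : ℕ∞) : WithTop ℕ∞) Φ
        ((0 : P), q) := by
      intro q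
      have h1 := tr_smoothAt (I := I) (n := (((max k 1 : ℕ) : ℕ∞) : WithTop ℕ∞)) hle p (2 * R)
        hball S (0 : P) (fun y => hS.contDiffAt) hS1 (fun y hy => by rw [hS0]; exact hy) q
      exact ContMDiffAt.comp (((0 : P), q) : P × W) (g := F)
        (f := fun x : P × W => trans2_tr I p (fun y => S (x.1, y)) x.2)
        ((F.contMDiff.of_le (by exact_mod_cast hm)).contMDiffAt) h1
    have hF0 : ∀ q, (qDown hm F) q = Φ ((0 : P), q) := by
      intro q
      show F q = F (trans2_tr I p (fun y => S ((0 : P), y)) q)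
      rw [F7_tr_id p _ hS0 q]
    have hev := crNear_eventually Φ (0 : P) hΦ (qDown hm F) (qDown hm f) hF0 φ ψ hφ hψ K hK hKφ
      hfK k (by exact_mod_cast le_max_left k 1) ε hFN
    rw [Metric.eventually_nhds_iff] at hev
    obtain ⟨ε₀, hε₀, hev⟩ := hev
    refine ⟨max k 1, ε₀ / 2, hm, le_max_right _ _, by linarith, ?_⟩
    intro α hα hαε hα0 G hG
    obtain ⟨a, ha, haε⟩ := exists_CkB (r := max k 1) α (hα.of_le (by exact_mod_cast le_top))
      (ε₀ / 2) (by linarith) hαε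
    have hSα : ∀ y, S ((a : P), y) = y + α y := by
      intro y
      show y + cut y • fn a y = y + α y
      rw [ha]
      by_cases h : ‖y‖ ≤ R / 2
      · rw [hcut1 y h, one_smul]
      · push Not at h
        rw [hα0 y h.le, smul_zero]
    have h1 := hev (y := (a : P)) (by rw [dist_zero_right]; linarith)
    have h2 : (⇑G : W → W) = fun q => Φ ((a : P), q) := by
      funext q
      rw [hG q]
      show F (trans2_tr I p (fun y => y + α y) q) = F (trans2_tr I p (fun y => S ((a : P), y)) q)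
      simp only [hSα]
    show CrNear I k f φ ψ K ε G
    rw [h2]
    exact h1
  exact hle hU

/-- **The quantitative bump lemma.** For each neighbourhood `U` of `F` and each chart (centre `p`)
there are `k ≤ r`, `c`, `s₀` such that a point `P'` can be moved to `P`, at distance at most `c s^k`, by
a diffeomorphism `B` supported in the ball of radius `s` around `P`, with `F ∘ B` in `U`. -/
theorem quant_bump [FiniteDimensional ℝ E] [T2Space W] [IsManifold I ∞ W] [I.Boundaryless] {r : ℕ∞}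
    (hr : 1 ≤ r) (F : W ≃ₘ^r⟮I, I⟯ W) (p : W) (U : Set (W ≃ₘ^r⟮I, I⟯ W))
    (hU : U ∈ @nhds _ (crTopology I r) F) :
    ∃ (k : ℕ) (c s₀ : ℝ), (k : ℕ∞) ≤ r ∧ 1 ≤ k ∧ 0 < c ∧ 0 < s₀ ∧ ∀ (P P' : W) (s : ℝ),
      P ∈ (extChartAt I p).source → P' ∈ (extChartAt I p).source →
      ‖extChartAt I p P - extChartAt I p p‖ ≤ s₀ → ‖extChartAt I p P' - extChartAt I p p‖ ≤ s₀ →
      0 < s → s ≤ s₀ → ‖extChartAt I p P - extChartAt I p P'‖ ≤ c * s ^ k →
      ∃ G ∈ U, ∃ B : W ≃ W, (∀ q, G q = F (B q)) ∧ B P' = P ∧ ∀ q, B q ≠ q →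
        q ∈ (extChartAt I p).source ∧ ‖extChartAt I p q - extChartAt I p P‖ < s := by
  obtain ⟨R2, hR2, hball2⟩ :=
    Metric.nhds_basis_closedBall.mem_iff.1 (extChartAt_target_mem_nhds (I := I) p)
  obtain ⟨R, hRdef⟩ : ∃ R : ℝ, R = R2 / 2 := ⟨_, rfl⟩
  have hR : 0 < R := by rw [hRdef]; linarith
  have hball : Metric.closedBall (extChartAt I p p) (2 * R) ⊆ (extChartAt I p).target := by
    rw [hRdef, mul_div_cancel₀ _ (two_ne_zero)]
    exact hball2
  obtain ⟨k, ε, hkr, hk, hε, hnear⟩ := q_near hr F p R hR hball U hU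
  obtain ⟨C, hC, hbump⟩ := q_bump E E k
  have hC0 : 0 < C := by linarith
  obtain ⟨c, hcdef⟩ : ∃ c : ℝ, c = min ε (1 / 4) / C := ⟨_, rfl⟩
  have hc : 0 < c := by rw [hcdef]; exact div_pos (lt_min hε (by norm_num)) hC0
  have hCc : C * c = min ε (1 / 4) := by rw [hcdef]; field_simp
  have hc4 : c ≤ 1 / 4 := by
    calc c ≤ C * c := le_mul_of_one_le_left hc.le hC
      _ = min ε (1 / 4) := hCc
      _ ≤ 1 / 4 := min_le_right _ _
  refine ⟨k, c, min 1 (R / 4), hkr, hk, hc, lt_min one_pos (by linarith), ?_⟩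
  intro P P' s hP hP' hPs hP's hs hs0 hd
  have hs1 : s ≤ 1 := hs0.trans (min_le_left _ _)
  have hsR : s ≤ R / 4 := hs0.trans (min_le_right _ _)
  have hPR : ‖extChartAt I p P - extChartAt I p p‖ ≤ R / 4 := hPs.trans (min_le_right _ _)
  have hsk : s ^ k ≤ s := by
    calc s ^ k ≤ s ^ 1 := pow_le_pow_of_le_one hs.le hs1 hk
      _ = s := pow_one s
  have hd2 : ‖extChartAt I p P - extChartAt I p P'‖ ≤ s / 2 := by
    calc ‖extChartAt I p P - extChartAt I p P'‖ ≤ c * s ^ k := hd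
      _ ≤ (1 / 4) * s := mul_le_mul hc4 hsk (by positivity) (by norm_num)
      _ ≤ s / 2 := by linarith
  obtain ⟨α, hα, hα1, hα0, hαj⟩ := hbump (extChartAt I p P - extChartAt I p p) s
    (extChartAt I p P - extChartAt I p P') hs hs1
  have hαb : ∀ j ≤ k, ∀ y, ‖iteratedFDeriv ℝ j α y‖ ≤ min ε (1 / 4) := by
    intro j hj y
    calc ‖iteratedFDeriv ℝ j α y‖ ≤ C * ‖extChartAt I p P - extChartAt I p P'‖ / s ^ k := hαj j hj y
      _ ≤ C * (c * s ^ k) / s ^ k := by gcongr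
      _ = C * c := by
        have : s ^ k ≠ 0 := (pow_pos hs k).ne'
        field_simp
      _ = min ε (1 / 4) := hCc
  have hα0' : ∀ y, R / 2 ≤ ‖y‖ → α y = 0 := by
    intro y hy
    refine hα0 y ?_
    have h1 : ‖y‖ ≤ ‖y - (extChartAt I p P - extChartAt I p p)‖ +
        ‖extChartAt I p P - extChartAt I p p‖ := by
      calc ‖y‖ = ‖(y - (extChartAt I p P - extChartAt I p p)) +
            (extChartAt I p P - extChartAt I p p)‖ := by rw [sub_add_cancel]
        _ ≤ _ := norm_add_le _ _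
    linarith
  have hfd : ∀ y, ‖fderiv ℝ α y‖ ≤ 1 / 4 := by
    intro y
    rw [← norm_iteratedFDeriv_one]
    exact (hαb 1 hk y).trans (min_le_right _ _)
  have hr0 : ((r : ℕ∞) : WithTop ℕ∞) ≠ 0 := by
    have h0 : r ≠ 0 := by
      rintro rfl
      exact absurd hr (by norm_num)
    exact_mod_cast h0
  have hr1 : ((r : ℕ∞) : WithTop ℕ∞) ≤ ∞ := by exact_mod_cast le_top
  obtain ⟨D, hD⟩ := q_diffeo_shf (I := I) (W := W) ((r : ℕ∞) : WithTop ℕ∞) hr0 hr1 p (2 * R) hball α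
    (hα.of_le hr1) hfd (fun y hy => hα0' y (by linarith))
  refine ⟨D.trans F, hnear α hα (fun j hj y => (hαb j hj y).trans (min_le_left _ _)) hα0' (D.trans F)
    (fun q => ?_), D.toEquiv, fun q => rfl, ?_, ?_⟩
  · show F (D q) = _
    rw [hD q]
  · show D P' = P
    rw [hD P']
    show trans2_tr I p (fun y => y + α y) P' = P
    rw [trans2_tr_of_mem p _ P' hP']
    have h1 : α (extChartAt I p P' - extChartAt I p p) = extChartAt I p P - extChartAt I p P' := by
      refine hα1 _ ?_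
      rw [sub_sub_sub_cancel_right, norm_sub_rev]
      exact hd2
    have h2 : extChartAt I p p + (extChartAt I p P' - extChartAt I p p +
        α (extChartAt I p P' - extChartAt I p p)) = extChartAt I p P := by
      rw [h1]
      abel
    simp only [h2]
    exact (extChartAt I p).left_inv hP
  · intro q hq
    have hq' : D q ≠ q := hq
    rw [hD q] at hq'
    by_cases h : q ∈ (extChartAt I p).source
    · refine ⟨h, ?_⟩
      by_contra h2
      push Not at h2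
      apply hq'
      show trans2_tr I p (fun y => y + α y) q = q
      rw [trans2_tr_of_mem p _ q h]
      have h1 : α (extChartAt I p q - extChartAt I p p) = 0 := by
        refine hα0 _ ?_
        rw [sub_sub_sub_cancel_right]
        exact h2
      have h3 : extChartAt I p p + (extChartAt I p q - extChartAt I p p +
          α (extChartAt I p q - extChartAt I p p)) = extChartAt I p q := by
        rw [h1]
        abel
      simp only [h3]
      exact (extChartAt I p).left_inv h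
    · exact absurd (trans2_tr_of_not_mem p _ q h) hq'

end Pool.Agent.SC
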