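import Pool.Agent.Lib.MP_1e8d1a_an.NH.QBump

/-!
The quantitative bump lemma with two bumps.
-/

open scoped ContDiff Manifold Topology BoundedContinuousFunction

namespace Pool.Agent.SC

open Pool.Agent.EQ

variable {E : Type} [NormedAddCommGroup E] [NormedSpace ℝ E] {H : Type} [TopologicalSpace H]
  {I : ModelWithCorners ℝ E H} {W : Type} [TopologicalSpace W] [ChartedSpace H W]

/-- **Two small shifts in charts are a small perturbation.** -/
theorem q_near2 [FiniteDimensional ℝ E] [T2Space W] [IsManifold I ∞ W] [I.Boundaryless] {r : ℕ∞}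
    (hr : 1 ≤ r) (F : W ≃ₘ^r⟮I, I⟯ W) (p p' : W) (R : ℝ) (hR : 0 < R)
    (hball : Metric.closedBall (extChartAt I p p) (2 * R) ⊆ (extChartAt I p).target)
    (hball' : Metric.closedBall (extChartAt I p' p') (2 * R) ⊆ (extChartAt I p').target)
    (U : Set (W ≃ₘ^r⟮I, I⟯ W)) (hU : U ∈ @nhds _ (crTopology I r) F) :
    ∃ (k : ℕ) (ε : ℝ), (k : ℕ∞) ≤ r ∧ 1 ≤ k ∧ 0 < ε ∧ ∀ α β : E → E, ContDiff ℝ ∞ α →
      ContDiff ℝ ∞ β → (∀ j ≤ k, ∀ y, ‖iteratedFDeriv ℝ j α y‖ ≤ ε) →
      (∀ j ≤ k, ∀ y, ‖iteratedFDeriv ℝ j β y‖ ≤ ε) → (∀ y, R / 2 ≤ ‖y‖ → α y = 0) →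
      (∀ y, R / 2 ≤ ‖y‖ → β y = 0) →
      ∀ G : W ≃ₘ^r⟮I, I⟯ W, (∀ q, G q = F (shf I p α (shf I p' β q))) → G ∈ U := by
  let 𝓖 : Filter (W ≃ₘ^r⟮I, I⟯ W) :=
    { sets := {U | ∃ (k : ℕ) (ε : ℝ), (k : ℕ∞) ≤ r ∧ 1 ≤ k ∧ 0 < ε ∧ ∀ α β : E → E,
        ContDiff ℝ ∞ α → ContDiff ℝ ∞ β → (∀ j ≤ k, ∀ y, ‖iteratedFDeriv ℝ j α y‖ ≤ ε) →
        (∀ j ≤ k, ∀ y, ‖iteratedFDeriv ℝ j β y‖ ≤ ε) →
        (∀ y, R / 2 ≤ ‖y‖ → α y = 0) → (∀ y, R / 2 ≤ ‖y‖ → β y = 0) →
        ∀ G : W ≃ₘ^r⟮I, I⟯ W, (∀ q, G q = F (shf I p α (shf I p' β q))) → G ∈ U}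
      univ_sets := ⟨1, 1, by exact_mod_cast hr, le_rfl, one_pos, fun _ _ _ _ _ _ _ _ _ _ => trivial⟩
      sets_of_superset := by
        rintro U V ⟨k, ε, h1, h2, h3, h4⟩ hUV
        exact ⟨k, ε, h1, h2, h3, fun α β a a' b b' c c' G hG => hUV (h4 α β a a' b b' c c' G hG)⟩
      inter_sets := by
        rintro U V ⟨k, ε, h1, h2, h3, h4⟩ ⟨k', ε', h1', h2', h3', h4'⟩
        refine ⟨max k k', min ε ε', ?_, h2.trans (le_max_left _ _), lt_min h3 h3', ?_⟩
        · rcases max_choice k k' with h | h <;> rw [h] <;> assumption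
        · intro α β a a' b b' c c' G hG
          exact ⟨h4 α β a a' (fun j hj y => (b j (hj.trans (le_max_left _ _)) y).trans
              (min_le_left _ _)) (fun j hj y => (b' j (hj.trans (le_max_left _ _)) y).trans
              (min_le_left _ _)) c c' G hG,
            h4' α β a a' (fun j hj y => (b j (hj.trans (le_max_right _ _)) y).trans
              (min_le_right _ _)) (fun j hj y => (b' j (hj.trans (le_max_right _ _)) y).trans
              (min_le_right _ _)) c c' G hG⟩ }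
  have hle : 𝓖 ≤ @nhds _ (crTopology I r) F := by
    show 𝓖 ≤ @nhds _ (TopologicalSpace.generateFrom _) F
    rw [TopologicalSpace.nhds_generateFrom]
    refine le_iInf₂ fun N hN => Filter.le_principal_iff.2 ?_
    obtain ⟨hFN, f, φ, ψ, K, ε, k, hkr, hφ, hψ, hK, hKφ, hfK, hε, rfl⟩ := hN
    have hm : ((max k 1 : ℕ) : ℕ∞) ≤ r := by
      rcases max_choice k 1 with h | h <;> rw [h]
      · exact hkr
      · exact_mod_cast hr
    have hle : (((max k 1 : ℕ) : ℕ∞) : WithTop ℕ∞) ≤ (∞ : WithTop ℕ∞) := by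
      exact_mod_cast le_top
    obtain ⟨cut, hcut, hcut1, hcut0⟩ := F7_cut E R hR
    let P : Type := CkB (max k 1) E E
    let S : P × E → E := fun z => z.2 + cut z.2 • fn z.1 z.2
    have hS : ContDiff ℝ (((max k 1 : ℕ) : ℕ∞) : WithTop ℕ∞) S :=
      contDiff_snd.add (((hcut.of_le hle).comp contDiff_snd).smul
        (F7_ev (r := max k 1) (X := E) (Y := E)))
    have hS1 : ∀ (t' : P) y, 2 * R ≤ ‖y‖ → S (t', y) = y := by
      intro t' y hy
      show y + cut y • fn t' y = y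
      rw [hcut0 y (by linarith), zero_smul, add_zero]
    have hS0 : ∀ y, S ((0 : P), y) = y := by
      intro y
      show y + cut y • fn (0 : CkB (max k 1) E E) y = y
      rw [F7_fn_zero, smul_zero, add_zero]
    let S₁ : (P × P) × E → E := fun z => S (z.1.1, z.2)
    let S₂ : (P × P) × E → E := fun z => S (z.1.2, z.2)
    have hS₁ : ContDiff ℝ (((max k 1 : ℕ) : ℕ∞) : WithTop ℕ∞) S₁ :=
      hS.comp ((contDiff_fst.comp contDiff_fst).prodMk contDiff_snd)
    have hS₂ : ContDiff ℝ (((max k 1 : ℕ) : ℕ∞) : WithTop ℕ∞) S₂ :=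
      hS.comp ((contDiff_snd.comp contDiff_fst).prodMk contDiff_snd)
    let Φ : (P × P) × W → W := fun x => F (trans2_tr I p (fun y => S₁ (x.1, y))
      (trans2_tr I p' (fun y => S₂ (x.1, y)) x.2))
    have hΦ : ∀ q, ContMDiffAt (𝓘(ℝ, P × P).prod I) I (((max k 1 : ℕ) : ℕ∞) : WithTop ℕ∞) Φ
        ((0 : P × P), q) := by
      intro q
      have h2 := tr_smoothAt (I := I) (n := (((max k 1 : ℕ) : ℕ∞) : WithTop ℕ∞)) hle p' (2 * R)
        hball' S₂ (0 : P × P) (fun y => hS₂.contDiffAt) (fun t y hy => hS1 t.2 y hy)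
        (fun y hy => by
          show ‖S ((0 : P), y)‖ < 2 * R
          rw [hS0]
          exact hy) q
      have e2 : trans2_tr I p' (fun y => S₂ ((0 : P × P), y)) q = q := F7_tr_id p' _ hS0 q
      have h1 := tr_smoothAt (I := I) (n := (((max k 1 : ℕ) : ℕ∞) : WithTop ℕ∞)) hle p (2 * R)
        hball S₁ (0 : P × P) (fun y => hS₁.contDiffAt) (fun t y hy => hS1 t.1 y hy)
        (fun y hy => by
          show ‖S ((0 : P), y)‖ < 2 * R
          rw [hS0]
          exact hy) q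
      have h3 : ContMDiffAt (𝓘(ℝ, P × P).prod I) (𝓘(ℝ, P × P).prod I)
          (((max k 1 : ℕ) : ℕ∞) : WithTop ℕ∞) (fun x : (P × P) × W =>
            (x.1, trans2_tr I p' (fun y => S₂ (x.1, y)) x.2)) ((0 : P × P), q) :=
        contMDiffAt_fst.prodMk h2
      have h4 : ContMDiffAt (𝓘(ℝ, P × P).prod I) I (((max k 1 : ℕ) : ℕ∞) : WithTop ℕ∞)
          (fun x : (P × P) × W => trans2_tr I p (fun y => S₁ (x.1, y))
            (trans2_tr I p' (fun y => S₂ (x.1, y)) x.2)) ((0 : P × P), q) := by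
        refine ContMDiffAt.comp (((0 : P × P), q) : (P × P) × W)
          (g := fun x : (P × P) × W => trans2_tr I p (fun y => S₁ (x.1, y)) x.2)
          (f := fun x : (P × P) × W => (x.1, trans2_tr I p' (fun y => S₂ (x.1, y)) x.2)) ?_ h3
        show ContMDiffAt _ _ _ _ ((0 : P × P), trans2_tr I p' (fun y => S₂ ((0 : P × P), y)) q)
        rw [e2]
        exact h1
      exact ContMDiffAt.comp (((0 : P × P), q) : (P × P) × W) (g := F)
        (f := fun x : (P × P) × W => trans2_tr I p (fun y => S₁ (x.1, y))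
          (trans2_tr I p' (fun y => S₂ (x.1, y)) x.2))
        ((F.contMDiff.of_le (by exact_mod_cast hm)).contMDiffAt) h4
    have hF0 : ∀ q, (qDown hm F) q = Φ ((0 : P × P), q) := by
      intro q
      show F q = F (trans2_tr I p (fun y => S₁ ((0 : P × P), y))
        (trans2_tr I p' (fun y => S₂ ((0 : P × P), y)) q))
      rw [show trans2_tr I p' (fun y => S₂ ((0 : P × P), y)) q = q from F7_tr_id p' _ hS0 q,
        show trans2_tr I p (fun y => S₁ ((0 : P × P), y)) q = q from F7_tr_id p _ hS0 q]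
    have hev := crNear_eventually Φ (0 : P × P) hΦ (qDown hm F) (qDown hm f) hF0 φ ψ hφ hψ K hK
      hKφ hfK k (by exact_mod_cast le_max_left k 1) ε hFN
    rw [Metric.eventually_nhds_iff] at hev
    obtain ⟨ε₀, hε₀, hev⟩ := hev
    refine ⟨max k 1, ε₀ / 2, hm, le_max_right _ _, by linarith, ?_⟩
    intro α β hα hβ hαε hβε hα0 hβ0 G hG
    obtain ⟨a, ha, haε⟩ := exists_CkB (r := max k 1) α (hα.of_le (by exact_mod_cast le_top))
      (ε₀ / 2) (by linarith) hαε
    obtain ⟨b, hb, hbε⟩ := exists_CkB (r := max k 1) β (hβ.of_le (by exact_mod_cast le_top))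
      (ε₀ / 2) (by linarith) hβε
    have hSα : ∀ y, S ((a : P), y) = y + α y := by
      intro y
      show y + cut y • fn a y = y + α y
      rw [ha]
      by_cases h : ‖y‖ ≤ R / 2
      · rw [hcut1 y h, one_smul]
      · push Not at h
        rw [hα0 y h.le, smul_zero]
    have hSβ : ∀ y, S ((b : P), y) = y + β y := by
      intro y
      show y + cut y • fn b y = y + β y
      rw [hb]
      by_cases h : ‖y‖ ≤ R / 2
      · rw [hcut1 y h, one_smul]
      · push Not at h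
        rw [hβ0 y h.le, smul_zero]
    have h1 := hev (y := ((a, b) : P × P)) (by
      rw [dist_zero_right, Prod.norm_def]
      exact max_lt (by linarith) (by linarith))
    have h2 : (⇑G : W → W) = fun q => Φ (((a, b) : P × P), q) := by
      funext q
      rw [hG q]
      show F (trans2_tr I p (fun y => y + α y) (trans2_tr I p' (fun y => y + β y) q)) =
        F (trans2_tr I p (fun y => S ((a : P), y)) (trans2_tr I p' (fun y => S ((b : P), y)) q))
      simp only [hSα, hSβ]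
    show CrNear I k f φ ψ K ε G
    rw [h2]
    exact h1
  exact hle hU

/-- one shift in a chart, with its properties -/
theorem quant_shift [FiniteDimensional ℝ E] [T2Space W] [IsManifold I ∞ W] [I.Boundaryless]
    {r : ℕ∞} (hr : 1 ≤ r) (p : W) (R : ℝ)
    (hball : Metric.closedBall (extChartAt I p p) (2 * R) ⊆ (extChartAt I p).target) (k : ℕ)
    (hk : 1 ≤ k) (ε : ℝ) (hε : 0 < ε) :
    ∃ c : ℝ, 0 < c ∧ ∀ (P P' : W) (s : ℝ),
      P ∈ (extChartAt I p).source → P' ∈ (extChartAt I p).source →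
      ‖extChartAt I p P - extChartAt I p p‖ ≤ min 1 (R / 4) →
      ‖extChartAt I p P' - extChartAt I p p‖ ≤ min 1 (R / 4) →
      0 < s → s ≤ min 1 (R / 4) → ‖extChartAt I p P - extChartAt I p P'‖ ≤ c * s ^ k →
      ∃ α : E → E, ContDiff ℝ ∞ α ∧ (∀ j ≤ k, ∀ y, ‖iteratedFDeriv ℝ j α y‖ ≤ ε) ∧
        (∀ y, R / 2 ≤ ‖y‖ → α y = 0) ∧
        ∃ D : W ≃ₘ^r⟮I, I⟯ W, (∀ q, D q = shf I p α q) ∧ D P' = P ∧ ∀ q, D q ≠ q →
          q ∈ (extChartAt I p).source ∧ ‖extChartAt I p q - extChartAt I p P‖ < s := by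
  obtain ⟨C, hC, hbump⟩ := q_bump E E k
  have hC0 : 0 < C := by linarith
  obtain ⟨c, hcdef⟩ : ∃ c : ℝ, c = min ε (1 / 4) / C := ⟨_, rfl⟩
  have hc : 0 < c := by rw [hcdef]; exact div_pos (lt_min hε (by norm_num)) hC0
  have hCc : C * c = min ε (1 / 4) := by rw [hcdef]; field_simp
  have hc4 : c ≤ 1 / 4 := by
    calc c ≤ C * c := le_mul_of_one_le_left hc.le hC
      _ = min ε (1 / 4) := hCc
      _ ≤ 1 / 4 := min_le_right _ _
  refine ⟨c, hc, ?_⟩
  intro P P' s hP hP' hPs hP's hs hs0 hd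
  have hs1 : s ≤ 1 := hs0.trans (min_le_left _ _)
  have hsR : s ≤ R / 4 := hs0.trans (min_le_right _ _)
  have hPR : ‖extChartAt I p P - extChartAt I p p‖ ≤ R / 4 := hPs.trans (min_le_right _ _)
  have hsk : s ^ k ≤ s := by
    calc s ^ k ≤ s ^ 1 := pow_le_pow_of_le_one hs.le hs1 hk
      _ = s := pow_one s
  have hd2 : ‖extChartAt I p P - extChartAt I p P'‖ ≤ s / 2 := by
    calc ‖extChartAt I p P - extChartAt I p P'‖ ≤ c * s ^ k := hd
      _ ≤ (1 / 4) * s := mul_le_mul hc4 hsk (by positivity) (by norm_num)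
      _ ≤ s / 2 := by linarith
  obtain ⟨α, hα, hα1, hα0, hαj⟩ := hbump (extChartAt I p P - extChartAt I p p) s
    (extChartAt I p P - extChartAt I p P') hs hs1
  have hαb : ∀ j ≤ k, ∀ y, ‖iteratedFDeriv ℝ j α y‖ ≤ min ε (1 / 4) := by
    intro j hj y
    calc ‖iteratedFDeriv ℝ j α y‖ ≤ C * ‖extChartAt I p P - extChartAt I p P'‖ / s ^ k := hαj j hj y
      _ ≤ C * (c * s ^ k) / s ^ k := by gcongr
      _ = C * c := by
        have : s ^ k ≠ 0 := (pow_pos hs k).ne'
        field_simp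
      _ = min ε (1 / 4) := hCc
  have hα0' : ∀ y, R / 2 ≤ ‖y‖ → α y = 0 := by
    intro y hy
    refine hα0 y ?_
    have h1 : ‖y‖ ≤ ‖y - (extChartAt I p P - extChartAt I p p)‖ +
        ‖extChartAt I p P - extChartAt I p p‖ := by
      calc ‖y‖ = ‖(y - (extChartAt I p P - extChartAt I p p)) +
            (extChartAt I p P - extChartAt I p p)‖ := by rw [sub_add_cancel]
        _ ≤ _ := norm_add_le _ _
    linarith
  have hfd : ∀ y, ‖fderiv ℝ α y‖ ≤ 1 / 4 := by
    intro y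
    rw [← norm_iteratedFDeriv_one]
    exact (hαb 1 hk y).trans (min_le_right _ _)
  have hr0 : ((r : ℕ∞) : WithTop ℕ∞) ≠ 0 := by
    have h0 : r ≠ 0 := by
      rintro rfl
      exact absurd hr (by norm_num)
    exact_mod_cast h0
  have hr1 : ((r : ℕ∞) : WithTop ℕ∞) ≤ ∞ := by exact_mod_cast le_top
  obtain ⟨D, hD⟩ := q_diffeo_shf (I := I) (W := W) ((r : ℕ∞) : WithTop ℕ∞) hr0 hr1 p (2 * R) hball α
    (hα.of_le hr1) hfd (fun y hy => hα0' y (by linarith))
  refine ⟨α, hα, fun j hj y => (hαb j hj y).trans (min_le_left _ _), hα0', D, hD, ?_, ?_⟩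
  · rw [hD P']
    show trans2_tr I p (fun y => y + α y) P' = P
    rw [trans2_tr_of_mem p _ P' hP']
    have h1 : α (extChartAt I p P' - extChartAt I p p) = extChartAt I p P - extChartAt I p P' := by
      refine hα1 _ ?_
      rw [sub_sub_sub_cancel_right, norm_sub_rev]
      exact hd2
    have h2 : extChartAt I p p + (extChartAt I p P' - extChartAt I p p +
        α (extChartAt I p P' - extChartAt I p p)) = extChartAt I p P := by
      rw [h1]
      abel
    simp only [h2]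
    exact (extChartAt I p).left_inv hP
  · intro q hq
    have hq' : D q ≠ q := hq
    rw [hD q] at hq'
    by_cases h : q ∈ (extChartAt I p).source
    · refine ⟨h, ?_⟩
      by_contra h2
      push Not at h2
      apply hq'
      show trans2_tr I p (fun y => y + α y) q = q
      rw [trans2_tr_of_mem p _ q h]
      have h1 : α (extChartAt I p q - extChartAt I p p) = 0 := by
        refine hα0 _ ?_
        rw [sub_sub_sub_cancel_right]
        exact h2
      have h3 : extChartAt I p p + (extChartAt I p q - extChartAt I p p +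
          α (extChartAt I p q - extChartAt I p p)) = extChartAt I p q := by
        rw [h1]
        abel
      simp only [h3]
      exact (extChartAt I p).left_inv h
    · exact absurd (trans2_tr_of_not_mem p _ q h) hq'

/-- **The quantitative bump lemma with two bumps.** -/
theorem quant_bump2 [FiniteDimensional ℝ E] [T2Space W] [IsManifold I ∞ W] [I.Boundaryless]
    {r : ℕ∞} (hr : 1 ≤ r) (F : W ≃ₘ^r⟮I, I⟯ W) (p p' : W) (U : Set (W ≃ₘ^r⟮I, I⟯ W))
    (hU : U ∈ @nhds _ (crTopology I r) F) :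
    ∃ (k : ℕ) (c s₀ : ℝ), 0 < c ∧ 0 < s₀ ∧ ∀ (P P' Q Q' : W) (s : ℝ),
      P ∈ (extChartAt I p).source → P' ∈ (extChartAt I p).source →
      ‖extChartAt I p P - extChartAt I p p‖ ≤ s₀ → ‖extChartAt I p P' - extChartAt I p p‖ ≤ s₀ →
      Q ∈ (extChartAt I p').source → Q' ∈ (extChartAt I p').source →
      ‖extChartAt I p' Q - extChartAt I p' p'‖ ≤ s₀ →
      ‖extChartAt I p' Q' - extChartAt I p' p'‖ ≤ s₀ →
      0 < s → s ≤ s₀ → ‖extChartAt I p P - extChartAt I p P'‖ ≤ c * s ^ k →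
      ‖extChartAt I p' Q - extChartAt I p' Q'‖ ≤ c * s ^ k →
      ∃ G ∈ U, ∃ B B' : W ≃ W, (∀ q, G q = F (B (B' q))) ∧ B P' = P ∧ B' Q' = Q ∧
        (∀ q, B q ≠ q → q ∈ (extChartAt I p).source ∧ ‖extChartAt I p q - extChartAt I p P‖ < s) ∧
        ∀ q, B' q ≠ q →
          q ∈ (extChartAt I p').source ∧ ‖extChartAt I p' q - extChartAt I p' Q‖ < s := by
  obtain ⟨R1, hR1, hb1⟩ :=
    Metric.nhds_basis_closedBall.mem_iff.1 (extChartAt_target_mem_nhds (I := I) p)
  obtain ⟨R2, hR2, hb2⟩ :=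
    Metric.nhds_basis_closedBall.mem_iff.1 (extChartAt_target_mem_nhds (I := I) p')
  obtain ⟨R, hRdef⟩ : ∃ R : ℝ, R = min R1 R2 / 2 := ⟨_, rfl⟩
  have hR : 0 < R := by rw [hRdef]; exact half_pos (lt_min hR1 hR2)
  have e2R : 2 * R = min R1 R2 := by rw [hRdef]; ring
  have hball : Metric.closedBall (extChartAt I p p) (2 * R) ⊆ (extChartAt I p).target := by
    rw [e2R]
    exact (Metric.closedBall_subset_closedBall (min_le_left _ _)).trans hb1
  have hball' : Metric.closedBall (extChartAt I p' p') (2 * R) ⊆ (extChartAt I p').target := by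
    rw [e2R]
    exact (Metric.closedBall_subset_closedBall (min_le_right _ _)).trans hb2
  obtain ⟨k, ε, hkr, hk, hε, hnear⟩ := q_near2 hr F p p' R hR hball hball' U hU
  obtain ⟨c₁, hc₁, h1⟩ := quant_shift (I := I) (W := W) hr p R hball k hk ε hε
  obtain ⟨c₂, hc₂, h2⟩ := quant_shift (I := I) (W := W) hr p' R hball' k hk ε hε
  refine ⟨k, min c₁ c₂, min 1 (R / 4), lt_min hc₁ hc₂, lt_min one_pos (by linarith), ?_⟩
  intro P P' Q Q' s a1 a2 a3 a4 b1 b2 b3 b4 hs hs0 a5 b5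
  obtain ⟨α, hα, hαj, hα0, D, hD, hDP, hDq⟩ := h1 P P' s a1 a2 a3 a4 hs hs0
    (a5.trans (mul_le_mul_of_nonneg_right (min_le_left _ _) (by positivity)))
  obtain ⟨β, hβ, hβj, hβ0, D', hD', hDP', hDq'⟩ := h2 Q Q' s b1 b2 b3 b4 hs hs0
    (b5.trans (mul_le_mul_of_nonneg_right (min_le_right _ _) (by positivity)))
  refine ⟨(D'.trans D).trans F, hnear α β hα hβ hαj hβj hα0 hβ0 _ (fun q => ?_), D.toEquiv,
    D'.toEquiv, fun q => rfl, hDP, hDP', hDq, hDq'⟩
  show F (D (D' q)) = _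
  rw [hD' q, hD]

end Pool.Agent.SC
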