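import Pool.Agent.Lib.MP_1e8d1a_an.NH.Conv
import Pool.Agent.Lib.MP_1e8d1a_an.NH.PHDefs
import Pool.Agent.Lib.MP_1e8d1a_an.NH.AT5

/-! From the tangent spaces to the charts. -/

open scoped ContDiff Manifold Topology

set_option linter.unusedSectionVars false

namespace Pool.Agent.SC

section
variable {E W : Type}

theorem tc_sub {F : W → W} {Λ : Set W} {T : Λ → Λ} (hT : ∀ y, (T y : W) = F y) (k : ℕ) (y : Λ) :
    ((T^[k] y : Λ) : W) = F^[k] y := by
  induction k with
  | zero => rfl
  | succ k ih => rw [Function.iterate_succ_apply', hT, ih, Function.iterate_succ_apply']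

theorem tc_coc_sub {F : W → W} {Λ : Set W} {T : Λ → Λ} (hT : ∀ y, (T y : W) = F y)
    (A : W → E → E) (k : ℕ) (y : Λ) (v : E) :
    coc T (fun y v => A y v) k y v = coc F A k y v := by
  induction k with
  | zero => rfl
  | succ k ih =>
    show A (T^[k] y : Λ) (coc T (fun y v => A y v) k y v) = A (F^[k] y) (coc F A k y v)
    rw [ih, tc_sub hT]

theorem tc_wprod_sub {F : W → W} {Λ : Set W} {T : Λ → Λ} (hT : ∀ y, (T y : W) = F y)
    (m : W → ℝ) (k : ℕ) (y : Λ) :
    wprod T (fun y => m y) k y = wprod F m k y := by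
  unfold wprod
  exact Finset.prod_congr rfl fun i _ => congrArg m (tc_sub hT i y)

end

variable {E : Type} [NormedAddCommGroup E] [NormedSpace ℝ E] [FiniteDimensional ℝ E]
  {H : Type} [TopologicalSpace H] {I : ModelWithCorners ℝ E H} [I.Boundaryless]
  {W : Type} [TopologicalSpace W] [ChartedSpace H W] [IsManifold I ∞ W] [T2Space W]
  [CompactSpace W] {ι : Type} [Fintype ι] (f : SmoothBumpCovering ι I W)

theorem tc_iter {F : W → W} (hF : ContMDiff I I 1 F) (k : ℕ) : ContMDiff I I 1 F^[k] := by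
  induction k with
  | zero => exact contMDiff_id
  | succ k ih =>
    rw [Function.iterate_succ']
    exact hF.comp ih

theorem tc_coc {F : W → W} (hF : ContMDiff I I 1 F) (k : ℕ) (y : W) (v : TangentSpace I y) :
    coc F (fun y v => atA f F y v) k y (chD I (atC f y) y v) =
      chD I (atC f (F^[k] y)) (F^[k] y) (mfderiv I I F^[k] y v) := by
  induction k with
  | zero =>
    rw [Function.iterate_zero, mfderiv_id]
    rfl
  | succ k ih =>
    show atA f F (F^[k] y) (coc F (fun y v => atA f F y v) k y (chD I (atC f y) y v)) = _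
    rw [ih, at_A f hF, Function.iterate_succ', mfderiv_comp y
      (hF.mdifferentiableAt one_ne_zero) ((tc_iter hF k).mdifferentiableAt one_ne_zero)]
    rfl

theorem gnorm_nonneg (g : Bundle.ContinuousRiemannianMetric E (fun x : W => TangentSpace I x))
    (x : W) (v : TangentSpace I x) : 0 ≤ gnorm g x v := Real.sqrt_nonneg _

/-- **A dominated splitting in the charts.** -/
theorem tc_split {F : W → W} (hF : ContMDiff I I 1 F) {Λ : Set W} {T : Λ → Λ}
    (hT : ∀ y, (T y : W) = F y) {m : W → ℝ} (hm : ∀ y ∈ Λ, 0 < m y)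
    (g : Bundle.ContinuousRiemannianMetric E (fun x : W => TangentSpace I x)) {K : ℝ}
    (hK : 0 < K) (hg1 : ∀ (y : W) (v : TangentSpace I y), gnorm g y v ≤
      K * ‖chD I (atC f y) y v‖)
    (hg2 : ∀ (y : W) (v : TangentSpace I y), ‖chD I (atC f y) y v‖ ≤ K * gnorm g y v)
    (P : ∀ y : W, TangentSpace I y →ₗ[ℝ] TangentSpace I y) {C θ : ℝ} (hθ : 0 ≤ θ)
    (h : ∀ y ∈ Λ, (∀ v, P y (P y v) = P y v) ∧
      (∀ v, P (F y) (mfderiv I I F y v) = mfderiv I I F y (P y v)) ∧
      ∀ (k : ℕ) v, gnorm g (F^[k] y) (mfderiv I I F^[k] y (P y v)) ≤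
          C * θ ^ k * wprod F m k y * gnorm g y v ∧
        wprod F m k y * gnorm g y (v - P y v) ≤
          C * θ ^ k * gnorm g (F^[k] y) (mfderiv I I F^[k] y (v - P y v))) :
    ∃ PE : Λ → E →ₗ[ℝ] E, CocSplit T (fun y => (atA f F (y : W) : E →ₗ[ℝ] E)) PE
      (fun y => m y) (K * K * |C|) θ := by
  choose σ hσ1 hσ2 using at_inv f
  have hm0 : ∀ y : Λ, 0 < m y := fun y => hm y y.2
  have hcoc : ∀ k (y : Λ) (v : TangentSpace I (y : W)),
      coc T (fun y v => (atA f F (y : W) : E →ₗ[ℝ] E) v) k y (chD I (atC f (y : W)) (y : W) v) =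
      chD I (atC f (F^[k] y)) (F^[k] y) (mfderiv I I F^[k] y v) := by
    intro k y v
    rw [← tc_coc f hF]
    exact tc_coc_sub hT (fun y v => atA f F y v) k y _
  have hw : ∀ k (y : Λ), 0 < wprod F m k y := by
    intro k y
    rw [← tc_wprod_sub hT]
    exact wprod_pos T hm0 k y
  refine ⟨fun y => (chD I (atC f (y : W)) (y : W)).toLinearMap ∘ₗ P y ∘ₗ
    (σ (y : W)).toLinearMap, ?_, ?_, ?_, ?_⟩
  · intro y v
    show chD I (atC f (y : W)) (y : W) (P y (σ y (chD I (atC f (y : W)) (y : W)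
      (P y (σ y v))))) = chD I (atC f (y : W)) (y : W) (P y (σ y v))
    rw [hσ2, (h y y.2).1]
  · intro y v
    obtain ⟨w, rfl⟩ : ∃ w, chD I (atC f (y : W)) (y : W) w = v := ⟨σ y v, hσ1 y v⟩
    show chD I (atC f (T y : W)) (T y : W) (P (T y : W) (σ (T y : W) (atA f F y
      (chD I (atC f (y : W)) (y : W) w)))) = atA f F y (chD I (atC f (y : W)) (y : W)
      (P y (σ y (chD I (atC f (y : W)) (y : W) w))))
    rw [hT, at_A f hF, at_A f hF, hσ2, hσ2, (h y y.2).2.1]
  · intro k y v
    obtain ⟨w, rfl⟩ : ∃ w, chD I (atC f (y : W)) (y : W) w = v := ⟨σ y v, hσ1 y v⟩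
    show ‖coc T (fun y v => (atA f F (y : W) : E →ₗ[ℝ] E) v) k y (chD I (atC f (y : W)) (y : W)
      (P y (σ y (chD I (atC f (y : W)) (y : W) w))))‖ ≤ _
    rw [hσ2, hcoc, tc_wprod_sub hT]
    refine (hg2 _ _).trans ?_
    have h1 := ((h y y.2).2.2 k w).1
    have h2 := hg1 y w
    have h3 := hw k y
    have h4 := pow_nonneg hθ k
    have h5 := gnorm_nonneg g y w
    calc K * gnorm g (F^[k] y) (mfderiv I I F^[k] y (P y w))
        ≤ K * (C * θ ^ k * wprod F m k y * gnorm g y w) := mul_le_mul_of_nonneg_left h1 hK.le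
      _ ≤ K * (|C| * θ ^ k * wprod F m k y * gnorm g y w) := by
          refine mul_le_mul_of_nonneg_left ?_ hK.le
          have h6 : C * θ ^ k * wprod F m k y * gnorm g y w =
            C * (θ ^ k * wprod F m k y * gnorm g y w) := by ring
          have h7 : |C| * θ ^ k * wprod F m k y * gnorm g y w =
            |C| * (θ ^ k * wprod F m k y * gnorm g y w) := by ring
          rw [h6, h7]
          exact mul_le_mul_of_nonneg_right (le_abs_self C) (by positivity)
      _ ≤ K * (|C| * θ ^ k * wprod F m k y * (K * ‖chD I (atC f (y : W)) (y : W) w‖)) := by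
          refine mul_le_mul_of_nonneg_left ?_ hK.le
          exact mul_le_mul_of_nonneg_left h2 (by positivity)
      _ = K * K * |C| * θ ^ k * wprod F m k y * ‖chD I (atC f (y : W)) (y : W) w‖ := by ring
  · intro k y v
    obtain ⟨w, rfl⟩ : ∃ w, chD I (atC f (y : W)) (y : W) w = v := ⟨σ y v, hσ1 y v⟩
    have hsub : chD I (atC f (y : W)) (y : W) w - ((chD I (atC f (y : W)) (y : W)).toLinearMap ∘ₗ
        P y ∘ₗ (σ (y : W)).toLinearMap) (chD I (atC f (y : W)) (y : W) w) =
        chD I (atC f (y : W)) (y : W) (w - P y w) := by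
      show chD I (atC f (y : W)) (y : W) w - chD I (atC f (y : W)) (y : W)
        (P y (σ y (chD I (atC f (y : W)) (y : W) w))) = _
      rw [hσ2, map_sub]
    rw [hsub, hcoc, tc_wprod_sub hT]
    have h1 := ((h y y.2).2.2 k w).2
    have h2 := hg2 y (w - P y w)
    have h2' := hg1 (F^[k] y) (mfderiv I I F^[k] y (w - P y w))
    have h3 := hw k y
    have h4 := pow_nonneg hθ k
    have h5 := gnorm_nonneg g (F^[k] y) (mfderiv I I F^[k] y (w - P y w))
    calc wprod F m k y * ‖chD I (atC f (y : W)) (y : W) (w - P y w)‖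
        ≤ wprod F m k y * (K * gnorm g y (w - P y w)) := mul_le_mul_of_nonneg_left h2 h3.le
      _ = K * (wprod F m k y * gnorm g y (w - P y w)) := by ring
      _ ≤ K * (C * θ ^ k * gnorm g (F^[k] y) (mfderiv I I F^[k] y (w - P y w))) :=
          mul_le_mul_of_nonneg_left h1 hK.le
      _ ≤ K * (|C| * θ ^ k * gnorm g (F^[k] y) (mfderiv I I F^[k] y (w - P y w))) := by
          refine mul_le_mul_of_nonneg_left ?_ hK.le
          rw [mul_assoc, mul_assoc]
          exact mul_le_mul_of_nonneg_right (le_abs_self C) (by positivity)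
      _ ≤ K * (|C| * θ ^ k * (K * ‖chD I (atC f (F^[k] y)) (F^[k] y)
          (mfderiv I I F^[k] y (w - P y w))‖)) := by
          refine mul_le_mul_of_nonneg_left ?_ hK.le
          exact mul_le_mul_of_nonneg_left h2' (by positivity)
      _ = K * K * |C| * θ ^ k * ‖chD I (atC f (F^[k] y)) (F^[k] y)
          (mfderiv I I F^[k] y (w - P y w))‖ := by ring

/-- the derivatives of a map and of its inverse, in the charts -/
theorem tc_inv {F S : W → W} (hF : ContMDiff I I 1 F) (hS : ContMDiff I I 1 S)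
    (hSF : ∀ x, S (F x) = x) (y : W) (v : E) : atA f S (F y) (atA f F y v) = v := by
  obtain ⟨σ, hσ1, hσ2⟩ := at_inv f y
  obtain ⟨w, rfl⟩ : ∃ w, chD I (atC f y) y w = v := ⟨σ v, hσ1 v⟩
  rw [at_A f hF, at_A f hS]
  have h1 : mfderiv I I S (F y) (mfderiv I I F y w) = mfderiv I I (S ∘ F) y w := by
    rw [mfderiv_comp y (hS.mdifferentiableAt one_ne_zero) (hF.mdifferentiableAt one_ne_zero)]
    rfl
  rw [h1]
  have h2 : ∀ (R : W → W), (∀ x, R x = x) →
      chD I (atC f (R y)) (R y) (mfderiv I I R y w) = chD I (atC f y) y w := by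
    intro R hR
    obtain rfl : R = id := funext hR
    rw [mfderiv_id]
    rfl
  exact h2 (S ∘ F) hSF

end Pool.Agent.SC
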